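import Mathlib

set_option autoImplicit false

/-!
# Definitions: Host–Kra seminorms and factors, Weyl systems, polynomial averages

These are the definitions used by the results on `MP_467fc0_an`.
-/

namespace Pool.Agent.H767R2

open MeasureTheory Filter Topology
open scoped ENNReal

/-- The `2 ^ (k + 1)`-th power `|||f|||_{k+1}^{2^{k+1}}` of the Host–Kra seminorm of order `k + 1` of
`f` for the transformation `T`:
* `|||f|||_1 ^ 2 = ∫ |E(f | 𝓘_T)|² dμ`, with `𝓘_T` the σ-algebra of `T`-invariant measurable sets;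
* `|||f|||_{k+2}^{2^{k+2}} = lim_H (1/H) ∑_{h=1}^H |||conj f · T^h f|||_{k+1}^{2^{k+1}}`
  (written with a `limsup`, so that no convergence has to be assumed). -/
noncomputable def hk {X : Type*} [MeasurableSpace X] (μ : Measure X) (T : X → X) :
    ℕ → (X → ℂ) → ℝ≥0∞
  | 0, f => ∫⁻ x, ‖(μ[f | MeasurableSpace.invariants T]) x‖ₑ ^ 2 ∂μ
  | k + 1, f => limsup (fun H : ℕ =>
      (∑ h ∈ Finset.Icc 1 H, hk μ T k (fun x => (starRingEnd ℂ) (f x) * f (T^[h] x))) / H) atTop

/-- `𝒵` is the Host–Kra factor `𝒵_{k,T}`: a `T`-invariant sub-σ-algebra such that, for bounded `f`,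
`E(f | 𝒵) = 0` if and only if `|||f|||_{k+1} = 0`. -/
structure IsHKFactor {X : Type*} (𝒵 : MeasurableSpace X) {m₀ : MeasurableSpace X} (μ : Measure X)
    (T : X → X) (k : ℕ) : Prop where
  le : 𝒵 ≤ m₀
  invariant : 𝒵.comap T = 𝒵
  iff_zero : ∀ f : X → ℂ, MemLp f ∞ μ → (μ[f | 𝒵] =ᵐ[μ] 0 ↔ hk μ T k f = 0)

/-- The polynomial averages `A_N = (1/N) ∑_{n=1}^N ∏_{p ∈ 𝒫} T^{p(n)} f_p`. -/
noncomputable def polyAvg {X : Type*} (T : Equiv.Perm X) (P : Finset (Polynomial ℤ))
    (f : Polynomial ℤ → X → ℂ) (N : ℕ) : X → ℂ := fun x =>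
  (1 / (N : ℂ)) * ∑ n ∈ Finset.Icc 1 N, ∏ p ∈ P, f p ((T ^ (p.eval (n : ℤ))) x)

/-- `𝒵` is characteristic for mean convergence of the averages `A_N` of the family `𝒫`. -/
def IsCharacteristic {X : Type*} (𝒵 : MeasurableSpace X) {m₀ : MeasurableSpace X} (μ : Measure X)
    (T : Equiv.Perm X) (P : Finset (Polynomial ℤ)) : Prop :=
  ∀ f : Polynomial ℤ → X → ℂ, (∀ p ∈ P, MemLp (f p) ∞ μ) →
    Tendsto (fun N : ℕ => eLpNorm (polyAvg T P f N - polyAvg T P (fun p => μ[f p | 𝒵]) N) 2 μ)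
      atTop (𝓝 0)

/-- Essentially distinct families of integer polynomials. -/
def EssentiallyDistinct (P : Finset (Polynomial ℤ)) : Prop :=
  (∀ p ∈ P, 0 < p.natDegree) ∧ ∀ p ∈ P, ∀ q ∈ P, p ≠ q → 0 < (p - q).natDegree

/-- Normalised Haar measure on the torus `𝕋^D`. -/
noncomputable def haarT (D : ℕ) : Measure (Fin D → UnitAddCircle) :=
  Measure.pi fun _ => AddCircle.haarAddCircle

/-- A Weyl system: a unipotent affine transformation `T x = A x + b` of a torus `𝕋^D`. -/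
structure WeylSystem where
  /-- the dimension -/
  D : ℕ
  one_le : 1 ≤ D
  /-- the integer matrix -/
  A : Matrix (Fin D) (Fin D) ℤ
  unipotent : IsNilpotent (A - 1)
  /-- the translation -/
  b : Fin D → UnitAddCircle
  /-- the transformation -/
  T : Equiv.Perm (Fin D → UnitAddCircle)
  affine : ∀ x i, T x i = ∑ j, A i j • x j + b i

/-- `d^W_min(𝒫)`: the least `d` such that, for every Weyl system, the Host–Kra factor `𝒵_{d,T}` is
characteristic for the averages `A_N` of the family `𝒫`. -/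
noncomputable def dWmin (P : Finset (Polynomial ℤ)) : ℕ :=
  sInf {d : ℕ | ∀ (W : WeylSystem) (𝒵 : MeasurableSpace (Fin W.D → UnitAddCircle)),
    IsHKFactor 𝒵 (haarT W.D) W.T d → IsCharacteristic 𝒵 (haarT W.D) W.T P}

end Pool.Agent.H767R2
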