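import Mathlib

set_option autoImplicit false

namespace Pool.Agent.H767R2

open Finset

section ex

variable {A : Type*} [CommRing A] [Algebra ℚ A]

/-- The exponential series `e^{a z}`. -/
noncomputable def ex (a : A) : PowerSeries A := PowerSeries.rescale a (PowerSeries.exp A)

theorem ex_add (a b : A) : ex (a + b) = ex a * ex b :=
  (PowerSeries.exp_mul_exp_eq_exp_add a b).symm

theorem coeff_ex (a : A) (n : ℕ) :
    PowerSeries.coeff n (ex a) = a ^ n * algebraMap ℚ A (1 / n.factorial) := by
  rw [ex, PowerSeries.coeff_rescale, PowerSeries.coeff_exp]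

theorem ex_zero : ex (0 : A) = 1 := by
  ext n
  rw [coeff_ex, PowerSeries.coeff_one]
  rcases Nat.eq_zero_or_pos n with rfl | hn
  · simp
  · rw [zero_pow hn.ne', zero_mul, if_neg hn.ne']

theorem deriv_ex (a : A) : PowerSeries.derivative A (ex a) = PowerSeries.C a * ex a := by
  ext n
  rw [PowerSeries.coeff_derivative, PowerSeries.coeff_C_mul, coeff_ex, coeff_ex]
  have h : (algebraMap ℚ A (1 / ((n + 1).factorial : ℚ))) * ((n : A) + 1)
      = algebraMap ℚ A (1 / (n.factorial : ℚ)) := by
    have e : ((n : A) + 1) = algebraMap ℚ A ((n : ℚ) + 1) := by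
      rw [map_add, map_one, map_natCast]
    rw [e, ← map_mul]
    congr 1
    rw [Nat.factorial_succ]
    have : (n.factorial : ℚ) ≠ 0 := by exact_mod_cast n.factorial_ne_zero
    push_cast
    field_simp
  rw [pow_succ, mul_assoc, h]
  ring

end ex

section zero

variable {K : Type*} [Field K] [Algebra ℚ K]

open Polynomial in
/-- `L_β h = h' + β h`. -/
noncomputable def Lop (β : K) (h : K[X]) : K[X] := Polynomial.derivative h + Polynomial.C β * h

open Polynomial in
theorem Lop_natDegree {β : K} (hβ : β ≠ 0) {h : K[X]} (hh : h ≠ 0) :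
    Lop β h ≠ 0 ∧ (Lop β h).natDegree = h.natDegree := by
  have hc : (Lop β h).coeff h.natDegree ≠ 0 := by
    rw [Lop, Polynomial.coeff_add, Polynomial.coeff_C_mul, Polynomial.coeff_derivative,
      Polynomial.coeff_eq_zero_of_natDegree_lt (Nat.lt_succ_self _), zero_mul, zero_add]
    exact mul_ne_zero hβ (Polynomial.leadingCoeff_ne_zero.mpr hh)
  refine ⟨fun h0 => hc (by rw [h0, Polynomial.coeff_zero]), le_antisymm ?_
    (Polynomial.le_natDegree_of_ne_zero hc)⟩
  refine (Polynomial.natDegree_add_le _ _).trans (max_le ?_ ?_)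
  · exact (Polynomial.natDegree_derivative_le h).trans (Nat.sub_le _ _)
  · exact Polynomial.natDegree_C_mul_le _ _

open Polynomial in
theorem Lop_iter {β : K} (hβ : β ≠ 0) (n : ℕ) {h : K[X]} (hh : h ≠ 0) :
    ((Lop β)^[n] h) ≠ 0 ∧ ((Lop β)^[n] h).natDegree = h.natDegree := by
  induction n with
  | zero => exact ⟨hh, rfl⟩
  | succ n ih =>
    rw [Function.iterate_succ_apply']
    have := Lop_natDegree hβ ih.1
    exact ⟨this.1, this.2.trans ih.2⟩

open Polynomial in
theorem deriv_ex_mul (β : K) (h : K[X]) :
    PowerSeries.derivative K (ex β * (h : PowerSeries K)) = ex β * ((Lop β h : K[X]) : PowerSeries K) := by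
  rw [Derivation.leibniz, deriv_ex, PowerSeries.derivative_coe, Lop, Polynomial.coe_add,
    Polynomial.coe_mul, Polynomial.coe_C, smul_eq_mul, smul_eq_mul]
  ring

open Polynomial in
theorem deriv_iter_ex_mul (β : K) (n : ℕ) (h : K[X]) :
    (PowerSeries.derivative K)^[n] (ex β * (h : PowerSeries K))
      = ex β * (((Lop β)^[n] h : K[X]) : PowerSeries K) := by
  induction n with
  | zero => rfl
  | succ n ih => rw [Function.iterate_succ_apply', Function.iterate_succ_apply', ih, deriv_ex_mul]

theorem X_pow_dvd_deriv {n : ℕ} {G : PowerSeries K} (h : (PowerSeries.X : PowerSeries K) ^ (n + 1) ∣ G) :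
    (PowerSeries.X : PowerSeries K) ^ n ∣ PowerSeries.derivative K G := by
  rw [PowerSeries.X_pow_dvd_iff] at h ⊢
  intro m hm
  rw [PowerSeries.coeff_derivative, h (m + 1) (by omega), zero_mul]

theorem X_pow_dvd_deriv_iter {n r : ℕ} {G : PowerSeries K}
    (h : (PowerSeries.X : PowerSeries K) ^ (n + r) ∣ G) :
    (PowerSeries.X : PowerSeries K) ^ n ∣ (PowerSeries.derivative K)^[r] G := by
  induction r generalizing G with
  | zero => exact h
  | succ r ih =>
    rw [Function.iterate_succ_apply]
    exact ih (X_pow_dvd_deriv (by rw [add_assoc]; exact h))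

open Polynomial in
/-- Zero estimate for exponential polynomials. -/
theorem zero_est {ι : Type*} [DecidableEq ι] (s : Finset ι) :
    ∀ (a : ι → K) (h : ι → K[X]) (r : ι → ℕ), Set.InjOn a s →
      (∀ i ∈ s, h i ≠ 0 ∧ (h i).natDegree < r i) → s.Nonempty →
      ∃ j < ∑ i ∈ s, r i, PowerSeries.coeff j (∑ i ∈ s, ex (a i) * (h i : PowerSeries K)) ≠ 0 := by
  induction s using Finset.induction_on with
  | empty => intro _ _ _ _ _ hne; exact absurd hne (by simp)
  | insert i₀ s hi₀ ih =>
    intro a h r hinj hh _
    by_contra hcon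
    push Not at hcon
    rw [Finset.sum_insert hi₀] at hcon
    rw [Finset.sum_insert hi₀] at hcon
    set F : PowerSeries K := ex (a i₀) * (h i₀ : PowerSeries K) + ∑ i ∈ s, ex (a i) * (h i : PowerSeries K)
      with hF
    have hdvd : (PowerSeries.X : PowerSeries K) ^ (∑ i ∈ s, r i + r i₀) ∣ F := by
      rw [PowerSeries.X_pow_dvd_iff]
      intro m hm
      exact hcon m (by rw [add_comm]; exact hm)
    have hdvd2 : (PowerSeries.X : PowerSeries K) ^ (∑ i ∈ s, r i + r i₀) ∣ ex (-(a i₀)) * F :=
      Dvd.dvd.mul_left hdvd _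
    have hG : ex (-(a i₀)) * F = ex 0 * (h i₀ : PowerSeries K)
        + ∑ i ∈ s, ex (a i - a i₀) * (h i : PowerSeries K) := by
      rw [hF, mul_add, Finset.mul_sum, ← mul_assoc, ← ex_add, neg_add_cancel]
      congr 1
      refine Finset.sum_congr rfl fun i _ => ?_
      rw [← mul_assoc, ← ex_add]
      congr 2
      ring
    rw [hG] at hdvd2
    have h0 := hh i₀ (Finset.mem_insert_self _ _)
    have hd3 := X_pow_dvd_deriv_iter hdvd2
    have hlin : (PowerSeries.derivative K)^[r i₀] (ex 0 * (h i₀ : PowerSeries K)
        + ∑ i ∈ s, ex (a i - a i₀) * (h i : PowerSeries K))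
        = (PowerSeries.derivative K)^[r i₀] (ex 0 * (h i₀ : PowerSeries K))
        + ∑ i ∈ s, (PowerSeries.derivative K)^[r i₀] (ex (a i - a i₀) * (h i : PowerSeries K)) := by
      have key : ∀ (n : ℕ) (x : PowerSeries K) (y : ι → PowerSeries K),
          (PowerSeries.derivative K)^[n] (x + ∑ i ∈ s, y i)
            = (PowerSeries.derivative K)^[n] x + ∑ i ∈ s, (PowerSeries.derivative K)^[n] (y i) := by
        intro n
        induction n with
        | zero => intro x y; rfl
        | succ n ihn =>
          intro x y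
          rw [Function.iterate_succ_apply, map_add, map_sum, ihn]
          simp only [Function.iterate_succ_apply]
      exact key _ _ _
    rw [hlin, deriv_iter_ex_mul] at hd3
    have hz : (Lop (0 : K))^[r i₀] (h i₀) = 0 := by
      have e : Lop (0 : K) = fun q : K[X] => Polynomial.derivative q := by
        funext q
        simp [Lop]
      rw [e]
      exact Polynomial.iterate_derivative_eq_zero h0.2
    rw [hz, Polynomial.coe_zero, mul_zero, zero_add] at hd3
    rcases s.eq_empty_or_nonempty with hs | hs
    · -- only one term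
      subst hs
      simp only [Finset.sum_empty, zero_add, add_zero, ex_zero, one_mul] at hdvd2
      apply h0.1
      rw [PowerSeries.X_pow_dvd_iff] at hdvd2
      ext m
      rw [Polynomial.coeff_zero]
      by_cases hm : m < r i₀
      · have := hdvd2 m hm
        rwa [Polynomial.coeff_coe] at this
      · exact Polynomial.coeff_eq_zero_of_natDegree_lt (by omega)
    · have hsub : ∀ i ∈ s, a i - a i₀ ≠ 0 := by
        intro i hi h1
        have h2 : i = i₀ := hinj (Finset.mem_coe.mpr (Finset.mem_insert_of_mem hi))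
          (Finset.mem_coe.mpr (Finset.mem_insert_self _ _)) (sub_eq_zero.mp h1)
        exact hi₀ (h2 ▸ hi)
      obtain ⟨j, hj, hne⟩ := ih (fun i => a i - a i₀) (fun i => (Lop (a i - a i₀))^[r i₀] (h i)) r
        (by
          intro i hi j hj hij
          exact hinj (Finset.mem_coe.mpr (Finset.mem_insert_of_mem hi))
            (Finset.mem_coe.mpr (Finset.mem_insert_of_mem hj)) (sub_left_inj.mp hij))
        (by
          intro i hi
          have h1 := hh i (Finset.mem_insert_of_mem hi)
          have h2 := Lop_iter (hsub i hi) (r i₀) h1.1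
          exact ⟨h2.1, by rw [h2.2]; exact h1.2⟩)
        hs
      rw [PowerSeries.X_pow_dvd_iff] at hd3
      apply hne
      have := hd3 j hj
      rw [← this]
      congr 1
      exact Finset.sum_congr rfl fun i _ => (deriv_iter_ex_mul _ _ _).symm

end zero

end Pool.Agent.H767R2
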