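import Mathlib
import Pool.Agent.H767R2.ZeroEst

set_option autoImplicit false
set_option linter.unusedSectionVars false

namespace Pool.Agent.H767R2

open Finset Polynomial

variable {K : Type*} [Field K] [Algebra ℚ K]

/-- The double series `∑ uᵢ(z) e^{z pᵢ(y)}` with `uᵢ = z^{kᵢ} vᵢ`, as a power series in `z` with
coefficients polynomials in `y`. -/
noncomputable def Phi {ι : Type*} (s : Finset ι) (p : ι → K[X]) (v : ι → PowerSeries K) (k : ι → ℕ) :
    PowerSeries K[X] :=
  ∑ i ∈ s, PowerSeries.X ^ k i * (PowerSeries.map (Polynomial.C : K →+* K[X]) (v i) * ex (p i))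

/-- `f` has `y`-degree at most `d j` in `z`-degree `j`. -/
def Fil (d : ℕ) (f : PowerSeries K[X]) : Prop := ∀ j, (PowerSeries.coeff j f).natDegree ≤ d * j

theorem Fil.mul {d : ℕ} {f g : PowerSeries K[X]} (hf : Fil d f) (hg : Fil d g) : Fil d (f * g) := by
  intro j
  rw [PowerSeries.coeff_mul]
  refine Polynomial.natDegree_sum_le_of_forall_le _ _ fun x hx => ?_
  rw [Finset.HasAntidiagonal.mem_antidiagonal] at hx
  refine Polynomial.natDegree_mul_le.trans ((add_le_add (hf _) (hg _)).trans ?_)
  rw [← mul_add, hx]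

theorem Fil.map_C (d : ℕ) (v : PowerSeries K) : Fil d (PowerSeries.map (Polynomial.C : K →+* K[X]) v) := by
  intro j
  rw [PowerSeries.coeff_map, Polynomial.natDegree_C]
  exact Nat.zero_le _

theorem Fil.ex {d : ℕ} {p : K[X]} (hp : p.natDegree ≤ d) : Fil d (ex p) := by
  intro j
  rw [coeff_ex]
  refine Polynomial.natDegree_mul_le.trans ?_
  have h1 : (algebraMap ℚ K[X] (1 / (j.factorial : ℚ))).natDegree = 0 := by
    rw [IsScalarTower.algebraMap_apply ℚ K K[X], Polynomial.algebraMap_eq, Polynomial.natDegree_C]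
  rw [h1, add_zero]
  refine Polynomial.natDegree_pow_le.trans ?_
  rw [mul_comm]
  exact Nat.mul_le_mul hp le_rfl

/-- support bound -/
theorem supp_bound {ι : Type*} (s : Finset ι) (p : ι → K[X]) (v : ι → PowerSeries K) (k : ι → ℕ)
    {d κ : ℕ} (hd : ∀ i ∈ s, (p i).natDegree ≤ d) (hκ : ∀ i ∈ s, κ ≤ k i) {j m : ℕ}
    (h : (PowerSeries.coeff j (Phi s p v k)).coeff m ≠ 0) : κ ≤ j ∧ m + d * κ ≤ d * j := by
  rw [Phi, map_sum, Polynomial.finsetSum_coeff] at h
  obtain ⟨i, hi, hne⟩ := Finset.exists_ne_zero_of_sum_ne_zero h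
  rw [PowerSeries.coeff_X_pow_mul'] at hne
  split_ifs at hne with hkj
  · have h1 := hκ i hi
    have h2 := ((Fil.map_C d (v i)).mul (Fil.ex (hd i hi))) (j - k i)
    have h3 := Polynomial.le_natDegree_of_ne_zero hne
    refine ⟨h1.trans hkj, ?_⟩
    have h4 : d * (j - k i) + d * κ ≤ d * j := by
      rw [← mul_add]
      exact Nat.mul_le_mul le_rfl (by omega)
    omega
  · exact absurd (Polynomial.coeff_zero _) hne

/-- weight-`w` part -/
noncomputable def part (e w : ℕ) (f : PowerSeries K[X]) : PowerSeries K :=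
  PowerSeries.mk fun j => if w ≤ e * j then (PowerSeries.coeff j f).coeff (e * j - w) else 0

theorem coeff_part (e w j : ℕ) (f : PowerSeries K[X]) : PowerSeries.coeff j (part e w f)
    = if w ≤ e * j then (PowerSeries.coeff j f).coeff (e * j - w) else 0 := by
  rw [part, PowerSeries.coeff_mk]

theorem part_sum {ι : Type*} (e w : ℕ) (s : Finset ι) (f : ι → PowerSeries K[X]) :
    part e w (∑ i ∈ s, f i) = ∑ i ∈ s, part e w (f i) := by
  ext j
  rw [coeff_part, map_sum, map_sum, Polynomial.finsetSum_coeff]
  split_ifs with h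
  · exact Finset.sum_congr rfl fun i _ => by rw [coeff_part, if_pos h]
  · exact (Finset.sum_eq_zero fun i _ => by rw [coeff_part, if_neg h]).symm

theorem part_ex_mul (e w : ℕ) (α : K) (f : PowerSeries K[X]) :
    part e w (ex (Polynomial.C α * Polynomial.X ^ e) * f) = ex α * part e w f := by
  ext j
  rw [coeff_part, PowerSeries.coeff_mul, PowerSeries.coeff_mul]
  split_ifs with h
  · rw [Polynomial.finsetSum_coeff]
    refine Finset.sum_congr rfl fun x hx => ?_
    rw [Finset.HasAntidiagonal.mem_antidiagonal] at hx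
    rw [coeff_ex, coeff_ex, coeff_part, IsScalarTower.algebraMap_apply ℚ K K[X],
      Polynomial.algebraMap_eq, mul_pow, ← Polynomial.C_pow, ← pow_mul]
    have e1 : Polynomial.C (α ^ x.1) * Polynomial.X ^ (e * x.1)
          * Polynomial.C (algebraMap ℚ K (1 / (x.1.factorial : ℚ))) * PowerSeries.coeff x.2 f
        = Polynomial.C (α ^ x.1 * algebraMap ℚ K (1 / (x.1.factorial : ℚ)))
          * (Polynomial.X ^ (e * x.1) * PowerSeries.coeff x.2 f) := by
      rw [Polynomial.C_mul]; ring
    rw [e1, Polynomial.coeff_C_mul, Polynomial.coeff_X_pow_mul']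
    congr 1
    have hj : e * j = e * x.1 + e * x.2 := by rw [← mul_add, hx]
    by_cases h2 : w ≤ e * x.2
    · rw [if_pos h2, if_pos (by omega)]
      congr 1
      omega
    · rw [if_neg h2]
      split_ifs with h3
      · exfalso
        omega
      · rfl
  · refine (Finset.sum_eq_zero fun x hx => ?_).symm
    rw [Finset.HasAntidiagonal.mem_antidiagonal] at hx
    have hj : e * j = e * x.1 + e * x.2 := by rw [← mul_add, hx]
    rw [coeff_part, if_neg (by omega), mul_zero]

theorem natDegree_sub_lead {p : K[X]} {d : ℕ} (hp : p.natDegree ≤ d + 1) :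
    (p - Polynomial.C (p.coeff (d + 1)) * Polynomial.X ^ (d + 1)).natDegree ≤ d := by
  rw [Polynomial.natDegree_le_iff_coeff_eq_zero]
  intro N hN
  rw [Polynomial.coeff_sub, Polynomial.coeff_C_mul, Polynomial.coeff_X_pow]
  rcases eq_or_ne N (d + 1) with rfl | hne
  · simp
  · rw [if_neg hne, mul_zero, sub_zero]
    exact Polynomial.coeff_eq_zero_of_natDegree_lt (by omega)

/-- The Newton polygon theorem. -/
theorem newton {ι : Type*} [DecidableEq ι] (d : ℕ) :
    ∀ (s : Finset ι) (p : ι → K[X]) (v : ι → PowerSeries K) (k : ι → ℕ) (κ : ℕ),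
      (∀ i ∈ s, (p i).natDegree ≤ d) →
      (∀ i ∈ s, ∀ j ∈ s, i ≠ j → 0 < (p i - p j).natDegree) →
      (∀ i ∈ s, PowerSeries.constantCoeff (v i) ≠ 0) →
      (∀ i ∈ s, κ ≤ k i) → (∃ i ∈ s, k i = κ) →
      ∃ j m, (PowerSeries.coeff j (Phi s p v k)).coeff m ≠ 0 ∧ j + 1 ≤ κ + s.card ∧
        ∀ j' m', (PowerSeries.coeff j' (Phi s p v k)).coeff m' ≠ 0 → d * j + m' ≤ d * j' + m := by
  induction d with
  | zero =>
    intro s p v k κ hdeg hdist hv hk hk0
    obtain ⟨i, hi, hki⟩ := hk0
    have hs : s = {i} := by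
      refine Finset.eq_singleton_iff_unique_mem.mpr ⟨hi, fun j hj => ?_⟩
      by_contra hne
      have h1 := hdist j hj i hi hne
      have h2 := (Polynomial.natDegree_sub_le (p j) (p i)).trans
        (max_le (hdeg j hj) (hdeg i hi))
      omega
    refine ⟨κ, 0, ?_, ?_, ?_⟩
    · rw [hs, Phi, Finset.sum_singleton, hki, PowerSeries.coeff_X_pow_mul', if_pos le_rfl,
        Nat.sub_self, PowerSeries.coeff_zero_eq_constantCoeff_apply, map_mul,
        ← PowerSeries.coeff_zero_eq_constantCoeff_apply,
        ← PowerSeries.coeff_zero_eq_constantCoeff_apply, PowerSeries.coeff_map, coeff_ex, pow_zero,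
        Nat.factorial_zero, Nat.cast_one, div_one, map_one, mul_one, mul_one,
        Polynomial.coeff_C_zero, PowerSeries.coeff_zero_eq_constantCoeff_apply]
      exact hv i hi
    · rw [hs, Finset.card_singleton]
    · intro j' m' h
      have := (supp_bound s p v k (d := 0) (κ := κ) hdeg hk h).2
      omega
  | succ d ih =>
    intro s p v k κ hdeg hdist hv hk hk0
    classical
    -- clusters
    set lc : ι → K := fun i => (p i).coeff (d + 1) with hlc
    set q : ι → K[X] := fun i => p i - Polynomial.C (lc i) * Polynomial.X ^ (d + 1) with hq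
    set T : Finset K := s.image lc with hT
    set cl : K → Finset ι := fun α => s.filter (fun i => lc i = α) with hcl
    set Ph : K → PowerSeries K[X] := fun α => Phi (cl α) q v k with hPh
    have hqdeg : ∀ i ∈ s, (q i).natDegree ≤ d := fun i hi => natDegree_sub_lead (hdeg i hi)
    -- decomposition
    have hdec : Phi s p v k
        = ∑ α ∈ T, ex (Polynomial.C α * Polynomial.X ^ (d + 1)) * Ph α := by
      rw [Phi, ← Finset.sum_fiberwise_of_maps_to (s := s) (t := T) (g := lc)
        (fun i hi => Finset.mem_image_of_mem _ hi)]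
      refine Finset.sum_congr rfl fun α _ => ?_
      rw [hPh]
      simp only [Phi]
      rw [Finset.mul_sum]
      refine Finset.sum_congr rfl fun i hi => ?_
      have hα : lc i = α := (Finset.mem_filter.mp hi).2
      have e1 : p i = Polynomial.C α * Polynomial.X ^ (d + 1) + q i := by
        rw [hq]; simp only; rw [hα]; ring
      conv_lhs => rw [e1, ex_add]
      ring
    have hpart : ∀ w, part (d + 1) w (Phi s p v k) = ∑ α ∈ T, ex α * part (d + 1) w (Ph α) := by
      intro w
      rw [hdec, part_sum]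
      exact Finset.sum_congr rfl fun α _ => part_ex_mul _ _ _ _
    -- minimal k in each cluster
    have hmin : ∀ α ∈ T, ∃ κα, (∀ i ∈ cl α, κα ≤ k i) ∧ ∃ i ∈ cl α, k i = κα := by
      intro α hα
      obtain ⟨i, hi, hiα⟩ := Finset.mem_image.mp hα
      obtain ⟨i1, hi1, hle⟩ := Finset.exists_min_image (cl α) k
        ⟨i, Finset.mem_filter.mpr ⟨hi, hiα⟩⟩
      exact ⟨k i1, hle, i1, hi1, rfl⟩
    choose! ka hka1 hka2 using hmin
    have hih : ∀ α ∈ T, ∃ j m, (PowerSeries.coeff j (Ph α)).coeff m ≠ 0 ∧
        j + 1 ≤ ka α + (cl α).card ∧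
        ∀ j' m', (PowerSeries.coeff j' (Ph α)).coeff m' ≠ 0 → d * j + m' ≤ d * j' + m := by
      intro α hα
      refine ih (cl α) q v k (ka α) (fun i hi => hqdeg i (Finset.mem_filter.mp hi).1) ?_
        (fun i hi => hv i (Finset.mem_filter.mp hi).1) (hka1 α hα) (hka2 α hα)
      intro i hi j hj hij
      have e1 : q i - q j = p i - p j := by
        rw [hq]; simp only
        rw [(Finset.mem_filter.mp hi).2, (Finset.mem_filter.mp hj).2]; ring
      rw [e1]
      exact hdist i (Finset.mem_filter.mp hi).1 j (Finset.mem_filter.mp hj).1 hij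
    choose! ja ma hja1 hja2 hja3 using hih
    have hsb : ∀ α ∈ T, ∀ j m, (PowerSeries.coeff j (Ph α)).coeff m ≠ 0 →
        ka α ≤ j ∧ m + d * ka α ≤ d * j := by
      intro α hα j m h
      exact supp_bound (cl α) q v k (fun i hi => hqdeg i (Finset.mem_filter.mp hi).1) (hka1 α hα) h
    -- minimal weight
    have hWex : ∃ w, ∃ α ∈ T, ∃ j m, (PowerSeries.coeff j (Ph α)).coeff m ≠ 0 ∧
        w + m = (d + 1) * j := by
      obtain ⟨i, hi, _⟩ := hk0
      have hα : lc i ∈ T := Finset.mem_image_of_mem _ hi
      have h1 := hsb _ hα _ _ (hja1 _ hα)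
      refine ⟨(d + 1) * ja (lc i) - ma (lc i), lc i, hα, ja (lc i), ma (lc i), hja1 _ hα, ?_⟩
      have : ma (lc i) ≤ (d + 1) * ja (lc i) := by
        rw [add_mul]; omega
      omega
    classical
    set w0 := Nat.find hWex with hw0
    have hw0spec := Nat.find_spec hWex
    have hw0min : ∀ α ∈ T, ∀ j m, (PowerSeries.coeff j (Ph α)).coeff m ≠ 0 →
        w0 + m ≤ (d + 1) * j := by
      intro α hα j m h
      have h1 := hsb α hα j m h
      have h2 : m ≤ (d + 1) * j := by rw [add_mul]; omega
      have h3 : w0 ≤ (d + 1) * j - m :=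
        Nat.find_min' hWex ⟨α, hα, j, m, h, by omega⟩
      omega
    -- kappa0
    obtain ⟨κ0, hκ01, hκ02⟩ : ∃ κ0, w0 ≤ (d + 1) * κ0 ∧ ∀ j, w0 ≤ (d + 1) * j → κ0 ≤ j := by
      have hex : ∃ κ0, w0 ≤ (d + 1) * κ0 := ⟨w0, by rw [add_mul]; omega⟩
      exact ⟨Nat.find hex, Nat.find_spec hex, fun j hj => Nat.find_min' hex hj⟩
    set 𝒜 : Finset K := T.filter (fun α => part (d + 1) w0 (Ph α) ≠ 0) with h𝒜
    have hsuppA : ∀ α ∈ T, ∀ j, PowerSeries.coeff j (part (d + 1) w0 (Ph α)) ≠ 0 →
        κ0 ≤ j ∧ j ≤ ja α ∧ ka α ≤ κ0 := by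
      intro α hα j hj
      rw [coeff_part] at hj
      split_ifs at hj with hwj
      · set m := (d + 1) * j - w0 with hm
        have hm' : w0 + m = (d + 1) * j := by omega
        have h1 := hja3 α hα j m hj
        have h2 := hw0min α hα _ _ (hja1 α hα)
        have h3 := hsb α hα j m hj
        refine ⟨hκ02 j hwj, ?_, ?_⟩
        · rw [add_mul] at hm' h2
          omega
        · have h4 : (d + 1) * ka α ≤ (d + 1) * κ0 := by
            refine le_trans ?_ hκ01
            rw [add_mul] at hm' ⊢
            omega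
          exact Nat.le_of_mul_le_mul_left h4 (Nat.succ_pos d)
      · exact absurd rfl hj
    have h𝒜ne : 𝒜.Nonempty := by
      obtain ⟨α, hα, j, m, hjm, hwm⟩ := hw0spec
      refine ⟨α, Finset.mem_filter.mpr ⟨hα, fun h0 => hjm ?_⟩⟩
      have h1 : PowerSeries.coeff j (part (d + 1) w0 (Ph α)) = 0 := by rw [h0, map_zero]
      rw [coeff_part, if_pos (by omega)] at h1
      have h2 : (d + 1) * j - w0 = m := by omega
      rwa [h2] at h1
    -- polynomials
    set hpoly : K → K[X] := fun α => ∑ l ∈ Finset.range (ja α + 1 - κ0),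
      Polynomial.monomial l (PowerSeries.coeff (l + κ0) (part (d + 1) w0 (Ph α))) with hhp
    have hcoef : ∀ α l, (hpoly α).coeff l = if l < ja α + 1 - κ0 then
        PowerSeries.coeff (l + κ0) (part (d + 1) w0 (Ph α)) else 0 := by
      intro α l
      rw [hhp]
      simp only [Polynomial.finsetSum_coeff, Polynomial.coeff_monomial]
      rw [Finset.sum_ite_eq']
      simp only [Finset.mem_range]
    have hXh : ∀ α ∈ T, PowerSeries.X ^ κ0 * ((hpoly α : K[X]) : PowerSeries K)
        = part (d + 1) w0 (Ph α) := by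
      intro α hα
      ext l
      rw [PowerSeries.coeff_X_pow_mul', Polynomial.coeff_coe, hcoef]
      by_cases hl : PowerSeries.coeff l (part (d + 1) w0 (Ph α)) = 0
      · rw [hl]
        split_ifs with h1 h2
        · rw [Nat.sub_add_cancel h1, hl]
        · rfl
        · rfl
      · have h1 := hsuppA α hα l hl
        rw [if_pos h1.1, if_pos (by omega), Nat.sub_add_cancel h1.1]
    have hzero := zero_est 𝒜 (fun α => α) hpoly (fun α => ja α + 1 - κ0)
      (fun a _ b _ h => h)
      (by
        intro α hα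
        have hαT := (Finset.mem_filter.mp hα).1
        have hne := (Finset.mem_filter.mp hα).2
        have h0 : hpoly α ≠ 0 := by
          intro h0
          apply hne
          rw [← hXh α hαT, h0, Polynomial.coe_zero, mul_zero]
        refine ⟨h0, ?_⟩
        have h1 : (hpoly α).coeff (hpoly α).natDegree ≠ 0 :=
          Polynomial.leadingCoeff_ne_zero.mpr h0
        rw [hcoef] at h1
        by_contra h2
        rw [if_neg h2] at h1
        exact h1 rfl)
      h𝒜ne
    obtain ⟨j1, hj1, hj1ne⟩ := hzero
    have hF : part (d + 1) w0 (Phi s p v k)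
        = PowerSeries.X ^ κ0 * ∑ α ∈ 𝒜, ex α * ((hpoly α : K[X]) : PowerSeries K) := by
      rw [hpart, Finset.mul_sum, h𝒜, Finset.sum_filter]
      refine Finset.sum_congr rfl fun α hα => ?_
      split_ifs with hne
      · rw [← hXh α hα]; ring
      · rw [not_not.mp hne, mul_zero]
    have hJ : PowerSeries.coeff (κ0 + j1) (part (d + 1) w0 (Phi s p v k)) ≠ 0 := by
      rw [hF, add_comm, PowerSeries.coeff_X_pow_mul]
      exact hj1ne
    rw [coeff_part] at hJ
    split_ifs at hJ with hwJ
    · refine ⟨κ0 + j1, (d + 1) * (κ0 + j1) - w0, hJ, ?_, ?_⟩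
      · -- counting
        have hterm : ∀ α ∈ 𝒜, ja α + 1 - κ0 ≤ (cl α).card ∧ κ0 ≤ ja α ∧ ka α ≤ κ0 := by
          intro α hα
          have hαT := (Finset.mem_filter.mp hα).1
          have hne := (Finset.mem_filter.mp hα).2
          obtain ⟨l, hl⟩ : ∃ l, PowerSeries.coeff l (part (d + 1) w0 (Ph α)) ≠ 0 := by
            by_contra hcon
            push Not at hcon
            exact hne (PowerSeries.ext fun l => by rw [hcon l, map_zero])
          have h1 := hsuppA α hαT l hl
          have h2 := hja2 α hαT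
          refine ⟨by omega, by omega, h1.2.2⟩
        have hcards : ∑ α ∈ T, (cl α).card = s.card := by
          rw [Finset.card_eq_sum_card_fiberwise (f := lc) (t := T)
            (fun i hi => Finset.mem_coe.mpr (Finset.mem_image_of_mem _ hi))]
        obtain ⟨i0, hi0, hki0⟩ := hk0
        set β := lc i0 with hβ
        have hβT : β ∈ T := Finset.mem_image_of_mem _ hi0
        have hkβ : ka β = κ := by
          apply le_antisymm
          · rw [← hki0]
            exact hka1 β hβT i0 (Finset.mem_filter.mpr ⟨hi0, rfl⟩)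
          · obtain ⟨i1, hi1, hk1⟩ := hka2 β hβT
            rw [← hk1]
            exact hk i1 (Finset.mem_filter.mp hi1).1
        have hsplit : ∑ α ∈ T, (cl α).card = (cl β).card + ∑ α ∈ T.erase β, (cl α).card :=
          (Finset.add_sum_erase T (fun α => (cl α).card) hβT).symm
        by_cases hβA : β ∈ 𝒜
        · have h1 : ∑ α ∈ 𝒜, (ja α + 1 - κ0) = (ja β + 1 - κ0) + ∑ α ∈ 𝒜.erase β, (ja α + 1 - κ0) :=
            (Finset.add_sum_erase 𝒜 (fun α => ja α + 1 - κ0) hβA).symm
          have h2 : ∑ α ∈ 𝒜.erase β, (ja α + 1 - κ0) ≤ ∑ α ∈ T.erase β, (cl α).card := by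
            refine (Finset.sum_le_sum fun α hα => (hterm α (Finset.mem_of_mem_erase hα)).1).trans ?_
            apply Finset.sum_le_sum_of_subset
            exact Finset.erase_subset_erase _ (Finset.filter_subset _ _)
          have h3 := hja2 β hβT
          have h4 := hterm β hβA
          rw [hkβ] at h3 h4
          omega
        · have h1 : κ0 ≤ ja β := by
            apply hκ02
            have := hw0min β hβT _ _ (hja1 β hβT)
            omega
          have h3 := hja2 β hβT
          rw [hkβ] at h3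
          have h2 : ∑ α ∈ 𝒜, (ja α + 1 - κ0) ≤ ∑ α ∈ T.erase β, (cl α).card := by
            refine (Finset.sum_le_sum fun α hα => (hterm α hα).1).trans ?_
            apply Finset.sum_le_sum_of_subset
            intro α hα
            refine Finset.mem_erase.mpr ⟨fun h => hβA (h ▸ hα), (Finset.filter_subset _ _) hα⟩
          omega
      · -- minimality
        intro j' m' h'
        by_contra hcon
        have hlt : (d + 1) * j' < w0 + m' := by omega
        have hb := supp_bound s p v k (d := d + 1) (κ := 0) hdeg (fun _ _ => Nat.zero_le _) h'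
        have hm' : m' ≤ (d + 1) * j' := by omega
        set w := (d + 1) * j' - m' with hw
        have h1 : PowerSeries.coeff j' (part (d + 1) w (Phi s p v k)) ≠ 0 := by
          rw [coeff_part, if_pos (by omega)]
          have : (d + 1) * j' - w = m' := by omega
          rwa [this]
        apply h1
        have h2 : ∀ α ∈ T, part (d + 1) w (Ph α) = 0 := by
          intro α hα
          ext l
          rw [coeff_part, map_zero]
          split_ifs with h3
          · by_contra h4
            have := hw0min α hα _ _ h4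
            omega
          · rfl
        rw [hpart, Finset.sum_eq_zero (fun α hα => by rw [h2 α hα, mul_zero]), map_zero]
    · exact absurd rfl hJ

end Pool.Agent.H767R2
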