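import Mathlib
import Pool.Agent.H767R2.Newton

set_option autoImplicit false
set_option linter.unusedSectionVars false

namespace Pool.Agent.H767R2

open Finset Polynomial

variable {K : Type*} [Field K] [Algebra ℚ K]

/-- the series `v` attached to a polynomial `Q` -/
noncomputable def vser (Q : K[X]) : PowerSeries K :=
  PowerSeries.mk fun a => if a ≤ Q.natDegree then
    ((Q.natDegree - a).factorial : K) * Q.coeff (Q.natDegree - a) else 0

theorem vser_const {Q : K[X]} (hQ : Q ≠ 0) : PowerSeries.constantCoeff (vser Q) ≠ 0 := by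
  have : CharZero K := algebraRat.charZero K
  rw [← PowerSeries.coeff_zero_eq_constantCoeff_apply, vser, PowerSeries.coeff_mk,
    if_pos (Nat.zero_le _), Nat.sub_zero]
  exact mul_ne_zero (by exact_mod_cast Nat.factorial_ne_zero _)
    (Polynomial.leadingCoeff_ne_zero.mpr hQ)

theorem coeff_term {Q p : K[X]} {D N : ℕ} (hQD : Q.natDegree ≤ D) (hN : N ≤ D) :
    PowerSeries.coeff N (PowerSeries.X ^ (D - Q.natDegree) *
      (PowerSeries.map (Polynomial.C : K →+* K[X]) (vser Q) * ex p))
      = Polynomial.C ((D - N).factorial : K) * (Polynomial.hasseDeriv (D - N) Q).comp p := by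
  have : CharZero K := algebraRat.charZero K
  set n := Q.natDegree with hn
  rw [PowerSeries.coeff_X_pow_mul']
  split_ifs with hk
  · -- main case
    have hle : (Polynomial.hasseDeriv (D - N) Q).natDegree < (N - (D - n)) + 1 := by
      have := Polynomial.natDegree_hasseDeriv_le Q (D - N)
      omega
    rw [Polynomial.comp, Polynomial.eval₂_eq_sum_range' _ hle, PowerSeries.coeff_mul, mul_comm,
      Finset.sum_mul, Finset.Nat.sum_antidiagonal_eq_sum_range_succ_mk, ← Finset.sum_range_reflect]
    refine Finset.sum_congr rfl fun b hb => ?_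
    rw [Finset.mem_range] at hb
    have hb' : N - (D - n) - ((N - (D - n)).succ - 1 - b) = b := by omega
    have ha : (N - (D - n)).succ - 1 - b = N - (D - n) - b := by omega
    rw [hb', ha, PowerSeries.coeff_map, vser, PowerSeries.coeff_mk, ← hn, if_pos (by omega), coeff_ex,
      Polynomial.hasseDeriv_coeff]
    have h1 : n - (N - (D - n) - b) = b + (D - N) := by omega
    rw [h1, IsScalarTower.algebraMap_apply ℚ K K[X], Polynomial.algebraMap_eq]
    have h2 : ((b + (D - N)).factorial : K) * algebraMap ℚ K (1 / (b.factorial : ℚ))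
        = ((b + (D - N)).choose (D - N) : K) * ((D - N).factorial : K) := by
      have h3 := Nat.add_choose_mul_factorial_mul_factorial b (D - N)
      have h4 : (b.factorial : K) ≠ 0 := by exact_mod_cast Nat.factorial_ne_zero _
      rw [← h3]
      push_cast
      field_simp
    have h5 : Polynomial.C (((b + (D - N)).factorial : K) * Q.coeff (b + (D - N)))
        * (p ^ b * Polynomial.C (algebraMap ℚ K (1 / (b.factorial : ℚ))))
        = Polynomial.C ((((b + (D - N)).factorial : K) * algebraMap ℚ K (1 / (b.factorial : ℚ)))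
          * Q.coeff (b + (D - N))) * p ^ b := by
      simp only [Polynomial.C_mul]; ring
    rw [h5, h2]
    simp only [Polynomial.C_mul, map_natCast]
    ring
  · rw [Polynomial.hasseDeriv_eq_zero_of_lt_natDegree Q (D - N) (by omega), Polynomial.zero_comp,
      mul_zero]

/-- **Degree bound for polynomial relations.**  If `∑ Qᵢ(x + pᵢ(y)) = 0` (here: all Hasse
derivatives composed with the `pᵢ` sum to zero), where the `pᵢ` are pairwise distinct modulo
constants, then `deg Qᵢ + 2 ≤ #s` for every `i` with `Qᵢ ≠ 0`. -/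
theorem relation_degree' {ι : Type*} [DecidableEq ι] (s : Finset ι) (p Q : ι → K[X])
    (hdist : ∀ i ∈ s, ∀ j ∈ s, i ≠ j → 0 < (p i - p j).natDegree)
    (hrel : ∀ M : ℕ, ∑ i ∈ s, (Polynomial.hasseDeriv M (Q i)).comp (p i) = 0) :
    ∀ i ∈ s, Q i ≠ 0 → (Q i).natDegree + 2 ≤ s.card := by
  classical
  intro i₀ hi₀ hQ₀
  set s' := s.filter (fun i => Q i ≠ 0) with hs'
  have hi₀' : i₀ ∈ s' := Finset.mem_filter.mpr ⟨hi₀, hQ₀⟩
  obtain ⟨i₁, hi₁, hmax⟩ := Finset.exists_max_image s' (fun i => (Q i).natDegree) ⟨i₀, hi₀'⟩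
  set D := (Q i₁).natDegree with hD
  set d := s'.sup (fun i => (p i).natDegree) with hd
  obtain ⟨j, m, hjm, hcard, _⟩ := newton (K := K) d s' p (fun i => vser (Q i))
    (fun i => D - (Q i).natDegree) 0
    (fun i hi => Finset.le_sup (f := fun i => (p i).natDegree) hi)
    (fun i hi j hj hij => hdist i (Finset.mem_filter.mp hi).1 j (Finset.mem_filter.mp hj).1 hij)
    (fun i hi => vser_const (Finset.mem_filter.mp hi).2)
    (fun _ _ => Nat.zero_le _) ⟨i₁, hi₁, by simp [hD]⟩
  have hj : D < j := by
    by_contra hcon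
    push Not at hcon
    apply hjm
    have h1 : PowerSeries.coeff j (Phi s' p (fun i => vser (Q i)) (fun i => D - (Q i).natDegree))
        = 0 := by
      rw [Phi, map_sum]
      have h2 : ∀ i ∈ s', PowerSeries.coeff j (PowerSeries.X ^ (D - (Q i).natDegree) *
          (PowerSeries.map (Polynomial.C : K →+* K[X]) (vser (Q i)) * ex (p i)))
          = Polynomial.C ((D - j).factorial : K) * (Polynomial.hasseDeriv (D - j) (Q i)).comp (p i) :=
        fun i hi => coeff_term (hmax i hi) hcon
      rw [Finset.sum_congr rfl h2, ← Finset.mul_sum]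
      have h3 : ∑ i ∈ s', (Polynomial.hasseDeriv (D - j) (Q i)).comp (p i) = 0 := by
        rw [← hrel (D - j), hs', Finset.sum_filter]
        refine Finset.sum_congr rfl fun i _ => ?_
        split_ifs with h
        · rfl
        · rw [not_not.mp h, map_zero, Polynomial.zero_comp]
      rw [h3, mul_zero]
    rw [h1, Polynomial.coeff_zero]
  have h1 : s'.card ≤ s.card := Finset.card_filter_le _ _
  have h2 : (Q i₀).natDegree ≤ D := hmax i₀ hi₀'
  omega

/-- The same for relations that hold at all natural numbers. -/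
theorem relation_degree {ι : Type*} [DecidableEq ι] (s : Finset ι) (p Q : ι → K[X])
    (hdist : ∀ i ∈ s, ∀ j ∈ s, i ≠ j → 0 < (p i - p j).natDegree)
    (hrel : ∀ x y : ℕ, ∑ i ∈ s, (Q i).eval ((x : K) + (p i).eval (y : K)) = 0) :
    ∀ i ∈ s, Q i ≠ 0 → (Q i).natDegree + 2 ≤ s.card := by
  have : CharZero K := algebraRat.charZero K
  refine relation_degree' s p Q hdist fun M => ?_
  have hinf : (Set.range (fun n : ℕ => (n : K))).Infinite :=
    Set.infinite_range_of_injective Nat.cast_injective
  apply Polynomial.eq_of_infinite_eval_eq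
  refine hinf.mono ?_
  rintro _ ⟨y, rfl⟩
  simp only [Set.mem_ofPred_eq, Polynomial.eval_finsetSum, Polynomial.eval_comp, Polynomial.eval_zero]
  have h1 : ∑ i ∈ s, Polynomial.taylor ((p i).eval (y : K)) (Q i) = 0 := by
    apply Polynomial.eq_of_infinite_eval_eq
    refine hinf.mono ?_
    rintro _ ⟨x, rfl⟩
    simp only [Set.mem_ofPred_eq, Polynomial.eval_finsetSum, Polynomial.taylor_eval,
      Polynomial.eval_zero]
    exact hrel x y
  have h2 := congrArg (fun q => Polynomial.coeff q M) h1
  simpa only [Polynomial.finsetSum_coeff, Polynomial.taylor_coeff, Polynomial.coeff_zero] using h2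

end Pool.Agent.H767R2
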