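import Mathlib
import Pool.Agent.H767R2.Relation

set_option autoImplicit false
set_option linter.unusedSectionVars false

namespace Pool.Agent.H767R2

open Finset Polynomial

variable {K : Type*} [Field K] [Algebra ℚ K]

theorem exists_antidiff_X_pow (n : ℕ) :
    ∃ P : K[X], Polynomial.taylor 1 P - P = Polynomial.X ^ n := by
  have hchar : CharZero K := algebraRat.charZero K
  induction n using Nat.strong_induction_on with
  | _ n ih =>
    choose! P hP using ih
    have hexp : Polynomial.taylor (1 : K) (Polynomial.X ^ (n + 1)) - Polynomial.X ^ (n + 1)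
        = Polynomial.C ((n : K) + 1) * Polynomial.X ^ n
          + ∑ k ∈ Finset.range n, Polynomial.C ((n + 1).choose k : K) * Polynomial.X ^ k := by
      rw [Polynomial.taylor_X_pow, add_pow, Finset.sum_range_succ, Finset.sum_range_succ]
      simp only [Polynomial.C_1, one_pow, mul_one, Nat.choose_self, Nat.cast_one,
        add_sub_cancel_right, Nat.choose_succ_self_right]
      rw [add_comm]
      congr 1
      · rw [mul_comm]
        simp
      · refine Finset.sum_congr rfl fun k _ => ?_
        rw [mul_comm]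
        simp
    have hn1 : ((n : K) + 1) ≠ 0 := by exact_mod_cast Nat.succ_ne_zero n
    refine ⟨Polynomial.C (((n : K) + 1)⁻¹) * (Polynomial.X ^ (n + 1)
      - ∑ k ∈ Finset.range n, Polynomial.C ((n + 1).choose k : K) * P k), ?_⟩
    have hsum : Polynomial.taylor (1 : K) (∑ k ∈ Finset.range n, Polynomial.C ((n + 1).choose k : K) * P k)
        - ∑ k ∈ Finset.range n, Polynomial.C ((n + 1).choose k : K) * P k
        = ∑ k ∈ Finset.range n, Polynomial.C ((n + 1).choose k : K) * Polynomial.X ^ k := by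
      rw [map_sum, ← Finset.sum_sub_distrib]
      refine Finset.sum_congr rfl fun k hk => ?_
      rw [Polynomial.taylor_mul, Polynomial.taylor_C, ← mul_sub, hP k (Finset.mem_range.mp hk)]
    rw [Polynomial.taylor_mul, Polynomial.taylor_C, ← mul_sub, map_sub]
    have e1 : Polynomial.taylor (1 : K) (Polynomial.X ^ (n + 1))
        - Polynomial.taylor 1 (∑ k ∈ Finset.range n, Polynomial.C ((n + 1).choose k : K) * P k)
        - (Polynomial.X ^ (n + 1) - ∑ k ∈ Finset.range n, Polynomial.C ((n + 1).choose k : K) * P k)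
        = Polynomial.C ((n : K) + 1) * Polynomial.X ^ n := by
      linear_combination hexp - hsum
    rw [e1, ← mul_assoc, ← Polynomial.C_mul, inv_mul_cancel₀ hn1, Polynomial.C_1, one_mul]

theorem exists_antidiff (Q : K[X]) : ∃ P : K[X], Polynomial.taylor 1 P - P = Q := by
  choose P hP using exists_antidiff_X_pow (K := K)
  refine ⟨∑ k ∈ Finset.range (Q.natDegree + 1), Polynomial.C (Q.coeff k) * P k, ?_⟩
  rw [map_sum, ← Finset.sum_sub_distrib]
  conv_rhs => rw [Q.as_sum_range_C_mul_X_pow]
  refine Finset.sum_congr rfl fun k _ => ?_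
  rw [Polynomial.taylor_mul, Polynomial.taylor_C, ← mul_sub, hP k]



section Additive

variable {Γ : Type*} [AddCommGroup Γ]

/-- `Nf U v = U v - v`. -/
def Nf (U : Γ ≃ₗ[ℤ] Γ) (v : Γ) : Γ := U v - v

theorem aut_mul_apply (U V : Γ ≃ₗ[ℤ] Γ) (v : Γ) : (U * V) v = U (V v) := rfl

theorem zpow_succ_apply (U : Γ ≃ₗ[ℤ] Γ) (t : ℤ) (v : Γ) : (U ^ (t + 1)) v = (U ^ t) (U v) := by
  rw [zpow_add_one, aut_mul_apply]

theorem Nf_add (U : Γ ≃ₗ[ℤ] Γ) (v w : Γ) : Nf U (v + w) = Nf U v + Nf U w := by
  simp only [Nf, map_add]; abel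

theorem Nf_sub (U : Γ ≃ₗ[ℤ] Γ) (v w : Γ) : Nf U (v - w) = Nf U v - Nf U w := by
  simp only [Nf, map_sub]; abel

theorem Nf_zero (U : Γ ≃ₗ[ℤ] Γ) : Nf U 0 = 0 := by simp [Nf]

theorem Nf_commute (U : Γ ≃ₗ[ℤ] Γ) (v : Γ) : Nf U (U v) = U (Nf U v) := by simp [Nf]

theorem Nf_iter_sub (U : Γ ≃ₗ[ℤ] Γ) (r : ℕ) (v w : Γ) :
    (Nf U)^[r] (v - w) = (Nf U)^[r] v - (Nf U)^[r] w := by
  induction r generalizing v w with
  | zero => rfl
  | succ r ih => rw [Function.iterate_succ_apply, Function.iterate_succ_apply,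
      Function.iterate_succ_apply, Nf_sub, ih]

theorem Nf_iter_zero (U : Γ ≃ₗ[ℤ] Γ) (r : ℕ) : (Nf U)^[r] 0 = 0 := by
  induction r with
  | zero => rfl
  | succ r ih => rw [Function.iterate_succ_apply, Nf_zero, ih]

theorem Nf_iter_commute (U : Γ ≃ₗ[ℤ] Γ) (r : ℕ) (v : Γ) : (Nf U)^[r] (U v) = U ((Nf U)^[r] v) := by
  induction r generalizing v with
  | zero => rfl
  | succ r ih => rw [Function.iterate_succ_apply, Function.iterate_succ_apply, Nf_commute, ih]

theorem poly_of_unipotent (U : Γ ≃ₗ[ℤ] Γ) (φ : Γ →+ K) (r : ℕ) : ∀ (v : Γ),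
    (Nf U)^[r] v = 0 → ∃ Q : K[X], ∀ t : ℤ, φ ((U ^ t) v) = Q.eval (t : K) := by
  induction r with
  | zero =>
    intro v hv
    have hv' : v = 0 := hv
    exact ⟨0, fun t => by rw [hv', map_zero, map_zero, Polynomial.eval_zero]⟩
  | succ r ih =>
    intro v hv
    rw [Function.iterate_succ_apply] at hv
    obtain ⟨Q', hQ'⟩ := ih _ hv
    obtain ⟨P, hP⟩ := exists_antidiff Q'
    have hstep : ∀ t : ℤ, φ ((U ^ (t + 1)) v) - φ ((U ^ t) v) = P.eval (((t + 1 : ℤ)) : K) - P.eval (t : K) := by
      intro t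
      have h1 := hQ' t
      rw [Nf, map_sub, map_sub] at h1
      rw [zpow_succ_apply]
      have h2 : P.eval (((t + 1 : ℤ)) : K) - P.eval (t : K) = Q'.eval (t : K) := by
        rw [← hP, Polynomial.eval_sub, Polynomial.taylor_eval]
        push_cast
        rfl
      rw [h2, ← h1]
    refine ⟨P + Polynomial.C (φ v - P.eval 0), fun t => ?_⟩
    rw [Polynomial.eval_add, Polynomial.eval_C]
    induction t using Int.induction_on with
    | zero => simp
    | succ n ihn =>
      have := hstep n
      push_cast at this ihn ⊢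
      linear_combination this + ihn
    | pred n ihn =>
      have := hstep (-n - 1)
      rw [show (-(n : ℤ) - 1 + 1) = -n by ring] at this
      push_cast at this ihn ⊢
      linear_combination ihn - this

theorem iter_apply_eq_zero_of_degree (U : Γ ≃ₗ[ℤ] Γ) (φ : Γ →+ K) (ℓ : ℕ) :
    ∀ (v : Γ) (Q : K[X]), Q.degree < ℓ → (∀ t : ℤ, φ ((U ^ t) v) = Q.eval (t : K)) →
    φ ((Nf U)^[ℓ] v) = 0 := by
  induction ℓ with
  | zero =>
    intro v Q hQ h
    have hQ0 : Q = 0 := by
      rw [← Polynomial.degree_eq_bot]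
      exact Nat.WithBot.lt_zero_iff.mp (by simpa using hQ)
    have := h 0
    rw [hQ0, Polynomial.eval_zero] at this
    simpa using this
  | succ ℓ ih =>
    intro v Q hQ h
    rw [Function.iterate_succ_apply]
    refine ih _ (Polynomial.taylor 1 Q - Q) ?_ ?_
    · by_cases h0 : Q = 0
      · rw [h0, map_zero, sub_zero, Polynomial.degree_zero]
        exact WithBot.bot_lt_coe _
      · have h1 : (Polynomial.taylor 1 Q - Q).degree < (Polynomial.taylor 1 Q).degree := by
          apply Polynomial.degree_sub_lt_left (Polynomial.degree_taylor _ _)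
          · rwa [Ne, Polynomial.taylor_eq_zero]
          · exact Polynomial.leadingCoeff_taylor _ _
        rw [Polynomial.degree_taylor] at h1
        have h2 : Q.degree ≤ (ℓ : WithBot ℕ) := by
          rw [Polynomial.degree_eq_natDegree h0] at hQ ⊢
          exact_mod_cast Nat.lt_succ_iff.mp (by exact_mod_cast hQ)
        exact lt_of_lt_of_le h1 h2
    · intro t
      rw [Nf, map_sub, map_sub, Polynomial.eval_sub, Polynomial.taylor_eval, ← h t]
      congr 1
      have := h (t + 1)
      rw [zpow_succ_apply] at this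
      push_cast at this
      exact this

/-- The key algebraic lemma for unipotent actions. -/
theorem key_unipotent {ι : Type*} [DecidableEq ι] (s : Finset ι) (p : ι → ℤ[X])
    (hp : ∀ i ∈ s, 0 < (p i).natDegree)
    (hpp : ∀ i ∈ s, ∀ j ∈ s, i ≠ j → 0 < (p i - p j).natDegree) (U : Γ ≃ₗ[ℤ] Γ) (r : ℕ)
    (hU : ∀ v, (Nf U)^[r] v = 0) (φ : Γ →+ K) (g : ι → Γ) (w : Γ)
    (h : ∀ n x : ℕ, φ ((U ^ (x : ℤ)) (∑ i ∈ s, (U ^ ((p i).eval (n : ℤ))) (g i))) = φ ((U ^ (x : ℤ)) w))
    (i : ι) (hi : i ∈ s) :
    φ ((Nf U)^[s.card] (g i)) = 0 := by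
  classical
  have hchar : CharZero K := algebraRat.charZero K
  have hpoly : ∀ v : Γ, ∃ Q : K[X], ∀ t : ℤ, φ ((U ^ t) v) = Q.eval (t : K) := fun v =>
    poly_of_unipotent U φ r v (hU v)
  choose Qf hQf using hpoly
  have hinj : Function.Injective (Int.castRingHom K) := fun a b hab => by
    simpa using hab
  set p' : Option ι → K[X] := fun o => o.elim 0 (fun i => (p i).map (Int.castRingHom K)) with hp'
  set Q' : Option ι → K[X] := fun o => o.elim (-Qf w) (fun i => Qf (g i)) with hQ'
  have hmain := relation_degree (K := K) (Finset.insertNone s) p' Q' (by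
      intro a ha b hb hab
      rcases a with _ | a <;> rcases b with _ | b
      · exact absurd rfl hab
      · rw [Finset.mem_insertNone] at hb
        simp only [hp', Option.elim, zero_sub, Polynomial.natDegree_neg]
        rw [Polynomial.natDegree_map_eq_of_injective hinj]
        exact hp b (hb b rfl)
      · rw [Finset.mem_insertNone] at ha
        simp only [hp', Option.elim, sub_zero]
        rw [Polynomial.natDegree_map_eq_of_injective hinj]
        exact hp a (ha a rfl)
      · rw [Finset.mem_insertNone] at ha hb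
        simp only [hp', Option.elim]
        rw [← Polynomial.map_sub, Polynomial.natDegree_map_eq_of_injective hinj]
        exact hpp a (ha a rfl) b (hb b rfl) (fun h => hab (by rw [h]))) (by
      intro x y
      rw [Finset.sum_insertNone]
      simp only [hp', hQ', Option.elim, Polynomial.eval_zero, add_zero, Polynomial.eval_neg]
      have h1 : ∀ i : ι, (Qf (g i)).eval ((x : K) + ((p i).map (Int.castRingHom K)).eval (y : K))
          = φ ((U ^ (x : ℤ)) ((U ^ ((p i).eval (y : ℤ))) (g i))) := by
        intro i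
        rw [← aut_mul_apply, ← zpow_add, hQf]
        congr 1
        push_cast
        congr 1
        rw [Polynomial.eval_map, ← map_natCast (Int.castRingHom K) y, Polynomial.eval₂_at_apply]
        simp
      have h2 : (Qf w).eval (x : K) = φ ((U ^ (x : ℤ)) w) := by
        rw [hQf]; push_cast; rfl
      simp_rw [h1]
      rw [h2, ← h y, map_sum, map_sum]
      ring) (some i) (by rw [Finset.mem_insertNone]; rintro a ⟨⟩; exact hi)
  simp only [hQ', Option.elim] at hmain
  refine iter_apply_eq_zero_of_degree U φ s.card (g i) (Qf (g i)) ?_ (hQf (g i))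
  by_cases h0 : Qf (g i) = 0
  · rw [h0, Polynomial.degree_zero]
    exact WithBot.bot_lt_coe _
  · have h1 := hmain h0
    rw [Finset.card_insertNone] at h1
    rw [Polynomial.degree_eq_natDegree h0]
    exact_mod_cast (by omega : (Qf (g i)).natDegree < s.card)

end Additive

end Pool.Agent.H767R2
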