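import Mathlib
import Pool.Agent.H767R2.Unip
import Pool.Agent.H767R2.Defs

set_option autoImplicit false
set_option linter.unusedSectionVars false

namespace Pool.Agent.H767R2

open MeasureTheory Filter Topology
open scoped ENNReal InnerProductSpace

section Hilbert

variable {E : Type*} [NormedAddCommGroup E] [InnerProductSpace ℂ E] [CompleteSpace E]

theorem hilbert_mean (f : E →L[ℂ] E) (hf : ‖f‖ ≤ 1) (x o : E) (ho : f o = o) (ho1 : ‖o‖ ≤ 1) :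
    ∃ L : ℂ, Tendsto (fun M : ℕ => (M : ℂ)⁻¹ * ∑ j ∈ Finset.range M, ⟪x, f^[j + 1] x⟫_ℂ) atTop (𝓝 L) ∧
      ‖⟪o, x⟫_ℂ‖ ^ 2 ≤ ‖L‖ := by
  set P := (f.eqLocus (1 : E →L[ℂ] E)).orthogonalProjectionOnto with hP
  have h1 := ContinuousLinearMap.tendsto_birkhoffAverage_orthogonalProjection f hf x
  have h2 : f (P x : E) = (P x : E) := by
    have := (P x).2
    rw [LinearMap.mem_eqLocus] at this
    exact this
  refine ⟨⟪x, (P x : E)⟫_ℂ, ?_, ?_⟩
  · have h3 : Tendsto (fun M : ℕ => ⟪x, f (birkhoffAverage ℂ f _root_.id M x)⟫_ℂ) atTop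
        (𝓝 ⟪x, f (P x : E)⟫_ℂ) :=
      (((continuous_const.inner continuous_id).comp f.continuous).tendsto _).comp h1
    rw [h2] at h3
    refine h3.congr fun M => ?_
    simp only [birkhoffAverage, birkhoffSum, _root_.id, map_smul, map_sum, inner_smul_right, inner_sum,
      Function.iterate_succ_apply']
  · have h4 : ⟪x, (P x : E)⟫_ℂ = ⟪(P x : E), (P x : E)⟫_ℂ := by
      rw [← sub_eq_zero, ← inner_sub_left]
      exact Submodule.starProjection_inner_eq_zero x _ (P x).2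
    have h5 : ⟪o, x⟫_ℂ = ⟪o, (P x : E)⟫_ℂ := by
      rw [← sub_eq_zero, ← inner_sub_right, ← inner_conj_symm]
      have ho' : o ∈ f.eqLocus (1 : E →L[ℂ] E) := by
        rw [LinearMap.mem_eqLocus]; exact ho
      have := Submodule.starProjection_inner_eq_zero x o ho'
      rw [show ⟪x - (P x : E), o⟫_ℂ = 0 from this, map_zero]
    rw [h4, h5, inner_self_eq_norm_sq_to_K]
    have h6 := norm_inner_le_norm (𝕜 := ℂ) o (P x : E)
    have h7 : ‖⟪o, (P x : E)⟫_ℂ‖ ≤ ‖(P x : E)‖ := h6.trans (by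
      calc ‖o‖ * ‖(P x : E)‖ ≤ 1 * ‖(P x : E)‖ := by gcongr
        _ = _ := one_mul _)
    rw [norm_pow]
    simp only [Complex.coe_algebraMap, Complex.norm_real, norm_norm]
    gcongr

end Hilbert

section Mean

variable {X : Type*} [MeasurableSpace X] {μ : Measure X} [IsProbabilityMeasure μ]

theorem iterate_koopman {S : X → X} (hS : MeasurePreserving S μ μ) {F : X → ℂ} (hF : MemLp F 2 μ) (k : ℕ) :
    (Lp.compMeasurePreservingₗᵢ ℂ S hS).toContinuousLinearMap^[k] (hF.toLp F)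
      = (hF.comp_measurePreserving (hS.iterate k)).toLp (F ∘ S^[k]) := by
  induction k with
  | zero => rfl
  | succ k ih =>
    rw [Function.iterate_succ_apply', ih]
    rfl

theorem mean_ergodic_lower {S : X → X} (hS : MeasurePreserving S μ μ) {F : X → ℂ} (hF : MemLp F 2 μ) :
    ∃ L : ℂ, Tendsto (fun M : ℕ => (M : ℂ)⁻¹ * ∑ j ∈ Finset.range M,
      ∫ x, (starRingEnd ℂ) (F x) * F (S^[j + 1] x) ∂μ) atTop (𝓝 L) ∧ ‖∫ x, F x ∂μ‖ ^ 2 ≤ ‖L‖ := by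
  have h1 : MemLp (fun _ : X => (1 : ℂ)) 2 μ := memLp_const _
  set K := (Lp.compMeasurePreservingₗᵢ (p := 2) (E := ℂ) ℂ S hS).toContinuousLinearMap with hK
  set o : Lp ℂ 2 μ := h1.toLp _ with ho
  set xx : Lp ℂ 2 μ := hF.toLp F with hxx
  have hKo : K o = o := by
    have := iterate_koopman hS h1 1
    rw [Function.iterate_one] at this
    exact this
  have hK1 : ‖K‖ ≤ 1 := LinearIsometry.norm_toContinuousLinearMap_le _
  have ho1 : ‖o‖ ≤ 1 := by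
    rw [ho, Lp.norm_toLp, eLpNorm_const _ (by norm_num) (IsProbabilityMeasure.ne_zero μ)]
    simp
  have hin : ∀ j : ℕ, ⟪xx, K^[j+1] xx⟫_ℂ = ∫ x, (starRingEnd ℂ) (F x) * F (S^[j + 1] x) ∂μ := by
    intro j
    rw [hK, hxx, iterate_koopman, L2.inner_def]
    refine integral_congr_ae ?_
    filter_upwards [hF.coeFn_toLp, (hF.comp_measurePreserving (hS.iterate (j+1))).coeFn_toLp] with x h2 h3
    rw [h2, h3, RCLike.inner_apply, mul_comm]
    rfl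
  have hio : ⟪o, xx⟫_ℂ = ∫ x, F x ∂μ := by
    rw [L2.inner_def]
    refine integral_congr_ae ?_
    filter_upwards [hF.coeFn_toLp, h1.coeFn_toLp] with x h2 h3
    rw [h2, h3, RCLike.inner_apply]
    simp
  obtain ⟨L, hL, hL2⟩ := hilbert_mean K hK1 xx o hKo ho1
  refine ⟨L, ?_, ?_⟩
  · simp_rw [← hin]
    exact hL
  · rw [← hio]
    exact hL2


theorem avg_pow_le (M : ℕ) (hM : 0 < M) (γ : ℕ → ℂ) (K : ℕ) :
    ‖(M : ℂ)⁻¹ * ∑ j ∈ Finset.range M, γ j‖ ^ K ≤ (∑ j ∈ Finset.range M, ‖γ j‖ ^ K) / M := by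
  have hM' : (0 : ℝ) < M := by exact_mod_cast hM
  have h1 : ‖(M : ℂ)⁻¹ * ∑ j ∈ Finset.range M, γ j‖ ≤ ∑ j ∈ Finset.range M, (M : ℝ)⁻¹ * ‖γ j‖ := by
    rw [norm_mul, norm_inv, Complex.norm_natCast, ← Finset.mul_sum]
    gcongr
    exact norm_sum_le _ _
  have h2 := Real.pow_arith_mean_le_arith_mean_pow (Finset.range M) (fun _ => (M : ℝ)⁻¹) (fun j => ‖γ j‖)
    (fun _ _ => by positivity) (by simp [hM.ne']) (fun _ _ => norm_nonneg _) K
  calc ‖(M : ℂ)⁻¹ * ∑ j ∈ Finset.range M, γ j‖ ^ K ≤ (∑ j ∈ Finset.range M, (M : ℝ)⁻¹ * ‖γ j‖) ^ K := by gcongr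
    _ ≤ ∑ j ∈ Finset.range M, (M : ℝ)⁻¹ * ‖γ j‖ ^ K := h2
    _ = (∑ j ∈ Finset.range M, ‖γ j‖ ^ K) / M := by rw [← Finset.mul_sum]; field_simp

theorem step_lower {S : X → X} (hS : MeasurePreserving S μ μ) (q K : ℕ) (hq : 0 < q)
    {F : X → ℂ} (hF : MemLp F 2 μ) (c : ℕ → ℝ≥0∞)
    (hc : ∀ j, 0 < j → ENNReal.ofReal (‖∫ x, (starRingEnd ℂ) (F x) * F (S^[q * j] x) ∂μ‖ ^ K) ≤ c (q * j)) :
    ENNReal.ofReal (‖∫ x, F x ∂μ‖ ^ (2 * K)) ≤
      q * limsup (fun H : ℕ => (∑ h ∈ Finset.Icc 1 H, c h) / H) atTop := by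
  obtain ⟨L, hL, hL2⟩ := mean_ergodic_lower (hS.iterate q) hF
  set γ : ℕ → ℂ := fun j => ∫ x, (starRingEnd ℂ) (F x) * F (S^[q * (j + 1)] x) ∂μ with hγ
  have hL' : Tendsto (fun M : ℕ => (M : ℂ)⁻¹ * ∑ j ∈ Finset.range M, γ j) atTop (𝓝 L) := by
    refine hL.congr fun M => ?_
    simp only [hγ, Function.iterate_mul]
  set C : ℕ → ℝ≥0∞ := fun H => (∑ h ∈ Finset.Icc 1 H, c h) / H with hC
  have hq0 : (q : ℝ≥0∞) ≠ 0 := by exact_mod_cast hq.ne'
  have hqt : (q : ℝ≥0∞) ≠ ⊤ := ENNReal.natCast_ne_top q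
  have hkey : ∀ M : ℕ, 0 < M →
      ENNReal.ofReal (‖(M : ℂ)⁻¹ * ∑ j ∈ Finset.range M, γ j‖ ^ K) ≤ q * C (q * M) := by
    intro M hM
    have hM0 : (M : ℝ≥0∞) ≠ 0 := by exact_mod_cast hM.ne'
    have hMt : (M : ℝ≥0∞) ≠ ⊤ := ENNReal.natCast_ne_top M
    have h1 : ∑ j ∈ Finset.range M, c (q * (j + 1)) ≤ ∑ h ∈ Finset.Icc 1 (q * M), c h := by
      have hinj : Set.InjOn (fun j : ℕ => q * (j + 1)) (Finset.range M : Set ℕ) := by
        intro a _ b _ hab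
        have : a + 1 = b + 1 := Nat.eq_of_mul_eq_mul_left hq hab
        omega
      rw [← Finset.sum_image (f := c) hinj]
      refine Finset.sum_le_sum_of_subset ?_
      intro h hh
      rw [Finset.mem_image] at hh
      obtain ⟨j, hj, rfl⟩ := hh
      rw [Finset.mem_range] at hj
      rw [Finset.mem_Icc]
      constructor
      · exact Nat.mul_pos hq (Nat.succ_pos _)
      · exact Nat.mul_le_mul_left q hj
    have h2 : q * C (q * M) = (∑ h ∈ Finset.Icc 1 (q * M), c h) / M := by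
      simp only [hC]
      push_cast
      rw [ENNReal.div_eq_inv_mul, ENNReal.div_eq_inv_mul, ENNReal.mul_inv (Or.inl hq0) (Or.inl hqt),
        ← mul_assoc, ← mul_assoc, ENNReal.mul_inv_cancel hq0 hqt, one_mul]
    rw [h2]
    calc ENNReal.ofReal (‖(M : ℂ)⁻¹ * ∑ j ∈ Finset.range M, γ j‖ ^ K)
        ≤ ENNReal.ofReal ((∑ j ∈ Finset.range M, ‖γ j‖ ^ K) / M) :=
          ENNReal.ofReal_le_ofReal (avg_pow_le M hM γ K)
      _ = (∑ j ∈ Finset.range M, ENNReal.ofReal (‖γ j‖ ^ K)) / M := by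
          rw [ENNReal.ofReal_div_of_pos (by exact_mod_cast hM), ENNReal.ofReal_natCast,
            ENNReal.ofReal_sum_of_nonneg (fun _ _ => by positivity)]
      _ ≤ (∑ j ∈ Finset.range M, c (q * (j + 1))) / M := by
          gcongr with j hj
          exact hc (j + 1) (Nat.succ_pos _)
      _ ≤ (∑ h ∈ Finset.Icc 1 (q * M), c h) / M := by gcongr
  have hlim : Tendsto (fun M : ℕ => ENNReal.ofReal (‖(M : ℂ)⁻¹ * ∑ j ∈ Finset.range M, γ j‖ ^ K)) atTop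
      (𝓝 (ENNReal.ofReal (‖L‖ ^ K))) :=
    (ENNReal.continuous_ofReal.tendsto _).comp ((hL'.norm).pow K)
  have hbig : ENNReal.ofReal (‖∫ x, F x ∂μ‖ ^ (2 * K)) ≤ ENNReal.ofReal (‖L‖ ^ K) := by
    apply ENNReal.ofReal_le_ofReal
    rw [pow_mul]
    gcongr
  refine hbig.trans ?_
  rw [← ENNReal.limsup_const_mul_of_ne_top hqt]
  refine le_of_forall_lt fun y hy => ?_
  have hev : ∀ᶠ M : ℕ in atTop, y < ENNReal.ofReal (‖(M : ℂ)⁻¹ * ∑ j ∈ Finset.range M, γ j‖ ^ K) :=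
    hlim.eventually (lt_mem_nhds hy)
  obtain ⟨z, hyz, hz⟩ := exists_between hy
  refine lt_of_lt_of_le hyz ?_
  have hev' : ∀ᶠ M : ℕ in atTop, z < ENNReal.ofReal (‖(M : ℂ)⁻¹ * ∑ j ∈ Finset.range M, γ j‖ ^ K) :=
    hlim.eventually (lt_mem_nhds hz)
  refine le_limsup_of_frequently_le' ?_
  have hfr : ∃ᶠ M : ℕ in atTop, z ≤ q * C (q * M) := by
    refine Eventually.frequently ?_
    filter_upwards [hev', eventually_gt_atTop 0] with M h1 h2
    exact h1.le.trans (hkey M h2)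
  have htend : Tendsto (fun M : ℕ => q * M) atTop atTop := tendsto_id.const_mul_atTop' hq
  exact htend.frequently hfr


/-- Essentially bounded functions with an explicit bound. -/
structure Bd (μ : Measure X) (C : ℝ) (f : X → ℂ) : Prop where
  meas : AEStronglyMeasurable f μ
  bd : ∀ᵐ x ∂μ, ‖f x‖ ≤ C

omit [IsProbabilityMeasure μ] in
theorem Bd.mul {C D : ℝ} {f g : X → ℂ} (hf : Bd μ C f) (hg : Bd μ D g) (hC : 0 ≤ C) :
    Bd μ (C * D) (fun x => f x * g x) := by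
  refine ⟨hf.meas.mul hg.meas, ?_⟩
  filter_upwards [hf.bd, hg.bd] with x h1 h2
  rw [norm_mul]
  exact mul_le_mul h1 h2 (norm_nonneg _) hC

omit [IsProbabilityMeasure μ] in
theorem Bd.conj {C : ℝ} {f : X → ℂ} (hf : Bd μ C f) : Bd μ C (fun x => (starRingEnd ℂ) (f x)) := by
  refine ⟨Complex.continuous_conj.comp_aestronglyMeasurable hf.meas, ?_⟩
  filter_upwards [hf.bd] with x h1
  rwa [RCLike.norm_conj]

omit [IsProbabilityMeasure μ] in
theorem Bd.comp {C : ℝ} {f : X → ℂ} (hf : Bd μ C f) {S : X → X} (hS : MeasurePreserving S μ μ) :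
    Bd μ C (fun x => f (S x)) :=
  ⟨hf.meas.comp_measurePreserving hS, hS.quasiMeasurePreserving.ae hf.bd⟩

theorem Bd.memLp {C : ℝ} {f : X → ℂ} (hf : Bd μ C f) (p : ℝ≥0∞) : MemLp f p μ :=
  MemLp.of_bound hf.meas C hf.bd

theorem Bd.integrable {C : ℝ} {f : X → ℂ} (hf : Bd μ C f) : Integrable f μ :=
  memLp_one_iff_integrable.mp (hf.memLp 1)

theorem lintegral_sq_le {g : X → ℂ} (hg : AEStronglyMeasurable g μ) :
    (∫⁻ x, ‖g x‖ₑ ∂μ) ^ 2 ≤ ∫⁻ x, ‖g x‖ₑ ^ 2 ∂μ := by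
  have h1 : eLpNorm g 1 μ ≤ eLpNorm g 2 μ := eLpNorm_le_eLpNorm_of_exponent_le (by norm_num) hg
  have h2 := eLpNorm_nnreal_pow_eq_lintegral (μ := μ) (f := g) (p := 2) (by norm_num)
  rw [eLpNorm_one_eq_lintegral_enorm] at h1
  calc (∫⁻ x, ‖g x‖ₑ ∂μ) ^ 2 ≤ (eLpNorm g 2 μ) ^ 2 := by gcongr
    _ = ∫⁻ x, ‖g x‖ₑ ^ 2 ∂μ := by
      simpa using h2

/-- A system of characters. -/
structure CharSys (T : X → X) (Γ : Type*) [AddCommGroup Γ] where
  U : Γ ≃ₗ[ℤ] Γ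
  E : Γ → X → ℂ
  meas : ∀ g, Measurable (E g)
  norm_one : ∀ g x, ‖E g x‖ = 1
  add : ∀ g g' x, E (g + g') x = E g x * E g' x
  comp : ∀ g x, E g (T x) = E (U g) x

section CharSys

variable {T : X → X} {Γ : Type*} [AddCommGroup Γ] (𝓔 : CharSys T Γ)

theorem CharSys.zero (x : X) : 𝓔.E 0 x = 1 := by
  have h1 := 𝓔.add 0 0 x
  rw [add_zero] at h1
  have h2 : 𝓔.E 0 x ≠ 0 := by
    intro h
    have := 𝓔.norm_one 0 x
    rw [h, norm_zero] at this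
    exact zero_ne_one this
  exact (mul_eq_left₀ h2).mp h1.symm

theorem CharSys.neg (g : Γ) (x : X) : 𝓔.E (-g) x = (starRingEnd ℂ) (𝓔.E g x) := by
  have h1 := 𝓔.add g (-g) x
  rw [add_neg_cancel, 𝓔.zero] at h1
  have h2 : 𝓔.E g x * (starRingEnd ℂ) (𝓔.E g x) = 1 := by
    rw [Complex.mul_conj, Complex.normSq_eq_norm_sq, 𝓔.norm_one]
    simp
  have h3 : 𝓔.E g x ≠ 0 := by
    intro h
    have := 𝓔.norm_one g x
    rw [h, norm_zero] at this
    exact zero_ne_one this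
  exact mul_left_cancel₀ h3 (h1.symm.trans h2.symm)

theorem CharSys.nsmul (n : ℕ) (g : Γ) (x : X) : 𝓔.E (n • g) x = (𝓔.E g x) ^ n := by
  induction n with
  | zero => rw [zero_smul, 𝓔.zero, pow_zero]
  | succ n ih => rw [add_smul, one_smul, 𝓔.add, ih, pow_succ]

theorem CharSys.iterate (n : ℕ) (g : Γ) (x : X) : 𝓔.E g (T^[n] x) = 𝓔.E ((𝓔.U ^ n) g) x := by
  induction n generalizing x with
  | zero => rfl
  | succ n ih =>
    rw [Function.iterate_succ_apply, ih, 𝓔.comp, pow_succ']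
    rfl

theorem CharSys.bd (g : Γ) : Bd μ 1 (𝓔.E g) :=
  ⟨(𝓔.meas g).aestronglyMeasurable, ae_of_all _ fun x => (𝓔.norm_one g x).le⟩

theorem lower_base {C : ℝ} {f : X → ℂ} (hf : Bd μ C f) (g : Γ) (hv : ∀ x, 𝓔.E (Nf 𝓔.U g) x = 1) :
    ENNReal.ofReal (‖∫ x, f x * (starRingEnd ℂ) (𝓔.E g x) ∂μ‖ ^ 2) ≤ hk μ T 0 f := by
  have hm := MeasurableSpace.invariants_le T
  have hinv : ∀ x, 𝓔.E g (T x) = 𝓔.E g x := by
    intro x
    rw [𝓔.comp, ← mul_one (𝓔.E g x), ← hv x, ← 𝓔.add, Nf]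
    congr 1
    abel
  have hmeas : StronglyMeasurable[MeasurableSpace.invariants T] (fun x => (starRingEnd ℂ) (𝓔.E g x)) := by
    apply Measurable.stronglyMeasurable
    rw [MeasurableSpace.measurable_invariants_dom]
    refine ⟨Complex.continuous_conj.measurable.comp (𝓔.meas g), fun s _ => ?_⟩
    ext x
    simp only [Set.mem_preimage, Function.comp_apply, hinv]
  have hfg : Integrable (fun x => ContinuousLinearMap.mul ℝ ℂ (f x) ((starRingEnd ℂ) (𝓔.E g x))) μ := by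
    have := (𝓔.bd (μ := μ) g).conj.mul hf zero_le_one
    refine this.integrable.congr (ae_of_all _ fun x => ?_)
    simp [mul_comm]
  have h1 := condExp_bilin_of_stronglyMeasurable_right (ContinuousLinearMap.mul ℝ ℂ) hmeas hfg hf.integrable
  have h2 : ∫ x, f x * (starRingEnd ℂ) (𝓔.E g x) ∂μ
      = ∫ x, (μ[f | MeasurableSpace.invariants T]) x * (starRingEnd ℂ) (𝓔.E g x) ∂μ := by
    have h3 := integral_condExp (μ := μ) (f := fun x => ContinuousLinearMap.mul ℝ ℂ (f x) ((starRingEnd ℂ) (𝓔.E g x))) hm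
    rw [integral_congr_ae h1] at h3
    simpa using h3.symm
  rw [h2, hk]
  have h4 : AEStronglyMeasurable (μ[f | MeasurableSpace.invariants T]) μ := integrable_condExp.aestronglyMeasurable
  refine le_trans ?_ (lintegral_sq_le h4)
  rw [ENNReal.ofReal_pow (norm_nonneg _), ofReal_norm]
  gcongr
  refine (enorm_integral_le_lintegral_enorm _).trans (le_of_eq ?_)
  refine lintegral_congr fun x => ?_
  rw [enorm_mul]
  have : ‖(starRingEnd ℂ) (𝓔.E g x)‖ₑ = 1 := by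
    rw [← ofReal_norm, RCLike.norm_conj, 𝓔.norm_one]
    simp
  rw [this, mul_one]

theorem unip_pow (U : Γ ≃ₗ[ℤ] Γ) {u v : Γ} (h1 : U u = u + v) (h2 : U v = v) (h : ℕ) :
    (U ^ h) u = u + h • v := by
  have h3 : ∀ n : ℕ, U (n • v) = n • v := fun n => by rw [map_nsmul, h2]
  induction h with
  | zero => simp
  | succ h ih =>
    rw [pow_succ']
    change U ((U ^ h) u) = _
    rw [ih, map_add, h1, h3, add_smul, one_smul]
    abel

theorem Nf_iter_pow (U : Γ ≃ₗ[ℤ] Γ) (r h : ℕ) (g : Γ) : (Nf U)^[r] ((U ^ h) g) = (U ^ h) ((Nf U)^[r] g) := by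
  induction h generalizing g with
  | zero => rfl
  | succ h ih =>
    rw [pow_succ]
    change (Nf U)^[r] ((U ^ h) (U g)) = (U ^ h) (U ((Nf U)^[r] g))
    rw [ih, Nf_iter_commute]

theorem lower_step (hT : MeasurePreserving T μ μ) (k : ℕ)
    (IH : ∀ (C : ℝ) (f : X → ℂ), 0 ≤ C → Bd μ C f → ∀ g, 𝓔.U ((Nf 𝓔.U)^[k + 1] g) = (Nf 𝓔.U)^[k + 1] g →
      (∀ x, 𝓔.E ((Nf 𝓔.U)^[k + 1] g) x = 1) →
      ENNReal.ofReal (‖∫ x, f x * (starRingEnd ℂ) (𝓔.E g x) ∂μ‖ ^ (2 ^ (k + 1))) ≤ hk μ T k f)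
    (q : ℕ) (hq : 0 < q) (C : ℝ) (f : X → ℂ) (hC : 0 ≤ C) (hf : Bd μ C f) (g : Γ)
    (hU : 𝓔.U ((Nf 𝓔.U)^[k + 2] g) = (Nf 𝓔.U)^[k + 2] g)
    (hE : ∀ x, 𝓔.E (q • (Nf 𝓔.U)^[k + 2] g) x = 1) :
    ENNReal.ofReal (‖∫ x, f x * (starRingEnd ℂ) (𝓔.E g x) ∂μ‖ ^ (2 ^ (k + 2))) ≤ q * hk μ T (k + 1) f := by
  have hF : Bd μ (C * 1) (fun x => f x * (starRingEnd ℂ) (𝓔.E g x)) := hf.mul (𝓔.bd g).conj hC
  have h1 := step_lower hT q (2 ^ (k + 1)) hq (hF.memLp 2)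
    (fun h => hk μ T k (fun x => (starRingEnd ℂ) (f x) * f (T^[h] x))) ?_
  · rw [show 2 ^ (k + 2) = 2 * 2 ^ (k + 1) by ring]
    exact h1
  · intro j _
    set h := q * j with hh
    set u := (Nf 𝓔.U)^[k + 1] g with hu
    set v := (Nf 𝓔.U)^[k + 2] g with hv
    have huv : 𝓔.U u = u + v := by
      rw [hv, Function.iterate_succ_apply', Nf, ← hu]
      abel
    have hgh : (Nf 𝓔.U)^[k + 1] ((𝓔.U ^ h) g - g) = h • v := by
      rw [Nf_iter_sub, Nf_iter_pow, ← hu, unip_pow 𝓔.U huv hU]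
      abel
    have hbd : Bd μ (C * C) (fun x => (starRingEnd ℂ) (f x) * f (T^[h] x)) :=
      hf.conj.mul (hf.comp (hT.iterate h)) hC
    have h2 := IH (C * C) _ (by positivity) hbd ((𝓔.U ^ h) g - g) (by
      rw [hgh, map_nsmul, hU]) (by
      intro x
      rw [hgh, hh, mul_comm q j, mul_smul, 𝓔.nsmul, hE, one_pow])
    refine le_trans (le_of_eq ?_) h2
    congr 3
    refine integral_congr_ae (ae_of_all _ fun x => ?_)
    simp only
    rw [𝓔.iterate, sub_eq_add_neg, 𝓔.add, 𝓔.neg]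
    simp only [map_mul, Complex.conj_conj]
    ring

theorem hk_lower_one (hT : MeasurePreserving T μ μ) (k : ℕ) :
    ∀ (C : ℝ) (f : X → ℂ), 0 ≤ C → Bd μ C f → ∀ g, 𝓔.U ((Nf 𝓔.U)^[k + 1] g) = (Nf 𝓔.U)^[k + 1] g →
      (∀ x, 𝓔.E ((Nf 𝓔.U)^[k + 1] g) x = 1) →
      ENNReal.ofReal (‖∫ x, f x * (starRingEnd ℂ) (𝓔.E g x) ∂μ‖ ^ (2 ^ (k + 1))) ≤ hk μ T k f := by
  induction k with
  | zero =>
    intro C f _ hf g _ hE
    exact lower_base 𝓔 hf g hE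
  | succ k ih =>
    intro C f hC hf g hU hE
    have := lower_step 𝓔 hT k ih 1 one_pos C f hC hf g hU (by simpa using hE)
    simpa using this

/-- Lower bound for the Host–Kra seminorms in terms of correlations with generalised
eigenfunctions. -/
theorem hk_lower (hT : MeasurePreserving T μ μ) (k q : ℕ) (hq : 0 < q) {C : ℝ} {f : X → ℂ} (hC : 0 ≤ C)
    (hf : Bd μ C f) (g : Γ)
    (hU : 𝓔.U ((Nf 𝓔.U)^[k + 2] g) = (Nf 𝓔.U)^[k + 2] g)
    (hE : ∀ x, 𝓔.E (q • (Nf 𝓔.U)^[k + 2] g) x = 1) (h0 : hk μ T (k + 1) f = 0) :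
    ∫ x, f x * (starRingEnd ℂ) (𝓔.E g x) ∂μ = 0 := by
  have := lower_step 𝓔 hT k (hk_lower_one 𝓔 hT k) q hq C f hC hf g hU hE
  rw [h0, mul_zero, nonpos_iff_eq_zero, ENNReal.ofReal_eq_zero] at this
  have h1 : ‖∫ x, f x * (starRingEnd ℂ) (𝓔.E g x) ∂μ‖ ^ (2 ^ (k + 2)) = 0 :=
    le_antisymm this (by positivity)
  rw [pow_eq_zero_iff (by positivity), norm_eq_zero] at h1
  exact h1

end CharSys

end Mean

end Pool.Agent.H767R2
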