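import Mathlib

set_option autoImplicit false

namespace Pool.Agent.H767R2

open Finset Filter Topology

/-- `e(t) = exp(2π i t)` -/
noncomputable def ee (t : ℝ) : ℂ := Complex.exp (2 * Real.pi * t * Complex.I)

theorem ee_add (s t : ℝ) : ee (s + t) = ee s * ee t := by
  rw [ee, ee, ee, ← Complex.exp_add]; congr 1; push_cast; ring

theorem norm_ee (t : ℝ) : ‖ee t‖ = 1 := by
  rw [ee]
  have : (2 * Real.pi * t * Complex.I : ℂ) = ((2 * Real.pi * t : ℝ) : ℂ) * Complex.I := by push_cast; ring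
  rw [this, Complex.norm_exp_ofReal_mul_I]

theorem ee_int (n : ℤ) : ee (n : ℝ) = 1 := by
  rw [ee, Complex.exp_eq_one_iff]
  exact ⟨n, by push_cast; ring⟩

theorem ee_zero : ee 0 = 1 := by have := ee_int 0; simpa using this

theorem ee_neg (t : ℝ) : ee (-t) = (starRingEnd ℂ) (ee t) := by
  rw [ee, ee, ← Complex.exp_conj]
  congr 1
  rw [map_mul, map_mul, map_mul, Complex.conj_I, Complex.conj_ofReal, Complex.conj_ofReal, map_ofNat]
  push_cast
  ring

theorem ee_sub (s t : ℝ) : ee (s - t) = ee s * (starRingEnd ℂ) (ee t) := by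
  rw [sub_eq_add_neg, ee_add, ee_neg]

theorem ee_eq_one_iff (t : ℝ) : ee t = 1 ↔ ∃ n : ℤ, t = n := by
  rw [ee, Complex.exp_eq_one_iff]
  constructor
  · rintro ⟨n, hn⟩
    refine ⟨n, ?_⟩
    have h1 : (2 * Real.pi * Complex.I : ℂ) ≠ 0 := by
      simp [Real.pi_ne_zero]
    have h2 : (t : ℂ) = (n : ℂ) := by
      apply mul_left_cancel₀ h1
      rw [← mul_comm (n : ℂ), ← hn]; ring
    exact_mod_cast h2
  · rintro ⟨n, rfl⟩
    exact ⟨n, by push_cast; ring⟩

/-- Cesàro averages of a complex sequence. -/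
noncomputable def cav (a : ℕ → ℂ) (N : ℕ) : ℂ := (1 / (N : ℂ)) * ∑ n ∈ range N, a n

theorem norm_sum_le_card {a : ℕ → ℂ} (ha : ∀ n, ‖a n‖ ≤ 1) (s : Finset ℕ) : ‖∑ n ∈ s, a n‖ ≤ s.card := by
  refine (norm_sum_le _ _).trans ?_
  refine (Finset.sum_le_sum fun n _ => ha n).trans ?_
  simp

theorem tendsto_cav_iff (a : ℕ → ℂ) : Tendsto (cav a) atTop (𝓝 0) ↔
    Tendsto (fun N : ℕ => ‖∑ n ∈ range N, a n‖ / N) atTop (𝓝 0) := by
  rw [tendsto_zero_iff_norm_tendsto_zero]
  refine tendsto_congr fun N => ?_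
  rw [cav, norm_mul, norm_div, norm_one, Complex.norm_natCast]
  ring

/-- `(1/N) ∑_{n<N} a (n+h)` differs little. -/
theorem shift_sum_le {a : ℕ → ℂ} (ha : ∀ n, ‖a n‖ ≤ 1) (N h : ℕ) :
    ‖∑ n ∈ range N, a (n + h) - ∑ n ∈ range N, a n‖ ≤ 2 * h := by
  have h1 : ∑ n ∈ range N, a (n + h) + ∑ n ∈ range h, a n = ∑ n ∈ range N, a n + ∑ n ∈ range h, a (N + n) := by
    rw [← Finset.sum_range_add a N h, add_comm N h, Finset.sum_range_add a h N, add_comm]
    congr 1
    exact Finset.sum_congr rfl fun n _ => by rw [add_comm]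
  have h2 : ∑ n ∈ range N, a (n + h) - ∑ n ∈ range N, a n
      = ∑ n ∈ range h, a (N + n) - ∑ n ∈ range h, a n := by
    linear_combination h1
  rw [h2]
  refine (norm_sub_le _ _).trans ?_
  have h3 := norm_sum_le_card (a := fun n => a (N + n)) (fun n => ha _) (range h)
  have h4 := norm_sum_le_card ha (range h)
  rw [card_range] at h3 h4
  linarith

/-- van der Corput: if all correlations average to zero, so does the sequence. -/
theorem vdc {a : ℕ → ℂ} (ha : ∀ n, ‖a n‖ ≤ 1)
    (hcor : ∀ h : ℕ, 1 ≤ h → Tendsto (cav fun n => a (n + h) * (starRingEnd ℂ) (a n)) atTop (𝓝 0)) :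
    Tendsto (cav a) atTop (𝓝 0) := by
  rw [tendsto_cav_iff]
  -- correlation sums for pairs (h, h')
  have hpair : ∀ h h' : ℕ, h ≠ h' →
      Tendsto (fun N : ℕ => ‖∑ n ∈ range N, a (n + h) * (starRingEnd ℂ) (a (n + h'))‖ / N) atTop (𝓝 0) := by
    have key : ∀ h h' : ℕ, h' < h →
        Tendsto (fun N : ℕ => ‖∑ n ∈ range N, a (n + h) * (starRingEnd ℂ) (a (n + h'))‖ / N) atTop (𝓝 0) := by
      intro h h' hlt
      set b : ℕ → ℂ := fun n => a (n + (h - h')) * (starRingEnd ℂ) (a n) with hb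
      have hbn : ∀ n, ‖b n‖ ≤ 1 := by
        intro n
        rw [hb]; simp only [norm_mul, RCLike.norm_conj]
        exact mul_le_one₀ (ha _) (norm_nonneg _) (ha _)
      have h1 := (tendsto_cav_iff b).mp (hcor (h - h') (by omega))
      have h2 : Tendsto (fun N : ℕ => (2 * h' : ℝ) / N) atTop (𝓝 0) :=
        tendsto_const_div_atTop_nhds_zero_nat _
      have h3 := h1.add h2
      rw [add_zero] at h3
      refine squeeze_zero (fun N => by positivity) (fun N => ?_) h3
      rw [← add_div]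
      gcongr
      have e1 : ∑ n ∈ range N, a (n + h) * (starRingEnd ℂ) (a (n + h')) = ∑ n ∈ range N, b (n + h') := by
        refine Finset.sum_congr rfl fun n _ => ?_
        rw [hb]; simp only
        rw [show n + h' + (h - h') = n + h by omega]
      rw [e1]
      have h4 := shift_sum_le hbn N h'
      calc ‖∑ n ∈ range N, b (n + h')‖ = ‖∑ n ∈ range N, b n + (∑ n ∈ range N, b (n + h') - ∑ n ∈ range N, b n)‖ := by
            congr 1; ring
        _ ≤ ‖∑ n ∈ range N, b n‖ + 2 * h' := (norm_add_le _ _).trans (by linarith)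
    intro h h' hne
    rcases lt_or_gt_of_ne hne with hlt | hlt
    · have := key h' h hlt
      refine this.congr fun N => ?_
      congr 1
      rw [← RCLike.norm_conj, map_sum]
      congr 1
      refine Finset.sum_congr rfl fun n _ => ?_
      rw [map_mul, Complex.conj_conj, mul_comm]
    · exact key h h' hlt
  rw [Metric.tendsto_atTop]
  intro ε hε
  obtain ⟨H, hH⟩ : ∃ H : ℕ, 0 < H ∧ (1 : ℝ) / H < ε ^ 2 / 16 := by
    obtain ⟨H, hH⟩ := exists_nat_gt (16 / ε ^ 2)
    have hHpos : (0 : ℝ) < H := lt_trans (by positivity) hH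
    refine ⟨H, by exact_mod_cast hHpos, ?_⟩
    rw [div_lt_iff₀ hHpos]
    rw [div_lt_iff₀ (by positivity)] at hH
    nlinarith
  obtain ⟨hHpos, hHε⟩ := hH
  have hHR : (0 : ℝ) < H := by exact_mod_cast hHpos
  -- off-diagonal sum tends to zero
  set P : Finset (ℕ × ℕ) := (range H ×ˢ range H).filter (fun x => x.1 ≠ x.2) with hP
  have hoff : Tendsto (fun N : ℕ => ∑ x ∈ P,
      ‖∑ n ∈ range N, a (n + x.1) * (starRingEnd ℂ) (a (n + x.2))‖ / N) atTop (𝓝 0) := by
    have : (0 : ℝ) = ∑ _x ∈ P, (0 : ℝ) := by simp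
    rw [this]
    exact tendsto_finsetSum _ fun x hx => hpair x.1 x.2 (Finset.mem_filter.mp hx).2
  have hHN : Tendsto (fun N : ℕ => (2 * H : ℝ) / N) atTop (𝓝 0) := tendsto_const_div_atTop_nhds_zero_nat _
  obtain ⟨N1, hN1⟩ := (Metric.tendsto_atTop.mp hoff) (ε ^ 2 / 16) (by positivity)
  obtain ⟨N2, hN2⟩ := (Metric.tendsto_atTop.mp hHN) (ε / 2) (by positivity)
  refine ⟨max (max N1 N2) 1, fun N hN => ?_⟩
  have hN1' := hN1 N (le_trans (le_trans (le_max_left _ _) (le_max_left _ _)) hN)
  have hN2' := hN2 N (le_trans (le_trans (le_max_right _ _) (le_max_left _ _)) hN)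
  have hNpos : (0 : ℝ) < N := by
    have : 1 ≤ N := le_trans (le_max_right _ _) hN
    exact_mod_cast this
  rw [dist_zero_right, Real.norm_of_nonneg (by positivity)] at hN1' hN2'
  rw [dist_zero_right, Real.norm_of_nonneg (by positivity)]
  -- averaged sum
  set B : ℂ := ∑ n ∈ range N, ∑ h ∈ range H, a (n + h) with hB
  have hBa : ‖(H : ℂ) * ∑ n ∈ range N, a n - B‖ ≤ H * (2 * H) := by
    rw [hB, Finset.sum_comm]
    have e1 : (H : ℂ) * ∑ n ∈ range N, a n = ∑ h ∈ range H, ∑ n ∈ range N, a n := by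
      rw [Finset.sum_const, card_range, nsmul_eq_mul]
    rw [e1, ← Finset.sum_sub_distrib]
    refine (norm_sum_le _ _).trans ?_
    calc ∑ h ∈ range H, ‖∑ n ∈ range N, a n - ∑ n ∈ range N, a (n + h)‖
        ≤ ∑ h ∈ range H, (2 * H : ℝ) := by
          refine Finset.sum_le_sum fun h hh => ?_
          rw [norm_sub_rev]
          refine (shift_sum_le ha N h).trans ?_
          have : (h : ℝ) ≤ H := by exact_mod_cast (Finset.mem_range.mp hh).le
          linarith
      _ = H * (2 * H) := by rw [Finset.sum_const, card_range, nsmul_eq_mul]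
  have hCS : ‖B‖ ^ 2 ≤ N * ∑ n ∈ range N, ‖∑ h ∈ range H, a (n + h)‖ ^ 2 := by
    have h1 : ‖B‖ ≤ ∑ n ∈ range N, ‖∑ h ∈ range H, a (n + h)‖ := norm_sum_le _ _
    have h2 := sq_sum_le_card_mul_sum_sq (s := range N) (f := fun n => ‖∑ h ∈ range H, a (n + h)‖)
    rw [card_range] at h2
    calc ‖B‖ ^ 2 ≤ (∑ n ∈ range N, ‖∑ h ∈ range H, a (n + h)‖) ^ 2 := by gcongr
      _ ≤ _ := h2
  have hexp : (∑ n ∈ range N, ‖∑ h ∈ range H, a (n + h)‖ ^ 2 : ℝ)
      ≤ H * N + ∑ x ∈ P, ‖∑ n ∈ range N, a (n + x.1) * (starRingEnd ℂ) (a (n + x.2))‖ := by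
    have e1 : ((∑ n ∈ range N, ‖∑ h ∈ range H, a (n + h)‖ ^ 2 : ℝ) : ℂ)
        = ∑ x ∈ range H ×ˢ range H, ∑ n ∈ range N, a (n + x.1) * (starRingEnd ℂ) (a (n + x.2)) := by
      rw [Finset.sum_comm]
      push_cast
      refine Finset.sum_congr rfl fun n _ => ?_
      rw [← Complex.mul_conj', map_sum, Finset.sum_mul_sum, Finset.sum_product]
    have e2 : (∑ n ∈ range N, ‖∑ h ∈ range H, a (n + h)‖ ^ 2 : ℝ)
        = ‖((∑ n ∈ range N, ‖∑ h ∈ range H, a (n + h)‖ ^ 2 : ℝ) : ℂ)‖ := by
      rw [Complex.norm_real, Real.norm_of_nonneg (Finset.sum_nonneg fun _ _ => by positivity)]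
    rw [e2, e1]
    refine (norm_sum_le _ _).trans ?_
    rw [← Finset.sum_filter_add_sum_filter_not (range H ×ˢ range H) (fun x => x.1 ≠ x.2)]
    rw [add_comm]
    gcongr
    calc ∑ x ∈ (range H ×ˢ range H).filter (fun x => ¬ x.1 ≠ x.2),
          ‖∑ n ∈ range N, a (n + x.1) * (starRingEnd ℂ) (a (n + x.2))‖
        ≤ ∑ x ∈ (range H ×ˢ range H).filter (fun x => ¬ x.1 ≠ x.2), (N : ℝ) := by
          refine Finset.sum_le_sum fun x _ => ?_
          have := norm_sum_le_card (a := fun n => a (n + x.1) * (starRingEnd ℂ) (a (n + x.2)))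
            (fun n => by
              simp only [norm_mul, RCLike.norm_conj]
              exact mul_le_one₀ (ha _) (norm_nonneg _) (ha _)) (range N)
          rwa [card_range] at this
      _ ≤ H * N := by
          rw [Finset.sum_const, nsmul_eq_mul]
          gcongr
          have h1 : ((range H ×ˢ range H).filter (fun x : ℕ × ℕ => ¬ x.1 ≠ x.2)).card ≤ (range H).card := by
            apply Finset.card_le_card_of_injOn (fun x => x.1)
            · intro x hx
              have hx' := (Finset.mem_filter.mp (Finset.mem_coe.mp hx)).1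
              exact Finset.mem_coe.mpr (Finset.mem_product.mp hx').1
            · intro x hx y hy hxy
              have hx' := (Finset.mem_filter.mp (Finset.mem_coe.mp hx)).2
              have hy' := (Finset.mem_filter.mp (Finset.mem_coe.mp hy)).2
              rw [not_not] at hx' hy'
              simp only at hxy
              exact Prod.ext hxy (by rw [← hx', ← hy', hxy])
          rw [card_range] at h1
          exact_mod_cast h1
  -- combine
  have hBsq : (‖B‖ / (H * N)) ^ 2 ≤ ε ^ 2 / 8 := by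
    have h1 : ‖B‖ ^ 2 ≤ N * (H * N + ∑ x ∈ P, ‖∑ n ∈ range N, a (n + x.1) * (starRingEnd ℂ) (a (n + x.2))‖) :=
      hCS.trans (by gcongr)
    have h2 : ∑ x ∈ P, ‖∑ n ∈ range N, a (n + x.1) * (starRingEnd ℂ) (a (n + x.2))‖ ≤ ε ^ 2 / 16 * N := by
      rw [← Finset.sum_div] at hN1'
      rw [div_lt_iff₀ hNpos] at hN1'
      exact hN1'.le
    rw [div_pow, div_le_iff₀ (by positivity)]
    have h3 : ‖B‖ ^ 2 ≤ N * (H * N + ε ^ 2 / 16 * N) := h1.trans (by gcongr)
    have h4 : (H : ℝ) ≤ H ^ 2 * (ε ^ 2 / 16) := by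
      have := (div_lt_iff₀ hHR).mp hHε
      nlinarith
    have h5 : (1 : ℝ) ≤ H ^ 2 := by
      have : (1 : ℝ) ≤ H := by exact_mod_cast hHpos
      nlinarith
    have h6 : ε ^ 2 / 16 ≤ ε ^ 2 / 16 * H ^ 2 := by
      have : 0 ≤ ε ^ 2 / 16 := by positivity
      nlinarith
    calc ‖B‖ ^ 2 ≤ N * (H * N + ε ^ 2 / 16 * N) := h3
      _ = (H + ε ^ 2 / 16) * N ^ 2 := by ring
      _ ≤ (H ^ 2 * (ε ^ 2 / 16) + ε ^ 2 / 16 * H ^ 2) * N ^ 2 := by gcongr
      _ = ε ^ 2 / 8 * (H * N) ^ 2 := by ring
  have hBle : ‖B‖ / (H * N) < ε / 2 := by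
    have h1 : (‖B‖ / (H * N)) ^ 2 < (ε / 2) ^ 2 := lt_of_le_of_lt hBsq (by
      have : 0 < ε ^ 2 := by positivity
      nlinarith)
    exact lt_of_pow_lt_pow_left₀ 2 (by positivity) h1
  have hfin : H * ‖∑ n ∈ range N, a n‖ ≤ ‖B‖ + H * (2 * H) := by
    calc (H : ℝ) * ‖∑ n ∈ range N, a n‖ = ‖(H : ℂ) * ∑ n ∈ range N, a n‖ := by
          rw [norm_mul, Complex.norm_natCast]
      _ = ‖B + ((H : ℂ) * ∑ n ∈ range N, a n - B)‖ := by congr 1; ring
      _ ≤ ‖B‖ + H * (2 * H) := (norm_add_le _ _).trans (by linarith)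
  calc ‖∑ n ∈ range N, a n‖ / N = (H * ‖∑ n ∈ range N, a n‖) / (H * N) := by
        field_simp
    _ ≤ (‖B‖ + H * (2 * H)) / (H * N) := by gcongr
    _ = ‖B‖ / (H * N) + 2 * H / N := by field_simp
    _ < ε / 2 + ε / 2 := by linarith
    _ = ε := by ring

/-- geometric sums -/
theorem weyl_linear {α c : ℝ} (hα : Irrational α) : Tendsto (cav fun n => ee (α * n + c)) atTop (𝓝 0) := by
  rw [tendsto_cav_iff]
  have hz : ee α ≠ 1 := by
    intro h
    obtain ⟨n, hn⟩ := (ee_eq_one_iff α).mp h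
    exact hα ⟨n, by rw [hn]; simp⟩
  have hpow : ∀ n : ℕ, ee (α * n + c) = ee c * ee α ^ n := by
    intro n
    rw [ee_add, mul_comm]
    congr 1
    induction n with
    | zero => simp [ee_zero]
    | succ n ih => rw [pow_succ, ← ih, ← ee_add]; congr 1; push_cast; ring
  have hbound : ∀ N : ℕ, ‖∑ n ∈ range N, ee (α * n + c)‖ ≤ 2 / ‖ee α - 1‖ := by
    intro N
    simp_rw [hpow]
    rw [← Finset.mul_sum, geom_sum_eq hz, norm_mul, norm_ee, one_mul, norm_div]
    gcongr
    refine (norm_sub_le _ _).trans ?_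
    rw [norm_pow, norm_ee, one_pow, norm_one]
    norm_num
  refine squeeze_zero (fun N => by positivity) (fun N => ?_)
    (tendsto_const_div_atTop_nhds_zero_nat (2 / ‖ee α - 1‖))
  gcongr
  exact hbound N

open Polynomial in
/-- Weyl's theorem: irrational leading coefficient. -/
theorem weyl_leading (k : ℕ) : ∀ β : ℝ[X], β.natDegree = k + 1 → Irrational β.leadingCoeff →
    Tendsto (cav fun n => ee (β.eval (n : ℝ))) atTop (𝓝 0) := by
  induction k with
  | zero =>
    intro β hdeg hirr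
    have h1 : β = Polynomial.C (β.coeff 1) * Polynomial.X + Polynomial.C (β.coeff 0) :=
      Polynomial.eq_X_add_C_of_natDegree_le_one (by omega)
    have h2 : β.leadingCoeff = β.coeff 1 := by rw [Polynomial.leadingCoeff, hdeg]
    rw [h2] at hirr
    refine (weyl_linear (c := β.coeff 0) hirr).congr fun N => ?_
    rw [cav, cav]
    congr 1
    refine Finset.sum_congr rfl fun n _ => ?_
    congr 1
    conv_rhs => rw [h1]
    simp
  | succ k ih =>
    intro β hdeg hirr
    apply vdc (fun n => (norm_ee _).le)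
    intro h hh
    set γ : ℝ[X] := Polynomial.taylor (h : ℝ) β - β with hγ
    have hcoef : γ.coeff (k + 1) = (k + 2 : ℝ) * h * β.leadingCoeff := by
      rw [hγ, Polynomial.coeff_sub, Polynomial.taylor_coeff]
      have hd : (Polynomial.hasseDeriv (k + 1) β).natDegree < 2 := by
        have := Polynomial.natDegree_hasseDeriv_le β (k + 1)
        omega
      rw [Polynomial.eval_eq_sum_range' hd, Finset.sum_range_succ, Finset.sum_range_one]
      rw [Polynomial.hasseDeriv_coeff, Polynomial.hasseDeriv_coeff, Polynomial.leadingCoeff, hdeg]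
      rw [zero_add, Nat.choose_self, show 1 + (k + 1) = k + 1 + 1 by ring, Nat.choose_succ_self_right]
      push_cast
      ring
    have hhi : ∀ j, k + 1 < j → γ.coeff j = 0 := by
      intro j hj
      rw [hγ, Polynomial.coeff_sub, Polynomial.taylor_coeff]
      rcases eq_or_lt_of_le (Nat.succ_le_of_lt hj) with h1 | h1
      · have hd : (Polynomial.hasseDeriv j β).natDegree < 1 := by
          have := Polynomial.natDegree_hasseDeriv_le β j
          omega
        rw [Polynomial.eval_eq_sum_range' hd, Finset.sum_range_one, Polynomial.hasseDeriv_coeff]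
        simp
      · rw [Polynomial.hasseDeriv_eq_zero_of_lt_natDegree β j (by omega), Polynomial.eval_zero,
          Polynomial.coeff_eq_zero_of_natDegree_lt (by omega), sub_zero]
    have hh0 : (h : ℝ) ≠ 0 := by exact_mod_cast (by omega : h ≠ 0)
    have hirr2 : Irrational (γ.coeff (k + 1)) := by
      rw [hcoef]
      have h1 : ((k + 2 : ℝ) * h * β.leadingCoeff) = (((k + 2) * h : ℕ) : ℝ) * β.leadingCoeff := by
        push_cast; ring
      rw [h1]
      exact Irrational.natCast_mul hirr (by positivity)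
    have hdeg2 : γ.natDegree = k + 1 := by
      apply le_antisymm
      · rw [Polynomial.natDegree_le_iff_coeff_eq_zero]
        exact fun j hj => hhi j hj
      · apply Polynomial.le_natDegree_of_ne_zero
        exact hirr2.ne_zero
    have := ih γ hdeg2 (by rw [Polynomial.leadingCoeff, hdeg2]; exact hirr2)
    refine this.congr fun N => ?_
    rw [cav, cav]
    congr 1
    refine Finset.sum_congr rfl fun n _ => ?_
    rw [← ee_sub]
    congr 1
    rw [hγ, Polynomial.eval_sub, Polynomial.taylor_eval]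
    push_cast
    ring

/-- splitting into residue classes -/
theorem cav_of_residues {a : ℕ → ℂ} (ha : ∀ n, ‖a n‖ ≤ 1) {q : ℕ} (hq : 0 < q)
    (h : ∀ r < q, Tendsto (cav fun n => a (q * n + r)) atTop (𝓝 0)) : Tendsto (cav a) atTop (𝓝 0) := by
  rw [tendsto_cav_iff]
  have hdiv : Tendsto (fun N : ℕ => N / q) atTop atTop := Nat.tendsto_div_const_atTop hq.ne'
  have h1 : Tendsto (fun N : ℕ => ∑ r ∈ range q, ‖∑ n ∈ range (N / q), a (q * n + r)‖ / ((N / q : ℕ) : ℝ))
      atTop (𝓝 0) := by
    have : (0 : ℝ) = ∑ _r ∈ range q, (0 : ℝ) := by simp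
    rw [this]
    refine tendsto_finsetSum _ fun r hr => ?_
    exact ((tendsto_cav_iff _).mp (h r (Finset.mem_range.mp hr))).comp hdiv
  have h2 : Tendsto (fun N : ℕ => (q : ℝ) / N) atTop (𝓝 0) := tendsto_const_div_atTop_nhds_zero_nat _
  have h3 := h1.add h2
  rw [add_zero] at h3
  have hblock : ∀ M : ℕ, ∑ n ∈ range (q * M), a n = ∑ r ∈ range q, ∑ n ∈ range M, a (q * n + r) := by
    intro M
    induction M with
    | zero => simp
    | succ M ih =>
      rw [Nat.mul_succ, Finset.sum_range_add, ih, ← Finset.sum_add_distrib]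
      refine Finset.sum_congr rfl fun r _ => ?_
      rw [Finset.sum_range_succ]
  refine squeeze_zero' (Eventually.of_forall fun N => by positivity) ?_ h3
  filter_upwards [eventually_ge_atTop q] with N hN
  have hNpos : (0 : ℝ) < N := by
    have : 0 < N := lt_of_lt_of_le hq hN
    exact_mod_cast this
  have hMpos : 0 < N / q := Nat.div_pos hN hq
  have hMR : (0 : ℝ) < ((N / q : ℕ) : ℝ) := by exact_mod_cast hMpos
  have hsplit : ∑ n ∈ range N, a n = ∑ n ∈ range (q * (N / q)), a n
      + ∑ n ∈ range (N % q), a (q * (N / q) + n) := by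
    rw [← Finset.sum_range_add, Nat.div_add_mod]
  have hrem : ‖∑ n ∈ range (N % q), a (q * (N / q) + n)‖ ≤ q := by
    have := norm_sum_le_card (a := fun n => a (q * (N / q) + n)) (fun n => ha _) (range (N % q))
    rw [card_range] at this
    refine this.trans ?_
    exact_mod_cast (Nat.mod_lt N hq).le
  rw [hsplit, hblock]
  calc ‖∑ r ∈ range q, ∑ n ∈ range (N / q), a (q * n + r) + ∑ n ∈ range (N % q), a (q * (N / q) + n)‖ / N
      ≤ (∑ r ∈ range q, ‖∑ n ∈ range (N / q), a (q * n + r)‖ + q) / N := by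
        gcongr
        exact (norm_add_le _ _).trans (add_le_add (norm_sum_le _ _) hrem)
    _ = (∑ r ∈ range q, ‖∑ n ∈ range (N / q), a (q * n + r)‖) / N + q / N := add_div _ _ _
    _ ≤ (∑ r ∈ range q, ‖∑ n ∈ range (N / q), a (q * n + r)‖) / ((N / q : ℕ) : ℝ) + q / N := by
        gcongr
        exact_mod_cast Nat.div_le_self N q
    _ = _ := by rw [Finset.sum_div]

open Polynomial in
/-- **Weyl's theorem**: some non-constant coefficient is irrational. -/
theorem weyl_poly (β : ℝ[X]) (h : ∃ i, 1 ≤ i ∧ Irrational (β.coeff i)) :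
    Tendsto (cav fun n => ee (β.eval (n : ℝ))) atTop (𝓝 0) := by
  classical
  -- the largest index with irrational coefficient
  obtain ⟨i, hi1, hirr, hmax⟩ : ∃ i, 1 ≤ i ∧ Irrational (β.coeff i) ∧
      ∀ j, i < j → ¬ Irrational (β.coeff j) := by
    have hfin : ∀ j, Irrational (β.coeff j) → j ≤ β.natDegree := by
      intro j hj
      by_contra hcon
      push Not at hcon
      rw [Polynomial.coeff_eq_zero_of_natDegree_lt hcon] at hj
      exact hj.ne_zero rfl
    set S := (Finset.range (β.natDegree + 1)).filter (fun j => 1 ≤ j ∧ Irrational (β.coeff j)) with hS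
    obtain ⟨i0, hi0⟩ := h
    have hSne : S.Nonempty := ⟨i0, Finset.mem_filter.mpr
      ⟨Finset.mem_range.mpr (Nat.lt_succ_of_le (hfin i0 hi0.2)), hi0⟩⟩
    have hm := Finset.max'_mem S hSne
    have hm2 := (Finset.mem_filter.mp hm).2
    refine ⟨S.max' hSne, hm2.1, hm2.2, fun j hj hjirr => ?_⟩
    have : j ∈ S := Finset.mem_filter.mpr
      ⟨Finset.mem_range.mpr (Nat.lt_succ_of_le (hfin j hjirr)), by omega, hjirr⟩
    have := Finset.le_max' S j this
    omega
  -- rational coefficients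
  have hrat : ∀ j, ∃ r : ℚ, i < j → β.coeff j = r := by
    intro j
    by_cases hj : i < j
    · have := hmax j hj
      rw [Irrational, not_not] at this
      obtain ⟨r, hr⟩ := this
      exact ⟨r, fun _ => hr.symm⟩
    · exact ⟨0, fun h => absurd h hj⟩
  choose r hr using hrat
  set q : ℕ := ∏ j ∈ Finset.range (β.natDegree + 1), (r j).den with hq
  have hqpos : 0 < q := Finset.prod_pos fun j _ => (r j).den_pos
  have hqint : ∀ j, i < j → j ≤ β.natDegree → ∃ z : ℤ, (q : ℝ) * β.coeff j = z := by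
    intro j hj hjd
    obtain ⟨c, hc⟩ : (r j).den ∣ q :=
      Finset.dvd_prod_of_mem _ (Finset.mem_range.mpr (Nat.lt_succ_of_le hjd))
    refine ⟨c * (r j).num, ?_⟩
    rw [hr j hj, hc]
    have h1 : (r j : ℝ) = (r j).num / (r j).den := by
      exact_mod_cast (Rat.num_div_den (r j)).symm
    have h2 : ((r j).den : ℝ) ≠ 0 := by exact_mod_cast (r j).den_ne_zero
    rw [h1]
    push_cast
    field_simp
  -- low part
  set lo : ℝ[X] := ∑ j ∈ Finset.range (i + 1), Polynomial.monomial j (β.coeff j) with hlo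
  have hlocoef : ∀ j, lo.coeff j = if j < i + 1 then β.coeff j else 0 := by
    intro j
    rw [hlo]
    simp only [Polynomial.finsetSum_coeff, Polynomial.coeff_monomial]
    rw [Finset.sum_ite_eq']
    simp only [Finset.mem_range]
  have hlodeg : lo.natDegree = i := by
    apply le_antisymm
    · rw [Polynomial.natDegree_le_iff_coeff_eq_zero]
      intro j hj
      rw [hlocoef, if_neg (by omega)]
    · apply Polynomial.le_natDegree_of_ne_zero
      rw [hlocoef, if_pos (by omega)]
      exact hirr.ne_zero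
  refine cav_of_residues (fun n => (norm_ee _).le) hqpos fun s hs => ?_
  -- comparison polynomial
  set hi : ℝ[X] := β - lo with hhi
  have hhicoef : ∀ j, hi.coeff j = if i < j then β.coeff j else 0 := by
    intro j
    rw [hhi, Polynomial.coeff_sub, hlocoef]
    by_cases hj : i < j
    · rw [if_pos hj, if_neg (by omega), sub_zero]
    · rw [if_neg hj, if_pos (by omega), sub_self]
  have hdiff : ∀ n : ℕ, ∃ z : ℤ, hi.eval (((q * n + s : ℕ) : ℝ)) - hi.eval (s : ℝ) = z := by
    intro n
    have hd : hi.natDegree < β.natDegree + 1 := by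
      rw [Nat.lt_succ_iff, Polynomial.natDegree_le_iff_coeff_eq_zero]
      intro j hj
      rw [hhicoef]
      split_ifs
      · exact Polynomial.coeff_eq_zero_of_natDegree_lt hj
      · rfl
    rw [Polynomial.eval_eq_sum_range' hd, Polynomial.eval_eq_sum_range' hd, ← Finset.sum_sub_distrib]
    have hterm : ∀ j ∈ Finset.range (β.natDegree + 1), ∃ z : ℤ,
        hi.coeff j * (((q * n + s : ℕ) : ℝ)) ^ j - hi.coeff j * (s : ℝ) ^ j = z := by
      intro j hj
      rw [hhicoef]
      split_ifs with hij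
      · obtain ⟨z, hz⟩ := hqint j hij (Nat.lt_succ_iff.mp (Finset.mem_range.mp hj))
        have h1 : ((q : ℤ) * n) ∣ ((q * n + s : ℤ) ^ j - (s : ℤ) ^ j) := by
          have := sub_dvd_pow_sub_pow ((q : ℤ) * n + s) (s : ℤ) j
          rwa [add_sub_cancel_right] at this
        obtain ⟨w, hw⟩ := h1
        refine ⟨z * (n * w), ?_⟩
        have hw' : (((q * n + s : ℕ) : ℝ)) ^ j - (s : ℝ) ^ j = q * n * w := by
          have := congrArg (fun t : ℤ => (t : ℝ)) hw
          push_cast at this ⊢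
          exact this
        rw [← mul_sub, hw']
        push_cast
        rw [← hz]
        ring
      · exact ⟨0, by simp⟩
    choose! z hz using hterm
    exact ⟨∑ j ∈ Finset.range (β.natDegree + 1), z j, by
      push_cast
      exact Finset.sum_congr rfl fun j hj => by have := hz j hj; push_cast at this; exact this⟩
  set γ : ℝ[X] := lo.comp (Polynomial.C (q : ℝ) * Polynomial.X + Polynomial.C (s : ℝ))
      + Polynomial.C (hi.eval (s : ℝ)) with hγ
  have hqR : (q : ℝ) ≠ 0 := by exact_mod_cast hqpos.ne'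
  have hlin : (Polynomial.C (q : ℝ) * Polynomial.X + Polynomial.C (s : ℝ)).natDegree = 1 :=
    Polynomial.natDegree_linear hqR
  have hlinlc : (Polynomial.C (q : ℝ) * Polynomial.X + Polynomial.C (s : ℝ)).leadingCoeff = (q : ℝ) :=
    Polynomial.leadingCoeff_linear hqR
  have hcompdeg : (lo.comp (Polynomial.C (q : ℝ) * Polynomial.X + Polynomial.C (s : ℝ))).natDegree = i := by
    rw [Polynomial.natDegree_comp, hlodeg, hlin, mul_one]
  have hγdeg : γ.natDegree = i := by
    rw [hγ, Polynomial.natDegree_add_C, hcompdeg]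
  have hγlc : γ.leadingCoeff = β.coeff i * (q : ℝ) ^ i := by
    rw [Polynomial.leadingCoeff, hγdeg, hγ, Polynomial.coeff_add, Polynomial.coeff_C,
      if_neg (by omega), add_zero]
    have h1 : (lo.comp (Polynomial.C (q : ℝ) * Polynomial.X + Polynomial.C (s : ℝ))).coeff i
        = (lo.comp (Polynomial.C (q : ℝ) * Polynomial.X + Polynomial.C (s : ℝ))).leadingCoeff := by
      rw [Polynomial.leadingCoeff, hcompdeg]
    rw [h1, Polynomial.leadingCoeff_comp (by rw [hlin]; exact one_ne_zero), hlinlc,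
      Polynomial.leadingCoeff, hlodeg, hlocoef, if_pos (by omega)]
  have hγirr : Irrational γ.leadingCoeff := by
    rw [hγlc]
    have h1 : β.coeff i * (q : ℝ) ^ i = ((q ^ i : ℕ) : ℝ) * β.coeff i := by push_cast; ring
    rw [h1]
    exact Irrational.natCast_mul hirr (by positivity)
  have hmain := weyl_leading (i - 1) γ (by rw [hγdeg]; omega) hγirr
  refine hmain.congr fun N => ?_
  rw [cav, cav]
  congr 1
  refine Finset.sum_congr rfl fun n _ => ?_
  obtain ⟨z, hz⟩ := hdiff n
  have e1 : β.eval (((q * n + s : ℕ) : ℝ)) = γ.eval (n : ℝ) + z := by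
    have h1 : β = lo + hi := by rw [hhi]; ring
    have h2 : γ.eval (n : ℝ) = lo.eval (((q * n + s : ℕ) : ℝ)) + hi.eval (s : ℝ) := by
      rw [hγ, Polynomial.eval_add, Polynomial.eval_comp, Polynomial.eval_C]
      congr 2
      simp
    rw [h2, ← hz]
    conv_lhs => rw [h1]
    rw [Polynomial.eval_add]
    ring
  rw [e1, ee_add, ee_int, mul_one]

end Pool.Agent.H767R2
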