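import Mathlib
import Pool.Agent.H767R2.Weyl
import Pool.Agent.H767R2.HK

set_option autoImplicit false
set_option linter.unusedSectionVars false

namespace Pool.Agent.H767R2

open MeasureTheory Filter Topology
open scoped ENNReal InnerProductSpace

instance haarT_prob (D : ℕ) : IsProbabilityMeasure (haarT D) :=
  inferInstanceAs (IsProbabilityMeasure (Measure.pi fun _ => AddCircle.haarAddCircle))

instance haarT_haar (D : ℕ) : (haarT D).IsAddHaarMeasure :=
  inferInstanceAs (Measure.IsAddHaarMeasure (Measure.pi fun _ => AddCircle.haarAddCircle))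

/-- The pairing of an integer vector with a point of the torus. -/
def pr {D : ℕ} (m : Fin D → ℤ) (x : Fin D → UnitAddCircle) : UnitAddCircle := ∑ i, m i • x i

/-- `ev t = e(t)` on the circle. -/
noncomputable def ev (t : UnitAddCircle) : ℂ := (AddCircle.toCircle t : ℂ)

theorem ev_add (s t : UnitAddCircle) : ev (s + t) = ev s * ev t := by
  rw [ev, ev, ev, AddCircle.toCircle_add, Circle.coe_mul]

theorem ev_zero : ev 0 = 1 := by
  rw [ev, AddCircle.toCircle_zero, Circle.coe_one]

theorem norm_ev (t : UnitAddCircle) : ‖ev t‖ = 1 := by rw [ev, Circle.norm_coe]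

theorem ev_coe (c : ℝ) : ev (c : UnitAddCircle) = ee c := by
  rw [ev, AddCircle.toCircle_apply_mk, Circle.coe_exp, ee]
  congr 1
  push_cast
  ring

theorem continuous_ev : Continuous ev := by
  have h : Continuous (fun z : Circle => (z : ℂ)) := by fun_prop
  exact h.comp AddCircle.continuous_toCircle

theorem pr_add_left {D : ℕ} (m n : Fin D → ℤ) (x : Fin D → UnitAddCircle) :
    pr (m + n) x = pr m x + pr n x := by
  simp only [pr, Pi.add_apply, add_smul, Finset.sum_add_distrib]

theorem pr_add_right {D : ℕ} (m : Fin D → ℤ) (x y : Fin D → UnitAddCircle) :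
    pr m (x + y) = pr m x + pr m y := by
  simp only [pr, Pi.add_apply, smul_add, Finset.sum_add_distrib]

theorem pr_zero_left {D : ℕ} (x : Fin D → UnitAddCircle) : pr 0 x = 0 := by simp [pr]

theorem continuous_pr {D : ℕ} (m : Fin D → ℤ) : Continuous (pr m) := by
  unfold pr; fun_prop

/-- The character `χ_m` of the torus. -/
noncomputable def chi {D : ℕ} (m : Fin D → ℤ) (x : Fin D → UnitAddCircle) : ℂ := ev (pr m x)

theorem continuous_chi {D : ℕ} (m : Fin D → ℤ) : Continuous (chi m) :=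
  continuous_ev.comp (continuous_pr m)

theorem norm_chi {D : ℕ} (m : Fin D → ℤ) (x : Fin D → UnitAddCircle) : ‖chi m x‖ = 1 := norm_ev _

theorem chi_add {D : ℕ} (m n : Fin D → ℤ) (x : Fin D → UnitAddCircle) :
    chi (m + n) x = chi m x * chi n x := by rw [chi, pr_add_left, ev_add]; rfl

theorem chi_zero {D : ℕ} (x : Fin D → UnitAddCircle) : chi 0 x = 1 := by
  rw [chi, pr_zero_left, ev_zero]

theorem chi_neg {D : ℕ} (m : Fin D → ℤ) (x : Fin D → UnitAddCircle) :
    chi (-m) x = (starRingEnd ℂ) (chi m x) := by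
  have h1 : chi m x * chi (-m) x = 1 := by rw [← chi_add, add_neg_cancel, chi_zero]
  have h2 : chi m x * (starRingEnd ℂ) (chi m x) = 1 := by
    rw [Complex.mul_conj, Complex.normSq_eq_norm_sq, norm_chi]; simp
  have h3 : chi m x ≠ 0 := by
    intro h
    have := norm_chi m x
    rw [h, norm_zero] at this
    exact zero_ne_one this
  exact mul_left_cancel₀ h3 (h1.trans h2.symm)

theorem chi_bd {D : ℕ} (m : Fin D → ℤ) : Bd (haarT D) 1 (chi m) :=
  ⟨(continuous_chi m).aestronglyMeasurable, ae_of_all _ fun x => (norm_chi m x).le⟩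

theorem mFourier_eq_chi {D : ℕ} (m : Fin D → ℤ) (x : Fin D → UnitAddCircle) :
    UnitAddTorus.mFourier m x = chi m x := by
  change ∏ i, fourier (m i) (x i) = chi m x
  rw [chi, pr]
  have h : ∀ s : Finset (Fin D), ∏ i ∈ s, fourier (m i) (x i) = ev (∑ i ∈ s, m i • x i) := by
    classical
    intro s
    induction s using Finset.induction_on with
    | empty => simp [ev_zero]
    | insert i s hi ih =>
      rw [Finset.prod_insert hi, Finset.sum_insert hi, ih, ev_add, fourier_apply]
      rfl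
  exact h _

section Local

noncomputable local instance : MeasureSpace UnitAddCircle := ⟨AddCircle.haarAddCircle⟩

theorem haarT_eq_volume (D : ℕ) : haarT D = (volume : Measure (UnitAddTorus (Fin D))) := rfl

/-- Fourier approximation in `L²`. -/
theorem fourier_approx {D : ℕ} {f : (Fin D → UnitAddCircle) → ℂ} (hf : MemLp f 2 (haarT D)) {ε : ℝ} (hε : 0 < ε) :
    ∃ F : Finset (Fin D → ℤ), (∀ m ∈ F, ∫ x, f x * (starRingEnd ℂ) (chi m x) ∂(haarT D) ≠ 0) ∧
      ∫ x, ‖f x - ∑ m ∈ F, (∫ y, f y * (starRingEnd ℂ) (chi m y) ∂(haarT D)) * chi m x‖ ^ 2 ∂(haarT D) < ε := by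
  classical
  set g : Lp ℂ 2 (volume : Measure (UnitAddTorus (Fin D))) := MemLp.toLp f hf with hg
  have hcoef : ∀ m : Fin D → ℤ, UnitAddTorus.mFourierCoeff g m
      = ∫ x, f x * (starRingEnd ℂ) (chi m x) ∂(haarT D) := by
    intro m
    refine integral_congr_ae ?_
    filter_upwards [hf.coeFn_toLp] with x hx
    rw [smul_eq_mul, mul_comm, mFourier_eq_chi, chi_neg]
    congr 1
  have hsum := UnitAddTorus.hasSum_mFourier_series_L2 g
  have h1 : Tendsto (fun F : Finset (Fin D → ℤ) => ‖∑ m ∈ F, UnitAddTorus.mFourierCoeff g m •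
      UnitAddTorus.mFourierLp 2 m - g‖) atTop (𝓝 0) := by
    have := (tendsto_sub_nhds_zero_iff.mpr hsum).norm
    simpa using this
  have h2 := h1.eventually (gt_mem_nhds (Real.sqrt_pos.mpr hε))
  obtain ⟨F₀, hF₀⟩ := h2.exists
  set F := F₀.filter (fun m => UnitAddTorus.mFourierCoeff g m ≠ 0) with hF
  have h3 : ∑ m ∈ F₀, UnitAddTorus.mFourierCoeff g m • UnitAddTorus.mFourierLp 2 m
      = ∑ m ∈ F, UnitAddTorus.mFourierCoeff g m • UnitAddTorus.mFourierLp 2 m := by
    rw [hF, Finset.sum_filter]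
    refine Finset.sum_congr rfl fun m _ => ?_
    split_ifs with h
    · rfl
    · rw [not_not.mp h, zero_smul]
  rw [h3] at hF₀
  refine ⟨F, fun m hm => ?_, ?_⟩
  · rw [← hcoef]
    exact (Finset.mem_filter.mp hm).2
  · have h4 : ∫ x, ‖f x - ∑ m ∈ F, (∫ y, f y * (starRingEnd ℂ) (chi m y) ∂(haarT D)) * chi m x‖ ^ 2 ∂(haarT D)
        = ‖∑ m ∈ F, UnitAddTorus.mFourierCoeff g m • UnitAddTorus.mFourierLp 2 m - g‖ ^ 2 := by
      set w := ∑ m ∈ F, UnitAddTorus.mFourierCoeff g m • UnitAddTorus.mFourierLp 2 m - g with hw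
      have h5 : ‖w‖ ^ 2 = ∫ x, ‖w x‖ ^ 2 := by
        have := @inner_self_eq_norm_sq ℂ _ _ _ _ w
        rw [← this, L2.inner_def, ← integral_re (L2.integrable_inner w w)]
        refine integral_congr_ae (ae_of_all _ fun x => ?_)
        simp only [inner_self_eq_norm_sq]
      rw [h5]
      refine integral_congr_ae ?_
      have h6 : ∀ m ∈ F, (UnitAddTorus.mFourierCoeff g m • UnitAddTorus.mFourierLp 2 m : Lp ℂ 2 (volume : Measure (UnitAddTorus (Fin D))))
          =ᵐ[volume] fun x => UnitAddTorus.mFourierCoeff g m * chi m x := by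
        intro m _
        filter_upwards [Lp.coeFn_smul (UnitAddTorus.mFourierCoeff g m) (UnitAddTorus.mFourierLp 2 m),
          UnitAddTorus.coeFn_mFourierLp 2 m] with x hx1 hx2
        rw [hx1, Pi.smul_apply, hx2, smul_eq_mul, mFourier_eq_chi]
      have h7 : ((∑ m ∈ F, UnitAddTorus.mFourierCoeff g m • UnitAddTorus.mFourierLp 2 m : Lp ℂ 2 (volume : Measure (UnitAddTorus (Fin D)))) : UnitAddTorus (Fin D) → ℂ)
          =ᵐ[volume] fun x => ∑ m ∈ F, UnitAddTorus.mFourierCoeff g m * chi m x := by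
        have h8 := Lp.coeFn_finsetSum F (fun m => (UnitAddTorus.mFourierCoeff g m • UnitAddTorus.mFourierLp 2 m : Lp ℂ 2 (volume : Measure (UnitAddTorus (Fin D)))))
        have h9 : ∀ᵐ x, ∀ m ∈ F, (UnitAddTorus.mFourierCoeff g m • UnitAddTorus.mFourierLp 2 m : Lp ℂ 2 (volume : Measure (UnitAddTorus (Fin D)))) x = UnitAddTorus.mFourierCoeff g m * chi m x := by
          rw [Filter.eventually_all_finset]
          exact h6
        filter_upwards [h8, h9] with x hx1 hx2
        rw [hx1, Finset.sum_apply]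
        exact Finset.sum_congr rfl hx2
      filter_upwards [Lp.coeFn_sub (∑ m ∈ F, UnitAddTorus.mFourierCoeff g m • UnitAddTorus.mFourierLp 2 m) g,
        h7, hf.coeFn_toLp] with x hx1 hx2 hx3
      have hx4 : g x = f x := hx3
      rw [hw, hx1, Pi.sub_apply, hx2, hx4, norm_sub_rev]
      simp only [hcoef]
    rw [h4]
    calc ‖∑ m ∈ F, UnitAddTorus.mFourierCoeff g m • UnitAddTorus.mFourierLp 2 m - g‖ ^ 2
        < (Real.sqrt ε) ^ 2 := by gcongr
      _ = ε := Real.sq_sqrt hε.le

theorem integral_chi {D : ℕ} (m : Fin D → ℤ) (hm : m ≠ 0) : ∫ x, chi m x ∂(haarT D) = 0 := by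
  have h := UnitAddTorus.orthonormal_mFourier (d := Fin D)
  rw [orthonormal_iff_ite] at h
  have h1 := h 0 m
  rw [if_neg (fun h => hm h.symm)] at h1
  simp only [ContinuousMap.inner_toLp] at h1
  rw [← h1]
  refine integral_congr_ae (ae_of_all _ fun x => ?_)
  simp only [mFourier_eq_chi, chi_zero]
  simp

end Local

end Pool.Agent.H767R2
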