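import Mathlib
import Pool.Agent.H767R2.FourierT

set_option autoImplicit false
set_option linter.unusedSectionVars false

namespace Pool.Agent.H767R2

open MeasureTheory Filter Topology
open scoped ENNReal

section Perm

variable {X : Type*} [MeasurableSpace X] {μ : Measure X}

theorem zpow_measurePreserving (T : Equiv.Perm X) (h1 : MeasurePreserving T μ μ)
    (h2 : MeasurePreserving T.symm μ μ) (n : ℤ) : MeasurePreserving ⇑(T ^ n) μ μ := by
  cases n with
  | ofNat n =>
    rw [Int.ofNat_eq_natCast, zpow_natCast, ← Equiv.Perm.iterate_eq_pow]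
    exact h1.iterate n
  | negSucc n =>
    rw [zpow_negSucc, ← inv_pow, ← Equiv.Perm.iterate_eq_pow]
    exact h2.iterate (n + 1)

theorem CharSys.zpow {T : Equiv.Perm X} {Γ : Type*} [AddCommGroup Γ] (𝓔 : CharSys T Γ) (t : ℤ) (g : Γ) (x : X) :
    𝓔.E g ((T ^ t) x) = 𝓔.E ((𝓔.U ^ t) g) x := by
  induction t using Int.induction_on generalizing x with
  | zero => simp
  | succ n ih =>
    rw [zpow_add_one, Equiv.Perm.mul_apply, ih, 𝓔.comp, add_comm, zpow_one_add]
    rfl
  | pred n ih =>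
    have h1 : (T ^ (-(n : ℤ) - 1)) x = (T ^ (-(n : ℤ))) (T⁻¹ x) := by
      rw [zpow_sub_one, Equiv.Perm.mul_apply]
    have h2 : (𝓔.U ^ (-(n : ℤ) - 1)) g = 𝓔.U⁻¹ ((𝓔.U ^ (-(n : ℤ))) g) := by
      rw [show -(n : ℤ) - 1 = -1 + -n by ring, zpow_add, zpow_neg_one]
      rfl
    rw [h1, ih, h2]
    set g' := (𝓔.U ^ (-(n : ℤ))) g
    have h3 := 𝓔.comp (𝓔.U⁻¹ g') (T⁻¹ x)
    have h4 : T (T⁻¹ x) = x := Equiv.apply_symm_apply T x
    have h5 : 𝓔.U (𝓔.U⁻¹ g') = g' := LinearEquiv.apply_symm_apply 𝓔.U g'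
    rw [h4, h5] at h3
    exact h3.symm

end Perm

namespace WeylSystem

variable (W : WeylSystem)

/-- a real lift of `b` -/
noncomputable def bt (i : Fin W.D) : ℝ := Classical.choose (QuotientAddGroup.mk_surjective (W.b i))

theorem bt_spec (i : Fin W.D) : ((W.bt i : ℝ) : UnitAddCircle) = W.b i :=
  Classical.choose_spec (QuotientAddGroup.mk_surjective (W.b i))

theorem exists_inv : ∃ B : Matrix (Fin W.D) (Fin W.D) ℤ, W.A * B = 1 ∧ B * W.A = 1 := by
  have h := W.unipotent.isUnit_one_add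
  rw [add_sub_cancel] at h
  obtain ⟨u, hu⟩ := h
  exact ⟨↑u⁻¹, by rw [← hu]; exact u.mul_inv, by rw [← hu]; exact u.inv_mul⟩

/-- the inverse matrix -/
noncomputable def B : Matrix (Fin W.D) (Fin W.D) ℤ := Classical.choose W.exists_inv

theorem A_mul_B : W.A * W.B = 1 := (Classical.choose_spec W.exists_inv).1
theorem B_mul_A : W.B * W.A = 1 := (Classical.choose_spec W.exists_inv).2

/-- `m · b̃` -/
noncomputable def dotb (m : Fin W.D → ℤ) : ℝ := ∑ i, (m i : ℝ) * W.bt i

theorem dotb_add (m n : Fin W.D → ℤ) : W.dotb (m + n) = W.dotb m + W.dotb n := by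
  simp only [dotb, Pi.add_apply, Int.cast_add, add_mul, Finset.sum_add_distrib]

theorem dotb_coe (m : Fin W.D → ℤ) : ((W.dotb m : ℝ) : UnitAddCircle) = pr m W.b := by
  classical
  have h : ∀ s : Finset (Fin W.D), ((∑ i ∈ s, (m i : ℝ) * W.bt i : ℝ) : UnitAddCircle)
      = ∑ i ∈ s, m i • W.b i := by
    intro s
    induction s using Finset.induction_on with
    | empty => simp
    | insert i s hi ih =>
      rw [Finset.sum_insert hi, Finset.sum_insert hi, AddCircle.coe_add, ih, ← zsmul_eq_mul,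
        AddCircle.coe_zsmul, W.bt_spec]
  exact h _

/-- the action of `T` on generalised characters -/
noncomputable def Uadd : ((Fin W.D → ℤ) × ℝ) ≃+ ((Fin W.D → ℤ) × ℝ) where
  toFun g := (Matrix.vecMul g.1 W.A, g.2 + W.dotb g.1)
  invFun g := (Matrix.vecMul g.1 W.B, g.2 - W.dotb (Matrix.vecMul g.1 W.B))
  left_inv g := by
    ext1
    · simp [Matrix.vecMul_vecMul, W.A_mul_B]
    · simp [Matrix.vecMul_vecMul, W.A_mul_B]
  right_inv g := by
    ext1
    · simp [Matrix.vecMul_vecMul, W.B_mul_A]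
    · simp
  map_add' g h := by
    ext1
    · simp [Matrix.add_vecMul]
    · simp only [Prod.fst_add, Prod.snd_add, dotb_add]
      ring

theorem continuous_T : Continuous W.T := by
  refine continuous_pi fun i => ?_
  simp only [W.affine]
  fun_prop

/-- the linear part -/
def lin : (Fin W.D → UnitAddCircle) →+ (Fin W.D → UnitAddCircle) where
  toFun x i := ∑ j, W.A i j • x j
  map_zero' := by ext i; simp
  map_add' x y := by ext i; simp [Finset.sum_add_distrib]

theorem lin_apply (x : Fin W.D → UnitAddCircle) (i : Fin W.D) : W.lin x i = ∑ j, W.A i j • x j := rfl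

theorem T_eq (x : Fin W.D → UnitAddCircle) : W.T x = W.lin x + W.b := by
  ext i; rw [W.affine]; rfl

theorem measurePreserving_T : MeasurePreserving W.T (haarT W.D) (haarT W.D) := by
  have h1 : Continuous W.lin := by
    refine continuous_pi fun i => ?_
    simp only [W.lin_apply]
    fun_prop
  have h2 : Function.Surjective W.lin := by
    intro y
    obtain ⟨x, hx⟩ := W.T.surjective (y + W.b)
    refine ⟨x, ?_⟩
    rw [T_eq] at hx
    exact add_right_cancel hx
  have h3 : MeasurePreserving W.lin (haarT W.D) (haarT W.D) :=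
    AddMonoidHom.measurePreserving h1 h2 rfl
  have h4 : MeasurePreserving (fun x => x + W.b) (haarT W.D) (haarT W.D) :=
    measurePreserving_add_right _ _
  have h5 : ⇑W.T = (fun x => x + W.b) ∘ W.lin := by
    ext1 x
    exact W.T_eq x
  rw [h5]
  exact h4.comp h3

theorem measurePreserving_T_symm : MeasurePreserving W.T.symm (haarT W.D) (haarT W.D) := by
  set H : Homeomorph (Fin W.D → UnitAddCircle) (Fin W.D → UnitAddCircle) :=
    W.continuous_T.homeoOfEquivCompactToT2 with hH
  have h := W.measurePreserving_T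
  exact MeasurePreserving.symm H.toMeasurableEquiv h

theorem chi_T (m : Fin W.D → ℤ) (x : Fin W.D → UnitAddCircle) :
    chi m (W.T x) = ee (W.dotb m) * chi (Matrix.vecMul m W.A) x := by
  have h1 : pr m (W.T x) = pr (Matrix.vecMul m W.A) x + pr m W.b := by
    rw [W.T_eq, pr_add_right]
    congr 1
    simp only [pr, W.lin_apply, Matrix.vecMul, dotProduct, Finset.smul_sum, Finset.sum_smul, smul_smul]
    exact Finset.sum_comm
  rw [chi, h1, ev_add, ← W.dotb_coe, ev_coe, mul_comm]
  rfl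

/-- The character system of a Weyl system. -/
noncomputable def cs : CharSys (W.T : (Fin W.D → UnitAddCircle) → (Fin W.D → UnitAddCircle))
    ((Fin W.D → ℤ) × ℝ) where
  U := W.Uadd.toIntLinearEquiv
  E g x := ee g.2 * chi g.1 x
  meas g := ((continuous_chi g.1).measurable).const_mul _
  norm_one g x := by rw [norm_mul, norm_ee, norm_chi, mul_one]
  add g h x := by
    rw [Prod.fst_add, Prod.snd_add, ee_add, chi_add]; ring
  comp g x := by
    change ee g.2 * chi g.1 (W.T x) = ee (g.2 + W.dotb g.1) * chi (Matrix.vecMul g.1 W.A) x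
    rw [chi_T, ee_add]; ring

theorem cs_E (g : (Fin W.D → ℤ) × ℝ) (x : Fin W.D → UnitAddCircle) :
    W.cs.E g x = ee g.2 * chi g.1 x := rfl

theorem cs_U (g : (Fin W.D → ℤ) × ℝ) : W.cs.U g = (Matrix.vecMul g.1 W.A, g.2 + W.dotb g.1) := rfl

theorem Nf_cs (g : (Fin W.D → ℤ) × ℝ) :
    Nf W.cs.U g = (Matrix.vecMul g.1 (W.A - 1), W.dotb g.1) := by
  rw [Nf, cs_U]
  ext1
  · simp [Matrix.vecMul_sub]
  · simp

theorem Nf_iter_cs (g : (Fin W.D → ℤ) × ℝ) (r : ℕ) :
    ((Nf W.cs.U)^[r] g).1 = Matrix.vecMul g.1 ((W.A - 1) ^ r) := by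
  induction r with
  | zero => simp
  | succ r ih =>
    rw [Function.iterate_succ_apply', Nf_cs]
    simp only
    rw [ih, Matrix.vecMul_vecMul, pow_succ]

theorem nilpotent_cs : ∃ r : ℕ, ∀ g, (Nf W.cs.U)^[r] g = 0 := by
  obtain ⟨r, hr⟩ := W.unipotent
  refine ⟨r + 1, fun g => ?_⟩
  rw [Function.iterate_succ_apply', Nf_cs, Nf_iter_cs, hr, Matrix.vecMul_zero, Matrix.zero_vecMul]
  simp [dotb]

theorem cs_U_zero (c : ℝ) : W.cs.U (0, c) = (0, c) := by
  rw [cs_U]; simp [dotb]

end WeylSystem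

end Pool.Agent.H767R2
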