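import Mathlib
import Pool.Agent.H767R2.WeylSys

set_option autoImplicit false
set_option linter.unusedSectionVars false

namespace Pool.Agent.H767R2

open MeasureTheory Filter Topology
open scoped ENNReal

theorem CharSys.sum {X : Type*} [MeasurableSpace X] {T : X → X} {Γ : Type*} [AddCommGroup Γ]
    (𝓔 : CharSys T Γ) {ι : Type*} (s : Finset ι) (g : ι → Γ) (x : X) :
    𝓔.E (∑ i ∈ s, g i) x = ∏ i ∈ s, 𝓔.E (g i) x := by
  classical
  induction s using Finset.induction_on with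
  | empty => rw [Finset.sum_empty, Finset.prod_empty, 𝓔.zero]
  | insert i s hi ih => rw [Finset.sum_insert hi, Finset.prod_insert hi, 𝓔.add, ih]

/-- orthogonality estimate -/
theorem ortho_bound {X : Type*} [MeasurableSpace X] {μ : Measure X} [IsProbabilityMeasure μ]
    (e : ℕ → X → ℂ) (he : ∀ n, Bd μ 1 (e n)) (s : Finset ℕ) (d : ℕ)
    (R : ℕ → ℕ → Prop) [DecidableRel R]
    (h0 : ∀ n n', ¬ R n n' → ∫ x, e n x * (starRingEnd ℂ) (e n' x) ∂μ = 0)
    (hR : ∀ n ∈ s, (s.filter (fun n' => R n n')).card ≤ d) :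
    ∫ x, ‖∑ n ∈ s, e n x‖ ^ 2 ∂μ ≤ s.card * d := by
  have hint : ∀ n n', Integrable (fun x => e n x * (starRingEnd ℂ) (e n' x)) μ := fun n n' =>
    ((he n).mul (he n').conj zero_le_one).integrable
  have h1 : ((∫ x, ‖∑ n ∈ s, e n x‖ ^ 2 ∂μ : ℝ) : ℂ)
      = ∑ n ∈ s, ∑ n' ∈ s, ∫ x, e n x * (starRingEnd ℂ) (e n' x) ∂μ := by
    rw [← integral_complex_ofReal]
    rw [Finset.sum_congr rfl fun n _ => (integral_finsetSum s fun n' _ => hint n n').symm]
    rw [← integral_finsetSum s fun n _ => integrable_finsetSum s fun n' _ => hint n n']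
    refine integral_congr_ae (ae_of_all _ fun x => ?_)
    simp only
    rw [← Finset.sum_mul_sum, ← map_sum, Complex.mul_conj, Complex.normSq_eq_norm_sq]
  have h2 : ∀ n n', ‖∫ x, e n x * (starRingEnd ℂ) (e n' x) ∂μ‖ ≤ 1 := by
    intro n n'
    have h3 := ((he n).mul (he n').conj zero_le_one).bd
    have h4 := norm_integral_le_of_norm_le_const h3
    simpa using h4
  have h5 : ∫ x, ‖∑ n ∈ s, e n x‖ ^ 2 ∂μ = ‖∑ n ∈ s, ∑ n' ∈ s, ∫ x, e n x * (starRingEnd ℂ) (e n' x) ∂μ‖ := by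
    rw [← h1, Complex.norm_real, Real.norm_of_nonneg]
    exact integral_nonneg fun x => by positivity
  rw [h5]
  calc ‖∑ n ∈ s, ∑ n' ∈ s, ∫ x, e n x * (starRingEnd ℂ) (e n' x) ∂μ‖
      ≤ ∑ n ∈ s, ‖∑ n' ∈ s, ∫ x, e n x * (starRingEnd ℂ) (e n' x) ∂μ‖ := norm_sum_le _ _
    _ ≤ ∑ n ∈ s, (d : ℝ) := by
        refine Finset.sum_le_sum fun n hn => ?_
        have h6 : ∑ n' ∈ s, ∫ x, e n x * (starRingEnd ℂ) (e n' x) ∂μ
            = ∑ n' ∈ s.filter (fun n' => R n n'), ∫ x, e n x * (starRingEnd ℂ) (e n' x) ∂μ := by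
          rw [Finset.sum_filter]
          refine Finset.sum_congr rfl fun n' _ => ?_
          split_ifs with h
          · rfl
          · exact h0 n n' h
        rw [h6]
        refine (norm_sum_le _ _).trans ((Finset.sum_le_sum fun n' _ => h2 n n').trans ?_)
        rw [Finset.sum_const, nsmul_eq_mul, mul_one]
        exact_mod_cast hR n hn
    _ = s.card * d := by rw [Finset.sum_const, nsmul_eq_mul]

/-- values of additive functionals along a polynomial orbit are polynomial -/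
theorem orbit_poly {K : Type*} [Field K] [Algebra ℚ K] {Γ : Type*} [AddCommGroup Γ] {ι : Type*} (s : Finset ι)
    (p : ι → Polynomial ℤ) (U : Γ ≃ₗ[ℤ] Γ) (r : ℕ) (hU : ∀ v, (Nf U)^[r] v = 0) (g : ι → Γ) (φ : Γ →+ K) :
    ∃ Q : Polynomial K, ∀ n : ℕ, φ (∑ i ∈ s, (U ^ ((p i).eval (n : ℤ))) (g i)) = Q.eval (n : K) := by
  have hpoly : ∀ v : Γ, ∃ Q : Polynomial K, ∀ t : ℤ, φ ((U ^ t) v) = Q.eval (t : K) := fun v =>
    poly_of_unipotent U φ r v (hU v)
  choose Qf hQf using hpoly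
  refine ⟨∑ i ∈ s, (Qf (g i)).comp ((p i).map (Int.castRingHom K)), fun n => ?_⟩
  rw [map_sum, Polynomial.eval_finsetSum]
  refine Finset.sum_congr rfl fun i _ => ?_
  rw [hQf, Polynomial.eval_comp]
  congr 1
  rw [Polynomial.eval_map, ← map_natCast (Int.castRingHom K) n, Polynomial.eval₂_at_apply]
  simp

theorem cav_Icc {a : ℕ → ℂ} (ha : ∀ n, ‖a n‖ ≤ 1) (h : Tendsto (cav a) atTop (𝓝 0)) :
    Tendsto (fun N : ℕ => (1 / (N : ℂ)) * ∑ n ∈ Finset.Icc 1 N, a n) atTop (𝓝 0) := by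
  have h1 : ∀ N : ℕ, (1 / (N : ℂ)) * ∑ n ∈ Finset.Icc 1 N, a n = cav a N + (1 / (N : ℂ)) * (a N - a 0) := by
    intro N
    have h2 : ∑ n ∈ Finset.range (N + 1), a n = a 0 + ∑ n ∈ Finset.Icc 1 N, a n := by
      rw [Finset.range_eq_Ico, Finset.sum_eq_sum_Ico_succ_bot (Nat.succ_pos N)]
      rfl
    rw [Finset.sum_range_succ] at h2
    rw [cav]
    linear_combination (-(1 / (N : ℂ))) * h2
  simp_rw [h1]
  rw [← add_zero (0 : ℂ)]
  refine h.add ?_
  rw [tendsto_zero_iff_norm_tendsto_zero]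
  have h3 : Tendsto (fun N : ℕ => 2 * (1 / (N : ℝ))) atTop (𝓝 0) := by
    have := tendsto_one_div_atTop_nhds_zero_nat (𝕜 := ℝ)
    simpa using this.const_mul 2
  refine squeeze_zero (fun _ => norm_nonneg _) (fun N => ?_) h3
  rw [norm_mul, norm_div, norm_one, Complex.norm_natCast, mul_comm]
  gcongr
  calc ‖a N - a 0‖ ≤ ‖a N‖ + ‖a 0‖ := norm_sub_le _ _
    _ ≤ 1 + 1 := add_le_add (ha _) (ha _)
    _ = 2 := by norm_num

theorem rational_of_functionals (c : ℝ)
    (h : ∀ θ : ℝ →ₗ[ℚ] ℚ, θ 1 = 0 → θ c = 0) : ∃ q : ℚ, c = q := by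
  set S : Submodule ℚ ℝ := Submodule.span ℚ {1} with hS
  have h1 : S.mkQ c = 0 := by
    rw [← Module.forall_dual_apply_eq_zero_iff ℚ]
    intro ψ
    have := h (ψ.comp S.mkQ) (by
      rw [LinearMap.comp_apply]
      have : S.mkQ 1 = 0 := by
        rw [Submodule.mkQ_apply, Submodule.Quotient.mk_eq_zero]
        exact Submodule.subset_span rfl
      rw [this, map_zero])
    simpa using this
  rw [Submodule.mkQ_apply, Submodule.Quotient.mk_eq_zero, hS, Submodule.mem_span_singleton] at h1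
  obtain ⟨q, hq⟩ := h1
  refine ⟨q, ?_⟩
  rw [← hq, Rat.smul_def, mul_one]

/-- `g` is a generalised eigenvalue of order `ℓ`. -/
def WeylSystem.Lam (W : WeylSystem) (ℓ : ℕ) (g : (Fin W.D → ℤ) × ℝ) : Prop :=
  ∃ c : ℚ, (Nf W.cs.U)^[ℓ] g = (0, (c : ℝ))

theorem chi_case (W : WeylSystem) {ι : Type*} [DecidableEq ι] (s : Finset ι) (p : ι → Polynomial ℤ)
    (hp : ∀ i ∈ s, 0 < (p i).natDegree)
    (hpp : ∀ i ∈ s, ∀ j ∈ s, i ≠ j → 0 < (p i - p j).natDegree)
    (g : ι → (Fin W.D → ℤ) × ℝ) (j : ι) (hj : j ∈ s) (hLam : ¬ W.Lam s.card (g j)) :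
    Tendsto (fun N : ℕ => ∫ x, ‖(1 / (N : ℂ)) * ∑ n ∈ Finset.Icc 1 N,
      ∏ i ∈ s, W.cs.E (g i) ((W.T ^ ((p i).eval (n : ℤ))) x)‖ ^ 2 ∂(haarT W.D)) atTop (𝓝 0) := by
  classical
  obtain ⟨r, hr⟩ := W.nilpotent_cs
  set G : ℕ → (Fin W.D → ℤ) × ℝ := fun n => ∑ i ∈ s, (W.cs.U ^ ((p i).eval (n : ℤ))) (g i) with hG
  have hprod : ∀ (n : ℕ) (x : Fin W.D → UnitAddCircle),
      ∏ i ∈ s, W.cs.E (g i) ((W.T ^ ((p i).eval (n : ℤ))) x) = W.cs.E (G n) x := by
    intro n x
    rw [hG, W.cs.sum]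
    exact Finset.prod_congr rfl fun i _ => W.cs.zpow _ _ _
  simp_rw [hprod]
  by_cases hM : ∀ n, (G n).1 = (G 0).1
  · -- the frequency is constant
    obtain ⟨Q, hQ⟩ := orbit_poly (K := ℝ) s p W.cs.U r hr g (AddMonoidHom.snd _ _)
    have hQ' : ∀ n : ℕ, (G n).2 = Q.eval (n : ℝ) := hQ
    have hnorm : ∀ (N : ℕ), ∫ x, ‖(1 / (N : ℂ)) * ∑ n ∈ Finset.Icc 1 N, W.cs.E (G n) x‖ ^ 2 ∂(haarT W.D)
        = ‖(1 / (N : ℂ)) * ∑ n ∈ Finset.Icc 1 N, ee (Q.eval (n : ℝ))‖ ^ 2 := by
      intro N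
      have h1 : ∀ x, ‖(1 / (N : ℂ)) * ∑ n ∈ Finset.Icc 1 N, W.cs.E (G n) x‖ ^ 2
          = ‖(1 / (N : ℂ)) * ∑ n ∈ Finset.Icc 1 N, ee (Q.eval (n : ℝ))‖ ^ 2 := by
        intro x
        have h2 : ∑ n ∈ Finset.Icc 1 N, W.cs.E (G n) x
            = (∑ n ∈ Finset.Icc 1 N, ee (Q.eval (n : ℝ))) * chi (G 0).1 x := by
          rw [Finset.sum_mul]
          refine Finset.sum_congr rfl fun n _ => ?_
          rw [W.cs_E, hM n, hQ' n]
        rw [h2, ← mul_assoc, norm_mul, norm_chi, mul_one]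
      simp_rw [h1]
      simp
    simp_rw [hnorm]
    by_cases hirr : ∃ i ≥ 1, Irrational (Q.coeff i)
    · have h1 := cav_Icc (fun n => (norm_ee _).le) (weyl_poly Q hirr)
      have := h1.norm.pow 2
      simpa using this
    · exfalso
      push Not at hirr
      have hrat : ∀ i ≥ 1, ∃ q : ℚ, Q.coeff i = q := by
        intro i hi
        have := hirr i hi
        rw [Irrational, not_not] at this
        obtain ⟨q, hq⟩ := this
        exact ⟨q, hq.symm⟩
      choose! qc hqc using hrat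
      have hdiff : ∀ n : ℕ, ∃ c : ℚ, (G n).2 - (G 0).2 = (c : ℝ) := by
        intro n
        refine ⟨∑ i ∈ Finset.range Q.natDegree, qc (i + 1) * (n : ℚ) ^ (i + 1), ?_⟩
        rw [hQ' n, hQ' 0, Polynomial.eval_eq_sum_range, Polynomial.eval_eq_sum_range,
          Finset.sum_range_succ', Finset.sum_range_succ']
        push_cast
        have h1 : ∀ i ∈ Finset.range Q.natDegree, Q.coeff (i + 1) * (n : ℝ) ^ (i + 1)
            = (qc (i + 1) : ℝ) * (n : ℝ) ^ (i + 1) := fun i _ => by rw [hqc (i + 1) (by omega)]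
        rw [Finset.sum_congr rfl h1]
        simp
      have hker : ∀ φ : ((Fin W.D → ℤ) × ℝ) →+ ℚ, (∀ c : ℚ, φ (0, (c : ℝ)) = 0) →
          φ ((Nf W.cs.U)^[s.card] (g j)) = 0 := by
        intro φ hφ
        refine key_unipotent (K := ℚ) s p hp hpp W.cs.U r hr φ g (G 0) (fun n x => ?_) j hj
        obtain ⟨c, hc⟩ := hdiff n
        have h1 : G n = G 0 + (0, (c : ℝ)) := by
          ext1
          · rw [Prod.fst_add, hM n]; simp
          · rw [Prod.snd_add, ← hc]; ring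
        have h2 : ∀ x : ℕ, (W.cs.U ^ x) ((0, (c : ℝ)) : (Fin W.D → ℤ) × ℝ) = (0, (c : ℝ)) := by
          intro x
          induction x with
          | zero => rfl
          | succ x ih =>
            rw [pow_succ]
            change (W.cs.U ^ x) (W.cs.U _) = _
            rw [W.cs_U_zero, ih]
        change φ ((W.cs.U ^ (x : ℤ)) (G n)) = _
        rw [h1, map_add, map_add, zpow_natCast, h2, hφ, add_zero]
      apply hLam
      set v := (Nf W.cs.U)^[s.card] (g j) with hv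
      have hv1 : v.1 = 0 := by
        ext k
        have h1 := hker (((Int.castAddHom ℚ).comp (Pi.evalAddMonoidHom (fun _ => ℤ) k)).comp
          (AddMonoidHom.fst _ _)) (fun c => by simp)
        simpa using h1
      obtain ⟨q, hq⟩ := rational_of_functionals v.2 (fun θ hθ => by
        have h1 := hker (θ.toAddMonoidHom.comp (AddMonoidHom.snd _ _)) (fun c => by
          have : θ (c : ℝ) = 0 := by
            have h2 : (c : ℝ) = c • (1 : ℝ) := by rw [Rat.smul_def, mul_one]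
            rw [h2, map_smul, hθ, smul_zero]
          simpa using this)
        simpa using h1)
      exact ⟨q, Prod.ext hv1 hq⟩
  · -- the frequency is a nonconstant polynomial
    push Not at hM
    obtain ⟨n₀, hn₀⟩ := hM
    obtain ⟨k, hk⟩ := Function.ne_iff.mp hn₀
    obtain ⟨Q, hQ⟩ := orbit_poly (K := ℝ) s p W.cs.U r hr g
      (((Int.castAddHom ℝ).comp (Pi.evalAddMonoidHom (fun _ => ℤ) k)).comp (AddMonoidHom.fst _ _))
    have hQ' : ∀ n : ℕ, (((G n).1 k : ℤ) : ℝ) = Q.eval (n : ℝ) := hQ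
    have hcount : ∀ (c : ℝ) (s : Finset ℕ), (s.filter (fun n : ℕ => Q.eval (n : ℝ) = c)).card ≤ Q.natDegree := by
      intro c s
      have hne : Q - Polynomial.C c ≠ 0 := by
        intro h
        apply hk
        have h1 : Q = Polynomial.C c := sub_eq_zero.mp h
        have h2 := hQ' n₀
        have h3 := hQ' 0
        rw [h1, Polynomial.eval_C] at h2 h3
        exact_mod_cast h2.trans h3.symm
      have h1 : ((s.filter (fun n : ℕ => Q.eval (n : ℝ) = c)).image (fun n : ℕ => (n : ℝ))) ⊆ (Q - Polynomial.C c).roots.toFinset := by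
        intro y hy
        rw [Finset.mem_image] at hy
        obtain ⟨n, hn, rfl⟩ := hy
        rw [Finset.mem_filter] at hn
        rw [Multiset.mem_toFinset, Polynomial.mem_roots hne, Polynomial.IsRoot, Polynomial.eval_sub,
          Polynomial.eval_C, hn.2, sub_self]
      calc (s.filter (fun n : ℕ => Q.eval (n : ℝ) = c)).card
          = ((s.filter (fun n : ℕ => Q.eval (n : ℝ) = c)).image (fun n : ℕ => (n : ℝ))).card :=
            (Finset.card_image_of_injective _ Nat.cast_injective).symm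
        _ ≤ (Q - Polynomial.C c).roots.toFinset.card := Finset.card_le_card h1
        _ ≤ (Q - Polynomial.C c).roots.card := Multiset.toFinset_card_le _
        _ ≤ (Q - Polynomial.C c).natDegree := Polynomial.card_roots' _
        _ = Q.natDegree := Polynomial.natDegree_sub_C
    have hbound : ∀ N : ℕ, ∫ x, ‖(1 / (N : ℂ)) * ∑ n ∈ Finset.Icc 1 N, W.cs.E (G n) x‖ ^ 2 ∂(haarT W.D)
        ≤ Q.natDegree * (1 / (N : ℝ)) := by
      intro N
      rcases Nat.eq_zero_or_pos N with rfl | hN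
      · simp
      have h1 := ortho_bound (μ := haarT W.D) (fun n => W.cs.E (G n)) (fun n => W.cs.bd _) (Finset.Icc 1 N)
        Q.natDegree (fun n n' => Q.eval (n' : ℝ) = Q.eval (n : ℝ)) (by
          intro n n' hnn
          have h2 : ∀ x, W.cs.E (G n) x * (starRingEnd ℂ) (W.cs.E (G n') x)
              = ee ((G n).2 - (G n').2) * chi ((G n).1 - (G n').1) x := by
            intro x
            rw [← W.cs.neg, ← W.cs.add, ← sub_eq_add_neg, W.cs_E]
            rfl
          simp only [h2]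
          rw [integral_const_mul, integral_chi, mul_zero]
          intro h3
          apply hnn
          rw [← hQ', ← hQ', sub_eq_zero.mp h3]) (by
          intro n _
          exact hcount _ _)
      have h2 : ∫ x, ‖(1 / (N : ℂ)) * ∑ n ∈ Finset.Icc 1 N, W.cs.E (G n) x‖ ^ 2 ∂(haarT W.D)
          = (1 / (N : ℝ)) ^ 2 * ∫ x, ‖∑ n ∈ Finset.Icc 1 N, W.cs.E (G n) x‖ ^ 2 ∂(haarT W.D) := by
        rw [← integral_const_mul]
        refine integral_congr_ae (ae_of_all _ fun x => ?_)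
        simp only
        rw [norm_mul, mul_pow, norm_div, norm_one, Complex.norm_natCast]
      rw [h2]
      calc (1 / (N : ℝ)) ^ 2 * ∫ x, ‖∑ n ∈ Finset.Icc 1 N, W.cs.E (G n) x‖ ^ 2 ∂(haarT W.D)
          ≤ (1 / (N : ℝ)) ^ 2 * ((Finset.Icc 1 N).card * Q.natDegree) := by gcongr
        _ = Q.natDegree * (1 / (N : ℝ)) := by
          rw [Nat.card_Icc, Nat.add_sub_cancel]
          have : (N : ℝ) ≠ 0 := by exact_mod_cast hN.ne'
          field_simp
    have h3 : Tendsto (fun N : ℕ => (Q.natDegree : ℝ) * (1 / (N : ℝ))) atTop (𝓝 0) := by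
      have := tendsto_one_div_atTop_nhds_zero_nat (𝕜 := ℝ)
      simpa using this.const_mul (Q.natDegree : ℝ)
    exact squeeze_zero (fun N => integral_nonneg fun x => by positivity) hbound h3

end Pool.Agent.H767R2
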