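import Mathlib
import Pool.Agent.H767R2.ChiCase

set_option autoImplicit false
set_option linter.unusedSectionVars false

namespace Pool.Agent.H767R2

open MeasureTheory Filter Topology
open scoped ENNReal

section General

variable {X : Type*} [MeasurableSpace X] {μ : Measure X} [IsProbabilityMeasure μ]

theorem Bd.nonneg {C : ℝ} {f : X → ℂ} (hf : Bd μ C f) : 0 ≤ C := by
  obtain ⟨x, hx⟩ := hf.bd.exists
  exact (norm_nonneg _).trans hx

theorem Bd.sub {C D : ℝ} {f g : X → ℂ} (hf : Bd μ C f) (hg : Bd μ D g) :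
    Bd μ (C + D) (fun x => f x - g x) := by
  refine ⟨hf.meas.sub hg.meas, ?_⟩
  filter_upwards [hf.bd, hg.bd] with x h1 h2
  exact (norm_sub_le _ _).trans (add_le_add h1 h2)

theorem Bd.add {C D : ℝ} {f g : X → ℂ} (hf : Bd μ C f) (hg : Bd μ D g) :
    Bd μ (C + D) (fun x => f x + g x) := by
  refine ⟨hf.meas.add hg.meas, ?_⟩
  filter_upwards [hf.bd, hg.bd] with x h1 h2
  exact (norm_add_le _ _).trans (add_le_add h1 h2)

theorem Bd.const (c : ℂ) : Bd μ ‖c‖ (fun _ => c) := ⟨aestronglyMeasurable_const, ae_of_all _ fun _ => le_rfl⟩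

theorem Bd.const_mul {C : ℝ} {f : X → ℂ} (hf : Bd μ C f) (c : ℂ) : Bd μ (‖c‖ * C) (fun x => c * f x) :=
  (Bd.const c).mul hf (norm_nonneg _)

theorem Bd.sum {ι : Type*} (s : Finset ι) {C : ι → ℝ} {f : ι → X → ℂ} (hf : ∀ i ∈ s, Bd μ (C i) (f i)) :
    Bd μ (∑ i ∈ s, C i) (fun x => ∑ i ∈ s, f i x) := by
  classical
  induction s using Finset.induction_on with
  | empty =>
    simp only [Finset.sum_empty]
    exact ⟨aestronglyMeasurable_const, ae_of_all _ fun _ => by simp⟩
  | insert i s hi ih =>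
    simp only [Finset.sum_insert hi]
    exact (hf i (Finset.mem_insert_self i s)).add (ih fun j hj => hf j (Finset.mem_insert_of_mem hj))

theorem Bd.prod {ι : Type*} (s : Finset ι) {C : ι → ℝ} {f : ι → X → ℂ} (hf : ∀ i ∈ s, Bd μ (C i) (f i)) :
    Bd μ (∏ i ∈ s, C i) (fun x => ∏ i ∈ s, f i x) := by
  classical
  induction s using Finset.induction_on with
  | empty =>
    simp only [Finset.prod_empty]
    exact ⟨aestronglyMeasurable_const, ae_of_all _ fun _ => by simp⟩
  | insert i s hi ih =>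
    simp only [Finset.prod_insert hi]
    have h1 := hf i (Finset.mem_insert_self i s)
    exact h1.mul (ih fun j hj => hf j (Finset.mem_insert_of_mem hj)) h1.nonneg

theorem Bd.congr {C : ℝ} {f g : X → ℂ} (hf : Bd μ C f) (h : f =ᵐ[μ] g) : Bd μ C g := by
  refine ⟨hf.meas.congr h, ?_⟩
  filter_upwards [hf.bd, h] with x h1 h2
  rwa [← h2]

theorem Bd.mono {C D : ℝ} {f : X → ℂ} (hf : Bd μ C f) (h : C ≤ D) : Bd μ D f := by
  refine ⟨hf.meas, ?_⟩
  filter_upwards [hf.bd] with x h1
  exact h1.trans h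

theorem eLpNorm_two_eq {C : ℝ} {f : X → ℂ} (hf : Bd μ C f) :
    eLpNorm f 2 μ = ENNReal.ofReal (Real.sqrt (∫ x, ‖f x‖ ^ 2 ∂μ)) := by
  rw [(hf.memLp 2).eLpNorm_eq_integral_rpow_norm (by norm_num) (by norm_num), Real.sqrt_eq_rpow]
  congr 2
  · simp
  · norm_num

theorem tendsto_eLpNorm_of_integral {C : ℕ → ℝ} {A : ℕ → X → ℂ} (hA : ∀ N, Bd μ (C N) (A N))
    (h : Tendsto (fun N => ∫ x, ‖A N x‖ ^ 2 ∂μ) atTop (𝓝 0)) :
    Tendsto (fun N => eLpNorm (A N) 2 μ) atTop (𝓝 0) := by
  have h1 : ∀ N, eLpNorm (A N) 2 μ = ENNReal.ofReal (Real.sqrt (∫ x, ‖A N x‖ ^ 2 ∂μ)) := fun N =>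
    eLpNorm_two_eq (hA N)
  simp_rw [h1]
  have h2 := ((ENNReal.continuous_ofReal.comp Real.continuous_sqrt).tendsto 0).comp h
  have h3 : (ENNReal.ofReal ∘ fun x => √x) 0 = 0 := by simp
  rw [h3] at h2
  exact h2

/-- polynomial averages with a general index type -/
noncomputable def pav {ι : Type*} (T : Equiv.Perm X) (s : Finset ι) (p : ι → Polynomial ℤ)
    (f : ι → X → ℂ) (N : ℕ) : X → ℂ := fun x =>
  (1 / (N : ℂ)) * ∑ n ∈ Finset.Icc 1 N, ∏ i ∈ s, f i ((T ^ ((p i).eval (n : ℤ))) x)

variable {ι : Type*} [DecidableEq ι] {T : Equiv.Perm X}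

theorem pav_bd (h1 : MeasurePreserving T μ μ) (h2 : MeasurePreserving T.symm μ μ) (s : Finset ι)
    (p : ι → Polynomial ℤ) {C : ι → ℝ} {f : ι → X → ℂ} (hf : ∀ i ∈ s, Bd μ (C i) (f i)) (N : ℕ) :
    Bd μ (‖(1 / (N : ℂ))‖ * ∑ n ∈ Finset.Icc 1 N, ∏ i ∈ s, C i) (pav T s p f N) := by
  refine Bd.const_mul ?_ _
  refine Bd.sum _ fun n _ => ?_
  refine Bd.prod _ fun i hi => ?_
  exact (hf i hi).comp (zpow_measurePreserving T h1 h2 _)

theorem pav_update (s : Finset ι) (p : ι → Polynomial ℤ) (f : ι → X → ℂ) (i : ι) (hi : i ∈ s) (u : X → ℂ)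
    (N : ℕ) (x : X) : pav T s p (Function.update f i u) N x =
      (1 / (N : ℂ)) * ∑ n ∈ Finset.Icc 1 N, u ((T ^ ((p i).eval (n : ℤ))) x) *
        ∏ i' ∈ s.erase i, f i' ((T ^ ((p i').eval (n : ℤ))) x) := by
  rw [pav]
  congr 1
  refine Finset.sum_congr rfl fun n _ => ?_
  rw [← Finset.mul_prod_erase s _ hi, Function.update_self]
  congr 1
  refine Finset.prod_congr rfl fun i' hi' => ?_
  rw [Function.update_of_ne (Finset.ne_of_mem_erase hi')]

theorem pav_update_sub (s : Finset ι) (p : ι → Polynomial ℤ) (f : ι → X → ℂ) (i : ι) (hi : i ∈ s) (u v : X → ℂ)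
    (N : ℕ) (x : X) : pav T s p (Function.update f i u) N x - pav T s p (Function.update f i v) N x
      = pav T s p (Function.update f i (fun x => u x - v x)) N x := by
  rw [pav_update _ _ _ _ hi, pav_update _ _ _ _ hi, pav_update _ _ _ _ hi, ← mul_sub, ← Finset.sum_sub_distrib]
  congr 1
  refine Finset.sum_congr rfl fun n _ => ?_
  ring

theorem pav_update_sum {κ : Type*} (F : Finset κ) (c : κ → ℂ) (u : κ → X → ℂ)
    (s : Finset ι) (p : ι → Polynomial ℤ) (f : ι → X → ℂ) (i : ι) (hi : i ∈ s)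
    (N : ℕ) (x : X) : pav T s p (Function.update f i (fun x => ∑ m ∈ F, c m * u m x)) N x
      = ∑ m ∈ F, c m * pav T s p (Function.update f i (u m)) N x := by
  simp_rw [pav_update _ _ _ _ hi, Finset.sum_mul, Finset.mul_sum]
  rw [Finset.sum_comm]
  refine Finset.sum_congr rfl fun m _ => ?_
  refine Finset.sum_congr rfl fun n _ => ?_
  ring

/-- `L²` bound for the averages in terms of one of the functions -/
theorem pav_update_norm (h1 : MeasurePreserving T μ μ) (h2 : MeasurePreserving T.symm μ μ) (s : Finset ι)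
    (p : ι → Polynomial ℤ) {C : ι → ℝ} {f : ι → X → ℂ} (hf : ∀ i ∈ s, Bd μ (C i) (f i)) (i : ι) (hi : i ∈ s)
    (u : X → ℂ) (hu : AEStronglyMeasurable u μ) (N : ℕ) :
    eLpNorm (pav T s p (Function.update f i u) N) 2 μ ≤
      ENNReal.ofReal (∏ i' ∈ s.erase i, C i') * eLpNorm u 2 μ := by
  set K := ∏ i' ∈ s.erase i, C i' with hK
  have hR : ∀ n : ℕ, Bd μ K (fun x => ∏ i' ∈ s.erase i, f i' ((T ^ ((p i').eval (n : ℤ))) x)) := fun n =>
    Bd.prod _ fun i' hi' => (hf i' (Finset.mem_of_mem_erase hi')).comp (zpow_measurePreserving T h1 h2 _)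
  have hterm : ∀ n : ℕ, eLpNorm (fun x => u ((T ^ ((p i).eval (n : ℤ))) x) *
        ∏ i' ∈ s.erase i, f i' ((T ^ ((p i').eval (n : ℤ))) x)) 2 μ ≤ ENNReal.ofReal K * eLpNorm u 2 μ := by
    intro n
    have h3 := zpow_measurePreserving T h1 h2 ((p i).eval (n : ℤ))
    have h4 : eLpNorm (fun x => u ((T ^ ((p i).eval (n : ℤ))) x)) 2 μ = eLpNorm u 2 μ :=
      eLpNorm_comp_measurePreserving hu h3
    rw [← h4]
    refine eLpNorm_le_mul_eLpNorm_of_ae_le_mul ?_ 2
    filter_upwards [(hR n).bd] with x hx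
    rw [norm_mul, mul_comm]
    gcongr
  rcases Nat.eq_zero_or_pos N with rfl | hN
  · have : pav T s p (Function.update f i u) 0 = fun _ => 0 := by
      ext x; simp [pav]
    rw [this]
    simp
  have h5 : pav T s p (Function.update f i u) N = (1 / (N : ℂ)) • ∑ n ∈ Finset.Icc 1 N,
      (fun x => u ((T ^ ((p i).eval (n : ℤ))) x) *
        ∏ i' ∈ s.erase i, f i' ((T ^ ((p i').eval (n : ℤ))) x)) := by
    ext x
    rw [pav_update _ _ _ _ hi, Pi.smul_apply, Finset.sum_apply, smul_eq_mul]
  rw [h5, eLpNorm_const_smul]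
  have h6 : eLpNorm (∑ n ∈ Finset.Icc 1 N,
      (fun x => u ((T ^ ((p i).eval (n : ℤ))) x) *
        ∏ i' ∈ s.erase i, f i' ((T ^ ((p i').eval (n : ℤ))) x))) 2 μ ≤ N * (ENNReal.ofReal K * eLpNorm u 2 μ) := by
    refine (eLpNorm_sum_le (fun n _ => ?_) (by norm_num)).trans ?_
    · exact (hu.comp_measurePreserving (zpow_measurePreserving T h1 h2 _)).mul (hR n).meas
    · refine (Finset.sum_le_sum fun n _ => hterm n).trans ?_
      rw [Finset.sum_const, Nat.card_Icc, Nat.add_sub_cancel, nsmul_eq_mul]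
  have hN0 : (N : ℝ≥0∞) ≠ 0 := by exact_mod_cast hN.ne'
  have hNt : (N : ℝ≥0∞) ≠ ⊤ := ENNReal.natCast_ne_top N
  have h7 : ‖(1 / (N : ℂ))‖ₑ = (N : ℝ≥0∞)⁻¹ := by
    rw [one_div, enorm_inv (by exact_mod_cast hN.ne'), ← ofReal_norm, Complex.norm_natCast, ENNReal.ofReal_natCast]
  rw [h7]
  calc (N : ℝ≥0∞)⁻¹ * _ ≤ (N : ℝ≥0∞)⁻¹ * (N * (ENNReal.ofReal K * eLpNorm u 2 μ)) := by gcongr
    _ = _ := by rw [← mul_assoc, ENNReal.inv_mul_cancel hN0 hNt, one_mul]

end General

theorem integral_chi_chi {D : ℕ} (m m' : Fin D → ℤ) (h : m ≠ m') :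
    ∫ x, chi m x * (starRingEnd ℂ) (chi m' x) ∂(haarT D) = 0 := by
  simp_rw [← chi_neg, ← chi_add]
  exact integral_chi _ (fun h0 => h (by rwa [← sub_eq_add_neg, sub_eq_zero] at h0))

theorem integral_chi_self {D : ℕ} (m : Fin D → ℤ) :
    ∫ x, chi m x * (starRingEnd ℂ) (chi m x) ∂(haarT D) = 1 := by
  simp_rw [← chi_neg, ← chi_add, add_neg_cancel, chi_zero]
  simp

theorem gen_case (W : WeylSystem) {ι : Type*} [DecidableEq ι] (s : Finset ι) (p : ι → Polynomial ℤ)
    (hp : ∀ i ∈ s, 0 < (p i).natDegree)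
    (hpp : ∀ i ∈ s, ∀ j ∈ s, i ≠ j → 0 < (p i - p j).natDegree)
    (j : ι) (hj : j ∈ s) (r : Finset ι) :
    ∀ (f : ι → (Fin W.D → UnitAddCircle) → ℂ) (C : ι → ℝ), (∀ i ∈ s, Bd (haarT W.D) (C i) (f i)) →
      (∀ i ∈ s, i ∉ r → ∃ m, f i = chi m) →
      (∀ m, W.Lam s.card (m, 0) → ∫ x, f j x * (starRingEnd ℂ) (chi m x) ∂(haarT W.D) = 0) →
      Tendsto (fun N => eLpNorm (pav W.T s p f N) 2 (haarT W.D)) atTop (𝓝 0) := by
  have hT1 := W.measurePreserving_T
  have hT2 := W.measurePreserving_T_symm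
  induction r using Finset.induction_on with
  | empty =>
    intro f C hf hchar hLam
    choose! m hm using fun i hi => hchar i hi (Finset.notMem_empty i)
    refine tendsto_eLpNorm_of_integral (fun N => pav_bd hT1 hT2 s p hf N) ?_
    have h1 : ¬ W.Lam s.card (m j, 0) := by
      intro h
      have h2 := hLam _ h
      rw [hm j hj, integral_chi_self] at h2
      exact one_ne_zero h2
    have h2 := chi_case W s p hp hpp (fun i => (m i, 0)) j hj h1
    refine h2.congr fun N => ?_
    refine integral_congr_ae (ae_of_all _ fun x => ?_)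
    simp only [pav]
    congr 3
    refine Finset.sum_congr rfl fun n _ => ?_
    refine Finset.prod_congr rfl fun i hi => ?_
    rw [W.cs_E, hm i hi, ee_zero, one_mul]
  | insert i r hir ih =>
    intro f C hf hchar hLam
    by_cases his : i ∈ s
    swap
    · refine ih f C hf (fun i' hi' hi'r => hchar i' hi' ?_) hLam
      rw [Finset.mem_insert, not_or]
      refine ⟨?_, hi'r⟩
      rintro rfl
      exact his hi'
    set K := ∏ i' ∈ s.erase i, C i' with hK
    have hK0 : 0 ≤ K := Finset.prod_nonneg fun i' hi' => (hf i' (Finset.mem_of_mem_erase hi')).nonneg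
    rw [ENNReal.tendsto_nhds_zero]
    intro ε hε
    -- choose the approximation
    obtain ⟨δ, hδ0, hδ⟩ : ∃ δ : ℝ, 0 < δ ∧ ENNReal.ofReal K * ENNReal.ofReal δ ≤ ε / 2 := by
      rcases eq_or_ne ε ⊤ with rfl | hεt
      · exact ⟨1, one_pos, by rw [ENNReal.top_div_of_ne_top (by norm_num)]; exact le_top⟩
      · have h1 : 0 < ε.toReal := ENNReal.toReal_pos hε.ne' hεt
        refine ⟨ε.toReal / (2 * (K + 1)), by positivity, ?_⟩
        rw [← ENNReal.ofReal_mul hK0]
        have h2 : ε / 2 = ENNReal.ofReal (ε.toReal / 2) := by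
          rw [ENNReal.ofReal_div_of_pos (by norm_num), ENNReal.ofReal_toReal hεt]
          norm_num
        rw [h2]
        apply ENNReal.ofReal_le_ofReal
        rw [← mul_div_assoc, div_le_div_iff₀ (by positivity) (by norm_num)]
        nlinarith
    obtain ⟨F, hF, hFε⟩ := fourier_approx ((hf i his).memLp 2) (show 0 < δ ^ 2 by positivity)
    set c : (Fin W.D → ℤ) → ℂ := fun m => ∫ y, f i y * (starRingEnd ℂ) (chi m y) ∂(haarT W.D) with hc
    set u : (Fin W.D → UnitAddCircle) → ℂ := fun x => ∑ m ∈ F, c m * chi m x with hu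
    have hubd : Bd (haarT W.D) (∑ m ∈ F, ‖c m‖ * 1) u := Bd.sum _ fun m _ => (chi_bd m).const_mul _
    have hvbd : Bd (haarT W.D) (C i + ∑ m ∈ F, ‖c m‖ * 1) (fun x => f i x - u x) := (hf i his).sub hubd
    have hvnorm : eLpNorm (fun x => f i x - u x) 2 (haarT W.D) ≤ ENNReal.ofReal δ := by
      rw [eLpNorm_two_eq hvbd]
      apply ENNReal.ofReal_le_ofReal
      rw [Real.sqrt_le_left hδ0.le]
      exact hFε.le
    have hmain : ∀ m ∈ F, Tendsto (fun N => eLpNorm (pav W.T s p (Function.update f i (chi m)) N) 2 (haarT W.D))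
        atTop (𝓝 0) := by
      intro m hm
      refine ih (Function.update f i (chi m)) (Function.update C i 1) ?_ ?_ ?_
      · intro i' hi'
        by_cases h : i' = i
        · subst h
          rw [Function.update_self, Function.update_self]
          exact chi_bd m
        · rw [Function.update_of_ne h, Function.update_of_ne h]
          exact hf i' hi'
      · intro i' hi' hi'r
        by_cases h : i' = i
        · subst h
          exact ⟨m, Function.update_self _ _ _⟩
        · rw [Function.update_of_ne h]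
          exact hchar i' hi' (by rw [Finset.mem_insert, not_or]; exact ⟨h, hi'r⟩)
      · intro m' hm'
        by_cases h : j = i
        · subst h
          rw [Function.update_self]
          refine integral_chi_chi _ _ ?_
          rintro rfl
          exact hF m hm (hLam m hm')
        · rw [Function.update_of_ne h]
          exact hLam m' hm'
    have hdecomp : ∀ N, pav W.T s p f N = pav W.T s p (Function.update f i (fun x => f i x - u x)) N
        + ∑ m ∈ F, c m • pav W.T s p (Function.update f i (chi m)) N := by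
      intro N
      ext x
      rw [Pi.add_apply, ← pav_update_sub s p f i his, Function.update_eq_self, hu, pav_update_sum F c _ s p f i his,
        Finset.sum_apply]
      simp only [Pi.smul_apply, smul_eq_mul]
      ring
    have hle : ∀ N, eLpNorm (pav W.T s p f N) 2 (haarT W.D) ≤ ε / 2 +
        ∑ m ∈ F, ‖c m‖ₑ * eLpNorm (pav W.T s p (Function.update f i (chi m)) N) 2 (haarT W.D) := by
      intro N
      have hbd1 : ∀ m, AEStronglyMeasurable (pav W.T s p (Function.update f i (chi m)) N) (haarT W.D) := by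
        intro m
        refine (pav_bd hT1 hT2 s p (C := Function.update C i 1) (fun i' hi' => ?_) N).meas
        by_cases h : i' = i
        · subst h
          rw [Function.update_self, Function.update_self]
          exact chi_bd m
        · rw [Function.update_of_ne h, Function.update_of_ne h]
          exact hf i' hi'
      have hbd2 : AEStronglyMeasurable (pav W.T s p (Function.update f i (fun x => f i x - u x)) N) (haarT W.D) := by
        refine (pav_bd hT1 hT2 s p (C := Function.update C i (C i + ∑ m ∈ F, ‖c m‖ * 1)) (fun i' hi' => ?_) N).meas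
        by_cases h : i' = i
        · subst h
          rw [Function.update_self, Function.update_self]
          exact hvbd
        · rw [Function.update_of_ne h, Function.update_of_ne h]
          exact hf i' hi'
      rw [hdecomp N]
      refine (eLpNorm_add_le hbd2 (Finset.aestronglyMeasurable_sum _ fun m _ => (hbd1 m).const_smul _)
        (by norm_num)).trans ?_
      refine add_le_add ?_ ?_
      · refine (pav_update_norm hT1 hT2 s p hf i his _ hvbd.meas N).trans ?_
        refine le_trans ?_ hδ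
        gcongr
      · refine (eLpNorm_sum_le (fun m _ => (hbd1 m).const_smul _) (by norm_num)).trans ?_
        refine Finset.sum_le_sum fun m _ => ?_
        rw [eLpNorm_const_smul]
    have hsum0 : Tendsto (fun N => ∑ m ∈ F, ‖c m‖ₑ * eLpNorm (pav W.T s p (Function.update f i (chi m)) N) 2 (haarT W.D))
        atTop (𝓝 0) := by
      have h1 : Tendsto (fun N => ∑ m ∈ F, ‖c m‖ₑ * eLpNorm (pav W.T s p (Function.update f i (chi m)) N) 2 (haarT W.D))
          atTop (𝓝 (∑ m ∈ F, ‖c m‖ₑ * 0)) := by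
        refine tendsto_finsetSum _ fun m hm => ?_
        exact ENNReal.Tendsto.const_mul (hmain m hm) (Or.inr enorm_ne_top)
      simpa using h1
    rw [ENNReal.tendsto_nhds_zero] at hsum0
    filter_upwards [hsum0 (ε / 2) (by simpa using hε.ne')] with N hN
    exact (hle N).trans ((add_le_add le_rfl hN).trans (by rw [ENNReal.add_halves]))

end Pool.Agent.H767R2
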