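import Mathlib
import Pool.Agent.H767R2.GenCase

set_option autoImplicit false
set_option linter.unusedSectionVars false

namespace Pool.Agent.H767R2

open MeasureTheory Filter Topology
open scoped ENNReal

theorem bd_of_memLp_top {X : Type*} {_ : MeasurableSpace X} {μ : Measure X} {f : X → ℂ} (hf : MemLp f ∞ μ) :
    Bd μ (eLpNorm f ∞ μ).toReal f := by
  refine ⟨hf.1, ?_⟩
  have h1 := ae_le_eLpNormEssSup (f := f) (μ := μ)
  filter_upwards [h1] with x hx
  rw [← eLpNorm_exponent_top] at hx
  have h2 := ENNReal.toReal_mono hf.2.ne hx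
  simpa using h2

theorem Bd.memLp_top {X : Type*} {_ : MeasurableSpace X} {μ : Measure X} {C : ℝ} {f : X → ℂ}
    (hf : Bd μ C f) : MemLp f ∞ μ := memLp_top_of_bound hf.meas C hf.bd

theorem Bd.condExp {X : Type*} {m m₀ : MeasurableSpace X} {μ : Measure X} [IsProbabilityMeasure μ] {C : ℝ}
    {f : X → ℂ} (hf : Bd μ C f) : Bd μ C (μ[f | m]) :=
  ⟨integrable_condExp.aestronglyMeasurable, ae_bdd_norm_condExp_of_ae_bdd_norm hf.bd⟩

theorem hk_zero_fourier (W : WeylSystem) (k : ℕ) {C : ℝ} {f : (Fin W.D → UnitAddCircle) → ℂ}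
    (hf : Bd (haarT W.D) C f) (h0 : hk (haarT W.D) W.T (k + 1) f = 0) (m : Fin W.D → ℤ)
    (hm : W.Lam (k + 2) (m, 0)) : ∫ x, f x * (starRingEnd ℂ) (chi m x) ∂(haarT W.D) = 0 := by
  obtain ⟨c, hc⟩ := hm
  have h1 := hk_lower W.cs W.measurePreserving_T k c.den c.den_pos hf.nonneg hf (m, 0)
    (by rw [hc, W.cs_U_zero]) (by
      intro x
      rw [hc, W.cs_E]
      have h2 : (c.den • ((0, (c : ℝ)) : (Fin W.D → ℤ) × ℝ)) = (0, (c.num : ℝ)) := by
        ext1
        · simp
        · simp only [Prod.smul_mk]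
          rw [nsmul_eq_mul]
          have := Rat.den_mul_eq_num c
          exact_mod_cast this
      rw [h2]
      simp only
      rw [ee_int, chi_zero, one_mul]) h0
  rw [← h1]
  refine integral_congr_ae (ae_of_all _ fun x => ?_)
  simp only [W.cs_E]
  rw [ee_zero, one_mul]

theorem seminorm_form (W : WeylSystem) {ι : Type*} [DecidableEq ι] (s : Finset ι) (p : ι → Polynomial ℤ)
    (hs : 2 ≤ s.card) (hp : ∀ i ∈ s, 0 < (p i).natDegree)
    (hpp : ∀ i ∈ s, ∀ j ∈ s, i ≠ j → 0 < (p i - p j).natDegree)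
    (f : ι → (Fin W.D → UnitAddCircle) → ℂ) (C : ι → ℝ) (hf : ∀ i ∈ s, Bd (haarT W.D) (C i) (f i))
    (j : ι) (hj : j ∈ s) (h0 : hk (haarT W.D) W.T (s.card - 1) (f j) = 0) :
    Tendsto (fun N => eLpNorm (pav W.T s p f N) 2 (haarT W.D)) atTop (𝓝 0) := by
  obtain ⟨k, hk'⟩ : ∃ k, s.card = k + 2 := ⟨s.card - 2, by omega⟩
  refine gen_case W s p hp hpp j hj s f C hf (fun i hi hi' => absurd hi hi') fun m hm => ?_
  rw [hk'] at hm h0
  exact hk_zero_fourier W k (hf j hj) h0 m hm

theorem IsHKFactor.sub {X : Type*} {𝒵 m₀ : MeasurableSpace X} {μ : Measure X} [IsProbabilityMeasure μ]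
    {T : X → X} {k : ℕ} (h𝒵 : IsHKFactor 𝒵 μ T k) {C : ℝ} {f : X → ℂ} (hf : Bd μ C f) :
    Bd μ C (μ[f | 𝒵]) ∧ hk μ T k (fun x => f x - (μ[f | 𝒵]) x) = 0 := by
  have hdbd : Bd μ (C + C) (fun x => f x - (μ[f | 𝒵]) x) := hf.sub hf.condExp
  refine ⟨hf.condExp, ?_⟩
  rw [← h𝒵.iff_zero _ hdbd.memLp_top]
  have h1 : μ[f - μ[f | 𝒵] | 𝒵] =ᵐ[μ] μ[f | 𝒵] - μ[μ[f | 𝒵] | 𝒵] :=
    condExp_sub hf.integrable integrable_condExp _
  have h2 : μ[μ[f | 𝒵] | 𝒵] =ᵐ[μ] μ[f | 𝒵] := by
    rw [condExp_of_stronglyMeasurable h𝒵.le stronglyMeasurable_condExp integrable_condExp]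
  change μ[f - μ[f | 𝒵] | 𝒵] =ᵐ[μ] 0
  filter_upwards [h1, h2] with x hx1 hx2
  rw [hx1, Pi.sub_apply, hx2, sub_self, Pi.zero_apply]

theorem charac_form (W : WeylSystem) {ι : Type*} [DecidableEq ι] (s : Finset ι) (p : ι → Polynomial ℤ)
    (hs : 2 ≤ s.card) (hp : ∀ i ∈ s, 0 < (p i).natDegree)
    (hpp : ∀ i ∈ s, ∀ j ∈ s, i ≠ j → 0 < (p i - p j).natDegree)
    (f e : ι → (Fin W.D → UnitAddCircle) → ℂ) (C : ι → ℝ) (hf : ∀ i ∈ s, Bd (haarT W.D) (C i) (f i))
    (he : ∀ i ∈ s, Bd (haarT W.D) (C i) (e i))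
    (h0 : ∀ i ∈ s, hk (haarT W.D) W.T (s.card - 1) (fun x => f i x - e i x) = 0) :
    Tendsto (fun N => eLpNorm (pav W.T s p f N - pav W.T s p e N) 2 (haarT W.D)) atTop (𝓝 0) := by
  classical
  set μ := haarT W.D with hμ
  have hone : ∀ (i : ι) (_ : i ∈ s) (g : ι → (Fin W.D → UnitAddCircle) → ℂ),
      (∀ i' ∈ s, Bd μ (C i') (g i')) → Tendsto (fun N => eLpNorm (pav W.T s p
        (Function.update g i (fun x => f i x - e i x)) N) 2 μ) atTop (𝓝 0) := by
    intro i hi g hg
    refine seminorm_form W s p hs hp hpp _ (Function.update C i (C i + C i)) ?_ i hi ?_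
    · intro i' hi'
      by_cases h : i' = i
      · subst h
        rw [Function.update_self, Function.update_self]
        exact (hf i' hi').sub (he i' hi')
      · rw [Function.update_of_ne h, Function.update_of_ne h]
        exact hg i' hi'
    · rw [Function.update_self]
      exact h0 i hi
  have hmain : ∀ r : Finset ι, r ⊆ s → Tendsto (fun N => eLpNorm (pav W.T s p f N - pav W.T s p
      (fun i => if i ∈ r then e i else f i) N) 2 μ) atTop (𝓝 0) := by
    intro r
    induction r using Finset.induction_on with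
    | empty =>
      intro _
      simp
    | insert i r hir ih =>
      intro hrs
      have his : i ∈ s := hrs (Finset.mem_insert_self i r)
      have ih' := ih (fun x hx => hrs (Finset.mem_insert_of_mem hx))
      set g : ι → (Fin W.D → UnitAddCircle) → ℂ := fun i => if i ∈ r then e i else f i with hg
      set g' : ι → (Fin W.D → UnitAddCircle) → ℂ := fun i' => if i' ∈ insert i r then e i' else f i' with hg'
      have hgbd : ∀ i' ∈ s, Bd μ (C i') (g i') := by
        intro i' hi'
        simp only [hg]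
        split_ifs
        · exact he i' hi'
        · exact hf i' hi'
      have hg'bd : ∀ i' ∈ s, Bd μ (C i') (g' i') := by
        intro i' hi'
        simp only [hg']
        split_ifs
        · exact he i' hi'
        · exact hf i' hi'
      have hgi : g = Function.update g i (f i) := by
        ext i' x
        by_cases h : i' = i
        · subst h; rw [Function.update_self]; simp only [hg]; rw [if_neg hir]
        · rw [Function.update_of_ne h]
      have hg'i : g' = Function.update g i (e i) := by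
        ext i' x
        by_cases h : i' = i
        · subst h; rw [Function.update_self]; simp only [hg']; rw [if_pos (Finset.mem_insert_self _ _)]
        · rw [Function.update_of_ne h]
          simp only [hg, hg', Finset.mem_insert]
          by_cases h3 : i' ∈ r
          · rw [if_pos h3, if_pos (Or.inr h3)]
          · rw [if_neg h3, if_neg (by tauto)]
      have hsub : ∀ N, pav W.T s p (Function.update g i (fun x => f i x - e i x)) N
          = pav W.T s p g N - pav W.T s p g' N := by
        intro N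
        ext x
        rw [Pi.sub_apply, ← pav_update_sub s p g i his, ← hgi, ← hg'i]
      have hT1 := W.measurePreserving_T
      have hT2 := W.measurePreserving_T_symm
      have hle : ∀ N, eLpNorm (pav W.T s p f N - pav W.T s p g' N) 2 μ ≤
          eLpNorm (pav W.T s p f N - pav W.T s p g N) 2 μ +
          eLpNorm (pav W.T s p (Function.update g i (fun x => f i x - e i x)) N) 2 μ := by
        intro N
        have hm1 := (pav_bd hT1 hT2 s p hf N).meas
        have hm2 := (pav_bd hT1 hT2 s p hgbd N).meas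
        have hm3 := (pav_bd hT1 hT2 s p hg'bd N).meas
        have hdec : pav W.T s p f N - pav W.T s p g' N = (pav W.T s p f N - pav W.T s p g N)
            + (pav W.T s p g N - pav W.T s p g' N) := by abel
        rw [hsub, hdec]
        exact eLpNorm_add_le (hm1.sub hm2) (hm2.sub hm3) (by norm_num)
      have h0' : Tendsto (fun N => eLpNorm (pav W.T s p f N - pav W.T s p g N) 2 μ +
          eLpNorm (pav W.T s p (Function.update g i (fun x => f i x - e i x)) N) 2 μ) atTop (𝓝 0) := by
        simpa using ih'.add (hone i his g hgbd)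
      exact tendsto_of_tendsto_of_tendsto_of_le_of_le tendsto_const_nhds h0' (fun _ => bot_le) hle
  have h1 := hmain s subset_rfl
  refine h1.congr fun N => ?_
  congr 2
  ext x
  simp only [pav]
  congr 1
  refine Finset.sum_congr rfl fun n _ => ?_
  refine Finset.prod_congr rfl fun i hi => ?_
  rw [if_pos hi]

/-- The main theorem in terms of the definitions. -/
theorem characteristic_card_sub_one (P : Finset (Polynomial ℤ)) (hP : EssentiallyDistinct P)
    (h2 : 2 ≤ P.card) (W : WeylSystem) (𝒵 : MeasurableSpace (Fin W.D → UnitAddCircle))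
    (h𝒵 : IsHKFactor 𝒵 (haarT W.D) W.T (P.card - 1)) : IsCharacteristic 𝒵 (haarT W.D) W.T P := by
  classical
  intro f hf
  have hbd : ∀ p ∈ P, _ := fun p hp => h𝒵.sub (bd_of_memLp_top (hf p hp))
  exact charac_form W P (fun p => p) h2 (fun p hp => hP.1 p hp) (fun p hp q hq h => hP.2 p hp q hq h) f _
    (fun p => (eLpNorm (f p) ∞ (haarT W.D)).toReal) (fun p hp => bd_of_memLp_top (hf p hp))
    (fun p hp => (hbd p hp).1) (fun p hp => (hbd p hp).2)

theorem dWmin_le (P : Finset (Polynomial ℤ)) (hP : EssentiallyDistinct P) (h2 : 2 ≤ P.card) :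
    dWmin P ≤ P.card - 1 :=
  Nat.sInf_le fun W 𝒵 h𝒵 => characteristic_card_sub_one P hP h2 W 𝒵 h𝒵

end Pool.Agent.H767R2
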