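import Mathlib
import Pool.Agent.H767R2.Defs

set_option autoImplicit false

/-!
# The numbers `d_min` and `d^W_min`
-/

namespace Pool.Agent.H767R2

open MeasureTheory Filter Topology
open scoped ENNReal

/-- An invertible measure preserving system `(X, 𝒳, μ, T)` on a standard Borel probability space. -/
structure MPSystem where
  /-- the space -/
  X : Type
  /-- the σ-algebra -/
  mX : MeasurableSpace X
  borel : StandardBorelSpace X
  /-- the measure -/
  μ : Measure X
  prob : IsProbabilityMeasure μ
  /-- the transformation -/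
  T : Equiv.Perm X
  mp : MeasurePreserving T μ μ
  mp_symm : MeasurePreserving T.symm μ μ

/-- `𝒵_{d,T}` is characteristic for the averages of the family `P`. -/
def HKCharacteristic {X : Type*} {m₀ : MeasurableSpace X} (μ : Measure X) (T : Equiv.Perm X)
    (P : Finset (Polynomial ℤ)) (d : ℕ) : Prop :=
  ∃ 𝒵 : MeasurableSpace X, IsHKFactor 𝒵 μ T d ∧ IsCharacteristic 𝒵 μ T P

/-- `d_min(P)`: the least `d` such that `𝒵_{d,T}` is characteristic for `P` in every system
(and `⊤` if there is no such `d`). -/
noncomputable def dMin (P : Finset (Polynomial ℤ)) : ℕ∞ :=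
  ⨅ (d : ℕ) (_ : ∀ S : MPSystem, HKCharacteristic (m₀ := S.mX) S.μ S.T P d), (d : ℕ∞)

/-- `d^W_min(P)`: the least `d` such that `𝒵_{d,T}` is characteristic for `P` in every Weyl system
(and `⊤` if there is no such `d`). -/
noncomputable def dWMin (P : Finset (Polynomial ℤ)) : ℕ∞ :=
  ⨅ (d : ℕ) (_ : ∀ W : WeylSystem, HKCharacteristic (haarT W.D) W.T P d), (d : ℕ∞)

end Pool.Agent.H767R2
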