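import Mathlib

set_option autoImplicit false

/-!
# True complexity and algebraic relations of polynomial progressions: definitions
-/

namespace Pool.Agent.H767R2

open Polynomial

/-- `‖f‖_{U^k}^{2^k} = p^{-k-1} ∑_{x, h_1, …, h_k} ∏_{ω ∈ {0,1}^k} 𝒞^{|ω|} f(x + ω·h)`. -/
noncomputable def gowersPow (p : ℕ) [NeZero p] (k : ℕ) (f : ZMod p → ℂ) : ℂ :=
  (1 / (p : ℂ) ^ (k + 1)) * ∑ x : ZMod p, ∑ h : Fin k → ZMod p, ∏ ω : Fin k → Bool,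
    (starRingEnd ℂ)^[∑ i, (ω i).toNat] (f (x + ∑ i, if ω i then h i else 0))

/-- The Gowers norm `‖f‖_{U^k}` (for `k ≥ 1` the number `gowersPow p k f` is real and non-negative). -/
noncomputable def gowersNorm (p : ℕ) [NeZero p] (k : ℕ) (f : ZMod p → ℂ) : ℝ :=
  ‖gowersPow p k f‖ ^ ((1 : ℝ) / 2 ^ k)

/-- The polynomials `P_0 = 0, P_1, …, P_m` of the progression `x, x + P_1(y), …, x + P_m(y)`. -/
noncomputable def prog {m : ℕ} (P : Fin m → ℤ[X]) : Fin (m + 1) → ℤ[X] := Fin.cons 0 P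

/-- `Λ_p(g_0, …, g_m) = p^{-2} ∑_{x, y} ∏_j g_j(x + P_j(y))`. -/
noncomputable def Lam (p : ℕ) [NeZero p] {m : ℕ} (P : Fin m → ℤ[X]) (g : Fin (m + 1) → ZMod p → ℂ) : ℂ :=
  (1 / (p : ℂ) ^ 2) * ∑ x : ZMod p, ∑ y : ZMod p,
    ∏ j, g j (x + ((prog P j).map (Int.castRingHom (ZMod p))).eval y)

/-- Property (⋆) of the number `s` at the index `i`, where `p₀` depends on the progression only. -/
def Star {m : ℕ} (P : Fin m → ℤ[X]) (i : Fin (m + 1)) (s : ℕ) : Prop :=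
  ∃ p₀ : ℕ, ∀ ε : ℝ, 0 < ε → ∃ δ : ℝ, 0 < δ ∧ ∀ (p : ℕ) [Fact p.Prime], p₀ < p →
    ∀ g : Fin (m + 1) → ZMod p → ℂ, (∀ j x, ‖g j x‖ ≤ 1) → gowersNorm p (s + 1) (g i) < δ → ‖Lam p P g‖ < ε

/-- The weaker form of (⋆) in which `p₀` may depend on `ε`. -/
def WeakStar {m : ℕ} (P : Fin m → ℤ[X]) (i : Fin (m + 1)) (s : ℕ) : Prop :=
  ∀ ε : ℝ, 0 < ε → ∃ δ : ℝ, 0 < δ ∧ ∃ p₀ : ℕ, ∀ (p : ℕ) [Fact p.Prime], p₀ < p →
    ∀ g : Fin (m + 1) → ZMod p → ℂ, (∀ j x, ‖g j x‖ ≤ 1) → gowersNorm p (s + 1) (g i) < δ → ‖Lam p P g‖ < ε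

/-- `(R_0, …, R_m)` is an algebraic relation: `∑_j R_j(x + P_j(y)) = 0` in `ℤ[y][x]`. -/
def IsAlgRel {m : ℕ} (P : Fin m → ℤ[X]) (R : Fin (m + 1) → ℤ[X]) : Prop :=
  ∑ j, aeval (X + C (prog P j) : ℤ[X][X]) (R j) = 0

/-- `deg R_i ≤ s` for all algebraic relations. -/
def AlgBound {m : ℕ} (P : Fin m → ℤ[X]) (i : Fin (m + 1)) (s : ℕ) : Prop :=
  ∀ R : Fin (m + 1) → ℤ[X], IsAlgRel P R → (R i).natDegree ≤ s

/-- The true complexity at `i`: the least `s` with (⋆), and `⊤` if there is none. -/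
noncomputable def trueC {m : ℕ} (P : Fin m → ℤ[X]) (i : Fin (m + 1)) : ℕ∞ := ⨅ s ∈ {s : ℕ | Star P i s}, (s : ℕ∞)

/-- The algebraic complexity at `i`: the least `s` bounding the degrees of all `R_i`, and `⊤` if there is none. -/
noncomputable def algC {m : ℕ} (P : Fin m → ℤ[X]) (i : Fin (m + 1)) : ℕ∞ :=
  ⨅ s ∈ {s : ℕ | AlgBound P i s}, (s : ℕ∞)

end Pool.Agent.H767R2
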