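import Mathlib
import Pool.Agent.H767R2.Charac

set_option autoImplicit false
set_option linter.unusedSectionVars false

namespace Pool.Agent.H767R2

open MeasureTheory Filter Topology
open scoped ENNReal

section General

variable {X : Type*} [MeasurableSpace X] {μ : Measure X} [IsProbabilityMeasure μ] {T : X → X}

theorem hk_congr (hT : MeasurePreserving T μ μ) (k : ℕ) : ∀ {f g : X → ℂ}, f =ᵐ[μ] g → hk μ T k f = hk μ T k g := by
  induction k with
  | zero =>
    intro f g h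
    rw [hk, hk]
    refine lintegral_congr_ae ?_
    filter_upwards [condExp_congr_ae (m := MeasurableSpace.invariants T) h] with x hx
    rw [hx]
  | succ k ih =>
    intro f g h
    rw [hk, hk]
    have h1 : ∀ n, hk μ T k (fun x => (starRingEnd ℂ) (f x) * f (T^[n] x))
        = hk μ T k (fun x => (starRingEnd ℂ) (g x) * g (T^[n] x)) := by
      intro n
      refine ih ?_
      have h2 := (hT.iterate n).quasiMeasurePreserving.ae h
      filter_upwards [h, h2] with x hx1 hx2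
      rw [hx1, hx2]
    simp_rw [h1]

theorem hk_zero (k : ℕ) : hk μ T k (fun _ => 0) = 0 := by
  induction k with
  | zero =>
    rw [hk]
    have : μ[(fun _ => 0 : X → ℂ) | MeasurableSpace.invariants T] = 0 := condExp_zero
    rw [this]
    simp
  | succ k ih =>
    rw [hk]
    simp [ih]

theorem norm_sq_le_aux {C : ℝ} (a b : ℂ) (ha : ‖a‖ ≤ C) (hb : ‖b‖ ≤ C) :
    ‖a‖ₑ ^ 2 ≤ ‖b‖ₑ ^ 2 + ENNReal.ofReal (2 * C) * ‖a - b‖ₑ := by
  have hC : 0 ≤ C := (norm_nonneg a).trans ha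
  have h1 : ‖a‖ ^ 2 ≤ ‖b‖ ^ 2 + 2 * C * ‖a - b‖ := by
    have h2 : ‖a‖ ≤ ‖b‖ + ‖a - b‖ := by
      have := norm_add_le b (a - b)
      rwa [add_sub_cancel] at this
    have h3 := norm_nonneg a
    have h4 := norm_nonneg b
    have h5 := norm_nonneg (a - b)
    nlinarith
  have h2 := ENNReal.ofReal_le_ofReal h1
  rw [ENNReal.ofReal_add (by positivity) (by positivity), ENNReal.ofReal_mul (by positivity),
    ENNReal.ofReal_pow (norm_nonneg _), ENNReal.ofReal_pow (norm_nonneg _), ofReal_norm, ofReal_norm,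
    ofReal_norm] at h2
  exact h2

theorem limsup_avg_add (a b : ℕ → ℝ≥0∞) (c : ℝ≥0∞) (h : ∀ n, a n ≤ b n + c) :
    limsup (fun H : ℕ => (∑ n ∈ Finset.Icc 1 H, a n) / (H : ℝ≥0∞)) atTop ≤
      limsup (fun H : ℕ => (∑ n ∈ Finset.Icc 1 H, b n) / (H : ℝ≥0∞)) atTop + c := by
  have havg : ∀ H : ℕ, (∑ n ∈ Finset.Icc 1 H, a n) / (H : ℝ≥0∞)
      ≤ (∑ n ∈ Finset.Icc 1 H, b n) / (H : ℝ≥0∞) + c := by
    intro H
    rcases Nat.eq_zero_or_pos H with rfl | hH
    · simp
    have hH0 : (H : ℝ≥0∞) ≠ 0 := by exact_mod_cast hH.ne'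
    have hHt : (H : ℝ≥0∞) ≠ ⊤ := ENNReal.natCast_ne_top H
    have h1 : ∑ n ∈ Finset.Icc 1 H, a n ≤ ∑ n ∈ Finset.Icc 1 H, b n + H * c := by
      refine (Finset.sum_le_sum fun n _ => h n).trans (le_of_eq ?_)
      rw [Finset.sum_add_distrib, Finset.sum_const, Nat.card_Icc, Nat.add_sub_cancel, nsmul_eq_mul]
    have h2 : (∑ n ∈ Finset.Icc 1 H, b n + H * c) / (H : ℝ≥0∞)
        = (∑ n ∈ Finset.Icc 1 H, b n) / (H : ℝ≥0∞) + c := by
      rw [ENNReal.add_div, mul_comm (H : ℝ≥0∞) c, ENNReal.mul_div_cancel_right hH0 hHt]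
    rw [← h2]
    exact ENNReal.div_le_div_right h1 _
  refine (limsup_le_limsup (Eventually.of_forall havg)).trans (le_of_eq ?_)
  exact limsup_add_const atTop _ c (by isBoundedDefault) (by isBoundedDefault)

theorem l1_diff {C : ℝ} {f g : X → ℂ} (hf : Bd μ C f) (hg : Bd μ C g) {S : X → X}
    (hS : MeasurePreserving S μ μ) :
    eLpNorm (fun x => (starRingEnd ℂ) (f x) * f (S x) - (starRingEnd ℂ) (g x) * g (S x)) 1 μ ≤
      2 * ENNReal.ofReal C * eLpNorm (fun x => f x - g x) 1 μ := by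
  have hd : AEStronglyMeasurable (fun x => f x - g x) μ := hf.meas.sub hg.meas
  have h2 : (fun x => (starRingEnd ℂ) (f x) * f (S x) - (starRingEnd ℂ) (g x) * g (S x))
      = (fun x => (starRingEnd ℂ) (f x - g x) * f (S x)) + (fun x => (starRingEnd ℂ) (g x) * (f (S x) - g (S x))) := by
    ext x
    rw [Pi.add_apply, map_sub]
    ring
  have hm1 : AEStronglyMeasurable (fun x => (starRingEnd ℂ) (f x - g x) * f (S x)) μ :=
    (Complex.continuous_conj.comp_aestronglyMeasurable hd).mul (hf.comp hS).meas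
  have hm2 : AEStronglyMeasurable (fun x => (starRingEnd ℂ) (g x) * (f (S x) - g (S x))) μ :=
    hg.conj.meas.mul ((hf.comp hS).meas.sub (hg.comp hS).meas)
  have h3 : eLpNorm (fun x => (starRingEnd ℂ) (f x - g x) * f (S x)) 1 μ ≤
      ENNReal.ofReal C * eLpNorm (fun x => f x - g x) 1 μ := by
    refine eLpNorm_le_mul_eLpNorm_of_ae_le_mul ?_ 1
    filter_upwards [(hf.comp hS).bd] with x hx
    rw [norm_mul, RCLike.norm_conj, mul_comm]
    gcongr
  have h4 : eLpNorm (fun x => (starRingEnd ℂ) (g x) * (f (S x) - g (S x))) 1 μ ≤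
      ENNReal.ofReal C * eLpNorm (fun x => f x - g x) 1 μ := by
    have h5 : eLpNorm (fun x => f (S x) - g (S x)) 1 μ = eLpNorm (fun x => f x - g x) 1 μ := by
      have h6 := eLpNorm_comp_measurePreserving (p := 1) hd hS
      rw [← h6]
      rfl
    rw [← h5]
    refine eLpNorm_le_mul_eLpNorm_of_ae_le_mul ?_ 1
    filter_upwards [hg.bd] with x hx
    rw [norm_mul, RCLike.norm_conj]
    gcongr
  rw [h2]
  refine (eLpNorm_add_le hm1 hm2 le_rfl).trans ((add_le_add h3 h4).trans (le_of_eq ?_))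
  ring

theorem hk_lip (hT : MeasurePreserving T μ μ) (k : ℕ) : ∀ (C : ℝ), ∃ K : ℝ≥0∞, K ≠ ⊤ ∧
    ∀ f g : X → ℂ, Bd μ C f → Bd μ C g → hk μ T k f ≤ hk μ T k g + K * eLpNorm (fun x => f x - g x) 1 μ := by
  induction k with
  | zero =>
    intro C
    refine ⟨ENNReal.ofReal (2 * C), ENNReal.ofReal_ne_top, fun f g hf hg => ?_⟩
    rw [hk, hk]
    have hfE := (hf.condExp (m := MeasurableSpace.invariants T))
    have hgE := (hg.condExp (m := MeasurableSpace.invariants T))
    have h1 : ∫⁻ x, ‖(μ[f | MeasurableSpace.invariants T]) x‖ₑ ^ 2 ∂μ ≤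
        ∫⁻ x, (‖(μ[g | MeasurableSpace.invariants T]) x‖ₑ ^ 2 + ENNReal.ofReal (2 * C) *
          ‖(μ[f | MeasurableSpace.invariants T]) x - (μ[g | MeasurableSpace.invariants T]) x‖ₑ) ∂μ := by
      refine lintegral_mono_ae ?_
      filter_upwards [hfE.bd, hgE.bd] with x h1 h2
      exact norm_sq_le_aux _ _ h1 h2
    refine h1.trans ?_
    rw [lintegral_add_left' (hgE.meas.enorm.pow_const 2), lintegral_const_mul' _ _ ENNReal.ofReal_ne_top]
    gcongr
    have h2 : ∫⁻ x, ‖(μ[f | MeasurableSpace.invariants T]) x - (μ[g | MeasurableSpace.invariants T]) x‖ₑ ∂μ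
        = eLpNorm (μ[f - g | MeasurableSpace.invariants T]) 1 μ := by
      rw [eLpNorm_one_eq_lintegral_enorm]
      refine lintegral_congr_ae ?_
      filter_upwards [condExp_sub hf.integrable hg.integrable (MeasurableSpace.invariants T)] with x hx
      rw [hx]; rfl
    rw [h2]
    exact eLpNorm_condExp_le_eLpNorm _ le_rfl
  | succ k ih =>
    intro C
    obtain ⟨K, hK, hKb⟩ := ih (C * C)
    refine ⟨K * (2 * ENNReal.ofReal C), ENNReal.mul_ne_top hK (ENNReal.mul_ne_top (by norm_num) ENNReal.ofReal_ne_top),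
      fun f g hf hg => ?_⟩
    rw [hk, hk]
    refine limsup_avg_add _ _ _ fun h => ?_
    have hTh := hT.iterate h
    have h1 := hKb (fun x => (starRingEnd ℂ) (f x) * f (T^[h] x)) (fun x => (starRingEnd ℂ) (g x) * g (T^[h] x))
      (hf.conj.mul (hf.comp hTh) hf.nonneg) (hg.conj.mul (hg.comp hTh) hf.nonneg)
    refine h1.trans ?_
    rw [mul_assoc K]
    have h2 := l1_diff hf hg hTh
    exact add_le_add le_rfl (mul_le_mul' le_rfl h2)

theorem hk_lt_top (hT : MeasurePreserving T μ μ) (k : ℕ) (C : ℝ) : ∃ B : ℝ≥0∞, B ≠ ⊤ ∧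
    ∀ f : X → ℂ, Bd μ C f → hk μ T k f ≤ B := by
  obtain ⟨K, hK, hKb⟩ := hk_lip hT k C
  refine ⟨K * ENNReal.ofReal C, ENNReal.mul_ne_top hK ENNReal.ofReal_ne_top, fun f hf => ?_⟩
  have h0 : Bd μ C (fun _ => (0 : ℂ)) := ⟨aestronglyMeasurable_const, ae_of_all _ fun _ => by
    simpa using hf.nonneg⟩
  refine (hKb f _ hf h0).trans ?_
  rw [hk_zero, zero_add]
  gcongr
  simp only [sub_zero]
  have h1 := eLpNorm_le_of_ae_bound (p := 1) hf.bd
  simpa using h1

end General

end Pool.Agent.H767R2
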