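import Mathlib
import Pool.Agent.H767R2.HKLip

set_option autoImplicit false
set_option linter.unusedSectionVars false

namespace Pool.Agent.H767R2

open MeasureTheory Filter Topology
open scoped ENNReal

theorem condExp_zero_of_setIntegral {X : Type*} {m m₀ : MeasurableSpace X} {μ : Measure X} [IsProbabilityMeasure μ]
    (hm : m ≤ m₀) {f : X → ℂ} (hf : Integrable f μ) (h : ∀ s, MeasurableSet[m] s → ∫ x in s, f x ∂μ = 0) :
    μ[f | m] =ᵐ[μ] 0 := by
  refine (ae_eq_condExp_of_forall_setIntegral_eq hm hf (fun s _ _ => ?_) (fun s hs _ => ?_) ?_).symm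
  · exact (integrable_zero X ℂ μ).integrableOn
  · rw [h s hs]; simp
  · exact stronglyMeasurable_zero.aestronglyMeasurable

theorem integral_comp_mp {X : Type*} [MeasurableSpace X] {μ : Measure X} {S : X → X}
    (hS : MeasurePreserving S μ μ) {g : X → ℂ} (hg : AEStronglyMeasurable g μ) :
    ∫ x, g (S x) ∂μ = ∫ x, g x ∂μ := by
  have h1 := integral_map (μ := μ) (φ := S) hS.measurable.aemeasurable (f := g) (by rw [hS.map_eq]; exact hg)
  rw [hS.map_eq] at h1
  exact h1.symm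

namespace WeylSystem

variable (W : WeylSystem)

theorem mem_of_functionals (v : (Fin W.D → ℤ) × ℝ)
    (h : ∀ φ : ((Fin W.D → ℤ) × ℝ) →+ ℚ, (∀ c : ℚ, φ (0, (c : ℝ)) = 0) → φ v = 0) :
    ∃ c : ℚ, v = (0, (c : ℝ)) := by
  have hv1 : v.1 = 0 := by
    ext k
    have h1 := h (((Int.castAddHom ℚ).comp (Pi.evalAddMonoidHom (fun _ => ℤ) k)).comp
      (AddMonoidHom.fst _ _)) (fun c => by simp)
    simpa using h1
  obtain ⟨q, hq⟩ := rational_of_functionals v.2 (fun θ hθ => by
    have h1 := h (θ.toAddMonoidHom.comp (AddMonoidHom.snd _ _)) (fun c => by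
      have : θ (c : ℝ) = 0 := by
        have h2 : (c : ℝ) = c • (1 : ℝ) := by rw [Rat.smul_def, mul_one]
        rw [h2, map_smul, hθ, smul_zero]
      simpa using this)
    simpa using h1)
  exact ⟨q, Prod.ext hv1 hq⟩

theorem Lam_finite (k : ℕ) (g' : (Fin W.D → ℤ) × ℝ) (hg' : ¬ W.Lam (k + 2) g') (g : (Fin W.D → ℤ) × ℝ) :
    {h : ℕ | W.Lam (k + 1) ((W.cs.U ^ h) g' - g)}.Finite := by
  by_contra hinf
  apply hg'
  obtain ⟨r, hr⟩ := W.nilpotent_cs
  refine W.mem_of_functionals _ fun φ hφ => ?_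
  set u' := (Nf W.cs.U)^[k + 1] g' with hu'
  set u := (Nf W.cs.U)^[k + 1] g with hu
  obtain ⟨Q, hQ⟩ := poly_of_unipotent (K := ℚ) W.cs.U φ r u' (hr u')
  have h1 : ∀ h ∈ {h : ℕ | W.Lam (k + 1) ((W.cs.U ^ h) g' - g)}, Q.eval (h : ℚ) = φ u := by
    intro h hh
    obtain ⟨c, hc⟩ := hh
    rw [Nf_iter_sub, Nf_iter_pow] at hc
    have h2 := hφ c
    rw [← hc, map_sub, sub_eq_zero] at h2
    rw [← h2]
    have h3 := hQ (h : ℤ)
    rw [zpow_natCast] at h3
    rw [h3]
    simp
  have h2 : Q = Polynomial.C (φ u) := by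
    apply Polynomial.eq_of_infinite_eval_eq
    refine Set.Infinite.mono ?_ ((Set.not_finite.mp hinf).image (Nat.cast_injective (R := ℚ)).injOn)
    rintro _ ⟨h, hh, rfl⟩
    change Q.eval (h : ℚ) = (Polynomial.C (φ u)).eval (h : ℚ)
    rw [h1 h hh, Polynomial.eval_C]
  have h3 : (Nf W.cs.U)^[k + 2] g' = W.cs.U u' - u' := by
    rw [Function.iterate_succ_apply']
    rfl
  rw [h3, map_sub]
  have h4 := hQ 0
  have h5 := hQ 1
  rw [h2, Polynomial.eval_C, zpow_zero] at h4
  rw [h2, Polynomial.eval_C, zpow_one] at h5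
  rw [h5]
  have h6 : φ u' = φ u := h4
  rw [h6, sub_self]

theorem T_zpow_X (n : ℕ) (x : Fin W.D → UnitAddCircle) :
    (W.T ^ ((Polynomial.X : Polynomial ℤ).eval (n : ℤ))) x = W.T^[n] x := by
  rw [Polynomial.eval_X, zpow_natCast, ← Equiv.Perm.iterate_eq_pow]

theorem condExp_inv_zero (g : (Fin W.D → ℤ) × ℝ) (hg : ¬ W.Lam 1 g) :
    (haarT W.D)[W.cs.E g | MeasurableSpace.invariants W.T] =ᵐ[haarT W.D] 0 := by
  set μ := haarT W.D with hμ
  have hbd : Bd μ 1 (W.cs.E g) := W.cs.bd g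
  refine condExp_zero_of_setIntegral (MeasurableSpace.invariants_le _) hbd.integrable fun A hA => ?_
  have hAm : MeasurableSet A := hA.1
  have hAT : ∀ n : ℕ, W.T^[n] ⁻¹' A = A := fun n =>
    ((MeasurableSpace.le_invariants_iterate (W.T : (Fin W.D → UnitAddCircle) → _) n) A hA).2
  set a : ℕ → (Fin W.D → UnitAddCircle) → ℂ := fun N x => (1 / (N : ℂ)) * ∑ n ∈ Finset.Icc 1 N,
      ∏ i ∈ (Finset.univ : Finset Unit), W.cs.E g ((W.T ^ ((Polynomial.X : Polynomial ℤ).eval (n : ℤ))) x) with ha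
  have ha' : ∀ N x, a N x = (1 / (N : ℂ)) * ∑ n ∈ Finset.Icc 1 N, W.cs.E g (W.T^[n] x) := by
    intro N x
    simp only [ha, Finset.univ_unique, Finset.prod_singleton, T_zpow_X]
  have habd : ∀ N : ℕ, Bd μ (‖(1 / (N : ℂ))‖ * ∑ n ∈ Finset.Icc 1 N, (1 : ℝ)) (a N) := by
    intro N
    have h1 : a N = fun x => (1 / (N : ℂ)) * ∑ n ∈ Finset.Icc 1 N, W.cs.E g (W.T^[n] x) := by
      ext x; exact ha' N x
    rw [h1]
    exact (Bd.sum _ fun n _ => hbd.comp (W.measurePreserving_T.iterate n)).const_mul _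
  have hlim : Tendsto (fun N => eLpNorm (a N) 2 μ) atTop (𝓝 0) := by
    refine tendsto_eLpNorm_of_integral habd ?_
    have h1 := chi_case W (Finset.univ : Finset Unit) (fun _ => Polynomial.X) (by simp)
      (fun i _ j _ h => absurd (Subsingleton.elim i j) h) (fun _ => g) () (Finset.mem_univ _) (by simpa using hg)
    exact h1
  have hint : ∀ N : ℕ, 0 < N → ∫ x in A, a N x ∂μ = ∫ x in A, W.cs.E g x ∂μ := by
    intro N hN
    simp_rw [ha']
    rw [integral_const_mul, integral_finsetSum]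
    · have h1 : ∀ n ∈ Finset.Icc 1 N, ∫ x in A, W.cs.E g (W.T^[n] x) ∂μ = ∫ x in A, W.cs.E g x ∂μ := by
        intro n _
        rw [← integral_indicator hAm, ← integral_indicator hAm]
        rw [← integral_comp_mp (W.measurePreserving_T.iterate n) (hbd.meas.indicator hAm)]
        refine integral_congr_ae (ae_of_all _ fun x => ?_)
        beta_reduce
        have h2 : (W.T^[n] x ∈ A) ↔ x ∈ A := by
          rw [← Set.mem_preimage, hAT]
        by_cases hx : x ∈ A
        · rw [Set.indicator_of_mem hx, Set.indicator_of_mem (h2.mpr hx)]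
        · rw [Set.indicator_of_notMem hx, Set.indicator_of_notMem (fun h => hx (h2.mp h))]
      rw [Finset.sum_congr rfl h1, Finset.sum_const, Nat.card_Icc, Nat.add_sub_cancel, nsmul_eq_mul,
        ← mul_assoc, one_div, inv_mul_cancel₀ (by exact_mod_cast hN.ne'), one_mul]
    · intro n _
      exact (hbd.comp (W.measurePreserving_T.iterate n)).integrable.integrableOn
  have hle : ∀ᶠ N in atTop, ‖∫ x in A, W.cs.E g x ∂μ‖ₑ ≤ eLpNorm (a N) 2 μ := by
    filter_upwards [eventually_gt_atTop 0] with N hN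
    rw [← hint N hN]
    refine (enorm_integral_le_lintegral_enorm _).trans ?_
    refine (lintegral_mono' Measure.restrict_le_self le_rfl).trans ?_
    rw [← eLpNorm_one_eq_lintegral_enorm]
    exact eLpNorm_le_eLpNorm_of_exponent_le (by norm_num) (habd N).meas
  have h0 := ge_of_tendsto hlim hle
  simpa using h0

theorem hk_trig (k : ℕ) : ∀ (κ : Type) (F : Finset κ) (c : κ → ℂ) (g : κ → (Fin W.D → ℤ) × ℝ),
    (∀ i ∈ F, ¬ W.Lam (k + 1) (g i)) →
    hk (haarT W.D) W.T k (fun x => ∑ i ∈ F, c i * W.cs.E (g i) x) = 0 := by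
  classical
  induction k with
  | zero =>
    intro κ F c g hg
    rw [hk]
    have h1 : (haarT W.D)[fun x => ∑ i ∈ F, c i * W.cs.E (g i) x | MeasurableSpace.invariants W.T]
        =ᵐ[haarT W.D] 0 := by
      have h2 : (fun x => ∑ i ∈ F, c i * W.cs.E (g i) x) = ∑ i ∈ F, c i • W.cs.E (g i) := by
        ext x; rw [Finset.sum_apply]; rfl
      rw [h2]
      refine (condExp_finsetSum (fun i _ => ((W.cs.bd (μ := haarT W.D) (g i)).integrable.smul (c i))) _).trans ?_
      have h3 : ∀ᵐ x ∂(haarT W.D), ∀ i ∈ F, ((haarT W.D)[c i • W.cs.E (g i) | MeasurableSpace.invariants W.T]) x = 0 := by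
        rw [Filter.eventually_all_finset]
        intro i hi
        filter_upwards [condExp_smul (c i) (W.cs.E (g i)) (MeasurableSpace.invariants W.T) (μ := haarT W.D),
          W.condExp_inv_zero (g i) (hg i hi)] with x hx1 hx2
        rw [hx1, Pi.smul_apply, hx2, Pi.zero_apply, smul_zero]
      filter_upwards [h3] with x hx
      rw [Finset.sum_apply, Finset.sum_eq_zero hx, Pi.zero_apply]
    have h2 : ∫⁻ x, ‖((haarT W.D)[fun x => ∑ i ∈ F, c i * W.cs.E (g i) x | MeasurableSpace.invariants W.T]) x‖ₑ ^ 2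
        ∂(haarT W.D) = ∫⁻ _, 0 ∂(haarT W.D) := by
      refine lintegral_congr_ae ?_
      filter_upwards [h1] with x hx
      rw [hx]; simp
    rw [h2]; simp
  | succ k ih =>
    intro κ F c g hg
    rw [hk]
    set P : (Fin W.D → UnitAddCircle) → ℂ := fun x => ∑ i ∈ F, c i * W.cs.E (g i) x with hP
    have hPbd : Bd (haarT W.D) (∑ i ∈ F, ‖c i‖ * 1) P := Bd.sum _ fun i _ => (W.cs.bd _).const_mul _
    have hform : ∀ h : ℕ, (fun x => (starRingEnd ℂ) (P x) * P (W.T^[h] x))
        = fun x => ∑ q ∈ F ×ˢ F, ((starRingEnd ℂ) (c q.1) * c q.2) * W.cs.E ((W.cs.U ^ h) (g q.2) - g q.1) x := by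
      intro h
      ext x
      simp only [hP]
      rw [map_sum, Finset.sum_mul_sum, Finset.sum_product]
      refine Finset.sum_congr rfl fun i _ => ?_
      refine Finset.sum_congr rfl fun i' _ => ?_
      rw [map_mul, W.cs.iterate, sub_eq_add_neg, W.cs.add, W.cs.neg]
      ring
    have hfin : (⋃ q ∈ (F ×ˢ F : Finset (κ × κ)), {h : ℕ | W.Lam (k + 1) ((W.cs.U ^ h) (g q.2) - g q.1)}).Finite := by
      refine Set.Finite.biUnion (Finset.finite_toSet _) fun q hq => ?_
      have hq' := Finset.mem_product.mp (Finset.mem_coe.mp hq)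
      exact W.Lam_finite k (g q.2) (hg q.2 hq'.2) (g q.1)
    obtain ⟨M, hM⟩ := hfin.bddAbove
    have hzero : ∀ h : ℕ, M < h → hk (haarT W.D) W.T k (fun x => (starRingEnd ℂ) (P x) * P (W.T^[h] x)) = 0 := by
      intro h hh
      rw [hform]
      refine ih (κ × κ) (F ×ˢ F) _ _ fun q hq hLam => ?_
      have h1 : h ∈ (⋃ q ∈ (F ×ˢ F : Finset (κ × κ)), {h : ℕ | W.Lam (k + 1) ((W.cs.U ^ h) (g q.2) - g q.1)}) := by
        simp only [Set.mem_iUnion]
        exact ⟨q, hq, hLam⟩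
      have := hM h1
      omega
    obtain ⟨B, hB, hBb⟩ := hk_lt_top W.measurePreserving_T k ((∑ i ∈ F, ‖c i‖ * 1) * (∑ i ∈ F, ‖c i‖ * 1))
    have hbound : ∀ h : ℕ, hk (haarT W.D) W.T k (fun x => (starRingEnd ℂ) (P x) * P (W.T^[h] x)) ≤ B := fun h =>
      hBb _ (hPbd.conj.mul (hPbd.comp (W.measurePreserving_T.iterate h)) hPbd.nonneg)
    have hsum : ∀ H : ℕ, ∑ h ∈ Finset.Icc 1 H, hk (haarT W.D) W.T k (fun x => (starRingEnd ℂ) (P x) * P (W.T^[h] x))
        ≤ M * B := by
      intro H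
      have h1 : ∀ h ∈ Finset.Icc 1 H, hk (haarT W.D) W.T k (fun x => (starRingEnd ℂ) (P x) * P (W.T^[h] x))
          ≤ if h ∈ Finset.Icc 1 M then B else 0 := by
        intro h hh
        split_ifs with h2
        · exact hbound h
        · rw [hzero h (by rw [Finset.mem_Icc] at hh h2; omega)]
      refine (Finset.sum_le_sum h1).trans ?_
      rw [← Finset.sum_filter]
      rw [Finset.sum_const, nsmul_eq_mul]
      gcongr
      have h3 : (Finset.Icc 1 H).filter (fun h => h ∈ Finset.Icc 1 M) ⊆ Finset.Icc 1 M := by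
        intro x hx
        exact (Finset.mem_filter.mp hx).2
      have h4 := Finset.card_le_card h3
      rwa [Nat.card_Icc, Nat.add_sub_cancel] at h4
    have hlim : Tendsto (fun H : ℕ => ((M : ℝ≥0∞) * B) / (H : ℝ≥0∞)) atTop (𝓝 0) := by
      have h1 : (M : ℝ≥0∞) * B ≠ ⊤ := ENNReal.mul_ne_top (ENNReal.natCast_ne_top M) hB
      have h2 := ENNReal.Tendsto.const_div (a := (M : ℝ≥0∞) * B) ENNReal.tendsto_nat_nhds_top (Or.inr h1)
      simpa using h2
    have hlim' : Tendsto (fun H : ℕ => (∑ h ∈ Finset.Icc 1 H,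
        hk (haarT W.D) W.T k (fun x => (starRingEnd ℂ) (P x) * P (W.T^[h] x))) / (H : ℝ≥0∞)) atTop (𝓝 0) :=
      tendsto_of_tendsto_of_tendsto_of_le_of_le tendsto_const_nhds hlim (fun _ => bot_le)
        (fun H => ENNReal.div_le_div_right (hsum H) _)
    exact hlim'.limsup_eq

end WeylSystem

end Pool.Agent.H767R2
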