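import Mathlib
import Pool.Agent.H767R2.HKTrig

set_option autoImplicit false
set_option linter.unusedSectionVars false

namespace Pool.Agent.H767R2

open MeasureTheory Filter Topology
open scoped ENNReal

theorem integral_condExp_mul {X : Type*} {m m₀ : MeasurableSpace X} {μ : Measure X} [IsProbabilityMeasure μ]
    (hm : m ≤ m₀) {C D : ℝ} {f u : X → ℂ} (hf : Bd μ C f) (hu : Bd μ D u) (hum : StronglyMeasurable[m] u) :
    ∫ x, (μ[f | m]) x * u x ∂μ = ∫ x, f x * u x ∂μ := by
  have hfg : Integrable (fun x => ContinuousLinearMap.mul ℝ ℂ (f x) (u x)) μ := by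
    have := hf.mul hu hf.nonneg
    refine this.integrable.congr (ae_of_all _ fun x => ?_)
    simp
  have h1 := condExp_bilin_of_stronglyMeasurable_right (ContinuousLinearMap.mul ℝ ℂ) hum hfg hf.integrable
  have h3 := integral_condExp (μ := μ) (f := fun x => ContinuousLinearMap.mul ℝ ℂ (f x) (u x)) hm
  rw [integral_congr_ae h1] at h3
  simpa using h3

theorem fourier_zero {D : ℕ} {f : (Fin D → UnitAddCircle) → ℂ} (hf : MemLp f 2 (haarT D))
    (h : ∀ m, ∫ x, f x * (starRingEnd ℂ) (chi m x) ∂(haarT D) = 0) : f =ᵐ[haarT D] 0 := by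
  have h1 : ∀ ε > 0, ∫ x, ‖f x‖ ^ 2 ∂(haarT D) < ε := by
    intro ε hε
    obtain ⟨F, hF, hlt⟩ := fourier_approx hf hε
    have hFe : F = ∅ := by
      rw [Finset.eq_empty_iff_forall_notMem]
      intro m hm
      exact hF m hm (h m)
    subst hFe
    simpa using hlt
  have h2 : ∫ x, ‖f x‖ ^ 2 ∂(haarT D) = 0 :=
    le_antisymm (le_of_forall_pos_lt_add fun ε hε => by simpa using h1 ε hε) (integral_nonneg fun x => by positivity)
  have h3 : Integrable (fun x => ‖f x‖ ^ 2) (haarT D) := hf.integrable_norm_pow (by norm_num)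
  rw [integral_eq_zero_iff_of_nonneg (fun x => by positivity) h3] at h2
  filter_upwards [h2] with x hx
  have : ‖f x‖ ^ 2 = 0 := hx
  simpa using this

/-- the inclusion of `ℚ/ℤ` in `ℝ/ℤ` -/
noncomputable def jmap : AddCircle (1 : ℚ) →+ UnitAddCircle :=
  QuotientAddGroup.map (AddSubgroup.zmultiples (1 : ℚ)) (AddSubgroup.zmultiples (1 : ℝ))
    ((Rat.castHom ℝ).toAddMonoidHom) (by
      rintro x ⟨n, rfl⟩
      exact ⟨n, by simp⟩)

theorem jmap_injective : Function.Injective jmap := by
  rw [injective_iff_map_eq_zero]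
  intro a ha
  induction a using QuotientAddGroup.induction_on with
  | H q =>
    have h1 : ((q : ℝ) : UnitAddCircle) = 0 := ha
    rw [QuotientAddGroup.eq_zero_iff] at h1 ⊢
    obtain ⟨n, hn⟩ := h1
    refine ⟨n, ?_⟩
    have : ((n • (1 : ℚ) : ℚ) : ℝ) = (q : ℝ) := by
      rw [← hn]; simp
    exact_mod_cast this

/-- separation of points from subgroups by points of the torus -/
theorem exists_separating {D : ℕ} (Λ : AddSubgroup (Fin D → ℤ)) (m : Fin D → ℤ) (hm : m ∉ Λ) :
    ∃ y : Fin D → UnitAddCircle, (∀ m' ∈ Λ, pr m' y = 0) ∧ pr m y ≠ 0 := by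
  have h1 : (QuotientAddGroup.mk' Λ m) ≠ 0 := by
    intro h
    exact hm ((QuotientAddGroup.eq_zero_iff m).mp h)
  obtain ⟨c, hc⟩ := CharacterModule.exists_character_apply_ne_zero_of_ne_zero h1
  set ψ : (Fin D → ℤ) →+ UnitAddCircle := (jmap.comp (c : _ →+ AddCircle (1 : ℚ))).comp (QuotientAddGroup.mk' Λ) with hψ
  have hpr : ∀ m' : Fin D → ℤ, pr m' (fun i => ψ (Pi.single i 1)) = ψ m' := by
    intro m'
    rw [pr]
    simp_rw [← map_zsmul]
    rw [← map_sum]
    congr 1
    ext j
    simp [Finset.sum_apply, Pi.single_apply]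
  refine ⟨fun i => ψ (Pi.single i 1), fun m' hm' => ?_, ?_⟩
  · rw [hpr, hψ]
    have h2 : QuotientAddGroup.mk' Λ m' = 0 := (QuotientAddGroup.eq_zero_iff m').mpr hm'
    have h3 : c (QuotientAddGroup.mk' Λ m') = 0 := by rw [h2]; exact map_zero c
    change jmap (c (QuotientAddGroup.mk' Λ m')) = 0
    rw [h3]
    exact map_zero jmap
  · rw [hpr, hψ]
    intro h
    apply hc
    exact jmap_injective (by rw [map_zero]; exact h)

theorem ev_eq_one {t : UnitAddCircle} (h : ev t = 1) : t = 0 := by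
  apply AddCircle.injective_toCircle one_ne_zero
  rw [AddCircle.toCircle_zero]
  exact Circle.ext h

theorem chi_add_right {D : ℕ} (m : Fin D → ℤ) (x y : Fin D → UnitAddCircle) :
    chi m (x + y) = chi m x * chi m y := by
  rw [chi, pr_add_right, ev_add]; rfl

/-- The σ-algebra generated by the characters in a subgroup. -/
@[instance_reducible] noncomputable def sigmaChar {D : ℕ} (Λ : AddSubgroup (Fin D → ℤ)) : MeasurableSpace (Fin D → UnitAddCircle) :=
  ⨆ m : Λ, MeasurableSpace.comap (chi m.1) (borel ℂ)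

theorem sigmaChar_le {D : ℕ} (Λ : AddSubgroup (Fin D → ℤ)) : sigmaChar Λ ≤ MeasurableSpace.pi := by
  refine iSup_le fun m => ?_
  rw [← measurable_iff_comap_le, ← BorelSpace.measurable_eq (α := ℂ)]
  exact (continuous_chi m.1).measurable

theorem stronglyMeasurable_chi {D : ℕ} (Λ : AddSubgroup (Fin D → ℤ)) (m : Fin D → ℤ) (hm : m ∈ Λ) :
    StronglyMeasurable[sigmaChar Λ] (chi m) := by
  apply Measurable.stronglyMeasurable
  rw [measurable_iff_comap_le, BorelSpace.measurable_eq (α := ℂ)]
  exact le_iSup (fun m : Λ => MeasurableSpace.comap (chi m.1) (borel ℂ)) ⟨m, hm⟩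

theorem condExp_chi_zero {D : ℕ} (Λ : AddSubgroup (Fin D → ℤ)) (m : Fin D → ℤ) (hm : m ∉ Λ) :
    (haarT D)[chi m | sigmaChar Λ] =ᵐ[haarT D] 0 := by
  obtain ⟨y, hy1, hy2⟩ := exists_separating Λ m hm
  refine condExp_zero_of_setIntegral (sigmaChar_le Λ) (chi_bd m).integrable fun A hA => ?_
  have hAm : MeasurableSet A := sigmaChar_le Λ A hA
  have hinv : (fun x : Fin D → UnitAddCircle => x + y) ⁻¹' A = A := by
    have h1 : sigmaChar Λ ≤ MeasurableSpace.invariants (fun x : Fin D → UnitAddCircle => x + y) := by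
      refine iSup_le fun m' => ?_
      rw [← measurable_iff_comap_le, ← BorelSpace.measurable_eq (α := ℂ), MeasurableSpace.measurable_invariants_dom]
      refine ⟨(continuous_chi m'.1).measurable, fun s _ => ?_⟩
      ext x
      simp only [Set.mem_preimage, Function.comp_apply]
      rw [chi_add_right]
      have : chi m'.1 y = 1 := by rw [chi, hy1 m'.1 m'.2, ev_zero]
      rw [this, mul_one]
    exact (h1 A hA).2
  have hmp : MeasurePreserving (fun x : Fin D → UnitAddCircle => x + y) (haarT D) (haarT D) :=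
    measurePreserving_add_right _ _
  have h2 : ∫ x in A, chi m x ∂(haarT D) = chi m y * ∫ x in A, chi m x ∂(haarT D) := by
    rw [← integral_indicator hAm]
    conv_lhs => rw [← integral_comp_mp hmp ((chi_bd m).meas.indicator hAm)]
    rw [← integral_const_mul]
    refine integral_congr_ae (ae_of_all _ fun x => ?_)
    beta_reduce
    have h3 : (x + y ∈ A) ↔ x ∈ A := by
      have : x ∈ (fun x : Fin D → UnitAddCircle => x + y) ⁻¹' A ↔ x ∈ A := by rw [hinv]
      exact this
    by_cases hx : x ∈ A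
    · rw [Set.indicator_of_mem hx, Set.indicator_of_mem (h3.mpr hx), chi_add_right, mul_comm]
    · rw [Set.indicator_of_notMem hx, Set.indicator_of_notMem (fun h => hx (h3.mp h)), mul_zero]
  have h3 : chi m y ≠ 1 := fun h => hy2 (ev_eq_one h)
  have h4 : (1 - chi m y) * ∫ x in A, chi m x ∂(haarT D) = 0 := by
    linear_combination h2
  rcases mul_eq_zero.mp h4 with h5 | h5
  · exact absurd (sub_eq_zero.mp h5).symm h3
  · exact h5

theorem condExp_zero_iff_fourier {D : ℕ} (Λ : AddSubgroup (Fin D → ℤ)) {C : ℝ} {f : (Fin D → UnitAddCircle) → ℂ}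
    (hf : Bd (haarT D) C f) : ((haarT D)[f | sigmaChar Λ] =ᵐ[haarT D] 0) ↔
      ∀ m ∈ Λ, ∫ x, f x * (starRingEnd ℂ) (chi m x) ∂(haarT D) = 0 := by
  constructor
  · intro h m hm
    have h1 := integral_condExp_mul (sigmaChar_le Λ) hf (chi_bd (-m)) (stronglyMeasurable_chi Λ (-m) (Λ.neg_mem hm))
    simp_rw [chi_neg] at h1
    rw [← h1]
    have h2 : ∀ᵐ x ∂(haarT D), ((haarT D)[f | sigmaChar Λ]) x * (starRingEnd ℂ) (chi m x) = 0 := by
      filter_upwards [h] with x hx
      rw [hx, Pi.zero_apply, zero_mul]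
    rw [integral_congr_ae h2]
    simp
  · intro h
    have hg := hf.condExp (m := sigmaChar Λ)
    refine fourier_zero (hg.memLp 2) fun m => ?_
    by_cases hm : m ∈ Λ
    · have h1 := integral_condExp_mul (sigmaChar_le Λ) hf (chi_bd (-m)) (stronglyMeasurable_chi Λ (-m) (Λ.neg_mem hm))
      simp_rw [chi_neg] at h1
      rw [h1]
      exact h m hm
    · have h1 := integral_condExp_mul (sigmaChar_le Λ) (chi_bd (-m)) hg stronglyMeasurable_condExp
      have h2 : ∀ᵐ x ∂(haarT D), ((haarT D)[chi (-m) | sigmaChar Λ]) x * ((haarT D)[f | sigmaChar Λ]) x = 0 := by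
        filter_upwards [condExp_chi_zero Λ (-m) (fun h => hm (by simpa using Λ.neg_mem h))] with x hx
        rw [hx, Pi.zero_apply, zero_mul]
      rw [integral_congr_ae h2] at h1
      simp only [integral_zero, chi_neg] at h1
      rw [h1]
      refine integral_congr_ae (ae_of_all _ fun x => ?_)
      beta_reduce
      rw [mul_comm]

end Pool.Agent.H767R2
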