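import Mathlib
import Pool.Agent.H767R2.Exist1

set_option autoImplicit false
set_option linter.unusedSectionVars false

namespace Pool.Agent.H767R2

open MeasureTheory Filter Topology
open scoped ENNReal

/-- radial truncation -/
noncomputable def trunc (C : ℝ) (z : ℂ) : ℂ := ((C / max C ‖z‖ : ℝ) : ℂ) * z

theorem continuous_trunc {C : ℝ} (hC : 0 < C) : Continuous (trunc C) := by
  unfold trunc
  have h : Continuous (fun z : ℂ => C / max C ‖z‖) :=
    continuous_const.div (continuous_const.max continuous_norm) fun z => (lt_max_of_lt_left hC).ne'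
  exact (Complex.continuous_ofReal.comp h).mul continuous_id

theorem norm_trunc_le {C : ℝ} (hC : 0 < C) (z : ℂ) : ‖trunc C z‖ ≤ C := by
  have h1 : 0 < max C ‖z‖ := lt_max_of_lt_left hC
  rw [trunc, norm_mul, Complex.norm_real, Real.norm_of_nonneg (by positivity), div_mul_eq_mul_div,
    div_le_iff₀ h1]
  gcongr
  exact le_max_right _ _

theorem norm_sub_trunc_le {C : ℝ} (hC : 0 < C) (z w : ℂ) (hw : ‖w‖ ≤ C) : ‖w - trunc C z‖ ≤ 2 * ‖w - z‖ := by
  have h1 : 0 < max C ‖z‖ := lt_max_of_lt_left hC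
  have h2 : ‖z - trunc C z‖ ≤ ‖w - z‖ := by
    rcases le_total ‖z‖ C with h | h
    · have : trunc C z = z := by
        rw [trunc, max_eq_left h, div_self hC.ne']; simp
      rw [this, sub_self, norm_zero]
      exact norm_nonneg _
    · have hz : 0 < ‖z‖ := hC.trans_le h
      have h3 : z - trunc C z = ((1 - C / ‖z‖ : ℝ) : ℂ) * z := by
        rw [trunc, max_eq_right h]; push_cast; ring
      have h4 : 0 ≤ 1 - C / ‖z‖ := by
        rw [sub_nonneg, div_le_one hz]; exact h
      rw [h3, norm_mul, Complex.norm_real, Real.norm_of_nonneg h4, sub_mul, one_mul, div_mul_cancel₀ _ hz.ne']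
      have h5 := norm_sub_norm_le z w
      rw [norm_sub_rev] at h5
      linarith
  calc ‖w - trunc C z‖ = ‖(w - z) + (z - trunc C z)‖ := by ring_nf
    _ ≤ ‖w - z‖ + ‖z - trunc C z‖ := norm_add_le _ _
    _ ≤ 2 * ‖w - z‖ := by linarith

/-- bounded approximation by trigonometric polynomials -/
theorem trig_approx {D : ℕ} {C : ℝ} (hC : 0 < C) {f : (Fin D → UnitAddCircle) → ℂ} (hf : Bd (haarT D) C f)
    {ε : ℝ} (hε : 0 < ε) : ∃ (F : Finset (Fin D → ℤ)) (c : (Fin D → ℤ) → ℂ),
      (∀ x, ‖∑ m ∈ F, c m * chi m x‖ ≤ C + 1) ∧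
      eLpNorm (fun x => f x - ∑ m ∈ F, c m * chi m x) 1 (haarT D) ≤ ENNReal.ofReal ε := by
  obtain ⟨g, hg, _⟩ := (hf.memLp 1).exists_boundedContinuous_eLpNorm_sub_le (by norm_num)
    (ε := ENNReal.ofReal (ε / 4)) (by simpa using hε)
  set g' : C(Fin D → UnitAddCircle, ℂ) := ⟨fun x => trunc C (g x), (continuous_trunc hC).comp g.continuous⟩ with hg'
  set δ := min 1 (ε / 2) with hδ
  have hδ0 : 0 < δ := by positivity
  have hmem : g' ∈ (Submodule.span ℂ (Set.range (UnitAddTorus.mFourier (d := Fin D)))).topologicalClosure := by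
    rw [UnitAddTorus.span_mFourier_closure_eq_top]; trivial
  rw [← SetLike.mem_coe, Submodule.topologicalClosure_coe, Metric.mem_closure_iff] at hmem
  obtain ⟨P, hP, hPd⟩ := hmem δ hδ0
  rw [SetLike.mem_coe, Finsupp.mem_span_range_iff_exists_finsupp] at hP
  obtain ⟨c, hc⟩ := hP
  have hPx : ∀ x, P x = ∑ m ∈ c.support, c m * chi m x := by
    intro x
    rw [← hc, Finsupp.sum, ContinuousMap.sum_apply]
    refine Finset.sum_congr rfl fun m _ => ?_
    rw [ContinuousMap.smul_apply, smul_eq_mul, mFourier_eq_chi]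
  have hdist : ∀ x, ‖g' x - P x‖ ≤ δ := by
    intro x
    have h1 := ContinuousMap.dist_apply_le_dist (f := g') (g := P) x
    rw [dist_eq_norm] at h1
    exact h1.trans hPd.le
  refine ⟨c.support, c, fun x => ?_, ?_⟩
  · rw [← hPx]
    have h1 : ‖g' x‖ ≤ C := norm_trunc_le hC _
    have h2 : ‖P x‖ ≤ ‖g' x‖ + ‖g' x - P x‖ := by
      have := norm_sub_norm_le (P x) (g' x)
      rw [norm_sub_rev] at this
      linarith
    have h3 : δ ≤ 1 := min_le_left _ _
    linarith [hdist x]
  · simp_rw [← hPx]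
    have h1 : (fun x => f x - P x) = (fun x => f x - g' x) + (fun x => g' x - P x) := by
      ext x; rw [Pi.add_apply]; ring
    rw [h1]
    have hg'm : AEStronglyMeasurable (fun x => g' x) (haarT D) := g'.continuous.aestronglyMeasurable
    have hPm : AEStronglyMeasurable (fun x => P x) (haarT D) := P.continuous.aestronglyMeasurable
    refine (eLpNorm_add_le (hf.meas.sub hg'm) (hg'm.sub hPm) le_rfl).trans ?_
    have h2 : eLpNorm (fun x => f x - g' x) 1 (haarT D) ≤ ENNReal.ofReal 2 * ENNReal.ofReal (ε / 4) := by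
      refine le_trans ?_ (mul_le_mul' le_rfl hg)
      refine eLpNorm_le_mul_eLpNorm_of_ae_le_mul ?_ 1
      filter_upwards [hf.bd] with x hx
      exact norm_sub_trunc_le hC _ _ hx
    have h3 : eLpNorm (fun x => g' x - P x) 1 (haarT D) ≤ ENNReal.ofReal δ := by
      have := eLpNorm_le_of_ae_bound (p := 1) (μ := haarT D) (ae_of_all _ hdist)
      simpa using this
    refine (add_le_add h2 h3).trans ?_
    rw [← ENNReal.ofReal_mul (by norm_num), ← ENNReal.ofReal_add (by positivity) hδ0.le]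
    apply ENNReal.ofReal_le_ofReal
    have : δ ≤ ε / 2 := min_le_right _ _
    linarith

namespace WeylSystem

variable (W : WeylSystem)

theorem Nf_iter_add (ℓ : ℕ) (v w : (Fin W.D → ℤ) × ℝ) :
    (Nf W.cs.U)^[ℓ] (v + w) = (Nf W.cs.U)^[ℓ] v + (Nf W.cs.U)^[ℓ] w := by
  induction ℓ generalizing v w with
  | zero => rfl
  | succ ℓ ih => rw [Function.iterate_succ_apply, Function.iterate_succ_apply,
      Function.iterate_succ_apply, Nf_add, ih]

/-- The subgroup of frequencies of the Host–Kra factor. -/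
def LamSub (ℓ : ℕ) : AddSubgroup (Fin W.D → ℤ) where
  carrier := {m | W.Lam ℓ (m, 0)}
  zero_mem' := ⟨0, by
    have : (((0 : Fin W.D → ℤ), (0 : ℝ)) : (Fin W.D → ℤ) × ℝ) = 0 := rfl
    rw [this, Nf_iter_zero, Rat.cast_zero]; rfl⟩
  add_mem' := by
    rintro a b ⟨c, hc⟩ ⟨c', hc'⟩
    refine ⟨c + c', ?_⟩
    have : ((a + b, (0 : ℝ)) : (Fin W.D → ℤ) × ℝ) = (a, 0) + (b, 0) := by simp
    rw [this, W.Nf_iter_add, hc, hc']
    simp
  neg_mem' := by
    rintro a ⟨c, hc⟩
    refine ⟨-c, ?_⟩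
    have : ((-a, (0 : ℝ)) : (Fin W.D → ℤ) × ℝ) = 0 - (a, 0) := by simp
    rw [this, Nf_iter_sub, Nf_iter_zero, hc]
    simp

theorem mem_LamSub (ℓ : ℕ) (m : Fin W.D → ℤ) : m ∈ W.LamSub ℓ ↔ W.Lam ℓ (m, 0) := Iff.rfl

theorem hk_zero_of_fourier (k : ℕ) {C : ℝ} {f : (Fin W.D → UnitAddCircle) → ℂ} (hf : Bd (haarT W.D) C f)
    (h : (haarT W.D)[f | sigmaChar (W.LamSub (k + 1))] =ᵐ[haarT W.D] 0) : hk (haarT W.D) W.T k f = 0 := by
  classical
  set Λ := W.LamSub (k + 1) with hΛ
  set C' := C + 1 with hC'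
  have hC'0 : 0 < C' := by have := hf.nonneg; positivity
  have hf' : Bd (haarT W.D) C' f := hf.mono (by linarith)
  obtain ⟨K, hK, hKb⟩ := hk_lip W.measurePreserving_T k (2 * (C' + 1))
  have hmain : ∀ ε : ℝ, 0 < ε → hk (haarT W.D) W.T k f ≤ K * (2 * ENNReal.ofReal ε) := by
    intro ε hε
    obtain ⟨F, c, hb, hd⟩ := trig_approx hC'0 hf' hε
    set P : (Fin W.D → UnitAddCircle) → ℂ := fun x => ∑ m ∈ F, c m * chi m x with hP
    set P' : (Fin W.D → UnitAddCircle) → ℂ := fun x => ∑ m ∈ F.filter (fun m => m ∉ Λ), c m * chi m x with hP'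
    have hPbd : Bd (haarT W.D) (C' + 1) P :=
      ⟨(Bd.sum F fun m _ => (chi_bd m).const_mul (c m)).meas, ae_of_all _ hb⟩
    have hPE : (haarT W.D)[P | sigmaChar Λ] =ᵐ[haarT W.D] fun x => P x - P' x := by
      have h2 : P = ∑ m ∈ F, c m • chi m := by
        ext x; rw [Finset.sum_apply]; rfl
      have h3 : (haarT W.D)[P | sigmaChar Λ] =ᵐ[haarT W.D] ∑ m ∈ F, (haarT W.D)[c m • chi m | sigmaChar Λ] := by
        rw [h2]
        exact condExp_finsetSum (fun m _ => (chi_bd m).integrable.smul (c m)) _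
      have h4 : ∀ᵐ x ∂(haarT W.D), ∀ m ∈ F, ((haarT W.D)[c m • chi m | sigmaChar Λ]) x
          = if m ∉ Λ then 0 else c m * chi m x := by
        rw [Filter.eventually_all_finset]
        intro m _
        have h5 := condExp_smul (c m) (chi m) (sigmaChar Λ) (μ := haarT W.D)
        by_cases hm : m ∈ Λ
        · have h6 : (haarT W.D)[chi m | sigmaChar Λ] = chi m :=
            condExp_of_stronglyMeasurable (sigmaChar_le Λ) (stronglyMeasurable_chi Λ m hm) (chi_bd m).integrable
          filter_upwards [h5] with x hx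
          rw [hx, Pi.smul_apply, h6, if_neg (not_not.mpr hm), smul_eq_mul]
        · filter_upwards [h5, condExp_chi_zero Λ m hm] with x hx hx2
          rw [hx, Pi.smul_apply, hx2, if_pos hm, Pi.zero_apply, smul_zero]
      filter_upwards [h3, h4] with x hx1 hx2
      rw [hx1, Finset.sum_apply, Finset.sum_congr rfl hx2]
      simp only [hP, hP']
      rw [Finset.sum_filter, ← Finset.sum_sub_distrib]
      refine Finset.sum_congr rfl fun m _ => ?_
      split_ifs <;> ring
    have hP'0 : hk (haarT W.D) W.T k P' = 0 := by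
      have h1 := W.hk_trig k (Fin W.D → ℤ) (F.filter (fun m => m ∉ Λ)) c (fun m => (m, 0)) (by
        intro m hm
        exact (Finset.mem_filter.mp hm).2)
      rw [← h1]
      congr 1
      ext x
      simp only [hP']
      refine Finset.sum_congr rfl fun m _ => ?_
      rw [W.cs_E, ee_zero, one_mul]
    have hP'bd : Bd (haarT W.D) (2 * (C' + 1)) P' := by
      have h1 := hPbd.sub (hPbd.condExp (m := sigmaChar Λ))
      rw [← two_mul] at h1
      refine h1.congr ?_
      filter_upwards [hPE] with x hx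
      rw [hx]; ring
    have h1 := hKb f P' (hf.mono (by linarith [hf.nonneg])) hP'bd
    rw [hP'0, zero_add] at h1
    refine h1.trans (mul_le_mul' le_rfl ?_)
    have h2 : (fun x => f x - P' x) =ᵐ[haarT W.D] (f - P) - (haarT W.D)[f - P | sigmaChar Λ] := by
      filter_upwards [condExp_sub hf.integrable hPbd.integrable (sigmaChar Λ), h, hPE] with x hx1 hx2 hx3
      rw [Pi.sub_apply, hx1, Pi.sub_apply, Pi.sub_apply, hx2, hx3, Pi.zero_apply]
      ring
    rw [eLpNorm_congr_ae h2]
    have hfP : AEStronglyMeasurable (f - P) (haarT W.D) := hf.meas.sub hPbd.meas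
    refine (eLpNorm_sub_le hfP integrable_condExp.aestronglyMeasurable le_rfl).trans ?_
    rw [two_mul]
    exact add_le_add hd ((eLpNorm_condExp_le_eLpNorm _ le_rfl).trans hd)
  have hlim : Tendsto (fun n : ℕ => K * (2 * ENNReal.ofReal (1 / ((n : ℝ) + 1)))) atTop (𝓝 0) := by
    have h1 : Tendsto (fun n : ℕ => ENNReal.ofReal (1 / ((n : ℝ) + 1))) atTop (𝓝 0) := by
      have := (ENNReal.continuous_ofReal.tendsto 0).comp (tendsto_one_div_add_atTop_nhds_zero_nat (𝕜 := ℝ))
      rw [ENNReal.ofReal_zero] at this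
      exact this
    have h2 : Tendsto (fun n : ℕ => 2 * ENNReal.ofReal (1 / ((n : ℝ) + 1))) atTop (𝓝 0) := by
      simpa using ENNReal.Tendsto.const_mul (a := 2) h1 (Or.inr (by norm_num))
    simpa using ENNReal.Tendsto.const_mul (a := K) h2 (Or.inr hK)
  have h0 := ge_of_tendsto' hlim (fun n : ℕ => hmain (1 / ((n : ℝ) + 1)) (by positivity))
  exact le_antisymm h0 bot_le

end WeylSystem

end Pool.Agent.H767R2
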