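import Mathlib
import Pool.Agent.H767R2.Exist2

set_option autoImplicit false
set_option linter.unusedSectionVars false

namespace Pool.Agent.H767R2

open MeasureTheory Filter Topology
open scoped ENNReal

namespace WeylSystem

variable (W : WeylSystem)

theorem Nf_iter_const (ℓ : ℕ) (d : ℝ) : (Nf W.cs.U)^[ℓ + 1] (0, d) = 0 := by
  rw [Function.iterate_succ_apply]
  have h : Nf W.cs.U (0, d) = 0 := by
    rw [Nf, W.cs_U_zero, sub_self]
  rw [h, Nf_iter_zero]

theorem Lam_const (ℓ : ℕ) (m : Fin W.D → ℤ) (d : ℝ) (h : W.Lam (ℓ + 1) (m, d)) : W.Lam (ℓ + 1) (m, 0) := by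
  obtain ⟨c, hc⟩ := h
  refine ⟨c, ?_⟩
  have h1 : ((m, (0 : ℝ)) : (Fin W.D → ℤ) × ℝ) = (m, d) - (0, d) := by simp
  rw [h1, Nf_iter_sub, Nf_iter_const, hc, sub_zero]

theorem mem_vecMul_A (ℓ : ℕ) (m : Fin W.D → ℤ) (h : m ∈ W.LamSub (ℓ + 1)) :
    Matrix.vecMul m W.A ∈ W.LamSub (ℓ + 1) := by
  obtain ⟨c, hc⟩ := h
  refine W.Lam_const ℓ _ (0 + W.dotb m) ⟨c, ?_⟩
  have h1 : ((Matrix.vecMul m W.A, 0 + W.dotb m) : (Fin W.D → ℤ) × ℝ) = W.cs.U (m, 0) := rfl
  rw [h1, Nf_iter_commute, hc, W.cs_U_zero]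

theorem cs_U_symm (m : Fin W.D → ℤ) :
    W.cs.U (Matrix.vecMul m W.B, - W.dotb (Matrix.vecMul m W.B)) = (m, 0) := by
  rw [W.cs_U]
  ext1
  · simp [Matrix.vecMul_vecMul, W.B_mul_A]
  · simp

theorem mem_vecMul_B (ℓ : ℕ) (m : Fin W.D → ℤ) (h : m ∈ W.LamSub (ℓ + 1)) :
    Matrix.vecMul m W.B ∈ W.LamSub (ℓ + 1) := by
  obtain ⟨c, hc⟩ := h
  refine W.Lam_const ℓ _ (- W.dotb (Matrix.vecMul m W.B)) ⟨c, ?_⟩
  apply W.cs.U.injective
  rw [← Nf_iter_commute, W.cs_U_symm, hc, W.cs_U_zero]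

theorem chi_T_symm (m : Fin W.D → ℤ) (x : Fin W.D → UnitAddCircle) :
    chi m (W.T.symm x) = (starRingEnd ℂ) (ee (W.dotb (Matrix.vecMul m W.B))) * chi (Matrix.vecMul m W.B) x := by
  have h1 := W.chi_T (Matrix.vecMul m W.B) (W.T.symm x)
  rw [Equiv.apply_symm_apply, Matrix.vecMul_vecMul, W.B_mul_A, Matrix.vecMul_one] at h1
  rw [h1, ← mul_assoc]
  have h2 : (starRingEnd ℂ) (ee (W.dotb (Matrix.vecMul m W.B))) * ee (W.dotb (Matrix.vecMul m W.B)) = 1 := by
    rw [mul_comm, Complex.mul_conj, Complex.normSq_eq_norm_sq, norm_ee]; simp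
  rw [h2, one_mul]

theorem sigma_invariant (ℓ : ℕ) :
    (sigmaChar (W.LamSub (ℓ + 1))).comap W.T = sigmaChar (W.LamSub (ℓ + 1)) := by
  apply le_antisymm
  · rw [← measurable_iff_comap_le]
    rw [measurable_iff_comap_le, sigmaChar, MeasurableSpace.comap_iSup]
    refine iSup_le fun m => ?_
    rw [MeasurableSpace.comap_comp, ← measurable_iff_comap_le, ← BorelSpace.measurable_eq (α := ℂ)]
    have h1 : chi m.1 ∘ W.T = fun x => ee (W.dotb m.1) * chi (Matrix.vecMul m.1 W.A) x := by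
      ext x
      exact W.chi_T m.1 x
    rw [h1]
    exact ((stronglyMeasurable_chi _ _ (W.mem_vecMul_A ℓ m.1 m.2)).measurable).const_mul _
  · refine iSup_le fun m => ?_
    rw [← measurable_iff_comap_le, ← BorelSpace.measurable_eq (α := ℂ)]
    have h1 : chi m.1 = (fun x => chi m.1 (W.T.symm x)) ∘ W.T := by
      ext x
      simp
    rw [h1]
    have h2 : Measurable[sigmaChar (W.LamSub (ℓ + 1))] (fun x => chi m.1 (W.T.symm x)) := by
      have h3 : (fun x => chi m.1 (W.T.symm x)) = fun x => (starRingEnd ℂ) (ee (W.dotb (Matrix.vecMul m.1 W.B))) *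
          chi (Matrix.vecMul m.1 W.B) x := by
        ext x
        exact W.chi_T_symm m.1 x
      rw [h3]
      exact ((stronglyMeasurable_chi _ _ (W.mem_vecMul_B ℓ m.1 m.2)).measurable).const_mul _
    exact Measurable.comp h2 (comap_measurable _)

/-- On every Weyl system the Host–Kra factors of all orders exist. -/
theorem exists_hkFactor (k : ℕ) : ∃ 𝒵 : MeasurableSpace (Fin W.D → UnitAddCircle),
    IsHKFactor 𝒵 (haarT W.D) W.T k := by
  cases k with
  | zero =>
    refine ⟨MeasurableSpace.invariants W.T, MeasurableSpace.invariants_le _, ?_, fun f hf => ?_⟩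
    · ext A
      constructor
      · rintro ⟨B, hB, rfl⟩
        rw [hB.2]
        exact hB
      · intro hA
        exact ⟨A, hA, hA.2⟩
    · rw [hk, lintegral_eq_zero_iff' (by
        exact (integrable_condExp.aestronglyMeasurable.enorm.pow_const 2))]
      constructor
      · intro h
        filter_upwards [h] with x hx
        rw [hx]; simp
      · intro h
        filter_upwards [h] with x hx
        simpa using hx
  | succ j =>
    refine ⟨sigmaChar (W.LamSub (j + 2)), sigmaChar_le _, W.sigma_invariant (j + 1), fun f hf => ?_⟩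
    have hbd := bd_of_memLp_top hf
    constructor
    · intro h
      exact W.hk_zero_of_fourier (j + 1) hbd h
    · intro h
      rw [condExp_zero_iff_fourier _ hbd]
      intro m hm
      exact hk_zero_fourier W j hbd h m hm

end WeylSystem

end Pool.Agent.H767R2
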