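import Mathlib
import Pool.Agent.H767R2.Charac

set_option autoImplicit false
set_option linter.unusedSectionVars false

/-!
# Characteristic factors for Weyl systems from a degree bound for relations
-/

namespace Pool.Agent.H767R2

open MeasureTheory Filter Topology
open scoped ENNReal

/-- `D` bounds the degrees of the polynomials `Q_i` in relations `∑ Q_i(x + p_i(y)) = w(x)`. -/
def RelDeg {ι : Type*} (s : Finset ι) (p : ι → Polynomial ℤ) (D : ℕ) : Prop :=
  ∀ (Q : ι → Polynomial ℚ) (w : Polynomial ℚ), (∀ x y : ℕ, ∑ i ∈ s, (Q i).eval ((x : ℚ) +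
    ((p i).map (Int.castRingHom ℚ)).eval (y : ℚ)) = w.eval (x : ℚ)) → ∀ i ∈ s, (Q i).natDegree ≤ D

theorem key_unipotent_D {Γ : Type*} [AddCommGroup Γ] {ι : Type*} [DecidableEq ι] (s : Finset ι)
    (p : ι → Polynomial ℤ) (D : ℕ) (hD : RelDeg s p D) (U : Γ ≃ₗ[ℤ] Γ) (r : ℕ)
    (hU : ∀ v, (Nf U)^[r] v = 0) (φ : Γ →+ ℚ) (g : ι → Γ) (w : Γ)
    (h : ∀ n x : ℕ, φ ((U ^ (x : ℤ)) (∑ i ∈ s, (U ^ ((p i).eval (n : ℤ))) (g i))) = φ ((U ^ (x : ℤ)) w))
    (i : ι) (hi : i ∈ s) :
    φ ((Nf U)^[D + 1] (g i)) = 0 := by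
  classical
  have hpoly : ∀ v : Γ, ∃ Q : Polynomial ℚ, ∀ t : ℤ, φ ((U ^ t) v) = Q.eval (t : ℚ) := fun v =>
    poly_of_unipotent U φ r v (hU v)
  choose Qf hQf using hpoly
  have hmain := hD (fun i => Qf (g i)) (Qf w) (by
      intro x y
      have h1 : ∀ i : ι, (Qf (g i)).eval ((x : ℚ) + ((p i).map (Int.castRingHom ℚ)).eval (y : ℚ))
          = φ ((U ^ (x : ℤ)) ((U ^ ((p i).eval (y : ℤ))) (g i))) := by
        intro i
        rw [← aut_mul_apply, ← zpow_add, hQf]
        congr 1
        push_cast
        congr 1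
        rw [Polynomial.eval_map, ← map_natCast (Int.castRingHom ℚ) y, Polynomial.eval₂_at_apply]
        simp
      have h2 : (Qf w).eval (x : ℚ) = φ ((U ^ (x : ℤ)) w) := by
        rw [hQf]; push_cast; rfl
      simp_rw [h1]
      rw [h2, ← h y x, map_sum, map_sum]) i hi
  refine iter_apply_eq_zero_of_degree U φ (D + 1) (g i) (Qf (g i)) ?_ (hQf (g i))
  by_cases h0 : Qf (g i) = 0
  · rw [h0, Polynomial.degree_zero]
    exact WithBot.bot_lt_coe _
  · rw [Polynomial.degree_eq_natDegree h0]
    exact_mod_cast Nat.lt_succ_of_le hmain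

theorem chi_case_D (W : WeylSystem) {ι : Type*} [DecidableEq ι] (s : Finset ι) (p : ι → Polynomial ℤ)
    (D : ℕ) (hD : RelDeg s p D)
    (g : ι → (Fin W.D → ℤ) × ℝ) (j : ι) (hj : j ∈ s) (hLam : ¬ W.Lam (D + 1) (g j)) :
    Tendsto (fun N : ℕ => ∫ x, ‖(1 / (N : ℂ)) * ∑ n ∈ Finset.Icc 1 N,
      ∏ i ∈ s, W.cs.E (g i) ((W.T ^ ((p i).eval (n : ℤ))) x)‖ ^ 2 ∂(haarT W.D)) atTop (𝓝 0) := by
  classical
  obtain ⟨r, hr⟩ := W.nilpotent_cs
  set G : ℕ → (Fin W.D → ℤ) × ℝ := fun n => ∑ i ∈ s, (W.cs.U ^ ((p i).eval (n : ℤ))) (g i) with hG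
  have hprod : ∀ (n : ℕ) (x : Fin W.D → UnitAddCircle),
      ∏ i ∈ s, W.cs.E (g i) ((W.T ^ ((p i).eval (n : ℤ))) x) = W.cs.E (G n) x := by
    intro n x
    rw [hG, W.cs.sum]
    exact Finset.prod_congr rfl fun i _ => W.cs.zpow _ _ _
  simp_rw [hprod]
  by_cases hM : ∀ n, (G n).1 = (G 0).1
  · -- the frequency is constant
    obtain ⟨Q, hQ⟩ := orbit_poly (K := ℝ) s p W.cs.U r hr g (AddMonoidHom.snd _ _)
    have hQ' : ∀ n : ℕ, (G n).2 = Q.eval (n : ℝ) := hQ
    have hnorm : ∀ (N : ℕ), ∫ x, ‖(1 / (N : ℂ)) * ∑ n ∈ Finset.Icc 1 N, W.cs.E (G n) x‖ ^ 2 ∂(haarT W.D)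
        = ‖(1 / (N : ℂ)) * ∑ n ∈ Finset.Icc 1 N, ee (Q.eval (n : ℝ))‖ ^ 2 := by
      intro N
      have h1 : ∀ x, ‖(1 / (N : ℂ)) * ∑ n ∈ Finset.Icc 1 N, W.cs.E (G n) x‖ ^ 2
          = ‖(1 / (N : ℂ)) * ∑ n ∈ Finset.Icc 1 N, ee (Q.eval (n : ℝ))‖ ^ 2 := by
        intro x
        have h2 : ∑ n ∈ Finset.Icc 1 N, W.cs.E (G n) x
            = (∑ n ∈ Finset.Icc 1 N, ee (Q.eval (n : ℝ))) * chi (G 0).1 x := by
          rw [Finset.sum_mul]
          refine Finset.sum_congr rfl fun n _ => ?_
          rw [W.cs_E, hM n, hQ' n]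
        rw [h2, ← mul_assoc, norm_mul, norm_chi, mul_one]
      simp_rw [h1]
      simp
    simp_rw [hnorm]
    by_cases hirr : ∃ i ≥ 1, Irrational (Q.coeff i)
    · have h1 := cav_Icc (fun n => (norm_ee _).le) (weyl_poly Q hirr)
      have := h1.norm.pow 2
      simpa using this
    · exfalso
      push Not at hirr
      have hrat : ∀ i ≥ 1, ∃ q : ℚ, Q.coeff i = q := by
        intro i hi
        have := hirr i hi
        rw [Irrational, not_not] at this
        obtain ⟨q, hq⟩ := this
        exact ⟨q, hq.symm⟩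
      choose! qc hqc using hrat
      have hdiff : ∀ n : ℕ, ∃ c : ℚ, (G n).2 - (G 0).2 = (c : ℝ) := by
        intro n
        refine ⟨∑ i ∈ Finset.range Q.natDegree, qc (i + 1) * (n : ℚ) ^ (i + 1), ?_⟩
        rw [hQ' n, hQ' 0, Polynomial.eval_eq_sum_range, Polynomial.eval_eq_sum_range,
          Finset.sum_range_succ', Finset.sum_range_succ']
        push_cast
        have h1 : ∀ i ∈ Finset.range Q.natDegree, Q.coeff (i + 1) * (n : ℝ) ^ (i + 1)
            = (qc (i + 1) : ℝ) * (n : ℝ) ^ (i + 1) := fun i _ => by rw [hqc (i + 1) (by omega)]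
        rw [Finset.sum_congr rfl h1]
        simp
      have hker : ∀ φ : ((Fin W.D → ℤ) × ℝ) →+ ℚ, (∀ c : ℚ, φ (0, (c : ℝ)) = 0) →
          φ ((Nf W.cs.U)^[D + 1] (g j)) = 0 := by
        intro φ hφ
        refine key_unipotent_D s p D hD W.cs.U r hr φ g (G 0) (fun n x => ?_) j hj
        obtain ⟨c, hc⟩ := hdiff n
        have h1 : G n = G 0 + (0, (c : ℝ)) := by
          ext1
          · rw [Prod.fst_add, hM n]; simp
          · rw [Prod.snd_add, ← hc]; ring
        have h2 : ∀ x : ℕ, (W.cs.U ^ x) ((0, (c : ℝ)) : (Fin W.D → ℤ) × ℝ) = (0, (c : ℝ)) := by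
          intro x
          induction x with
          | zero => rfl
          | succ x ih =>
            rw [pow_succ]
            change (W.cs.U ^ x) (W.cs.U _) = _
            rw [W.cs_U_zero, ih]
        change φ ((W.cs.U ^ (x : ℤ)) (G n)) = _
        rw [h1, map_add, map_add, zpow_natCast, h2, hφ, add_zero]
      apply hLam
      set v := (Nf W.cs.U)^[D + 1] (g j) with hv
      have hv1 : v.1 = 0 := by
        ext k
        have h1 := hker (((Int.castAddHom ℚ).comp (Pi.evalAddMonoidHom (fun _ => ℤ) k)).comp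
          (AddMonoidHom.fst _ _)) (fun c => by simp)
        simpa using h1
      obtain ⟨q, hq⟩ := rational_of_functionals v.2 (fun θ hθ => by
        have h1 := hker (θ.toAddMonoidHom.comp (AddMonoidHom.snd _ _)) (fun c => by
          have : θ (c : ℝ) = 0 := by
            have h2 : (c : ℝ) = c • (1 : ℝ) := by rw [Rat.smul_def, mul_one]
            rw [h2, map_smul, hθ, smul_zero]
          simpa using this)
        simpa using h1)
      exact ⟨q, Prod.ext hv1 hq⟩
  · -- the frequency is a nonconstant polynomial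
    push Not at hM
    obtain ⟨n₀, hn₀⟩ := hM
    obtain ⟨k, hk⟩ := Function.ne_iff.mp hn₀
    obtain ⟨Q, hQ⟩ := orbit_poly (K := ℝ) s p W.cs.U r hr g
      (((Int.castAddHom ℝ).comp (Pi.evalAddMonoidHom (fun _ => ℤ) k)).comp (AddMonoidHom.fst _ _))
    have hQ' : ∀ n : ℕ, (((G n).1 k : ℤ) : ℝ) = Q.eval (n : ℝ) := hQ
    have hcount : ∀ (c : ℝ) (s : Finset ℕ), (s.filter (fun n : ℕ => Q.eval (n : ℝ) = c)).card ≤ Q.natDegree := by
      intro c s
      have hne : Q - Polynomial.C c ≠ 0 := by
        intro h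
        apply hk
        have h1 : Q = Polynomial.C c := sub_eq_zero.mp h
        have h2 := hQ' n₀
        have h3 := hQ' 0
        rw [h1, Polynomial.eval_C] at h2 h3
        exact_mod_cast h2.trans h3.symm
      have h1 : ((s.filter (fun n : ℕ => Q.eval (n : ℝ) = c)).image (fun n : ℕ => (n : ℝ))) ⊆ (Q - Polynomial.C c).roots.toFinset := by
        intro y hy
        rw [Finset.mem_image] at hy
        obtain ⟨n, hn, rfl⟩ := hy
        rw [Finset.mem_filter] at hn
        rw [Multiset.mem_toFinset, Polynomial.mem_roots hne, Polynomial.IsRoot, Polynomial.eval_sub,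
          Polynomial.eval_C, hn.2, sub_self]
      calc (s.filter (fun n : ℕ => Q.eval (n : ℝ) = c)).card
          = ((s.filter (fun n : ℕ => Q.eval (n : ℝ) = c)).image (fun n : ℕ => (n : ℝ))).card :=
            (Finset.card_image_of_injective _ Nat.cast_injective).symm
        _ ≤ (Q - Polynomial.C c).roots.toFinset.card := Finset.card_le_card h1
        _ ≤ (Q - Polynomial.C c).roots.card := Multiset.toFinset_card_le _
        _ ≤ (Q - Polynomial.C c).natDegree := Polynomial.card_roots' _
        _ = Q.natDegree := Polynomial.natDegree_sub_C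
    have hbound : ∀ N : ℕ, ∫ x, ‖(1 / (N : ℂ)) * ∑ n ∈ Finset.Icc 1 N, W.cs.E (G n) x‖ ^ 2 ∂(haarT W.D)
        ≤ Q.natDegree * (1 / (N : ℝ)) := by
      intro N
      rcases Nat.eq_zero_or_pos N with rfl | hN
      · simp
      have h1 := ortho_bound (μ := haarT W.D) (fun n => W.cs.E (G n)) (fun n => W.cs.bd _) (Finset.Icc 1 N)
        Q.natDegree (fun n n' => Q.eval (n' : ℝ) = Q.eval (n : ℝ)) (by
          intro n n' hnn
          have h2 : ∀ x, W.cs.E (G n) x * (starRingEnd ℂ) (W.cs.E (G n') x)
              = ee ((G n).2 - (G n').2) * chi ((G n).1 - (G n').1) x := by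
            intro x
            rw [← W.cs.neg, ← W.cs.add, ← sub_eq_add_neg, W.cs_E]
            rfl
          simp only [h2]
          rw [integral_const_mul, integral_chi, mul_zero]
          intro h3
          apply hnn
          rw [← hQ', ← hQ', sub_eq_zero.mp h3]) (by
          intro n _
          exact hcount _ _)
      have h2 : ∫ x, ‖(1 / (N : ℂ)) * ∑ n ∈ Finset.Icc 1 N, W.cs.E (G n) x‖ ^ 2 ∂(haarT W.D)
          = (1 / (N : ℝ)) ^ 2 * ∫ x, ‖∑ n ∈ Finset.Icc 1 N, W.cs.E (G n) x‖ ^ 2 ∂(haarT W.D) := by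
        rw [← integral_const_mul]
        refine integral_congr_ae (ae_of_all _ fun x => ?_)
        simp only
        rw [norm_mul, mul_pow, norm_div, norm_one, Complex.norm_natCast]
      rw [h2]
      calc (1 / (N : ℝ)) ^ 2 * ∫ x, ‖∑ n ∈ Finset.Icc 1 N, W.cs.E (G n) x‖ ^ 2 ∂(haarT W.D)
          ≤ (1 / (N : ℝ)) ^ 2 * ((Finset.Icc 1 N).card * Q.natDegree) := by gcongr
        _ = Q.natDegree * (1 / (N : ℝ)) := by
          rw [Nat.card_Icc, Nat.add_sub_cancel]
          have : (N : ℝ) ≠ 0 := by exact_mod_cast hN.ne'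
          field_simp
    have h3 : Tendsto (fun N : ℕ => (Q.natDegree : ℝ) * (1 / (N : ℝ))) atTop (𝓝 0) := by
      have := tendsto_one_div_atTop_nhds_zero_nat (𝕜 := ℝ)
      simpa using this.const_mul (Q.natDegree : ℝ)
    exact squeeze_zero (fun N => integral_nonneg fun x => by positivity) hbound h3

theorem gen_case_D (W : WeylSystem) {ι : Type*} [DecidableEq ι] (s : Finset ι) (p : ι → Polynomial ℤ)
    (D : ℕ) (hD : RelDeg s p D)
    (j : ι) (hj : j ∈ s) (r : Finset ι) :
    ∀ (f : ι → (Fin W.D → UnitAddCircle) → ℂ) (C : ι → ℝ), (∀ i ∈ s, Bd (haarT W.D) (C i) (f i)) →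
      (∀ i ∈ s, i ∉ r → ∃ m, f i = chi m) →
      (∀ m, W.Lam (D + 1) (m, 0) → ∫ x, f j x * (starRingEnd ℂ) (chi m x) ∂(haarT W.D) = 0) →
      Tendsto (fun N => eLpNorm (pav W.T s p f N) 2 (haarT W.D)) atTop (𝓝 0) := by
  have hT1 := W.measurePreserving_T
  have hT2 := W.measurePreserving_T_symm
  induction r using Finset.induction_on with
  | empty =>
    intro f C hf hchar hLam
    choose! m hm using fun i hi => hchar i hi (Finset.notMem_empty i)
    refine tendsto_eLpNorm_of_integral (fun N => pav_bd hT1 hT2 s p hf N) ?_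
    have h1 : ¬ W.Lam (D + 1) (m j, 0) := by
      intro h
      have h2 := hLam _ h
      rw [hm j hj, integral_chi_self] at h2
      exact one_ne_zero h2
    have h2 := chi_case_D W s p D hD (fun i => (m i, 0)) j hj h1
    refine h2.congr fun N => ?_
    refine integral_congr_ae (ae_of_all _ fun x => ?_)
    simp only [pav]
    congr 3
    refine Finset.sum_congr rfl fun n _ => ?_
    refine Finset.prod_congr rfl fun i hi => ?_
    rw [W.cs_E, hm i hi, ee_zero, one_mul]
  | insert i r hir ih =>
    intro f C hf hchar hLam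
    by_cases his : i ∈ s
    swap
    · refine ih f C hf (fun i' hi' hi'r => hchar i' hi' ?_) hLam
      rw [Finset.mem_insert, not_or]
      refine ⟨?_, hi'r⟩
      rintro rfl
      exact his hi'
    set K := ∏ i' ∈ s.erase i, C i' with hK
    have hK0 : 0 ≤ K := Finset.prod_nonneg fun i' hi' => (hf i' (Finset.mem_of_mem_erase hi')).nonneg
    rw [ENNReal.tendsto_nhds_zero]
    intro ε hε
    -- choose the approximation
    obtain ⟨δ, hδ0, hδ⟩ : ∃ δ : ℝ, 0 < δ ∧ ENNReal.ofReal K * ENNReal.ofReal δ ≤ ε / 2 := by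
      rcases eq_or_ne ε ⊤ with rfl | hεt
      · exact ⟨1, one_pos, by rw [ENNReal.top_div_of_ne_top (by norm_num)]; exact le_top⟩
      · have h1 : 0 < ε.toReal := ENNReal.toReal_pos hε.ne' hεt
        refine ⟨ε.toReal / (2 * (K + 1)), by positivity, ?_⟩
        rw [← ENNReal.ofReal_mul hK0]
        have h2 : ε / 2 = ENNReal.ofReal (ε.toReal / 2) := by
          rw [ENNReal.ofReal_div_of_pos (by norm_num), ENNReal.ofReal_toReal hεt]
          norm_num
        rw [h2]
        apply ENNReal.ofReal_le_ofReal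
        rw [← mul_div_assoc, div_le_div_iff₀ (by positivity) (by norm_num)]
        nlinarith
    obtain ⟨F, hF, hFε⟩ := fourier_approx ((hf i his).memLp 2) (show 0 < δ ^ 2 by positivity)
    set c : (Fin W.D → ℤ) → ℂ := fun m => ∫ y, f i y * (starRingEnd ℂ) (chi m y) ∂(haarT W.D) with hc
    set u : (Fin W.D → UnitAddCircle) → ℂ := fun x => ∑ m ∈ F, c m * chi m x with hu
    have hubd : Bd (haarT W.D) (∑ m ∈ F, ‖c m‖ * 1) u := Bd.sum _ fun m _ => (chi_bd m).const_mul _
    have hvbd : Bd (haarT W.D) (C i + ∑ m ∈ F, ‖c m‖ * 1) (fun x => f i x - u x) := (hf i his).sub hubd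
    have hvnorm : eLpNorm (fun x => f i x - u x) 2 (haarT W.D) ≤ ENNReal.ofReal δ := by
      rw [eLpNorm_two_eq hvbd]
      apply ENNReal.ofReal_le_ofReal
      rw [Real.sqrt_le_left hδ0.le]
      exact hFε.le
    have hmain : ∀ m ∈ F, Tendsto (fun N => eLpNorm (pav W.T s p (Function.update f i (chi m)) N) 2 (haarT W.D))
        atTop (𝓝 0) := by
      intro m hm
      refine ih (Function.update f i (chi m)) (Function.update C i 1) ?_ ?_ ?_
      · intro i' hi'
        by_cases h : i' = i
        · subst h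
          rw [Function.update_self, Function.update_self]
          exact chi_bd m
        · rw [Function.update_of_ne h, Function.update_of_ne h]
          exact hf i' hi'
      · intro i' hi' hi'r
        by_cases h : i' = i
        · subst h
          exact ⟨m, Function.update_self _ _ _⟩
        · rw [Function.update_of_ne h]
          exact hchar i' hi' (by rw [Finset.mem_insert, not_or]; exact ⟨h, hi'r⟩)
      · intro m' hm'
        by_cases h : j = i
        · subst h
          rw [Function.update_self]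
          refine integral_chi_chi _ _ ?_
          rintro rfl
          exact hF m hm (hLam m hm')
        · rw [Function.update_of_ne h]
          exact hLam m' hm'
    have hdecomp : ∀ N, pav W.T s p f N = pav W.T s p (Function.update f i (fun x => f i x - u x)) N
        + ∑ m ∈ F, c m • pav W.T s p (Function.update f i (chi m)) N := by
      intro N
      ext x
      rw [Pi.add_apply, ← pav_update_sub s p f i his, Function.update_eq_self, hu, pav_update_sum F c _ s p f i his,
        Finset.sum_apply]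
      simp only [Pi.smul_apply, smul_eq_mul]
      ring
    have hle : ∀ N, eLpNorm (pav W.T s p f N) 2 (haarT W.D) ≤ ε / 2 +
        ∑ m ∈ F, ‖c m‖ₑ * eLpNorm (pav W.T s p (Function.update f i (chi m)) N) 2 (haarT W.D) := by
      intro N
      have hbd1 : ∀ m, AEStronglyMeasurable (pav W.T s p (Function.update f i (chi m)) N) (haarT W.D) := by
        intro m
        refine (pav_bd hT1 hT2 s p (C := Function.update C i 1) (fun i' hi' => ?_) N).meas
        by_cases h : i' = i
        · subst h
          rw [Function.update_self, Function.update_self]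
          exact chi_bd m
        · rw [Function.update_of_ne h, Function.update_of_ne h]
          exact hf i' hi'
      have hbd2 : AEStronglyMeasurable (pav W.T s p (Function.update f i (fun x => f i x - u x)) N) (haarT W.D) := by
        refine (pav_bd hT1 hT2 s p (C := Function.update C i (C i + ∑ m ∈ F, ‖c m‖ * 1)) (fun i' hi' => ?_) N).meas
        by_cases h : i' = i
        · subst h
          rw [Function.update_self, Function.update_self]
          exact hvbd
        · rw [Function.update_of_ne h, Function.update_of_ne h]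
          exact hf i' hi'
      rw [hdecomp N]
      refine (eLpNorm_add_le hbd2 (Finset.aestronglyMeasurable_sum _ fun m _ => (hbd1 m).const_smul _)
        (by norm_num)).trans ?_
      refine add_le_add ?_ ?_
      · refine (pav_update_norm hT1 hT2 s p hf i his _ hvbd.meas N).trans ?_
        refine le_trans ?_ hδ
        gcongr
      · refine (eLpNorm_sum_le (fun m _ => (hbd1 m).const_smul _) (by norm_num)).trans ?_
        refine Finset.sum_le_sum fun m _ => ?_
        rw [eLpNorm_const_smul]
    have hsum0 : Tendsto (fun N => ∑ m ∈ F, ‖c m‖ₑ * eLpNorm (pav W.T s p (Function.update f i (chi m)) N) 2 (haarT W.D))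
        atTop (𝓝 0) := by
      have h1 : Tendsto (fun N => ∑ m ∈ F, ‖c m‖ₑ * eLpNorm (pav W.T s p (Function.update f i (chi m)) N) 2 (haarT W.D))
          atTop (𝓝 (∑ m ∈ F, ‖c m‖ₑ * 0)) := by
        refine tendsto_finsetSum _ fun m hm => ?_
        exact ENNReal.Tendsto.const_mul (hmain m hm) (Or.inr enorm_ne_top)
      simpa using h1
    rw [ENNReal.tendsto_nhds_zero] at hsum0
    filter_upwards [hsum0 (ε / 2) (by simpa using hε.ne')] with N hN
    exact (hle N).trans ((add_le_add le_rfl hN).trans (by rw [ENNReal.add_halves]))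

theorem seminorm_form_D (W : WeylSystem) {ι : Type*} [DecidableEq ι] (s : Finset ι) (p : ι → Polynomial ℤ)
    (D : ℕ) (hD : RelDeg s p (D + 1))
    (f : ι → (Fin W.D → UnitAddCircle) → ℂ) (C : ι → ℝ) (hf : ∀ i ∈ s, Bd (haarT W.D) (C i) (f i))
    (j : ι) (hj : j ∈ s) (h0 : hk (haarT W.D) W.T (D + 1) (f j) = 0) :
    Tendsto (fun N => eLpNorm (pav W.T s p f N) 2 (haarT W.D)) atTop (𝓝 0) := by
  refine gen_case_D W s p (D + 1) hD j hj s f C hf (fun i hi hi' => absurd hi hi') fun m hm => ?_
  exact hk_zero_fourier W D (hf j hj) h0 m hm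

theorem charac_form_D (W : WeylSystem) {ι : Type*} [DecidableEq ι] (s : Finset ι) (p : ι → Polynomial ℤ)
    (D : ℕ) (hD : RelDeg s p (D + 1))
    (f e : ι → (Fin W.D → UnitAddCircle) → ℂ) (C : ι → ℝ) (hf : ∀ i ∈ s, Bd (haarT W.D) (C i) (f i))
    (he : ∀ i ∈ s, Bd (haarT W.D) (C i) (e i))
    (h0 : ∀ i ∈ s, hk (haarT W.D) W.T (D + 1) (fun x => f i x - e i x) = 0) :
    Tendsto (fun N => eLpNorm (pav W.T s p f N - pav W.T s p e N) 2 (haarT W.D)) atTop (𝓝 0) := by
  classical
  set μ := haarT W.D with hμ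
  have hone : ∀ (i : ι) (_ : i ∈ s) (g : ι → (Fin W.D → UnitAddCircle) → ℂ),
      (∀ i' ∈ s, Bd μ (C i') (g i')) → Tendsto (fun N => eLpNorm (pav W.T s p
        (Function.update g i (fun x => f i x - e i x)) N) 2 μ) atTop (𝓝 0) := by
    intro i hi g hg
    refine seminorm_form_D W s p D hD _ (Function.update C i (C i + C i)) ?_ i hi ?_
    · intro i' hi'
      by_cases h : i' = i
      · subst h
        rw [Function.update_self, Function.update_self]
        exact (hf i' hi').sub (he i' hi')
      · rw [Function.update_of_ne h, Function.update_of_ne h]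
        exact hg i' hi'
    · rw [Function.update_self]
      exact h0 i hi
  have hmain : ∀ r : Finset ι, r ⊆ s → Tendsto (fun N => eLpNorm (pav W.T s p f N - pav W.T s p
      (fun i => if i ∈ r then e i else f i) N) 2 μ) atTop (𝓝 0) := by
    intro r
    induction r using Finset.induction_on with
    | empty =>
      intro _
      simp
    | insert i r hir ih =>
      intro hrs
      have his : i ∈ s := hrs (Finset.mem_insert_self i r)
      have ih' := ih (fun x hx => hrs (Finset.mem_insert_of_mem hx))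
      set g : ι → (Fin W.D → UnitAddCircle) → ℂ := fun i => if i ∈ r then e i else f i with hg
      set g' : ι → (Fin W.D → UnitAddCircle) → ℂ := fun i' => if i' ∈ insert i r then e i' else f i' with hg'
      have hgbd : ∀ i' ∈ s, Bd μ (C i') (g i') := by
        intro i' hi'
        simp only [hg]
        split_ifs
        · exact he i' hi'
        · exact hf i' hi'
      have hg'bd : ∀ i' ∈ s, Bd μ (C i') (g' i') := by
        intro i' hi'
        simp only [hg']
        split_ifs
        · exact he i' hi'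
        · exact hf i' hi'
      have hgi : g = Function.update g i (f i) := by
        ext i' x
        by_cases h : i' = i
        · subst h; rw [Function.update_self]; simp only [hg]; rw [if_neg hir]
        · rw [Function.update_of_ne h]
      have hg'i : g' = Function.update g i (e i) := by
        ext i' x
        by_cases h : i' = i
        · subst h; rw [Function.update_self]; simp only [hg']; rw [if_pos (Finset.mem_insert_self _ _)]
        · rw [Function.update_of_ne h]
          simp only [hg, hg', Finset.mem_insert]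
          by_cases h3 : i' ∈ r
          · rw [if_pos h3, if_pos (Or.inr h3)]
          · rw [if_neg h3, if_neg (by tauto)]
      have hsub : ∀ N, pav W.T s p (Function.update g i (fun x => f i x - e i x)) N
          = pav W.T s p g N - pav W.T s p g' N := by
        intro N
        ext x
        rw [Pi.sub_apply, ← pav_update_sub s p g i his, ← hgi, ← hg'i]
      have hT1 := W.measurePreserving_T
      have hT2 := W.measurePreserving_T_symm
      have hle : ∀ N, eLpNorm (pav W.T s p f N - pav W.T s p g' N) 2 μ ≤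
          eLpNorm (pav W.T s p f N - pav W.T s p g N) 2 μ +
          eLpNorm (pav W.T s p (Function.update g i (fun x => f i x - e i x)) N) 2 μ := by
        intro N
        have hm1 := (pav_bd hT1 hT2 s p hf N).meas
        have hm2 := (pav_bd hT1 hT2 s p hgbd N).meas
        have hm3 := (pav_bd hT1 hT2 s p hg'bd N).meas
        have hdec : pav W.T s p f N - pav W.T s p g' N = (pav W.T s p f N - pav W.T s p g N)
            + (pav W.T s p g N - pav W.T s p g' N) := by abel
        rw [hsub, hdec]
        exact eLpNorm_add_le (hm1.sub hm2) (hm2.sub hm3) (by norm_num)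
      have h0' : Tendsto (fun N => eLpNorm (pav W.T s p f N - pav W.T s p g N) 2 μ +
          eLpNorm (pav W.T s p (Function.update g i (fun x => f i x - e i x)) N) 2 μ) atTop (𝓝 0) := by
        simpa using ih'.add (hone i his g hgbd)
      exact tendsto_of_tendsto_of_tendsto_of_le_of_le tendsto_const_nhds h0' (fun _ => bot_le) hle
  have h1 := hmain s subset_rfl
  refine h1.congr fun N => ?_
  congr 2
  ext x
  simp only [pav]
  congr 1
  refine Finset.sum_congr rfl fun n _ => ?_
  refine Finset.prod_congr rfl fun i hi => ?_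
  rw [if_pos hi]

/-- The general theorem in terms of the definitions. -/
theorem characteristic_of_relDeg (P : Finset (Polynomial ℤ)) (D : ℕ)
    (hD : RelDeg P (fun p => p) (D + 1)) (W : WeylSystem) (𝒵 : MeasurableSpace (Fin W.D → UnitAddCircle))
    (h𝒵 : IsHKFactor 𝒵 (haarT W.D) W.T (D + 1)) : IsCharacteristic 𝒵 (haarT W.D) W.T P := by
  classical
  intro f hf
  have hbd : ∀ p ∈ P, _ := fun p hp => h𝒵.sub (bd_of_memLp_top (hf p hp))
  exact charac_form_D W P (fun p => p) D hD f _
    (fun p => (eLpNorm (f p) ∞ (haarT W.D)).toReal) (fun p hp => bd_of_memLp_top (hf p hp))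
    (fun p hp => (hbd p hp).1) (fun p hp => (hbd p hp).2)

end Pool.Agent.H767R2
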