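import Mathlib
import Pool.Agent.H767R2.GChar

set_option autoImplicit false

/-!
# The family of seven polynomials and the degree bound for its relations
-/

namespace Pool.Agent.H767R2

open Polynomial

/-- The seven polynomials `X, 2X, 3X, 4X, X³-2X², X³+2X, X³+2X²`. -/
noncomputable def pf : Fin 7 → ℤ[X] :=
  ![X, 2 * X, 3 * X, 4 * X, X ^ 3 - 2 * X ^ 2, X ^ 3 + 2 * X, X ^ 3 + 2 * X ^ 2]

/-- the values -/
def pe {K : Type*} [CommRing K] (y : K) : Fin 7 → K :=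
  ![y, 2 * y, 3 * y, 4 * y, y ^ 3 - 2 * y ^ 2, y ^ 3 + 2 * y, y ^ 3 + 2 * y ^ 2]

theorem pf_eval (i : Fin 7) (y : ℤ) : (pf i).eval y = pe y i := by
  fin_cases i <;> simp [pf, pe]

theorem pf_map_eval (i : Fin 7) (y : ℚ) : ((pf i).map (Int.castRingHom ℚ)).eval y = pe y i := by
  fin_cases i <;> simp [pf, pe]

theorem pf_injective : Function.Injective pf := by
  intro i j h
  have h1 : pe (10 : ℤ) i = pe (10 : ℤ) j := by rw [← pf_eval, ← pf_eval, h]
  revert h1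
  fin_cases i <;> fin_cases j <;> simp [pe]

/-- The family. -/
noncomputable def P0 : Finset ℤ[X] := Finset.univ.map ⟨pf, pf_injective⟩

theorem mem_P0 (q : ℤ[X]) : q ∈ P0 ↔ ∃ i, pf i = q := by
  simp [P0]

theorem coeffs_zero (m : ℕ) (c : Fin m → ℚ) (h : ∀ y : ℕ, ∑ k, c k * (y : ℚ) ^ (k : ℕ) = 0) : c = 0 := by
  have h1 : (∑ k, C (c k) * X ^ (k : ℕ) : ℚ[X]) = 0 := by
    apply Polynomial.eq_of_infinite_eval_eq
    refine (Set.infinite_range_of_injective (Nat.cast_injective (R := ℚ))).mono ?_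
    rintro _ ⟨y, rfl⟩
    simp only [Set.mem_ofPred_eq, Polynomial.eval_finsetSum, Polynomial.eval_mul, Polynomial.eval_C,
      Polynomial.eval_pow, Polynomial.eval_X, Polynomial.eval_zero]
    exact h y
  ext k
  have h2 := congrArg (fun q => Polynomial.coeff q (k : ℕ)) h1
  simp only [Polynomial.finsetSum_coeff, Polynomial.coeff_C_mul, Polynomial.coeff_X_pow,
    Polynomial.coeff_zero] at h2
  rw [Finset.sum_eq_single k] at h2
  · simpa using h2
  · intro b _ hb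
    rw [if_neg (fun h => hb (Fin.ext h.symm)), mul_zero]
  · simp

theorem rel4 (R : Fin 7 → ℚ[X]) (v : ℚ[X]) (hR : ∀ i, (R i).natDegree ≤ 4)
    (h : ∀ x y : ℕ, ∑ i, (R i).eval ((x : ℚ) + pe (y : ℚ) i) = v.eval (x : ℚ)) (i : Fin 7) :
    (R i).coeff 4 = 0 := by
  set r : Fin 7 → ℕ → ℚ := fun i k => (R i).coeff k with hr
  have hev : ∀ (i : Fin 7) (z : ℚ), (R i).eval z = r i 0 + r i 1 * z + r i 2 * z ^ 2 + r i 3 * z ^ 3
      + r i 4 * z ^ 4 := by
    intro i z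
    rw [Polynomial.eval_eq_sum_range' (Nat.lt_succ_of_le (hR i))]
    simp [Finset.sum_range_succ, hr]
  have h0 : ∀ x : ℕ, v.eval (x : ℚ) = ∑ i, (R i).eval (x : ℚ) := by
    intro x
    rw [← h x 0]
    refine Finset.sum_congr rfl fun i _ => ?_
    congr 1
    fin_cases i <;> simp [pe]
  have h1 : ∀ x y : ℕ, ∑ i, ((R i).eval ((x : ℚ) + pe (y : ℚ) i) - (R i).eval (x : ℚ)) = 0 := by
    intro x y
    rw [Finset.sum_sub_distrib, h x y, h0 x, sub_self]
  simp only [hev, Fin.sum_univ_seven, pe, Matrix.cons_val] at h1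
  have c3 := coeffs_zero 4 ![
    0,
    4 * r 0 4 + 8 * r 1 4 + 12 * r 2 4 + 16 * r 3 4 + 8 * r 5 4,
    (-8) * r 4 4 + 8 * r 6 4,
    4 * r 4 4 + 4 * r 5 4 + 4 * r 6 4] (by
      intro y
      simp only [Fin.sum_univ_succ, Fin.sum_univ_zero]
      simp
      have e0 := h1 0 y
      have e1 := h1 1 y
      have e2 := h1 2 y
      have e3 := h1 3 y
      push_cast at e0 e1 e2 e3
      linear_combination (1 / 6) * (e3 - 3 * e2 + 3 * e1 - e0))
  have c2 := coeffs_zero 7 ![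
    0,
    3 * r 0 3 + 6 * r 1 3 + 9 * r 2 3 + 12 * r 3 3 + 6 * r 5 3,
    6 * r 0 4 + 24 * r 1 4 + 54 * r 2 4 + 96 * r 3 4 + (-6) * r 4 3 + 24 * r 5 4 + 6 * r 6 3,
    3 * r 4 3 + 3 * r 5 3 + 3 * r 6 3,
    24 * r 4 4 + 24 * r 5 4 + 24 * r 6 4,
    (-24) * r 4 4 + 24 * r 6 4,
    6 * r 4 4 + 6 * r 5 4 + 6 * r 6 4] (by
      intro y
      simp only [Fin.sum_univ_succ, Fin.sum_univ_zero]
      simp
      have e0 := h1 0 y
      have e1 := h1 1 y
      have e2 := h1 2 y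
      have e3 := h1 3 y
      push_cast at e0 e1 e2 e3
      linear_combination (1 / 2) * (e2 - 2 * e1 + e0) - (1 / 2) * (e3 - 3 * e2 + 3 * e1 - e0))
  have c1 := coeffs_zero 10 ![
    0,
    2 * r 0 2 + 4 * r 1 2 + 6 * r 2 2 + 8 * r 3 2 + 4 * r 5 2,
    3 * r 0 3 + 12 * r 1 3 + 27 * r 2 3 + 48 * r 3 3 + (-4) * r 4 2 + 12 * r 5 3 + 4 * r 6 2,
    4 * r 0 4 + 32 * r 1 4 + 108 * r 2 4 + 256 * r 3 4 + 2 * r 4 2 + 2 * r 5 2 + 32 * r 5 4 + 2 * r 6 2,
    12 * r 4 3 + 12 * r 5 3 + 12 * r 6 3,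
    (-12) * r 4 3 + 48 * r 5 4 + 12 * r 6 3,
    3 * r 4 3 + (-32) * r 4 4 + 3 * r 5 3 + 3 * r 6 3 + 32 * r 6 4,
    48 * r 4 4 + 24 * r 5 4 + 48 * r 6 4,
    (-24) * r 4 4 + 24 * r 6 4,
    4 * r 4 4 + 4 * r 5 4 + 4 * r 6 4] (by
      intro y
      simp only [Fin.sum_univ_succ, Fin.sum_univ_zero]
      simp
      have e0 := h1 0 y
      have e1 := h1 1 y
      have e2 := h1 2 y
      have e3 := h1 3 y
      push_cast at e0 e1 e2 e3
      linear_combination (e1 - e0) - ((1 / 2) * (e2 - 2 * e1 + e0) - (1 / 2) * (e3 - 3 * e2 + 3 * e1 - e0)) - (1 / 6) * (e3 - 3 * e2 + 3 * e1 - e0))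
  have c0 := coeffs_zero 13 ![
    0,
    1 * r 0 1 + 2 * r 1 1 + 3 * r 2 1 + 4 * r 3 1 + 2 * r 5 1,
    1 * r 0 2 + 4 * r 1 2 + 9 * r 2 2 + 16 * r 3 2 + (-2) * r 4 1 + 4 * r 5 2 + 2 * r 6 1,
    1 * r 0 3 + 8 * r 1 3 + 27 * r 2 3 + 64 * r 3 3 + 1 * r 4 1 + 1 * r 5 1 + 8 * r 5 3 + 1 * r 6 1,
    1 * r 0 4 + 16 * r 1 4 + 81 * r 2 4 + 256 * r 3 4 + 4 * r 4 2 + 4 * r 5 2 + 16 * r 5 4 + 4 * r 6 2,
    (-4) * r 4 2 + 12 * r 5 3 + 4 * r 6 2,
    1 * r 4 2 + (-8) * r 4 3 + 1 * r 5 2 + 32 * r 5 4 + 1 * r 6 2 + 8 * r 6 3,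
    12 * r 4 3 + 6 * r 5 3 + 12 * r 6 3,
    (-6) * r 4 3 + 16 * r 4 4 + 24 * r 5 4 + 6 * r 6 3 + 16 * r 6 4,
    1 * r 4 3 + (-32) * r 4 4 + 1 * r 5 3 + 1 * r 6 3 + 32 * r 6 4,
    24 * r 4 4 + 8 * r 5 4 + 24 * r 6 4,
    (-8) * r 4 4 + 8 * r 6 4,
    1 * r 4 4 + 1 * r 5 4 + 1 * r 6 4] (by
      intro y
      simp only [Fin.sum_univ_succ, Fin.sum_univ_zero]
      simp
      have e0 := h1 0 y
      push_cast at e0
      linear_combination e0)
  have a1 := congrFun c3 1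
  have a2 := congrFun c3 2
  have a3 := congrFun c3 3
  have a4 := congrFun c1 7
  have a5 := congrFun c1 5
  have a6 := congrFun c2 2
  have a7 := congrFun c0 6
  have a8 := congrFun c1 3
  have a9 := congrFun c0 4
  simp only [Pi.zero_apply, Matrix.cons_val] at a1 a2 a3 a4 a5 a6 a7 a8 a9
  have b5 : r 5 4 = 0 := by linarith
  have b4 : r 4 4 = 0 := by linarith
  have b6 : r 6 4 = 0 := by linarith
  have b0 : r 0 4 = 0 := by linarith
  have b1 : r 1 4 = 0 := by linarith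
  have b2 : r 2 4 = 0 := by linarith
  have b3 : r 3 4 = 0 := by linarith
  fin_cases i
  exacts [b0, b1, b2, b3, b4, b5, b6]

theorem natDegree_le_of_derivative {q : ℚ[X]} {n : ℕ} (h : (derivative q).natDegree ≤ n) :
    q.natDegree ≤ n + 1 := by
  by_contra hc
  push Not at hc
  have h1 : (derivative q).coeff (q.natDegree - 1) = 0 :=
    Polynomial.coeff_eq_zero_of_natDegree_lt (by omega)
  rw [Polynomial.coeff_derivative] at h1
  have h2 : q.natDegree - 1 + 1 = q.natDegree := by omega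
  rw [h2] at h1
  rcases mul_eq_zero.mp h1 with h3 | h3
  · have : q = 0 := Polynomial.leadingCoeff_eq_zero.mp h3
    rw [this] at hc
    simp at hc
  · have : (0 : ℚ) < ((q.natDegree - 1 : ℕ) : ℚ) + 1 := by positivity
    exact this.ne' h3

theorem rel_deg (D : ℕ) : ∀ (R : Fin 7 → ℚ[X]) (v : ℚ[X]), (∀ i, (R i).natDegree ≤ D) →
    (∀ x y : ℕ, ∑ i, (R i).eval ((x : ℚ) + pe (y : ℚ) i) = v.eval (x : ℚ)) →
    ∀ i, (R i).natDegree ≤ 3 := by
  have hfour : ∀ (R : Fin 7 → ℚ[X]) (v : ℚ[X]), (∀ i, (R i).natDegree ≤ 4) →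
    (∀ x y : ℕ, ∑ i, (R i).eval ((x : ℚ) + pe (y : ℚ) i) = v.eval (x : ℚ)) →
    ∀ i, (R i).natDegree ≤ 3 := by
    intro R v hR h i
    have h4 := rel4 R v hR h i
    rw [Polynomial.natDegree_le_iff_coeff_eq_zero]
    intro N hN
    rcases Nat.lt_or_ge 4 N with h5 | h5
    · exact Polynomial.coeff_eq_zero_of_natDegree_lt ((hR i).trans_lt h5)
    · have : N = 4 := by omega
      rw [this, h4]
  induction D with
  | zero => intro R v hR _ i; exact (hR i).trans (by norm_num)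
  | succ D ih =>
    intro R v hR h
    have hder : ∀ i, (derivative (R i)).natDegree ≤ 3 := by
      refine ih (fun i => derivative (R i)) (derivative v) (fun i => ?_) (fun x y => ?_)
      · exact (Polynomial.natDegree_derivative_le _).trans (by have := hR i; omega)
      · have h1 : ∑ i, taylor (pe (y : ℚ) i) (R i) = v := by
          apply Polynomial.eq_of_infinite_eval_eq
          refine (Set.infinite_range_of_injective (Nat.cast_injective (R := ℚ))).mono ?_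
          rintro _ ⟨x, rfl⟩
          simp only [Set.mem_ofPred_eq, Polynomial.eval_finsetSum, Polynomial.taylor_eval]
          exact h x y
        rw [← h1, Polynomial.derivative_sum, Polynomial.eval_finsetSum]
        refine Finset.sum_congr rfl fun i _ => ?_
        rw [Polynomial.taylor_apply, Polynomial.derivative_comp]
        simp
    exact hfour R v (fun i => natDegree_le_of_derivative (hder i)) h

theorem relDeg_P0 : RelDeg P0 (fun q => q) 3 := by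
  intro Q w h q hq
  obtain ⟨i, rfl⟩ := (mem_P0 q).mp hq
  obtain ⟨D, hD⟩ : ∃ D, ∀ i, (Q (pf i)).natDegree ≤ D :=
    ⟨Finset.univ.sup fun i => (Q (pf i)).natDegree, fun i => Finset.le_sup (f := fun i => (Q (pf i)).natDegree) (Finset.mem_univ i)⟩
  refine rel_deg D (fun i => Q (pf i)) w hD (fun x y => ?_) i
  rw [← h x y, P0, Finset.sum_map]
  refine Finset.sum_congr rfl fun i _ => ?_
  simp only [Function.Embedding.coeFn_mk]
  rw [pf_map_eval]

theorem essentiallyDistinct_P0 : EssentiallyDistinct P0 := by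
  have hne : ∀ q : ℤ[X], q.eval 10 ≠ q.eval 0 → 0 < q.natDegree := by
    intro q hq
    by_contra hc
    push Not at hc
    rw [Polynomial.eq_C_of_natDegree_le_zero hc] at hq
    simp at hq
  refine ⟨fun q hq => ?_, fun q hq q' hq' hne' => ?_⟩
  · obtain ⟨i, rfl⟩ := (mem_P0 q).mp hq
    refine hne _ ?_
    rw [pf_eval, pf_eval]
    fin_cases i <;> simp [pe]
  · obtain ⟨i, rfl⟩ := (mem_P0 q).mp hq
    obtain ⟨j, rfl⟩ := (mem_P0 q').mp hq'
    refine hne _ ?_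
    rw [Polynomial.eval_sub, Polynomial.eval_sub, pf_eval, pf_eval, pf_eval, pf_eval]
    fin_cases i <;> fin_cases j <;> first | exact absurd rfl hne' | simp [pe]

end Pool.Agent.H767R2
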