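import Mathlib
import Pool.Agent.H767R2.HKTrig

set_option autoImplicit false
set_option linter.unusedSectionVars false

/-!
# Upper bound for the first Host–Kra seminorm from correlations
-/

namespace Pool.Agent.H767R2

open MeasureTheory Filter Topology
open scoped ENNReal

variable {X : Type*} [MeasurableSpace X] {μ : Measure X} [IsProbabilityMeasure μ] {T : X → X}

theorem setIntegral_iterate (hT : MeasurePreserving T μ μ) {C : ℝ} {f : X → ℂ} (hf : Bd μ C f) (n : ℕ)
    {A : Set X} (hA : MeasurableSet[MeasurableSpace.invariants T] A) :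
    ∫ x in A, f (T^[n] x) ∂μ = ∫ x in A, f x ∂μ := by
  have hAm : MeasurableSet A := hA.1
  have hAT : T^[n] ⁻¹' A = A := (MeasurableSpace.le_invariants_iterate T n A hA).2
  rw [← integral_indicator hAm, ← integral_indicator hAm]
  rw [← integral_comp_mp (hT.iterate n) (hf.meas.indicator hAm)]
  refine integral_congr_ae (ae_of_all _ fun x => ?_)
  beta_reduce
  have h2 : (T^[n] x ∈ A) ↔ x ∈ A := by
    rw [← Set.mem_preimage, hAT]
  by_cases hx : x ∈ A
  · rw [Set.indicator_of_mem hx, Set.indicator_of_mem (h2.mpr hx)]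
  · rw [Set.indicator_of_notMem hx, Set.indicator_of_notMem (fun h => hx (h2.mp h))]

theorem hk0_le (hT : MeasurePreserving T μ μ) {f : X → ℂ} (hf : Bd μ 1 f) (M q : ℕ) (hM : 0 < M)
    (δ : ℝ) (hδ : 0 ≤ δ)
    (hcorr : ∀ k : ℕ, 1 ≤ k → ‖∫ x, f x * (starRingEnd ℂ) (f (T^[q * k] x)) ∂μ‖ ≤ δ) :
    hk μ T 0 f ≤ ENNReal.ofReal (1 / M + δ) := by
  have hM' : (M : ℝ) ≠ 0 := by exact_mod_cast hM.ne'
  have hM'' : (M : ℂ) ≠ 0 := by exact_mod_cast hM.ne'
  set e : ℕ → X → ℂ := fun k x => f (T^[q * k] x) with he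
  have hebd : ∀ k, Bd μ 1 (e k) := fun k => hf.comp (hT.iterate _)
  set g : X → ℂ := fun x => (1 / (M : ℂ)) * ∑ k ∈ Finset.range M, e k x with hg
  have hgbd : Bd μ (‖(1 / (M : ℂ))‖ * ∑ k ∈ Finset.range M, (1 : ℝ)) g :=
    (Bd.sum _ fun k _ => hebd k).const_mul _
  have hm := MeasurableSpace.invariants_le T
  -- conditional expectations agree
  have h1 : μ[g | MeasurableSpace.invariants T] =ᵐ[μ] μ[f | MeasurableSpace.invariants T] := by
    refine ae_eq_condExp_of_forall_setIntegral_eq hm hf.integrable (fun s _ _ => ?_) (fun s hs _ => ?_) ?_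
    · exact integrable_condExp.integrableOn
    · rw [setIntegral_condExp hm hgbd.integrable hs]
      simp only [hg]
      rw [integral_const_mul, integral_finsetSum]
      · rw [Finset.sum_congr rfl fun k _ => setIntegral_iterate hT hf (q * k) hs, Finset.sum_const,
          Finset.card_range, nsmul_eq_mul, ← mul_assoc, one_div, inv_mul_cancel₀ hM'', one_mul]
      · intro k _
        exact (hebd k).integrable.integrableOn
    · exact stronglyMeasurable_condExp.aestronglyMeasurable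
  -- the `L²` norm
  have hint : ∀ n n', Integrable (fun x => e n x * (starRingEnd ℂ) (e n' x)) μ := fun n n' =>
    ((hebd n).mul (hebd n').conj zero_le_one).integrable
  have hc1 : ∀ n n', ‖∫ x, e n x * (starRingEnd ℂ) (e n' x) ∂μ‖ ≤ 1 := by
    intro n n'
    have h3 := ((hebd n).mul (hebd n').conj zero_le_one).bd
    have h4 := norm_integral_le_of_norm_le_const h3
    simpa using h4
  have hlt : ∀ n n', n < n' → ‖∫ x, e n x * (starRingEnd ℂ) (e n' x) ∂μ‖ ≤ δ := by
    intro n n' hnn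
    have h3 : ∀ x, e n x * (starRingEnd ℂ) (e n' x) = (fun y => f y * (starRingEnd ℂ) (f (T^[q * (n' - n)] y)))
        (T^[q * n] x) := by
      intro x
      simp only [he]
      rw [← Function.iterate_add_apply, ← mul_add, Nat.sub_add_cancel hnn.le]
    simp_rw [h3]
    rw [integral_comp_mp (hT.iterate _) (hf.mul (hf.comp (hT.iterate _)).conj zero_le_one).meas]
    exact hcorr _ (by omega)
  have hne : ∀ n n', n ≠ n' → ‖∫ x, e n x * (starRingEnd ℂ) (e n' x) ∂μ‖ ≤ δ := by
    intro n n' hnn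
    rcases lt_or_gt_of_ne hnn with h | h
    · exact hlt n n' h
    · have h3 : ∫ x, e n x * (starRingEnd ℂ) (e n' x) ∂μ
          = (starRingEnd ℂ) (∫ x, e n' x * (starRingEnd ℂ) (e n x) ∂μ) := by
        rw [← integral_conj]
        refine integral_congr_ae (ae_of_all _ fun x => ?_)
        simp only [map_mul, Complex.conj_conj]
        ring
      rw [h3, RCLike.norm_conj]
      exact hlt n' n h
  have hsum : ∫ x, ‖∑ n ∈ Finset.range M, e n x‖ ^ 2 ∂μ ≤ M * (1 + M * δ) := by
    have h1 : ((∫ x, ‖∑ n ∈ Finset.range M, e n x‖ ^ 2 ∂μ : ℝ) : ℂ)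
        = ∑ n ∈ Finset.range M, ∑ n' ∈ Finset.range M, ∫ x, e n x * (starRingEnd ℂ) (e n' x) ∂μ := by
      rw [← integral_complex_ofReal]
      rw [Finset.sum_congr rfl fun n _ => (integral_finsetSum _ fun n' _ => hint n n').symm]
      rw [← integral_finsetSum _ fun n _ => integrable_finsetSum _ fun n' _ => hint n n']
      refine integral_congr_ae (ae_of_all _ fun x => ?_)
      simp only
      rw [← Finset.sum_mul_sum, ← map_sum, Complex.mul_conj, Complex.normSq_eq_norm_sq]
    have h5 : ∫ x, ‖∑ n ∈ Finset.range M, e n x‖ ^ 2 ∂μ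
        = ‖∑ n ∈ Finset.range M, ∑ n' ∈ Finset.range M, ∫ x, e n x * (starRingEnd ℂ) (e n' x) ∂μ‖ := by
      rw [← h1, Complex.norm_real, Real.norm_of_nonneg]
      exact integral_nonneg fun x => by positivity
    rw [h5]
    calc ‖∑ n ∈ Finset.range M, ∑ n' ∈ Finset.range M, ∫ x, e n x * (starRingEnd ℂ) (e n' x) ∂μ‖
        ≤ ∑ n ∈ Finset.range M, ∑ n' ∈ Finset.range M, ‖∫ x, e n x * (starRingEnd ℂ) (e n' x) ∂μ‖ :=
          (norm_sum_le _ _).trans (Finset.sum_le_sum fun n _ => norm_sum_le _ _)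
      _ ≤ ∑ n ∈ Finset.range M, ∑ n' ∈ Finset.range M, ((if n' = n then 1 else 0) + δ) := by
          refine Finset.sum_le_sum fun n _ => Finset.sum_le_sum fun n' _ => ?_
          split_ifs with h
          · exact (hc1 n n').trans (by linarith)
          · rw [zero_add]
            exact hne n n' (fun h' => h h'.symm)
      _ = M * (1 + M * δ) := by
          have h6 : ∀ n ∈ Finset.range M, ∑ n' ∈ Finset.range M, ((if n' = n then (1 : ℝ) else 0) + δ) = 1 + M * δ := by
            intro n hn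
            rw [Finset.sum_add_distrib, Finset.sum_ite_eq', if_pos hn, Finset.sum_const, Finset.card_range,
              nsmul_eq_mul]
          rw [Finset.sum_congr rfl h6, Finset.sum_const, Finset.card_range, nsmul_eq_mul]
  have hg2 : ∫ x, ‖g x‖ ^ 2 ∂μ ≤ 1 / M + δ := by
    have h2 : ∫ x, ‖g x‖ ^ 2 ∂μ = (1 / (M : ℝ)) ^ 2 * ∫ x, ‖∑ n ∈ Finset.range M, e n x‖ ^ 2 ∂μ := by
      rw [← integral_const_mul]
      refine integral_congr_ae (ae_of_all _ fun x => ?_)
      simp only [hg]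
      rw [norm_mul, mul_pow, norm_div, norm_one, Complex.norm_natCast]
    rw [h2]
    calc (1 / (M : ℝ)) ^ 2 * ∫ x, ‖∑ n ∈ Finset.range M, e n x‖ ^ 2 ∂μ
        ≤ (1 / (M : ℝ)) ^ 2 * (M * (1 + M * δ)) := by gcongr
      _ = 1 / M + δ := by field_simp
  have hkeq : hk μ T 0 f = eLpNorm (μ[g | MeasurableSpace.invariants T]) 2 μ ^ 2 := by
    rw [hk]
    have h2 := eLpNorm_nnreal_pow_eq_lintegral (μ := μ) (f := μ[g | MeasurableSpace.invariants T]) (p := 2) (by norm_num)
    have h3 : eLpNorm (μ[g | MeasurableSpace.invariants T]) 2 μ ^ 2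
        = ∫⁻ x, ‖(μ[g | MeasurableSpace.invariants T]) x‖ₑ ^ 2 ∂μ := by
      simpa using h2
    rw [h3]
    refine lintegral_congr_ae ?_
    filter_upwards [h1] with x hx
    rw [hx]
  rw [hkeq]
  calc eLpNorm (μ[g | MeasurableSpace.invariants T]) 2 μ ^ 2 ≤ eLpNorm g 2 μ ^ 2 := by
        gcongr
        exact eLpNorm_condExp_le_eLpNorm _ (by norm_num)
    _ = ENNReal.ofReal (∫ x, ‖g x‖ ^ 2 ∂μ) := by
        rw [eLpNorm_two_eq hgbd, ← ENNReal.ofReal_pow (Real.sqrt_nonneg _), Real.sq_sqrt]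
        exact integral_nonneg fun x => by positivity
    _ ≤ ENNReal.ofReal (1 / M + δ) := ENNReal.ofReal_le_ofReal hg2

/-- correlations that tend to zero force the seminorm to vanish -/
theorem hk0_le_of_eventually (hT : MeasurePreserving T μ μ) {f : X → ℂ} (hf : Bd μ 1 f) (δ : ℝ) (hδ : 0 ≤ δ)
    (hcorr : ∀ᶠ k : ℕ in atTop, ‖∫ x, f x * (starRingEnd ℂ) (f (T^[k] x)) ∂μ‖ ≤ δ) :
    hk μ T 0 f ≤ ENNReal.ofReal δ := by
  obtain ⟨q, hq⟩ := eventually_atTop.mp hcorr
  have h1 : ∀ M : ℕ, 0 < M → hk μ T 0 f ≤ ENNReal.ofReal (1 / M + δ) := fun M hM =>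
    hk0_le hT hf M q hM δ hδ fun k hk => hq _ (Nat.le_mul_of_pos_right q hk)
  have h2 : Tendsto (fun M : ℕ => ENNReal.ofReal (1 / M + δ)) atTop (𝓝 (ENNReal.ofReal (0 + δ))) := by
    refine (ENNReal.continuous_ofReal.tendsto _).comp ?_
    exact tendsto_one_div_atTop_nhds_zero_nat.add_const _
  rw [zero_add] at h2
  refine ge_of_tendsto h2 ?_
  filter_upwards [eventually_gt_atTop 0] with M hM
  exact h1 M hM

/-- if the seminorms of the differences tend to zero, the next seminorm vanishes -/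
theorem hk_succ_zero_of_tendsto (hT : MeasurePreserving T μ μ) (k : ℕ) {f : X → ℂ} (hf : Bd μ 1 f)
    (h : Tendsto (fun n : ℕ => hk μ T k (fun x => (starRingEnd ℂ) (f x) * f (T^[n] x))) atTop (𝓝 0)) :
    hk μ T (k + 1) f = 0 := by
  obtain ⟨B, hB, hB'⟩ := hk_lt_top hT k (1 * 1)
  have hbd : ∀ n : ℕ, hk μ T k (fun x => (starRingEnd ℂ) (f x) * f (T^[n] x)) ≤ B := fun n =>
    hB' _ (hf.conj.mul (hf.comp (hT.iterate n)) zero_le_one)
  rw [hk]
  refine le_antisymm ?_ bot_le
  refine le_of_forall_pos_le_add fun ε hε => ?_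
  rw [ENNReal.tendsto_nhds_zero] at h
  obtain ⟨N, hN⟩ := eventually_atTop.mp (h ε hε)
  have h1 := limsup_avg_add (fun n : ℕ => hk μ T k (fun x => (starRingEnd ℂ) (f x) * f (T^[n] x)))
    (fun n => if n < N then B else 0) ε (by
      intro n
      split_ifs with hn
      · exact (hbd n).trans le_self_add
      · rw [zero_add]; exact hN n (not_lt.mp hn))
  refine h1.trans (add_le_add (le_of_eq ?_) le_rfl)
  refine Tendsto.limsup_eq ?_
  have h2 : Tendsto (fun H : ℕ => (N * B) * ((H : ℝ≥0∞)⁻¹)) atTop (𝓝 ((N * B) * 0)) :=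
    ENNReal.Tendsto.const_mul ENNReal.tendsto_inv_nat_nhds_zero
      (Or.inr (ENNReal.mul_ne_top (ENNReal.natCast_ne_top N) hB))
  rw [mul_zero] at h2
  refine tendsto_of_tendsto_of_tendsto_of_le_of_le tendsto_const_nhds h2 (fun _ => bot_le) fun H => ?_
  rw [ENNReal.div_eq_inv_mul, mul_comm]
  gcongr
  rw [← Finset.sum_filter, Finset.sum_const, nsmul_eq_mul]
  gcongr
  calc ((Finset.Icc 1 H).filter (fun n => n < N)).card ≤ (Finset.range N).card := by
        refine Finset.card_le_card fun n hn => ?_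
        rw [Finset.mem_filter] at hn
        exact Finset.mem_range.mpr hn.2
    _ = N := Finset.card_range N

end Pool.Agent.H767R2
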