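import Mathlib
import Pool.Agent.H767R2.FourierT

set_option autoImplicit false
set_option linter.unusedSectionVars false

/-!
# The nilsystem

Triples `(A, B, C)` of polynomials of degrees `≤ 3, ≤ 3, ≤ 2`; the transformation is the translation
`t ↦ t + 1` of the variable, and the group law is `(A, B, C) (A', B', C') = (A + A', B + B', C + C' +
(3 A'' B' - 4 A' B'' + 3 A B''))`.
-/

namespace Pool.Agent.H767R2

open MeasureTheory Filter Topology

section Alg

variable {G : Type*} [AddCommGroup G]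

/-- translation of a cubic polynomial, in terms of the coefficients -/
def sh4 (t : ℤ) (a : Fin 4 → G) : Fin 4 → G :=
  ![a 0 + t • a 1 + t ^ 2 • a 2 + t ^ 3 • a 3, a 1 + (2 * t) • a 2 + (3 * t ^ 2) • a 3,
    a 2 + (3 * t) • a 3, a 3]

/-- translation of a quadratic polynomial -/
def sh3 (t : ℤ) (c : Fin 3 → G) : Fin 3 → G :=
  ![c 0 + t • c 1 + t ^ 2 • c 2, c 1 + (2 * t) • c 2, c 2]

/-- the coefficients of `3 A'' B - 4 A' B' + 3 A B''` -/
def ww (a : Fin 4 → G) (m : Fin 4 → ℤ) : Fin 3 → G :=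
  ![(6 * m 0) • a 2 - (4 * m 1) • a 1 + (6 * m 2) • a 0,
    (-2 * m 1) • a 2 - (2 * m 2) • a 1 + (18 * m 0) • a 3 + (18 * m 3) • a 0,
    (-4 * m 2) • a 2 + (6 * m 1) • a 3 + (6 * m 3) • a 1]

theorem sh4_add (s t : ℤ) (a : Fin 4 → G) : sh4 s (sh4 t a) = sh4 (s + t) a := by
  ext i
  fin_cases i <;> simp only [sh4, Matrix.cons_val, Fin.reduceFinMk, Fin.zero_eta, Fin.mk_one] <;> module

theorem sh3_add (s t : ℤ) (c : Fin 3 → G) : sh3 s (sh3 t c) = sh3 (s + t) c := by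
  ext i
  fin_cases i <;> simp only [sh3, Matrix.cons_val, Fin.reduceFinMk, Fin.zero_eta, Fin.mk_one] <;> module

theorem sh4_zero (a : Fin 4 → G) : sh4 0 a = a := by
  ext i
  fin_cases i <;> simp [sh4]

theorem sh3_zero (a : Fin 3 → G) : sh3 0 a = a := by
  ext i
  fin_cases i <;> simp [sh3]

theorem sh3_sub (t : ℤ) (c d : Fin 3 → G) : sh3 t (c - d) = sh3 t c - sh3 t d := by
  ext i
  fin_cases i <;> simp only [sh3, Matrix.cons_val, Fin.reduceFinMk, Fin.zero_eta, Fin.mk_one,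
    Pi.sub_apply] <;> module

theorem ww_add (a : Fin 4 → G) (m n : Fin 4 → ℤ) : ww a (m + n) = ww a m + ww a n := by
  ext i
  fin_cases i <;> simp only [ww, Matrix.cons_val, Fin.reduceFinMk, Fin.zero_eta, Fin.mk_one,
    Pi.add_apply] <;> module

theorem ww_sh (t : ℤ) (a : Fin 4 → G) (m : Fin 4 → ℤ) : ww (sh4 t a) (sh4 t m) = sh3 t (ww a m) := by
  ext i
  fin_cases i <;> simp only [ww, sh4, sh3, Matrix.cons_val, Fin.reduceFinMk, Fin.zero_eta, Fin.mk_one,
    smul_eq_mul] <;> module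

end Alg

/-- representative in `[-1/2, 1/2)` -/
noncomputable def rho (x : UnitAddCircle) : ℝ := (AddCircle.measurableEquivIco (1 : ℝ) (-(1 / 2)) x : ℝ)

theorem rho_coe (x : ℝ) : rho (x : UnitAddCircle) = x - round x := by
  have h1 : rho (x : UnitAddCircle) = toIcoMod one_pos (-(1 / 2) : ℝ) x := rfl
  rw [h1, toIcoMod, toIcoDiv_eq_floor, round_eq]
  simp only [sub_neg_eq_add, div_one, zsmul_eq_mul, mul_one]

theorem coe_rho (x : UnitAddCircle) : ((rho x : ℝ) : UnitAddCircle) = x :=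
  AddCircle.coe_equivIco (p := (1 : ℝ)) (a := -(1 / 2))

theorem measurable_rho : Measurable rho :=
  measurable_subtype_coe.comp (AddCircle.measurableEquivIco (1 : ℝ) (-(1 / 2))).measurable

theorem abs_rho_le (x : UnitAddCircle) : |rho x| ≤ 1 / 2 := by
  rw [← coe_rho x, rho_coe]
  exact abs_sub_round _

/-- integer parts of the translates -/
noncomputable def Kf (n : ℤ) (B : Fin 4 → UnitAddCircle) : Fin 4 → ℤ := fun i =>
  round (sh4 n (fun k => rho (B k)) i)

theorem sh4_coe (n : ℤ) (b : Fin 4 → ℝ) (i : Fin 4) :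
    sh4 n (fun k => ((b k : ℝ) : UnitAddCircle)) i = ((sh4 n b i : ℝ) : UnitAddCircle) := by
  fin_cases i <;> simp only [sh4, Matrix.cons_val, Fin.reduceFinMk, Fin.zero_eta, Fin.mk_one,
    AddCircle.coe_add, AddCircle.coe_zsmul]

theorem rho_sh4 (n : ℤ) (B : Fin 4 → UnitAddCircle) (i : Fin 4) :
    rho (sh4 n B i) = sh4 n (fun k => rho (B k)) i - Kf n B i := by
  have h1 : B = fun k => ((rho (B k) : ℝ) : UnitAddCircle) := funext fun k => (coe_rho _).symm
  conv_lhs => rw [h1]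
  rw [sh4_coe, rho_coe]
  rfl

theorem sh4_sub {G : Type*} [AddCommGroup G] (t : ℤ) (a b : Fin 4 → G) : sh4 t (a - b) = sh4 t a - sh4 t b := by
  ext i
  fin_cases i <;> simp only [sh4, Matrix.cons_val, Fin.reduceFinMk, Fin.zero_eta, Fin.mk_one,
    Pi.sub_apply] <;> module

theorem sh4_intCast (n : ℤ) (m : Fin 4 → ℤ) (i : Fin 4) :
    sh4 n (fun k => ((m k : ℤ) : ℝ)) i = ((sh4 n m i : ℤ) : ℝ) := by
  fin_cases i <;> simp [sh4]

theorem Kf_add (m n : ℤ) (B : Fin 4 → UnitAddCircle) : Kf (m + n) B = sh4 m (Kf n B) + Kf m (sh4 n B) := by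
  ext i
  have h1 := rho_sh4 (m + n) B i
  have h2 := rho_sh4 m (sh4 n B) i
  rw [sh4_add] at h2
  have h3 : (fun k => rho (sh4 n B k)) = sh4 n (fun k => rho (B k)) - fun k => ((Kf n B k : ℤ) : ℝ) := by
    ext k
    rw [rho_sh4, Pi.sub_apply]
  rw [h3, sh4_sub, sh4_add, Pi.sub_apply, sh4_intCast] at h2
  have h4 : ((Kf (m + n) B i : ℤ) : ℝ) = ((sh4 m (Kf n B) i + Kf m (sh4 n B) i : ℤ) : ℝ) := by
    push_cast
    linarith
  exact_mod_cast h4

theorem Kf_zero (B : Fin 4 → UnitAddCircle) : Kf 0 B = 0 := by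
  have := Kf_add 0 0 B
  rw [sh4_zero, sh4_zero, add_zero] at this
  exact left_eq_add.mp this

/-- the phase space -/
abbrev XX : Type := ((Fin 4 → UnitAddCircle) × (Fin 4 → UnitAddCircle)) × (Fin 3 → UnitAddCircle)

/-- the action of `ℤ` -/
noncomputable def Tn (n : ℤ) (v : XX) : XX :=
  ((sh4 n v.1.1, sh4 n v.1.2), sh3 n v.2 - ww (sh4 n v.1.1) (Kf n v.1.2))

theorem Tn_zero (v : XX) : Tn 0 v = v := by
  simp only [Tn, sh4_zero, sh3_zero, Kf_zero]
  ext i <;> simp only [Pi.sub_apply]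
  have : ww v.1.1 (0 : Fin 4 → ℤ) = 0 := by
    have := ww_add v.1.1 0 0
    rw [add_zero] at this
    exact left_eq_add.mp this
  rw [this, Pi.zero_apply, sub_zero]

theorem Tn_add (m n : ℤ) (v : XX) : Tn m (Tn n v) = Tn (m + n) v := by
  simp only [Tn, sh4_add]
  rw [sh3_sub, sh3_add, Kf_add, ww_add, ← ww_sh, sh4_add, sub_sub]

/-- the transformation -/
noncomputable def TT : Equiv.Perm XX where
  toFun := Tn 1
  invFun := Tn (-1)
  left_inv v := by rw [Tn_add]; exact Tn_zero v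
  right_inv v := by rw [Tn_add]; exact Tn_zero v

theorem TT_pow (n : ℕ) (v : XX) : (TT ^ n) v = Tn n v := by
  induction n generalizing v with
  | zero => rw [pow_zero]; exact (Tn_zero v).symm
  | succ n ih =>
    rw [pow_succ, Equiv.Perm.mul_apply, ih]
    change Tn n (Tn 1 v) = _
    rw [Tn_add]
    push_cast
    rfl

theorem TT_iterate (n : ℕ) (v : XX) : (TT)^[n] v = Tn n v := by
  rw [← TT_pow, Equiv.Perm.iterate_eq_pow]

theorem TT_zpow (n : ℤ) (v : XX) : (TT ^ n) v = Tn n v := by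
  obtain ⟨k, rfl | rfl⟩ := n.eq_nat_or_neg
  · rw [zpow_natCast, TT_pow]
  · rw [zpow_neg, zpow_natCast, Equiv.Perm.inv_eq_iff_eq, TT_pow, Tn_add]
    rw [add_neg_cancel, Tn_zero]

end Pool.Agent.H767R2
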