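import Mathlib
import Pool.Agent.H767R2.Sys
import Pool.Agent.H767R2.HKLip

set_option autoImplicit false
set_option linter.unusedSectionVars false

namespace Pool.Agent.H767R2

open MeasureTheory Filter Topology
open scoped ENNReal

/-- the invariant measure -/
noncomputable def muX : Measure XX := ((haarT 4).prod (haarT 4)).prod (haarT 3)

instance : IsProbabilityMeasure muX := by rw [muX]; infer_instance

theorem continuous_sh4 (n : ℤ) : Continuous (sh4 n : (Fin 4 → UnitAddCircle) → _) := by
  refine continuous_pi fun i => ?_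
  fin_cases i <;> simp only [sh4, Matrix.cons_val, Fin.reduceFinMk, Fin.zero_eta, Fin.mk_one] <;> fun_prop

theorem continuous_sh3 (n : ℤ) : Continuous (sh3 n : (Fin 3 → UnitAddCircle) → _) := by
  refine continuous_pi fun i => ?_
  fin_cases i <;> simp only [sh3, Matrix.cons_val, Fin.reduceFinMk, Fin.zero_eta, Fin.mk_one] <;> fun_prop

theorem sh4_add' {G : Type*} [AddCommGroup G] (t : ℤ) (a b : Fin 4 → G) : sh4 t (a + b) = sh4 t a + sh4 t b := by
  ext i
  fin_cases i <;> simp only [sh4, Matrix.cons_val, Fin.reduceFinMk, Fin.zero_eta, Fin.mk_one,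
    Pi.add_apply] <;> module

theorem sh3_add' {G : Type*} [AddCommGroup G] (t : ℤ) (a b : Fin 3 → G) : sh3 t (a + b) = sh3 t a + sh3 t b := by
  ext i
  fin_cases i <;> simp only [sh3, Matrix.cons_val, Fin.reduceFinMk, Fin.zero_eta, Fin.mk_one,
    Pi.add_apply] <;> module

theorem mp_sh4 (n : ℤ) : MeasurePreserving (sh4 n : (Fin 4 → UnitAddCircle) → _) (haarT 4) (haarT 4) := by
  refine AddMonoidHom.measurePreserving (f := AddMonoidHom.mk' (sh4 n : (Fin 4 → UnitAddCircle) → _) (sh4_add' n))
    (continuous_sh4 n) ?_ rfl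
  intro y
  refine ⟨sh4 (-n) y, ?_⟩
  change sh4 n (sh4 (-n) y) = y
  rw [sh4_add, add_neg_cancel, sh4_zero]

theorem mp_sh3 (n : ℤ) : MeasurePreserving (sh3 n : (Fin 3 → UnitAddCircle) → _) (haarT 3) (haarT 3) := by
  refine AddMonoidHom.measurePreserving (f := AddMonoidHom.mk' (sh3 n : (Fin 3 → UnitAddCircle) → _) (sh3_add' n))
    (continuous_sh3 n) ?_ rfl
  intro y
  refine ⟨sh3 (-n) y, ?_⟩
  change sh3 n (sh3 (-n) y) = y
  rw [sh3_add, add_neg_cancel, sh3_zero]

theorem measurable_Kf (n : ℤ) : Measurable (Kf n) := by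
  refine measurable_pi_lambda _ fun i => ?_
  have h1 : ∀ k : Fin 4, Measurable fun B : Fin 4 → UnitAddCircle => rho (B k) := fun k =>
    measurable_rho.comp (measurable_pi_apply k)
  have h2 : Measurable fun B : Fin 4 → UnitAddCircle => sh4 n (fun k => rho (B k)) i := by
    fin_cases i <;> simp only [sh4, Matrix.cons_val, Fin.reduceFinMk, Fin.zero_eta, Fin.mk_one, zsmul_eq_mul] <;>
      fun_prop
  have h3 : Measurable fun B : Fin 4 → UnitAddCircle => ⌊sh4 n (fun k => rho (B k)) i + 1 / 2⌋ :=
    Int.measurable_floor.comp (h2.add_const _)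
  simpa only [Kf, round_eq] using h3

theorem measurable_ww {α : Type*} [MeasurableSpace α] {f : α → Fin 4 → UnitAddCircle} {g : α → Fin 4 → ℤ}
    (hf : Measurable f) (hg : Measurable g) : Measurable fun x => ww (f x) (g x) := by
  have h1 : ∀ k : Fin 4, Measurable fun x => f x k := fun k => (measurable_pi_apply k).comp hf
  have h2 : ∀ k : Fin 4, Measurable fun x => g x k := fun k => (measurable_pi_apply k).comp hg
  refine measurable_pi_lambda _ fun i => ?_
  fin_cases i <;> simp only [ww, Matrix.cons_val, Fin.reduceFinMk, Fin.zero_eta, Fin.mk_one] <;> fun_prop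

theorem mp_Tn (n : ℤ) : MeasurePreserving (Tn n) muX muX := by
  have h1 : MeasurePreserving (Prod.map (sh4 n) (sh4 n) : (Fin 4 → UnitAddCircle) × (Fin 4 → UnitAddCircle) → _)
      ((haarT 4).prod (haarT 4)) ((haarT 4).prod (haarT 4)) := (mp_sh4 n).prod (mp_sh4 n)
  refine MeasurePreserving.skew_product (g := fun (p : (Fin 4 → UnitAddCircle) × (Fin 4 → UnitAddCircle))
    (C : Fin 3 → UnitAddCircle) => sh3 n C - ww (sh4 n p.1) (Kf n p.2)) h1 ?_ (ae_of_all _ fun p => ?_)
  · have h2 : Measurable fun q : ((Fin 4 → UnitAddCircle) × (Fin 4 → UnitAddCircle)) × (Fin 3 → UnitAddCircle) =>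
      ww (sh4 n q.1.1) (Kf n q.1.2) := measurable_ww ((continuous_sh4 n).measurable.comp (measurable_fst.comp measurable_fst))
        ((measurable_Kf n).comp (measurable_snd.comp measurable_fst))
    exact ((continuous_sh3 n).measurable.comp measurable_snd).sub h2
  · have h3 : MeasurePreserving (fun C => C - ww (sh4 n p.1) (Kf n p.2)) (haarT 3) (haarT 3) :=
      measurePreserving_sub_right _ _
    exact (h3.comp (mp_sh3 n)).map_eq

theorem mp_TT : MeasurePreserving TT muX muX := mp_Tn 1

theorem mp_TT_symm : MeasurePreserving TT.symm muX muX := mp_Tn (-1)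

end Pool.Agent.H767R2
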