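import Mathlib
import Pool.Agent.H767R2.SysMP
import Pool.Agent.H767R2.HKzero

set_option autoImplicit false
set_option linter.unusedSectionVars false

/-!
# Products of translates of a vertical character
-/

namespace Pool.Agent.H767R2

open MeasureTheory Filter Topology
open scoped ENNReal

/-- signed sums -/
def sgs {G : Type*} [AddCommGroup G] (L : List (ℤ × Bool)) (φ : ℤ → G) : G :=
  (L.map (fun p => if p.2 then φ p.1 else -φ p.1)).sum

/-- the list of the multiplicative difference -/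
def dL (h : ℤ) (L : List (ℤ × Bool)) : List (ℤ × Bool) :=
  L.map (fun p => (p.1, !p.2)) ++ L.map (fun p => (p.1 + h, p.2))

section Sgs

variable {G H : Type*} [AddCommGroup G] [AddCommGroup H]

theorem sgs_nil (φ : ℤ → G) : sgs [] φ = 0 := rfl

theorem sgs_cons (p : ℤ × Bool) (L : List (ℤ × Bool)) (φ : ℤ → G) :
    sgs (p :: L) φ = (if p.2 then φ p.1 else -φ p.1) + sgs L φ := by
  simp [sgs]

theorem sgs_append (L M : List (ℤ × Bool)) (φ : ℤ → G) : sgs (L ++ M) φ = sgs L φ + sgs M φ := by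
  simp [sgs]

theorem sgs_flip (L : List (ℤ × Bool)) (φ : ℤ → G) : sgs (L.map (fun p => (p.1, !p.2))) φ = -sgs L φ := by
  induction L with
  | nil => simp [sgs]
  | cons p L ih =>
    rw [List.map_cons, sgs_cons, sgs_cons, ih]
    rcases p with ⟨t, b⟩
    cases b <;> simp only [Bool.not_false, Bool.not_true, if_true, Bool.false_eq_true, if_false] <;> abel

theorem sgs_shift (h : ℤ) (L : List (ℤ × Bool)) (φ : ℤ → G) :
    sgs (L.map (fun p => (p.1 + h, p.2))) φ = sgs L (fun t => φ (t + h)) := by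
  induction L with
  | nil => simp [sgs]
  | cons p L ih => rw [List.map_cons, sgs_cons, sgs_cons, ih]

theorem sgs_dL (h : ℤ) (L : List (ℤ × Bool)) (φ : ℤ → G) :
    sgs (dL h L) φ = sgs L (fun t => φ (t + h)) - sgs L φ := by
  rw [dL, sgs_append, sgs_flip, sgs_shift]
  abel

theorem sgs_add (L : List (ℤ × Bool)) (φ ψ : ℤ → G) : sgs L (fun t => φ t + ψ t) = sgs L φ + sgs L ψ := by
  induction L with
  | nil => simp [sgs]
  | cons p L ih =>
    rw [sgs_cons, sgs_cons, sgs_cons, ih]
    split_ifs <;> abel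

theorem sgs_neg (L : List (ℤ × Bool)) (φ : ℤ → G) : sgs L (fun t => -φ t) = -sgs L φ := by
  induction L with
  | nil => simp [sgs]
  | cons p L ih =>
    rw [sgs_cons, sgs_cons, ih]
    split_ifs <;> abel

theorem sgs_sub (L : List (ℤ × Bool)) (φ ψ : ℤ → G) : sgs L (fun t => φ t - ψ t) = sgs L φ - sgs L ψ := by
  simp only [sub_eq_add_neg]
  rw [sgs_add, sgs_neg]

theorem map_sgs (F : G →+ H) (L : List (ℤ × Bool)) (φ : ℤ → G) : F (sgs L φ) = sgs L (fun t => F (φ t)) := by
  induction L with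
  | nil => simp [sgs]
  | cons p L ih =>
    rw [sgs_cons, sgs_cons, map_add, ih]
    split_ifs
    · rfl
    · rw [map_neg]

theorem sgs_apply {ι : Type*} (L : List (ℤ × Bool)) (φ : ℤ → ι → G) (i : ι) :
    sgs L φ i = sgs L (fun t => φ t i) :=
  map_sgs (Pi.evalAddMonoidHom (fun _ : ι => G) i) L φ

end Sgs

/-- adjoint of `a ↦ ww (sh4 t a) m 0` -/
def adj {R : Type*} [CommRing R] (t : R) (m : Fin 4 → R) : Fin 4 → R :=
  ![6 * m 2, 6 * t * m 2 - 4 * m 1, 6 * t ^ 2 * m 2 - 8 * t * m 1 + 6 * m 0,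
    6 * t ^ 3 * m 2 - 12 * t ^ 2 * m 1 + 18 * t * m 0]

/-- the frequency in `A` -/
noncomputable def NN (t : ℤ) (B : Fin 4 → UnitAddCircle) : Fin 4 → ℤ := adj t (Kf t B)

theorem measurable_NN (t : ℤ) : Measurable (NN t) := by
  have h1 : ∀ i, Measurable fun B => Kf t B i := fun i => (measurable_pi_apply i).comp (measurable_Kf t)
  refine measurable_pi_lambda _ fun i => ?_
  fin_cases i <;> simp only [NN, adj, Matrix.cons_val, Fin.reduceFinMk, Fin.zero_eta, Fin.mk_one] <;> fun_prop

theorem pr_four (m : Fin 4 → ℤ) (x : Fin 4 → UnitAddCircle) :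
    pr m x = m 0 • x 0 + m 1 • x 1 + m 2 • x 2 + m 3 • x 3 := by
  rw [pr, Fin.sum_univ_four]

theorem pr_three (m : Fin 3 → ℤ) (x : Fin 3 → UnitAddCircle) :
    pr m x = m 0 • x 0 + m 1 • x 1 + m 2 • x 2 := by
  rw [pr, Fin.sum_univ_three]

theorem Tn_zero_coord (t : ℤ) (v : XX) :
    (Tn t v).2 0 = pr ![1, t, t ^ 2] v.2 - pr (NN t v.1.2) v.1.1 := by
  rw [pr_four, pr_three]
  simp only [Tn, NN, adj, sh3, sh4, ww, Pi.sub_apply, Matrix.cons_val]
  module

/-- the vertical character -/
noncomputable def ff (g : (Fin 4 → UnitAddCircle) → ℂ) (v : XX) : ℂ := ev (v.2 0) * g v.1.2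

/-- products of translates -/
noncomputable def FL (f : XX → ℂ) (L : List (ℤ × Bool)) (v : XX) : ℂ :=
  (L.map (fun p => if p.2 then f (Tn p.1 v) else (starRingEnd ℂ) (f (Tn p.1 v)))).prod

/-- the factor in `B` -/
noncomputable def Gfac (g : (Fin 4 → UnitAddCircle) → ℂ) (L : List (ℤ × Bool)) (B : Fin 4 → UnitAddCircle) : ℂ :=
  (L.map (fun p => if p.2 then g (sh4 p.1 B) else (starRingEnd ℂ) (g (sh4 p.1 B)))).prod

theorem FL_cons (f : XX → ℂ) (p : ℤ × Bool) (L : List (ℤ × Bool)) (v : XX) :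
    FL f (p :: L) v = (if p.2 then f (Tn p.1 v) else (starRingEnd ℂ) (f (Tn p.1 v))) * FL f L v := by
  simp [FL]

theorem Gfac_cons (g : (Fin 4 → UnitAddCircle) → ℂ) (p : ℤ × Bool) (L : List (ℤ × Bool)) (B : Fin 4 → UnitAddCircle) :
    Gfac g (p :: L) B = (if p.2 then g (sh4 p.1 B) else (starRingEnd ℂ) (g (sh4 p.1 B))) * Gfac g L B := by
  simp [Gfac]

theorem FL_append (f : XX → ℂ) (L M : List (ℤ × Bool)) (v : XX) : FL f (L ++ M) v = FL f L v * FL f M v := by
  simp [FL]

theorem FL_flip (f : XX → ℂ) (L : List (ℤ × Bool)) (v : XX) :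
    FL f (L.map (fun p => (p.1, !p.2))) v = (starRingEnd ℂ) (FL f L v) := by
  induction L with
  | nil => simp [FL]
  | cons p L ih =>
    rw [List.map_cons, FL_cons, FL_cons, ih, map_mul]
    rcases p with ⟨t, b⟩
    cases b <;> simp

theorem FL_shift (f : XX → ℂ) (h : ℕ) (L : List (ℤ × Bool)) (v : XX) :
    FL f (L.map (fun p => (p.1 + (h : ℤ), p.2))) v = FL f L (TT^[h] v) := by
  induction L with
  | nil => simp [FL]
  | cons p L ih =>
    rw [List.map_cons, FL_cons, FL_cons, ih]
    simp only [TT_iterate, Tn_add]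

theorem FL_dL (f : XX → ℂ) (h : ℕ) (L : List (ℤ × Bool)) (v : XX) :
    (starRingEnd ℂ) (FL f L v) * FL f L (TT^[h] v) = FL f (dL h L) v := by
  rw [dL, FL_append, FL_flip, FL_shift]

theorem ev_neg' (t : UnitAddCircle) : ev (-t) = (starRingEnd ℂ) (ev t) := by
  have h1 : ev (-t) * ev t = 1 := by rw [← ev_add, neg_add_cancel, ev_zero]
  have h2 : (starRingEnd ℂ) (ev t) * ev t = 1 := by
    rw [mul_comm, Complex.mul_conj, Complex.normSq_eq_norm_sq, norm_ev]
    simp
  have h3 : ev t ≠ 0 := by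
    intro h
    have := norm_ev t
    rw [h, norm_zero] at this
    exact zero_ne_one this
  exact mul_right_cancel₀ h3 (h1.trans h2.symm)

theorem FL_eq (g : (Fin 4 → UnitAddCircle) → ℂ) (L : List (ℤ × Bool)) (v : XX) :
    FL (ff g) L v = (chi (-(sgs L (fun t => NN t v.1.2))) v.1.1 * Gfac g L v.1.2) *
      chi (sgs L (fun t => ![1, t, t ^ 2])) v.2 := by
  induction L with
  | nil => simp [FL, Gfac, sgs, chi_zero]
  | cons p L ih =>
    rw [FL_cons, ih, Gfac_cons, sgs_cons, sgs_cons, neg_add, chi_add, chi_add]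
    have h1 : ∀ t : ℤ, ff g (Tn t v) = chi (-(NN t v.1.2)) v.1.1 * chi ![1, t, t ^ 2] v.2 * g (sh4 t v.1.2) := by
      intro t
      rw [ff, Tn_zero_coord, sub_eq_add_neg, ev_add, ev_neg']
      change chi ![1, t, t ^ 2] v.2 * (starRingEnd ℂ) (chi (NN t v.1.2) v.1.1) * _ = _
      rw [← chi_neg]
      change _ * _ * g (sh4 t v.1.2) = _
      ring
    rcases p with ⟨t, b⟩
    cases b
    · simp only [Bool.false_eq_true, if_false, h1, map_mul, neg_neg]
      rw [chi_neg (NN t v.1.2), Complex.conj_conj, chi_neg ![1, t, t ^ 2]]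
      ring
    · simp only [if_true, h1]
      ring

theorem measurable_Gfac {g : (Fin 4 → UnitAddCircle) → ℂ} (hg : Measurable g) (L : List (ℤ × Bool)) :
    Measurable (Gfac g L) := by
  induction L with
  | nil => exact measurable_const
  | cons p L ih =>
    have h1 : Gfac g (p :: L) = fun B => (if p.2 then g (sh4 p.1 B) else (starRingEnd ℂ) (g (sh4 p.1 B))) * Gfac g L B := by
      ext B; exact Gfac_cons g p L B
    rw [h1]
    refine Measurable.mul ?_ ih
    have h2 : Measurable fun B => g (sh4 p.1 B) := hg.comp (continuous_sh4 _).measurable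
    split_ifs
    · exact h2
    · exact Complex.continuous_conj.measurable.comp h2

theorem norm_Gfac_le {g : (Fin 4 → UnitAddCircle) → ℂ} (hg : ∀ B, ‖g B‖ ≤ 1) (L : List (ℤ × Bool))
    (B : Fin 4 → UnitAddCircle) : ‖Gfac g L B‖ ≤ 1 := by
  induction L with
  | nil => simp [Gfac]
  | cons p L ih =>
    rw [Gfac_cons, norm_mul]
    refine mul_le_one₀ ?_ (norm_nonneg _) ih
    split_ifs
    · exact hg _
    · rw [RCLike.norm_conj]; exact hg _

theorem measurable_sgs (L : List (ℤ × Bool)) : Measurable fun B => sgs L (fun t => NN t B) := by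
  induction L with
  | nil => exact measurable_const
  | cons p L ih =>
    simp only [sgs_cons]
    refine Measurable.add ?_ ih
    split_ifs
    · exact measurable_NN _
    · exact (measurable_NN _).neg

theorem integral_chi_le (m : Fin 4 → ℤ) : ∫ x, chi m x ∂(haarT 4) = if m = 0 then 1 else 0 := by
  split_ifs with h
  · subst h; simp [chi_zero]
  · exact integral_chi m h

theorem measurable_chi_joint {κ : (Fin 4 → UnitAddCircle) → Fin 4 → ℤ} (hκ : Measurable κ) :
    Measurable fun p : (Fin 4 → UnitAddCircle) × (Fin 4 → UnitAddCircle) => chi (κ p.2) p.1 := by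
  have h1 : ∀ i, Measurable fun p : (Fin 4 → UnitAddCircle) × (Fin 4 → UnitAddCircle) => κ p.2 i := fun i =>
    (measurable_pi_apply i).comp (hκ.comp measurable_snd)
  have h2 : ∀ i, Measurable fun p : (Fin 4 → UnitAddCircle) × (Fin 4 → UnitAddCircle) => p.1 i := fun i =>
    (measurable_pi_apply i).comp measurable_fst
  have h3 : Measurable fun p : (Fin 4 → UnitAddCircle) × (Fin 4 → UnitAddCircle) => pr (κ p.2) p.1 := by
    simp only [pr_four]
    fun_prop
  exact continuous_ev.measurable.comp h3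

theorem integral_FL {g : (Fin 4 → UnitAddCircle) → ℂ} (hgm : Measurable g) (hg : ∀ B, ‖g B‖ ≤ 1)
    (L : List (ℤ × Bool)) :
    (sgs L (fun t => (![1, t, t ^ 2] : Fin 3 → ℤ)) ≠ 0 → ∫ v, FL (ff g) L v ∂muX = 0) ∧
    ‖∫ v, FL (ff g) L v ∂muX‖ ≤ ((haarT 4) {B | sgs L (fun t => NN t B) = 0}).toReal := by
  have h1 : ∫ v, FL (ff g) L v ∂muX =
      (∫ p, chi (-(sgs L (fun t => NN t p.2))) p.1 * Gfac g L p.2 ∂((haarT 4).prod (haarT 4))) *
      ∫ C, chi (sgs L (fun t => ![1, t, t ^ 2])) C ∂(haarT 3) := by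
    rw [← integral_prod_mul, muX]
    exact integral_congr_ae (ae_of_all _ fun v => FL_eq g L v)
  refine ⟨fun h => ?_, ?_⟩
  · rw [h1, integral_chi _ h, mul_zero]
  · have h2 : ‖∫ C, chi (sgs L (fun t => ![1, t, t ^ 2])) C ∂(haarT 3)‖ ≤ 1 := by
      have h3 := norm_integral_le_of_norm_le_const (chi_bd (sgs L (fun t => ![1, t, t ^ 2]))).bd
      simpa using h3
    have hmeas : Measurable fun p : (Fin 4 → UnitAddCircle) × (Fin 4 → UnitAddCircle) =>
        chi (-(sgs L (fun t => NN t p.2))) p.1 * Gfac g L p.2 :=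
      (measurable_chi_joint (measurable_sgs L).neg).mul ((measurable_Gfac hgm L).comp measurable_snd)
    have hint : Integrable (fun p : (Fin 4 → UnitAddCircle) × (Fin 4 → UnitAddCircle) =>
        chi (-(sgs L (fun t => NN t p.2))) p.1 * Gfac g L p.2) ((haarT 4).prod (haarT 4)) := by
      refine Integrable.of_bound hmeas.aestronglyMeasurable 1 (ae_of_all _ fun p => ?_)
      rw [norm_mul, norm_chi, one_mul]
      exact norm_Gfac_le hg L _
    have hS : MeasurableSet {B | sgs L (fun t => NN t B) = 0} :=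
      (measurable_sgs L) (measurableSet_singleton 0)
    have h4 : ‖∫ p, chi (-(sgs L (fun t => NN t p.2))) p.1 * Gfac g L p.2 ∂((haarT 4).prod (haarT 4))‖
        ≤ ((haarT 4) {B | sgs L (fun t => NN t B) = 0}).toReal := by
      rw [integral_prod_symm _ hint]
      simp only
      have h5 : ∀ B, ∫ A, chi (-(sgs L (fun t => NN t B))) A * Gfac g L B ∂(haarT 4)
          = Set.indicator {B | sgs L (fun t => NN t B) = 0} (Gfac g L) B := by
        intro B
        rw [integral_mul_const, integral_chi_le]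
        simp only [neg_eq_zero]
        by_cases h : sgs L (fun t => NN t B) = 0
        · rw [if_pos h, one_mul, Set.indicator_of_mem (by exact h)]
        · rw [if_neg h, zero_mul, Set.indicator_of_notMem (by exact h)]
      simp_rw [h5]
      rw [integral_indicator hS]
      have h6 := norm_setIntegral_le_of_norm_le_const (μ := haarT 4) (s := {B | sgs L (fun t => NN t B) = 0})
        (f := Gfac g L) (C := 1) (measure_lt_top _ _) (fun B _ => norm_Gfac_le hg L B)
      simpa [Measure.real] using h6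
    rw [h1, norm_mul]
    calc _ ≤ ((haarT 4) {B | sgs L (fun t => NN t B) = 0}).toReal * 1 := by gcongr
      _ = _ := mul_one _

end Pool.Agent.H767R2
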