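import Mathlib
import Pool.Agent.H767R2.Semi

set_option autoImplicit false
set_option linter.unusedSectionVars false

/-!
# The vertical character has vanishing Host–Kra seminorm of order 4
-/

namespace Pool.Agent.H767R2

open MeasureTheory Filter Topology
open scoped ENNReal

theorem haar_zsmul_ball (N : ℤ) (hN : N ≠ 0) (δ : ℝ) :
    (haarT 4) {B | ‖N • B 3‖ ≤ δ} ≤ ENNReal.ofReal (2 * δ) := by
  have h1 : MeasurePreserving (Function.eval (3 : Fin 4)) (haarT 4) AddCircle.haarAddCircle :=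
    measurePreserving_eval (fun _ : Fin 4 => (AddCircle.haarAddCircle : Measure UnitAddCircle)) 3
  have h2 : MeasurePreserving (zsmulAddGroupHom N : UnitAddCircle →+ UnitAddCircle) AddCircle.haarAddCircle
      AddCircle.haarAddCircle := by
    refine AddMonoidHom.measurePreserving ?_ ?_ rfl
    · exact continuous_zsmul N
    · intro y
      obtain ⟨x, rfl⟩ := QuotientAddGroup.mk_surjective y
      refine ⟨((x / N : ℝ) : UnitAddCircle), ?_⟩
      change N • ((x / N : ℝ) : UnitAddCircle) = (x : UnitAddCircle)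
      rw [← AddCircle.coe_zsmul]
      congr 1
      have : (N : ℝ) ≠ 0 := by exact_mod_cast hN
      rw [zsmul_eq_mul]
      field_simp
  have h3 := h2.comp h1
  have h4 : {B : Fin 4 → UnitAddCircle | ‖N • B 3‖ ≤ δ} =
      ((zsmulAddGroupHom N : UnitAddCircle →+ UnitAddCircle) ∘ Function.eval (3 : Fin 4)) ⁻¹' Metric.closedBall 0 δ := by
    ext B
    simp [Function.eval]
  rw [h4, h3.measure_preimage (Metric.isClosed_closedBall.measurableSet.nullMeasurableSet)]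
  have h5 := AddCircle.volume_closedBall (T := 1) (x := 0) δ
  rw [AddCircle.volume_eq_smul_haarAddCircle] at h5
  simp only [ENNReal.ofReal_one, one_smul] at h5
  rw [h5]
  exact ENNReal.ofReal_le_ofReal (min_le_right _ _)

/-- fractional version of the frequency -/
noncomputable def th (t : ℤ) (B : Fin 4 → UnitAddCircle) : Fin 4 → ℝ := adj (t : ℝ) (fun i => rho (sh4 t B i))

/-- the dual translation -/
def shD (h : ℝ) (u : Fin 4 → ℝ) : Fin 4 → ℝ :=
  ![u 0, h * u 0 + u 1, h ^ 2 * u 0 + 2 * h * u 1 + u 2, h ^ 3 * u 0 + 3 * h ^ 2 * u 1 + 3 * h * u 2 + u 3]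

/-- coefficients of the quadratic polynomial `adj t (sh4 t b) i` -/
def qd (b : Fin 4 → ℝ) (t : ℝ) : Fin 4 → ℝ :=
  ![6 * b 2 + 18 * b 3 * t, -4 * b 1 - 2 * b 2 * t + 6 * b 3 * t ^ 2, 6 * b 0 - 2 * b 1 * t - 4 * b 2 * t ^ 2,
    18 * b 0 * t + 6 * b 1 * t ^ 2]

theorem NN_cast (t : ℤ) (B : Fin 4 → UnitAddCircle) (i : Fin 4) :
    ((NN t B i : ℤ) : ℝ) = qd (fun k => rho (B k)) t i - th t B i := by
  have h : ∀ k, ((Kf t B k : ℤ) : ℝ) = sh4 t (fun k => rho (B k)) k - rho (sh4 t B k) := by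
    intro k
    rw [rho_sh4]; ring
  fin_cases i <;>
  · simp only [NN, th, adj, qd, Matrix.cons_val, Fin.reduceFinMk, Fin.zero_eta, Fin.mk_one]
    push_cast
    simp only [h, sh4, Matrix.cons_val, zsmul_eq_mul]
    push_cast
    ring

theorem th_shift (t h : ℤ) (B : Fin 4 → UnitAddCircle) : th (t + h) B = shD h (th t (sh4 h B)) := by
  ext i
  fin_cases i <;> simp only [th, adj, shD, sh4_add, Matrix.cons_val, Fin.reduceFinMk, Fin.zero_eta, Fin.mk_one] <;>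
    push_cast <;> ring

theorem shD_add (h : ℝ) (u v : Fin 4 → ℝ) : shD h (u + v) = shD h u + shD h v := by
  ext i
  fin_cases i <;> simp only [shD, Matrix.cons_val, Fin.reduceFinMk, Fin.zero_eta, Fin.mk_one, Pi.add_apply] <;>
    ring

/-- signed sums of `th` -/
noncomputable def thL (L : List (ℤ × Bool)) (B : Fin 4 → UnitAddCircle) : Fin 4 → ℝ := sgs L (fun t => th t B)

theorem thL_dL (h : ℤ) (L : List (ℤ × Bool)) (B : Fin 4 → UnitAddCircle) :
    thL (dL h L) B = shD h (thL L (sh4 h B)) - thL L B := by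
  rw [thL, sgs_dL]
  congr 1
  simp only [th_shift]
  exact (map_sgs (AddMonoidHom.mk' (shD h) (shD_add h)) L _).symm

theorem NN_sgs (L : List (ℤ × Bool)) (B : Fin 4 → UnitAddCircle) (i : Fin 4) :
    ((sgs L (fun t => NN t B) i : ℤ) : ℝ) = sgs L (fun t => qd (fun k => rho (B k)) t i) - thL L B i := by
  rw [thL, sgs_apply, sgs_apply, ← sgs_sub]
  refine (map_sgs (Int.castAddHom ℝ) L _).trans ?_
  congr 1
  ext t
  exact NN_cast t B i

theorem th_bound (t : ℤ) : ∃ M : ℝ, ∀ B i, |th t B i| ≤ M := by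
  refine ⟨3 + (3 * |(t : ℝ)| + 2) + (3 * |(t : ℝ)| ^ 2 + 4 * |(t : ℝ)| + 3) +
    (3 * |(t : ℝ)| ^ 3 + 6 * |(t : ℝ)| ^ 2 + 9 * |(t : ℝ)|), fun B i => ?_⟩
  have h : ∀ k, |rho (sh4 t B k)| ≤ 1 / 2 := fun k => abs_rho_le _
  have ht : 0 ≤ |(t : ℝ)| := abs_nonneg _
  have ht2 : 0 ≤ |(t : ℝ)| ^ 2 := by positivity
  have ht3 : 0 ≤ |(t : ℝ)| ^ 3 := by positivity
  have n4 : |(4 : ℝ)| = 4 := abs_of_pos (by norm_num)
  have n6 : |(6 : ℝ)| = 6 := abs_of_pos (by norm_num)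
  have n8 : |(8 : ℝ)| = 8 := abs_of_pos (by norm_num)
  have n12 : |(12 : ℝ)| = 12 := abs_of_pos (by norm_num)
  have n18 : |(18 : ℝ)| = 18 := abs_of_pos (by norm_num)
  fin_cases i
  · simp only [th, adj, Matrix.cons_val, Fin.zero_eta]
    rw [abs_mul, n6]
    have := h 2
    linarith
  · simp only [th, adj, Matrix.cons_val, Fin.mk_one]
    refine (abs_sub _ _).trans ?_
    simp only [abs_mul, n4, n6]
    have h1 := mul_le_mul_of_nonneg_left (h 2) ht
    have h2 := h 1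
    linarith
  · simp only [th, adj, Matrix.cons_val, Fin.reduceFinMk]
    refine (abs_add_le _ _).trans ((add_le_add (abs_sub _ _) le_rfl).trans ?_)
    simp only [abs_mul, abs_pow, n6, n8]
    have h1 := mul_le_mul_of_nonneg_left (h 2) ht2
    have h2 := mul_le_mul_of_nonneg_left (h 1) ht
    have h3 := h 0
    linarith
  · simp only [th, adj, Matrix.cons_val, Fin.reduceFinMk]
    refine (abs_add_le _ _).trans ((add_le_add (abs_sub _ _) le_rfl).trans ?_)
    simp only [abs_mul, abs_pow, n6, n12, n18]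
    have h1 := mul_le_mul_of_nonneg_left (h 2) ht3
    have h2 := mul_le_mul_of_nonneg_left (h 1) ht2
    have h3 := mul_le_mul_of_nonneg_left (h 0) ht
    linarith

theorem thL_bound (L : List (ℤ × Bool)) : ∃ M : ℝ, 0 ≤ M ∧ ∀ B i, |thL L B i| ≤ M := by
  induction L with
  | nil => exact ⟨0, le_rfl, fun B i => by simp [thL, sgs]⟩
  | cons p L ih =>
    obtain ⟨M, hM0, hM⟩ := ih
    obtain ⟨M', hM'⟩ := th_bound p.1
    refine ⟨|M'| + M, by positivity, fun B i => ?_⟩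
    have h1 : thL (p :: L) B i = (if p.2 then th p.1 B i else -th p.1 B i) + thL L B i := by
      rw [thL, sgs_cons]
      split_ifs <;> rfl
    rw [h1]
    refine (abs_add_le _ _).trans (add_le_add ?_ (hM B i))
    split_ifs
    · exact (hM' B i).trans (le_abs_self _)
    · rw [abs_neg]; exact (hM' B i).trans (le_abs_self _)

/-- base list -/
def L0 : List (ℤ × Bool) := [(0, true)]

theorem sgs_L0 {G : Type*} [AddCommGroup G] (φ : ℤ → G) : sgs L0 φ = φ 0 := by simp [sgs, L0]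

theorem sgs_L2 {G : Type*} [AddCommGroup G] (h1 h2 : ℤ) (φ : ℤ → G) :
    sgs (dL h2 (dL h1 L0)) φ = φ (h1 + h2) - φ h2 - (φ h1 - φ 0) := by
  rw [sgs_dL, sgs_dL, sgs_dL, sgs_L0, sgs_L0, sgs_L0, sgs_L0]
  simp only [zero_add]

theorem sgs_L3 {G : Type*} [AddCommGroup G] (h1 h2 h3 : ℤ) (φ : ℤ → G) :
    sgs (dL h3 (dL h2 (dL h1 L0))) φ = φ (h1 + h2 + h3) - φ (h2 + h3) - (φ (h1 + h3) - φ h3)
      - (φ (h1 + h2) - φ h2 - (φ h1 - φ 0)) := by
  rw [sgs_dL, sgs_L2, sgs_L2]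
  simp only [zero_add]

theorem sgs_L3_quad (h1 h2 h3 : ℤ) (b : Fin 4 → ℝ) (i : Fin 4) (k : ℤ) :
    sgs (dL h3 (dL h2 (dL h1 L0))) (fun t => qd b ((t + k : ℤ) : ℝ) i) = 0 := by
  rw [sgs_L3]
  fin_cases i <;>
  · simp only [qd, Matrix.cons_val, Fin.reduceFinMk, Fin.zero_eta, Fin.mk_one]
    push_cast
    ring

theorem NN_L3 (h1 h2 h3 : ℤ) (B : Fin 4 → UnitAddCircle) (i : Fin 4) :
    ((sgs (dL h3 (dL h2 (dL h1 L0))) (fun t => NN t B) i : ℤ) : ℝ) = -thL (dL h3 (dL h2 (dL h1 L0))) B i := by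
  rw [NN_sgs]
  have := sgs_L3_quad h1 h2 h3 (fun k => rho (B k)) i 0
  simp only [add_zero] at this
  rw [this, zero_sub]

theorem NN_L4 (h1 h2 h3 k : ℤ) (B : Fin 4 → UnitAddCircle) (i : Fin 4) :
    ((sgs (dL k (dL h3 (dL h2 (dL h1 L0)))) (fun t => NN t B) i : ℤ) : ℝ)
      = -thL (dL k (dL h3 (dL h2 (dL h1 L0)))) B i := by
  rw [NN_sgs, sgs_dL]
  have h1' := sgs_L3_quad h1 h2 h3 (fun k => rho (B k)) i 0
  have h2' := sgs_L3_quad h1 h2 h3 (fun k => rho (B k)) i k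
  simp only [add_zero] at h1'
  rw [h1', h2']
  ring

theorem NN_L2 (h1 h2 : ℤ) (B : Fin 4 → UnitAddCircle) :
    (((sgs (dL h2 (dL h1 L0)) (fun t => NN t B) 0 : ℤ) : ℝ) = -thL (dL h2 (dL h1 L0)) B 0) ∧
    (((sgs (dL h2 (dL h1 L0)) (fun t => NN t B) 1 : ℤ) : ℝ) = 12 * h1 * h2 * rho (B 3) - thL (dL h2 (dL h1 L0)) B 1) := by
  rw [NN_sgs, NN_sgs, sgs_L2, sgs_L2]
  simp only [qd, Matrix.cons_val]
  push_cast
  constructor <;> ring

/-- an integer of absolute value less than one vanishes -/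
theorem int_zero {x : ℝ} (m : ℤ) (hm : x = m) (hx : |x| < 1) : x = 0 := by
  rw [hm] at hx ⊢
  have : |m| < 1 := by exact_mod_cast hx
  rw [Int.abs_lt_one_iff.mp this]
  simp

/-- the exceptional set for three differences -/
def SS (h1 h2 h3 : ℤ) : Set (Fin 4 → UnitAddCircle) :=
  {B | thL (dL h3 (dL h2 (dL h1 L0))) B 0 = 0 ∧ thL (dL h3 (dL h2 (dL h1 L0))) B 1 = 0 ∧
    thL (dL h3 (dL h2 (dL h1 L0))) B 2 = 0}

theorem SS_measure (h1 h2 : ℤ) (hh1 : h1 ≠ 0) (hh2 : h2 ≠ 0) : ∃ M : ℝ, 0 ≤ M ∧ ∀ h : ℤ, 0 < h → 2 * M < h →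
    (haarT 4) (SS h1 h2 h) ≤ ENNReal.ofReal (2 * (M / h)) := by
  obtain ⟨M, hM0, hM⟩ := thL_bound (dL h2 (dL h1 L0))
  refine ⟨M, hM0, fun h hh hhM => ?_⟩
  have hN : (12 * h1 * h2 : ℤ) ≠ 0 := by positivity
  refine (measure_mono ?_).trans (haar_zsmul_ball (12 * h1 * h2) hN (M / h))
  intro B hB
  obtain ⟨e0, e1, e2⟩ := hB
  rw [thL_dL] at e0 e1 e2
  simp only [Pi.sub_apply, shD, Matrix.cons_val] at e0 e1 e2
  set L := dL h2 (dL h1 L0) with hL
  have hh' : (0 : ℝ) < h := by exact_mod_cast hh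
  have b1 := hM B 1
  have b2 := hM B 2
  have b1' := hM (sh4 h B) 1
  have b2' := hM (sh4 h B) 2
  -- the value at `1` vanishes
  have c0 : thL L (sh4 h B) 0 = 0 := by
    obtain ⟨n1, _⟩ := NN_L2 h1 h2 (sh4 h B)
    refine int_zero (-(sgs L (fun t => NN t (sh4 h B)) 0)) ?_ ?_
    · push_cast
      rw [n1, neg_neg]
    · have h3 : (h : ℝ) * |thL L (sh4 h B) 0| ≤ 2 * M := by
        have h4 : (h : ℝ) * |thL L (sh4 h B) 0| = |(h : ℝ) * thL L (sh4 h B) 0| := by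
          rw [abs_mul, abs_of_pos hh']
        have : (h : ℝ) * thL L (sh4 h B) 0 = thL L B 1 - thL L (sh4 h B) 1 := by linarith
        rw [h4, this]
        exact (abs_sub _ _).trans (by linarith)
      by_contra hc
      push Not at hc
      nlinarith
  have c1 : |thL L (sh4 h B) 1| ≤ M / h := by
    rw [le_div_iff₀ hh']
    have h3 : 2 * (h : ℝ) * thL L (sh4 h B) 1 = thL L B 2 - thL L (sh4 h B) 2 := by
      rw [c0] at e2
      linarith
    have h4 : 2 * ((h : ℝ) * |thL L (sh4 h B) 1|) ≤ 2 * M := by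
      have h5 : |2 * (h : ℝ) * thL L (sh4 h B) 1| = 2 * ((h : ℝ) * |thL L (sh4 h B) 1|) := by
        rw [abs_mul, abs_of_pos (by positivity : (0 : ℝ) < 2 * h)]
        ring
      rw [← h5, h3]
      exact (abs_sub _ _).trans (by linarith)
    linarith
  -- conclusion
  obtain ⟨_, n2⟩ := NN_L2 h1 h2 (sh4 h B)
  have hB3 : sh4 h B 3 = B 3 := by simp [sh4]
  rw [hB3] at n2
  change ‖(12 * h1 * h2) • B 3‖ ≤ M / h
  have h6 : (12 * h1 * h2) • B 3 = ((thL L (sh4 h B) 1 : ℝ) : UnitAddCircle) := by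
    have h7 : thL L (sh4 h B) 1 = (12 * h1 * h2 : ℤ) • rho (B 3) - ((sgs L (fun t => NN t (sh4 h B)) 1 : ℤ) : ℝ) := by
      rw [zsmul_eq_mul]
      push_cast
      linarith
    rw [h7, AddCircle.coe_sub, AddCircle.coe_zsmul, coe_rho]
    have h8 : ((((sgs L (fun t => NN t (sh4 h B)) 1 : ℤ) : ℝ)) : UnitAddCircle) = 0 := by
      rw [AddCircle.coe_eq_zero_iff]
      exact ⟨sgs L (fun t => NN t (sh4 h B)) 1, by simp⟩
    rw [h8, sub_zero]
  rw [h6]
  refine le_trans ?_ c1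
  rw [← Real.norm_eq_abs]
  exact QuotientAddGroup.norm_mk_le_norm

theorem four_subset (h1 h2 h3 : ℤ) : ∃ M : ℝ, ∀ k : ℤ, M < k →
    {B | sgs (dL k (dL h3 (dL h2 (dL h1 L0)))) (fun t => NN t B) = 0} ⊆ SS h1 h2 h3 := by
  obtain ⟨M, hM0, hM⟩ := thL_bound (dL h3 (dL h2 (dL h1 L0)))
  refine ⟨2 * M, fun k hk B hB => ?_⟩
  have hk0 : (0 : ℝ) < k := by linarith
  set L := dL h3 (dL h2 (dL h1 L0)) with hL
  have hz : ∀ i, thL (dL k L) B i = 0 := by
    intro i
    have h4 := NN_L4 h1 h2 h3 k B i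
    rw [← hL] at h4
    have h5 : sgs (dL k L) (fun t => NN t B) = 0 := hB
    rw [h5] at h4
    simp only [Pi.zero_apply, Int.cast_zero] at h4
    linarith
  have e0 := hz 0
  have e1 := hz 1
  have e2 := hz 2
  have e3 := hz 3
  rw [thL_dL] at e0 e1 e2 e3
  simp only [Pi.sub_apply, shD, Matrix.cons_val] at e0 e1 e2 e3
  have hint : ∀ B' : Fin 4 → UnitAddCircle, ∀ i, ∃ m : ℤ, thL L B' i = m := fun B' i =>
    ⟨-(sgs L (fun t => NN t B') i), by push_cast; rw [NN_L3, neg_neg]⟩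
  have hsmall : ∀ i, |(k : ℝ) * thL L (sh4 k B) i| ≤ 2 * M → thL L (sh4 k B) i = 0 := by
    intro i hi
    obtain ⟨m, hm⟩ := hint (sh4 k B) i
    refine int_zero m hm ?_
    rw [abs_mul, abs_of_pos hk0] at hi
    by_contra hc
    push Not at hc
    nlinarith
  have c0 : thL L (sh4 k B) 0 = 0 := by
    apply hsmall
    have : (k : ℝ) * thL L (sh4 k B) 0 = thL L B 1 - thL L (sh4 k B) 1 := by linarith
    rw [this]
    exact (abs_sub _ _).trans (by linarith [hM B 1, hM (sh4 k B) 1])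
  have c1 : thL L (sh4 k B) 1 = 0 := by
    apply hsmall
    have : (k : ℝ) * thL L (sh4 k B) 1 = (thL L B 2 - thL L (sh4 k B) 2) / 2 := by
      rw [c0] at e2
      linarith
    rw [this, abs_div, abs_of_pos (by norm_num : (0 : ℝ) < 2)]
    have := (abs_sub (thL L B 2) (thL L (sh4 k B) 2))
    linarith [hM B 2, hM (sh4 k B) 2]
  have c2 : thL L (sh4 k B) 2 = 0 := by
    apply hsmall
    have : (k : ℝ) * thL L (sh4 k B) 2 = (thL L B 3 - thL L (sh4 k B) 3) / 3 := by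
      rw [c0, c1] at e3
      linarith
    rw [this, abs_div, abs_of_pos (by norm_num : (0 : ℝ) < 3)]
    have := (abs_sub (thL L B 3) (thL L (sh4 k B) 3))
    linarith [hM B 3, hM (sh4 k B) 3]
  rw [c0] at e0 e1 e2
  rw [c1] at e1 e2
  rw [c2] at e2
  refine ⟨?_, ?_, ?_⟩ <;> linarith

theorem three_subset (h1 h2 k : ℤ) :
    {B | sgs (dL k (dL h2 (dL h1 L0))) (fun t => NN t B) = 0} ⊆ SS h1 h2 k := by
  intro B hB
  have hz : ∀ i, thL (dL k (dL h2 (dL h1 L0))) B i = 0 := by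
    intro i
    have h4 := NN_L3 h1 h2 k B i
    have h5 : sgs (dL k (dL h2 (dL h1 L0))) (fun t => NN t B) = 0 := hB
    rw [h5] at h4
    simp only [Pi.zero_apply, Int.cast_zero] at h4
    linarith
  exact ⟨hz 0, hz 1, hz 2⟩

end Pool.Agent.H767R2
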