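import Mathlib
import Pool.Agent.H767R2.Semi2

set_option autoImplicit false
set_option linter.unusedSectionVars false

/-!
# The vertical character has vanishing Host–Kra seminorms of orders 1, 2, 3, 4
-/

namespace Pool.Agent.H767R2

open MeasureTheory Filter Topology
open scoped ENNReal

variable {g : (Fin 4 → UnitAddCircle) → ℂ}

theorem measurable_ff (hgm : Measurable g) : Measurable (ff g) := by
  have h1 : Measurable fun v : XX => v.2 0 := (measurable_pi_apply 0).comp measurable_snd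
  exact (continuous_ev.measurable.comp h1).mul (hgm.comp (measurable_snd.comp measurable_fst))

theorem norm_ff_le (hg : ∀ B, ‖g B‖ ≤ 1) (v : XX) : ‖ff g v‖ ≤ 1 := by
  rw [ff, norm_mul, norm_ev, one_mul]
  exact hg _

theorem measurable_FL {f : XX → ℂ} (hf : Measurable f) (L : List (ℤ × Bool)) : Measurable (FL f L) := by
  induction L with
  | nil => exact measurable_const
  | cons p L ih =>
    have h1 : FL f (p :: L) = fun v => (if p.2 then f (Tn p.1 v) else (starRingEnd ℂ) (f (Tn p.1 v))) * FL f L v := by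
      ext v; exact FL_cons f p L v
    rw [h1]
    refine Measurable.mul ?_ ih
    have h2 : Measurable fun v => f (Tn p.1 v) := hf.comp (mp_Tn _).measurable
    split_ifs
    · exact h2
    · exact Complex.continuous_conj.measurable.comp h2

theorem norm_FL_le {f : XX → ℂ} (hf : ∀ v, ‖f v‖ ≤ 1) (L : List (ℤ × Bool)) (v : XX) : ‖FL f L v‖ ≤ 1 := by
  induction L with
  | nil => simp [FL]
  | cons p L ih =>
    rw [FL_cons, norm_mul]
    refine mul_le_one₀ ?_ (norm_nonneg _) ih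
    split_ifs
    · exact hf _
    · rw [RCLike.norm_conj]; exact hf _

theorem bd_FL (hgm : Measurable g) (hg : ∀ B, ‖g B‖ ≤ 1) (L : List (ℤ × Bool)) : Bd muX 1 (FL (ff g) L) :=
  ⟨(measurable_FL (measurable_ff hgm) L).aestronglyMeasurable, ae_of_all _ fun v => norm_FL_le (norm_ff_le hg) L v⟩

theorem corr_FL (k : ℕ) (L : List (ℤ × Bool)) :
    ‖∫ x, FL (ff g) L x * (starRingEnd ℂ) (FL (ff g) L (TT^[k] x)) ∂muX‖ = ‖∫ x, FL (ff g) (dL k L) x ∂muX‖ := by
  have h1 : ∫ x, FL (ff g) L x * (starRingEnd ℂ) (FL (ff g) L (TT^[k] x)) ∂muX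
      = (starRingEnd ℂ) (∫ x, FL (ff g) (dL k L) x ∂muX) := by
    rw [← integral_conj]
    refine integral_congr_ae (ae_of_all _ fun x => ?_)
    simp only
    rw [← FL_dL, map_mul, Complex.conj_conj]
  rw [h1, RCLike.norm_conj]

theorem hk_FL_succ (hgm : Measurable g) (hg : ∀ B, ‖g B‖ ≤ 1) (k : ℕ) (L : List (ℤ × Bool))
    (h : Tendsto (fun n : ℕ => hk muX TT k (FL (ff g) (dL n L))) atTop (𝓝 0)) :
    hk muX TT (k + 1) (FL (ff g) L) = 0 := by
  refine hk_succ_zero_of_tendsto mp_TT k (bd_FL hgm hg L) (h.congr fun n => ?_)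
  congr 1
  ext x
  exact (FL_dL _ n L x).symm

theorem hk0_FL_of_ne (hgm : Measurable g) (hg : ∀ B, ‖g B‖ ≤ 1) (L : List (ℤ × Bool))
    (h : ∀ k : ℕ, 1 ≤ k → sgs (dL k L) (fun t => (![1, t, t ^ 2] : Fin 3 → ℤ)) ≠ 0) :
    hk muX TT 0 (FL (ff g) L) = 0 := by
  have h1 := hk0_le_of_eventually mp_TT (bd_FL hgm hg L) 0 le_rfl (by
    filter_upwards [eventually_ge_atTop 1] with k hk
    rw [corr_FL, (integral_FL hgm hg (dL k L)).1 (h k hk), norm_zero])
  rw [ENNReal.ofReal_zero] at h1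
  exact le_antisymm h1 bot_le

theorem hk0_a (hgm : Measurable g) (hg : ∀ B, ‖g B‖ ≤ 1) : hk muX TT 0 (FL (ff g) L0) = 0 := by
  refine hk0_FL_of_ne hgm hg _ fun k hk h => ?_
  rw [sgs_dL, sgs_L0, sgs_L0] at h
  have := congrFun h 1
  simp at this
  omega

theorem hk0_b (hgm : Measurable g) (hg : ∀ B, ‖g B‖ ≤ 1) (h1 : ℕ) (hh1 : 1 ≤ h1) :
    hk muX TT 0 (FL (ff g) (dL h1 L0)) = 0 := by
  refine hk0_FL_of_ne hgm hg _ fun k hk h => ?_
  rw [sgs_L2] at h
  have := congrFun h 2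
  simp only [Pi.sub_apply, Matrix.cons_val, Pi.zero_apply] at this
  have h2 : (2 * h1 * k : ℤ) = 0 := by
    push_cast at this ⊢
    linarith
  have h3 : (0 : ℤ) < 2 * h1 * k := by positivity
  exact h3.ne' h2

theorem hk0_c (hgm : Measurable g) (hg : ∀ B, ‖g B‖ ≤ 1) (h1 h2 : ℕ) (hh1 : 1 ≤ h1) (hh2 : 1 ≤ h2) :
    hk muX TT 0 (FL (ff g) (dL h2 (dL h1 L0))) = 0 := by
  obtain ⟨M, hM0, hM⟩ := SS_measure (h1 : ℤ) h2 (by positivity) (by positivity)
  have key : ∀ δ : ℝ, 0 < δ → hk muX TT 0 (FL (ff g) (dL h2 (dL h1 L0))) ≤ ENNReal.ofReal δ := by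
    intro δ hδ
    refine hk0_le_of_eventually mp_TT (bd_FL hgm hg _) δ hδ.le ?_
    have h4 : Tendsto (fun k : ℕ => 2 * (M / (k : ℝ))) atTop (𝓝 (2 * 0)) :=
      (tendsto_const_div_atTop_nhds_zero_nat M).const_mul 2
    rw [mul_zero] at h4
    filter_upwards [eventually_gt_atTop 0, h4.eventually (gt_mem_nhds hδ),
      tendsto_natCast_atTop_atTop.eventually_gt_atTop (2 * M)] with k hk0 hk1 hk2
    rw [corr_FL]
    refine (integral_FL hgm hg _).2.trans ?_
    have h5 := (measure_mono (three_subset h1 h2 k)).trans (hM k (by exact_mod_cast hk0) (by exact_mod_cast hk2))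
    have h6 := ENNReal.toReal_mono ENNReal.ofReal_ne_top h5
    rw [ENNReal.toReal_ofReal (by positivity)] at h6
    exact h6.trans (by push_cast; exact hk1.le)
  refine le_antisymm (le_of_forall_pos_le_add fun ε hε => ?_) bot_le
  rw [zero_add]
  rcases eq_or_ne ε ⊤ with rfl | hεt
  · exact le_top
  · rw [← ENNReal.ofReal_toReal hεt]
    exact key _ (ENNReal.toReal_pos hε.ne' hεt)

theorem hk0_d (hgm : Measurable g) (hg : ∀ B, ‖g B‖ ≤ 1) (h1 h2 h3 : ℕ) :
    hk muX TT 0 (FL (ff g) (dL h3 (dL h2 (dL h1 L0)))) ≤ (haarT 4) (SS h1 h2 h3) := by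
  obtain ⟨M, hM⟩ := four_subset (h1 : ℤ) h2 h3
  have h4 := hk0_le_of_eventually mp_TT (bd_FL hgm hg (dL h3 (dL h2 (dL h1 L0)))) ((haarT 4) (SS h1 h2 h3)).toReal
    ENNReal.toReal_nonneg (by
      filter_upwards [tendsto_natCast_atTop_atTop.eventually_gt_atTop M] with k hk
      rw [corr_FL]
      refine (integral_FL hgm hg _).2.trans ?_
      exact ENNReal.toReal_mono (measure_ne_top _ _) (measure_mono (hM k (by exact_mod_cast hk))))
  rwa [ENNReal.ofReal_toReal (measure_ne_top _ _)] at h4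

theorem hk1_c (hgm : Measurable g) (hg : ∀ B, ‖g B‖ ≤ 1) (h1 h2 : ℕ) (hh1 : 1 ≤ h1) (hh2 : 1 ≤ h2) :
    hk muX TT 1 (FL (ff g) (dL h2 (dL h1 L0))) = 0 := by
  refine hk_FL_succ hgm hg 0 _ ?_
  obtain ⟨M, hM0, hM⟩ := SS_measure (h1 : ℤ) h2 (by positivity) (by positivity)
  have h4 : Tendsto (fun k : ℕ => ENNReal.ofReal (2 * (M / (k : ℝ)))) atTop (𝓝 (ENNReal.ofReal (2 * 0))) :=
    (ENNReal.continuous_ofReal.tendsto _).comp ((tendsto_const_div_atTop_nhds_zero_nat M).const_mul 2)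
  rw [mul_zero, ENNReal.ofReal_zero] at h4
  refine tendsto_of_tendsto_of_tendsto_of_le_of_le' tendsto_const_nhds h4 (Eventually.of_forall fun _ => bot_le) ?_
  filter_upwards [eventually_gt_atTop 0, tendsto_natCast_atTop_atTop.eventually_gt_atTop (2 * M)] with k hk0 hk2
  exact (hk0_d hgm hg h1 h2 k).trans (hM k (by exact_mod_cast hk0) (by exact_mod_cast hk2))

theorem FL_L0 (f : XX → ℂ) : FL f L0 = f := by
  ext v
  simp [FL, L0, Tn_zero]

theorem tendsto_zero_of_one_le {a : ℕ → ℝ≥0∞} (h : ∀ n, 1 ≤ n → a n = 0) : Tendsto a atTop (𝓝 0) := by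
  refine tendsto_const_nhds.congr' ?_
  filter_upwards [eventually_ge_atTop 1] with n hn
  exact (h n hn).symm

/-- All Host–Kra seminorms of orders `1, 2, 3, 4` of the vertical character vanish. -/
theorem hk_ff (hgm : Measurable g) (hg : ∀ B, ‖g B‖ ≤ 1) (d : ℕ) (hd : d ≤ 3) : hk muX TT d (ff g) = 0 := by
  have h1b : ∀ h1 : ℕ, 1 ≤ h1 → hk muX TT 1 (FL (ff g) (dL h1 L0)) = 0 := fun h1 hh1 =>
    hk_FL_succ hgm hg 0 _ (tendsto_zero_of_one_le fun n hn => hk0_c hgm hg h1 n hh1 hn)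
  have h2b : ∀ h1 : ℕ, 1 ≤ h1 → hk muX TT 2 (FL (ff g) (dL h1 L0)) = 0 := fun h1 hh1 =>
    hk_FL_succ hgm hg 1 _ (tendsto_zero_of_one_le fun n hn => hk1_c hgm hg h1 n hh1 hn)
  rw [← FL_L0 (ff g)]
  interval_cases d
  · exact hk0_a hgm hg
  · exact hk_FL_succ hgm hg 0 _ (tendsto_zero_of_one_le fun n hn => hk0_b hgm hg n hn)
  · exact hk_FL_succ hgm hg 1 _ (tendsto_zero_of_one_le fun n hn => h1b n hn)
  · exact hk_FL_succ hgm hg 2 _ (tendsto_zero_of_one_le fun n hn => h2b n hn)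

end Pool.Agent.H767R2
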