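import Mathlib
import Pool.Agent.H767R2.Semi3
import Pool.Agent.H767R2.RelP

set_option autoImplicit false
set_option linter.unusedSectionVars false

/-!
# The phase identity
-/

namespace Pool.Agent.H767R2

open MeasureTheory Filter Topology
open scoped ENNReal

/-- times -/
def tau (n : ℤ) : Fin 8 → ℤ := ![0, n, 2 * n, 3 * n, 4 * n, n ^ 3 - 2 * n ^ 2, n ^ 3 + 2 * n, n ^ 3 + 2 * n ^ 2]

/-- frequencies of the last coordinate -/
def psi : Fin 8 → ℤ := ![1, -4, 6, -4, 1, 0, 0, 0]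

/-- frequencies of the third last coordinate -/
def lam : Fin 8 → ℤ := ![6, 0, -6, 0, 0, -3, 6, -3]

/-- linear functionals -/
def rsum (r : Fin 8 → Fin 4 → ℤ) {K : Type*} [CommRing K] (x : Fin 8 → Fin 4 → K) : K :=
  ∑ j, ∑ k, (r j k : K) * x j k

theorem small_zero (r : Fin 8 → Fin 4 → ℤ) (hr : ∑ j, ∑ k, |r j k| ≤ 1968) (K : Fin 8 → Fin 4 → ℤ)
    (b : Fin 8 → Fin 4 → ℝ) (hb : rsum r b = 0) (hK : ∀ j k, |b j k - K j k| ≤ 1 / 2000) : rsum r K = 0 := by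
  have h1 : ((rsum r K : ℤ) : ℝ) = -∑ j, ∑ k, (r j k : ℝ) * (b j k - K j k) := by
    have h2 : ∑ j, ∑ k, (r j k : ℝ) * (b j k - K j k) = rsum r b - ((rsum r K : ℤ) : ℝ) := by
      simp only [rsum]
      push_cast
      rw [← Finset.sum_sub_distrib]
      refine Finset.sum_congr rfl fun j _ => ?_
      rw [← Finset.sum_sub_distrib]
      refine Finset.sum_congr rfl fun k _ => ?_
      ring
    rw [h2, hb]; ring
  have h3 : |((rsum r K : ℤ) : ℝ)| < 1 := by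
    rw [h1, abs_neg]
    calc |∑ j, ∑ k, (r j k : ℝ) * (b j k - K j k)|
        ≤ ∑ j, ∑ k, |(r j k : ℝ)| * (1 / 2000) := by
          refine (Finset.abs_sum_le_sum_abs _ _).trans (Finset.sum_le_sum fun j _ => ?_)
          refine (Finset.abs_sum_le_sum_abs _ _).trans (Finset.sum_le_sum fun k _ => ?_)
          rw [abs_mul]
          exact mul_le_mul_of_nonneg_left (hK j k) (abs_nonneg _)
      _ = ((∑ j, ∑ k, |r j k| : ℤ) : ℝ) * (1 / 2000) := by
          push_cast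
          rw [Finset.sum_mul]
          refine Finset.sum_congr rfl fun j _ => ?_
          rw [Finset.sum_mul]
      _ ≤ (1968 : ℤ) * (1 / 2000) := by gcongr
      _ < 1 := by norm_num
  have h4 : |rsum r K| < 1 := by exact_mod_cast h3
  exact Int.abs_lt_one_iff.mp h4

/-- coefficient functional -/
def rr00 : Fin 8 → Fin 4 → ℤ :=
  ![![0, 0, 6, 0], ![0, 0, -24, 0], ![0, 0, 36, 0], ![0, 0, -24, 0], ![0, 0, 6, 0], ![0, 0, 0, 0], ![0, 0, 0, 0], ![0, 0, 0, 0]]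

theorem rr00_zero (n : ℤ) (b : Fin 4 → ℝ) : rsum rr00 (fun j => sh4 (tau n j) b) = 0 := by
  simp only [rsum, rr00, tau, sh4, Fin.sum_univ_eight, Fin.sum_univ_four, Matrix.cons_val, zsmul_eq_mul]
  push_cast
  ring

/-- coefficient functional -/
def rr10 : Fin 8 → Fin 4 → ℤ :=
  ![![0, -4, 0, 36], ![0, 16, 0, 0], ![0, -24, 0, -36], ![0, 16, 0, 0], ![0, -4, 0, 0], ![0, 0, 0, -18], ![0, 0, 0, 36], ![0, 0, 0, -18]]

theorem rr10_zero (n : ℤ) (b : Fin 4 → ℝ) : rsum rr10 (fun j => sh4 (tau n j) b) = 0 := by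
  simp only [rsum, rr10, tau, sh4, Fin.sum_univ_eight, Fin.sum_univ_four, Matrix.cons_val, zsmul_eq_mul]
  push_cast
  ring

/-- coefficient functional -/
def rr11 : Fin 8 → Fin 4 → ℤ :=
  ![![0, 0, 0, 0], ![0, 0, -24, 0], ![0, 0, 72, 0], ![0, 0, -72, 0], ![0, 0, 24, 0], ![0, 0, 0, 0], ![0, 0, 0, 0], ![0, 0, 0, 0]]

theorem rr11_zero (n : ℤ) (b : Fin 4 → ℝ) : rsum rr11 (fun j => sh4 (tau n j) b) = 0 := by
  simp only [rsum, rr11, tau, sh4, Fin.sum_univ_eight, Fin.sum_univ_four, Matrix.cons_val, zsmul_eq_mul]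
  push_cast
  ring

/-- coefficient functional -/
def rr20 : Fin 8 → Fin 4 → ℤ :=
  ![![6, 0, -24, 0], ![-24, 0, 0, 0], ![36, 0, 24, 0], ![-24, 0, 0, 0], ![6, 0, 0, 0], ![0, 0, 12, 0], ![0, 0, -24, 0], ![0, 0, 12, 0]]

theorem rr20_zero (n : ℤ) (b : Fin 4 → ℝ) : rsum rr20 (fun j => sh4 (tau n j) b) = 0 := by
  simp only [rsum, rr20, tau, sh4, Fin.sum_univ_eight, Fin.sum_univ_four, Matrix.cons_val, zsmul_eq_mul]
  push_cast
  ring

/-- coefficient functional -/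
def rr21 : Fin 8 → Fin 4 → ℤ :=
  ![![0, 0, 0, 0], ![0, 32, 0, 0], ![0, -96, 0, -144], ![0, 96, 0, 0], ![0, -32, 0, 0], ![0, 0, 0, 0], ![0, 0, 0, 144], ![0, 0, 0, 0]]

theorem rr21_zero (n : ℤ) (b : Fin 4 → ℝ) : rsum rr21 (fun j => sh4 (tau n j) b) = 0 := by
  simp only [rsum, rr21, tau, sh4, Fin.sum_univ_eight, Fin.sum_univ_four, Matrix.cons_val, zsmul_eq_mul]
  push_cast
  ring

/-- coefficient functional -/
def rr22 : Fin 8 → Fin 4 → ℤ :=
  ![![0, 0, 0, 0], ![0, 0, -24, 0], ![0, 0, 144, 0], ![0, 0, -216, 0], ![0, 0, 96, 0], ![0, 0, 0, 72], ![0, 0, 0, 0], ![0, 0, 0, -72]]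

theorem rr22_zero (n : ℤ) (b : Fin 4 → ℝ) : rsum rr22 (fun j => sh4 (tau n j) b) = 0 := by
  simp only [rsum, rr22, tau, sh4, Fin.sum_univ_eight, Fin.sum_univ_four, Matrix.cons_val, zsmul_eq_mul]
  push_cast
  ring

/-- coefficient functional -/
def rr23 : Fin 8 → Fin 4 → ℤ :=
  ![![0, 0, 0, 0], ![0, 0, 0, 0], ![0, 0, 0, 0], ![0, 0, 0, 0], ![0, 0, 0, 0], ![0, 0, 0, -36], ![0, 0, 0, 72], ![0, 0, 0, -36]]

theorem rr23_zero (n : ℤ) (b : Fin 4 → ℝ) : rsum rr23 (fun j => sh4 (tau n j) b) = 0 := by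
  simp only [rsum, rr23, tau, sh4, Fin.sum_univ_eight, Fin.sum_univ_four, Matrix.cons_val, zsmul_eq_mul]
  push_cast
  ring

/-- coefficient functional -/
def rr30 : Fin 8 → Fin 4 → ℤ :=
  ![![0, 36, 0, 0], ![0, 0, 0, 0], ![0, -36, 0, 0], ![0, 0, 0, 0], ![0, 0, 0, 0], ![0, -18, 0, 0], ![0, 36, 0, 0], ![0, -18, 0, 0]]

theorem rr30_zero (n : ℤ) (b : Fin 4 → ℝ) : rsum rr30 (fun j => sh4 (tau n j) b) = 0 := by
  simp only [rsum, rr30, tau, sh4, Fin.sum_univ_eight, Fin.sum_univ_four, Matrix.cons_val, zsmul_eq_mul]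
  push_cast
  ring

/-- coefficient functional -/
def rr31 : Fin 8 → Fin 4 → ℤ :=
  ![![0, 0, 0, 0], ![-72, 0, 0, 0], ![216, 0, 144, 0], ![-216, 0, 0, 0], ![72, 0, 0, 0], ![0, 0, 0, 0], ![0, 0, -144, 0], ![0, 0, 0, 0]]

theorem rr31_zero (n : ℤ) (b : Fin 4 → ℝ) : rsum rr31 (fun j => sh4 (tau n j) b) = 0 := by
  simp only [rsum, rr31, tau, sh4, Fin.sum_univ_eight, Fin.sum_univ_four, Matrix.cons_val, zsmul_eq_mul]
  push_cast
  ring

/-- coefficient functional -/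
def rr32 : Fin 8 → Fin 4 → ℤ :=
  ![![0, 0, 0, 0], ![0, 48, 0, 0], ![0, -288, 0, -432], ![0, 432, 0, 0], ![0, -192, 0, 0], ![0, 0, -72, 0], ![0, 0, 0, 432], ![0, 0, 72, 0]]

theorem rr32_zero (n : ℤ) (b : Fin 4 → ℝ) : rsum rr32 (fun j => sh4 (tau n j) b) = 0 := by
  simp only [rsum, rr32, tau, sh4, Fin.sum_univ_eight, Fin.sum_univ_four, Matrix.cons_val, zsmul_eq_mul]
  push_cast
  ring

/-- coefficient functional -/
def rr33 : Fin 8 → Fin 4 → ℤ :=
  ![![0, 0, 0, 0], ![0, 0, -24, 0], ![0, 0, 288, 0], ![0, 0, -648, 0], ![0, 0, 384, 0], ![0, 0, 36, 0], ![0, 0, -72, 0], ![0, 0, 36, 0]]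

theorem rr33_zero (n : ℤ) (b : Fin 4 → ℝ) : rsum rr33 (fun j => sh4 (tau n j) b) = 0 := by
  simp only [rsum, rr33, tau, sh4, Fin.sum_univ_eight, Fin.sum_univ_four, Matrix.cons_val, zsmul_eq_mul]
  push_cast
  ring

/-- coefficient functional -/
def rr34 : Fin 8 → Fin 4 → ℤ :=
  ![![0, 0, 0, 0], ![0, 0, 0, 0], ![0, 0, 0, 0], ![0, 0, 0, 0], ![0, 0, 0, 0], ![0, 0, 0, -216], ![0, 0, 0, 432], ![0, 0, 0, -216]]

theorem rr34_zero (n : ℤ) (b : Fin 4 → ℝ) : rsum rr34 (fun j => sh4 (tau n j) b) = 0 := by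
  simp only [rsum, rr34, tau, sh4, Fin.sum_univ_eight, Fin.sum_univ_four, Matrix.cons_val, zsmul_eq_mul]
  push_cast
  ring

/-- coefficient functional -/
def rr35 : Fin 8 → Fin 4 → ℤ :=
  ![![0, 0, 0, 0], ![0, 0, 0, 0], ![0, 0, 0, 0], ![0, 0, 0, 0], ![0, 0, 0, 0], ![0, 0, 0, 216], ![0, 0, 0, 0], ![0, 0, 0, -216]]

theorem rr35_zero (n : ℤ) (b : Fin 4 → ℝ) : rsum rr35 (fun j => sh4 (tau n j) b) = 0 := by
  simp only [rsum, rr35, tau, sh4, Fin.sum_univ_eight, Fin.sum_univ_four, Matrix.cons_val, zsmul_eq_mul]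
  push_cast
  ring

/-- coefficient functional -/
def rr36 : Fin 8 → Fin 4 → ℤ :=
  ![![0, 0, 0, 0], ![0, 0, 0, 0], ![0, 0, 0, 0], ![0, 0, 0, 0], ![0, 0, 0, 0], ![0, 0, 0, -54], ![0, 0, 0, 108], ![0, 0, 0, -54]]

theorem rr36_zero (n : ℤ) (b : Fin 4 → ℝ) : rsum rr36 (fun j => sh4 (tau n j) b) = 0 := by
  simp only [rsum, rr36, tau, sh4, Fin.sum_univ_eight, Fin.sum_univ_four, Matrix.cons_val, zsmul_eq_mul]
  push_cast
  ring

/-- second adjoint -/
def adj2 (t : ℤ) (m : Fin 4 → ℤ) : Fin 4 → ℤ :=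
  ![0, 6 * m 3, -4 * m 2 + 12 * t * m 3, -12 * t * m 2 + 6 * m 1 + 18 * t ^ 2 * m 3]

theorem Tn_two_coord (t : ℤ) (v : XX) :
    (Tn t v).2 2 = pr ![0, 0, 1] v.2 - pr (adj2 t (Kf t v.1.2)) v.1.1 := by
  rw [pr_four, pr_three]
  simp only [Tn, adj2, sh3, sh4, ww, Pi.sub_apply, Matrix.cons_val]
  module

theorem freq_zero (n : ℤ) (B : Fin 4 → UnitAddCircle) (hB : ∀ j k, |rho (sh4 (tau n j) B k)| ≤ 1 / 2000) :
    ∑ j, (psi j • NN (tau n j) B + lam j • adj2 (tau n j) (Kf (tau n j) B)) = 0 := by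
  set K : Fin 8 → Fin 4 → ℤ := fun j => Kf (tau n j) B with hK
  have hKb : ∀ j k, |sh4 (tau n j) (fun i => rho (B i)) k - K j k| ≤ 1 / 2000 := by
    intro j k
    have := hB j k
    rwa [rho_sh4] at this
  have h00 := small_zero rr00 (by decide) K _ (rr00_zero n _) hKb
  have h10 := small_zero rr10 (by decide) K _ (rr10_zero n _) hKb
  have h11 := small_zero rr11 (by decide) K _ (rr11_zero n _) hKb
  have h20 := small_zero rr20 (by decide) K _ (rr20_zero n _) hKb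
  have h21 := small_zero rr21 (by decide) K _ (rr21_zero n _) hKb
  have h22 := small_zero rr22 (by decide) K _ (rr22_zero n _) hKb
  have h23 := small_zero rr23 (by decide) K _ (rr23_zero n _) hKb
  have h30 := small_zero rr30 (by decide) K _ (rr30_zero n _) hKb
  have h31 := small_zero rr31 (by decide) K _ (rr31_zero n _) hKb
  have h32 := small_zero rr32 (by decide) K _ (rr32_zero n _) hKb
  have h33 := small_zero rr33 (by decide) K _ (rr33_zero n _) hKb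
  have h34 := small_zero rr34 (by decide) K _ (rr34_zero n _) hKb
  have h35 := small_zero rr35 (by decide) K _ (rr35_zero n _) hKb
  have h36 := small_zero rr36 (by decide) K _ (rr36_zero n _) hKb
  simp only [rsum, rr00, rr10, rr11, rr20, rr21, rr22, rr23, rr30, rr31, rr32, rr33, rr34, rr35, rr36, Fin.sum_univ_eight, Fin.sum_univ_four, Matrix.cons_val, Int.cast_id] at h00 h10 h11 h20 h21 h22 h23 h30 h31 h32 h33 h34 h35 h36
  have hNN : ∀ j, NN (tau n j) B = adj (tau n j) (K j) := fun j => rfl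
  have hK' : ∀ j, Kf (tau n j) B = K j := fun j => rfl
  simp only [hNN, hK']
  clear_value K
  clear hK hKb hNN hK' hB
  ext i
  simp only [Finset.sum_apply, Fin.sum_univ_eight, Pi.add_apply, Pi.smul_apply, smul_eq_mul, psi, lam, tau,
    adj, adj2, Matrix.cons_val, Pi.zero_apply]
  fin_cases i
  · simp only [Matrix.cons_val, Fin.reduceFinMk, Fin.zero_eta, Fin.mk_one]
    linear_combination n ^ 0 * h00
  · simp only [Matrix.cons_val, Fin.reduceFinMk, Fin.zero_eta, Fin.mk_one]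
    linear_combination n ^ 0 * h10 + n ^ 1 * h11
  · simp only [Matrix.cons_val, Fin.reduceFinMk, Fin.zero_eta, Fin.mk_one]
    linear_combination n ^ 0 * h20 + n ^ 1 * h21 + n ^ 2 * h22 + n ^ 3 * h23
  · simp only [Matrix.cons_val, Fin.reduceFinMk, Fin.zero_eta, Fin.mk_one]
    linear_combination n ^ 0 * h30 + n ^ 1 * h31 + n ^ 2 * h32 + n ^ 3 * h33 + n ^ 4 * h34 + n ^ 5 * h35 + n ^ 6 * h36

theorem pr_zsmul_left {D : ℕ} (c : ℤ) (m : Fin D → ℤ) (x : Fin D → UnitAddCircle) : pr (c • m) x = c • pr m x := by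
  simp only [pr, Pi.smul_apply, smul_eq_mul, Finset.smul_sum, mul_smul]

theorem pr_sum_left {D : ℕ} {ι : Type*} (s : Finset ι) (m : ι → Fin D → ℤ) (x : Fin D → UnitAddCircle) :
    pr (∑ j ∈ s, m j) x = ∑ j ∈ s, pr (m j) x := by
  classical
  induction s using Finset.induction_on with
  | empty => rw [Finset.sum_empty, Finset.sum_empty, pr_zero_left]
  | insert j s hj ih => rw [Finset.sum_insert hj, Finset.sum_insert hj, pr_add_left, ih]

theorem phase_zero (n : ℤ) (v : XX) (hB : ∀ j k, |rho (sh4 (tau n j) v.1.2 k)| ≤ 1 / 2000) :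
    ∑ j, (psi j • (Tn (tau n j) v).2 0 + lam j • (Tn (tau n j) v).2 2) = 0 := by
  have h1 : ∑ j, (psi j • (Tn (tau n j) v).2 0 + lam j • (Tn (tau n j) v).2 2)
      = pr (∑ j, (psi j • ![1, tau n j, tau n j ^ 2] + lam j • ![0, 0, 1])) v.2
        - pr (∑ j, (psi j • NN (tau n j) v.1.2 + lam j • adj2 (tau n j) (Kf (tau n j) v.1.2))) v.1.1 := by
    rw [pr_sum_left, pr_sum_left, ← Finset.sum_sub_distrib]
    refine Finset.sum_congr rfl fun j _ => ?_
    rw [pr_add_left, pr_add_left, pr_zsmul_left, pr_zsmul_left, pr_zsmul_left, pr_zsmul_left, Tn_zero_coord,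
      Tn_two_coord]
    module
  rw [h1, freq_zero n v.1.2 hB, pr_zero_left, sub_zero]
  have h2 : ∑ j, (psi j • ![1, tau n j, tau n j ^ 2] + lam j • ![(0 : ℤ), 0, 1]) = 0 := by
    ext i
    simp only [Finset.sum_apply, Fin.sum_univ_eight, Pi.add_apply, Pi.smul_apply, smul_eq_mul, psi, lam, tau,
      Matrix.cons_val, Pi.zero_apply]
    fin_cases i <;> simp only [Matrix.cons_val, Fin.reduceFinMk, Fin.zero_eta, Fin.mk_one] <;> ring
  rw [h2, pr_zero_left]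

end Pool.Agent.H767R2
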