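import Mathlib
import Pool.Agent.H767R2.Phase

set_option autoImplicit false
set_option linter.unusedSectionVars false

/-!
# The correlations are bounded below
-/

namespace Pool.Agent.H767R2

open MeasureTheory Filter Topology
open scoped ENNReal

/-- The set of `B` all of whose relevant translates are almost integral. -/
def EE (n : ℤ) : Set (Fin 4 → UnitAddCircle) := {B | ∀ j k, |rho (sh4 (tau n j) B k)| ≤ 1 / 2000}

theorem rho_sub_small (x y : UnitAddCircle) (h : ⌊2000 * rho x⌋ = ⌊2000 * rho y⌋) : |rho (x - y)| ≤ 1 / 2000 := by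
  have h1 : |2000 * rho x - 2000 * rho y| < 1 := Int.abs_sub_lt_one_of_floor_eq_floor h
  have h2 : |rho x - rho y| < 1 / 2000 := by
    rw [← mul_sub, abs_mul, abs_of_pos (by norm_num : (0 : ℝ) < 2000)] at h1
    linarith
  have h3 : x - y = ((rho x - rho y : ℝ) : UnitAddCircle) := by
    rw [AddCircle.coe_sub, coe_rho, coe_rho]
  rw [h3, rho_coe]
  have h4 : round (rho x - rho y) = 0 := by
    rw [round_eq_zero_iff]
    rw [abs_lt] at h2
    constructor <;> linarith
  rw [h4]
  simpa using h2.le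

/-- the constant -/
noncomputable def cc : ℝ := (((Fintype.piFinset fun _ : Fin 8 × Fin 4 => Finset.Icc (-1000 : ℤ) 1000).card : ℝ))⁻¹

theorem cc_pos : 0 < cc := by
  rw [cc]
  have : 0 < (Fintype.piFinset fun _ : Fin 8 × Fin 4 => Finset.Icc (-1000 : ℤ) 1000).card := by
    rw [Finset.card_pos]
    exact ⟨fun _ => 0, by simp⟩
  positivity

theorem pigeon (n : ℤ) : ENNReal.ofReal cc ≤ (haarT 4) (EE n) := by
  set S := Fintype.piFinset fun _ : Fin 8 × Fin 4 => Finset.Icc (-1000 : ℤ) 1000 with hS
  set q : (Fin 4 → UnitAddCircle) → Fin 8 × Fin 4 → ℤ := fun B p => ⌊2000 * rho (sh4 (tau n p.1) B p.2)⌋ with hq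
  have hqS : ∀ B, q B ∈ S := by
    intro B
    rw [hS, Fintype.mem_piFinset]
    intro p
    have h1 := abs_rho_le (sh4 (tau n p.1) B p.2)
    rw [abs_le] at h1
    rw [Finset.mem_Icc]
    constructor
    · refine Int.le_floor.mpr ?_
      push_cast
      linarith [h1.1]
    · have : (⌊2000 * rho (sh4 (tau n p.1) B p.2)⌋ : ℝ) ≤ 1000 := (Int.floor_le _).trans (by linarith [h1.2])
      exact_mod_cast this
  have hcard : 0 < S.card := Finset.card_pos.mpr ⟨fun _ => 0, by simp [hS]⟩
  have hcc : cc = ((S.card : ℝ))⁻¹ := rfl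
  clear_value S q
  -- a large cell
  obtain ⟨s, hs, hsm⟩ : ∃ s ∈ S, cc ≤ (haarT 4).real {B | q B = s} := by
    refine Finset.exists_le_of_sum_le (Finset.card_pos.mp hcard) ?_
    have h3 : ∑ _s ∈ S, cc = 1 := by
      rw [Finset.sum_const, nsmul_eq_mul, hcc]
      exact mul_inv_cancel₀ (by exact_mod_cast hcard.ne')
    rw [h3]
    have h1 : (haarT 4).real Set.univ ≤ (haarT 4).real (⋃ s ∈ S, {B | q B = s}) := by
      refine measureReal_mono ?_ (measure_ne_top _ _)
      intro B _
      have hB : B ∈ {B' | q B' = q B} := Eq.refl (q B)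
      exact Set.mem_biUnion (hqS B) hB
    rw [probReal_univ] at h1
    exact h1.trans (measureReal_biUnion_finset_le S _)
  replace hsm : ENNReal.ofReal cc ≤ (haarT 4) {B | q B = s} := by
    rw [measureReal_def] at hsm
    exact ENNReal.ofReal_le_of_le_toReal hsm
  have hne : {B | q B = s}.Nonempty := by
    by_contra hc
    rw [Set.not_nonempty_iff_eq_empty] at hc
    rw [hc, measure_empty] at hsm
    exact absurd hsm (not_le.mpr (ENNReal.ofReal_pos.mpr cc_pos))
  obtain ⟨B0, hB0⟩ := hne
  have h5 : {B | q B = s} ⊆ (fun B => B + -B0) ⁻¹' (EE n) := by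
    intro B hB
    rw [Set.mem_preimage, ← sub_eq_add_neg]
    intro j k
    rw [sh4_sub, Pi.sub_apply]
    refine rho_sub_small _ _ ?_
    have h6 : q B = q B0 := by
      rw [show q B = s from hB, show q B0 = s from hB0]
    have h7 := congrFun h6 (j, k)
    simpa only [hq] using h7
  calc ENNReal.ofReal cc ≤ (haarT 4) {B | q B = s} := hsm
    _ ≤ (haarT 4) ((fun B => B + -B0) ⁻¹' (EE n)) := measure_mono h5
    _ = (haarT 4) (EE n) := measure_preimage_add_right _ _ _

/-- indicator of the almost integral `B` -/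
noncomputable def ind (B : Fin 4 → UnitAddCircle) : ℂ :=
  Set.indicator {B : Fin 4 → UnitAddCircle | ∀ k, |rho (B k)| ≤ 1 / 2000} (fun _ => 1) B

theorem measurable_ind : Measurable ind := by
  refine measurable_const.indicator ?_
  have h1 : {B : Fin 4 → UnitAddCircle | ∀ k, |rho (B k)| ≤ 1 / 2000} =
      ⋂ k, {B : Fin 4 → UnitAddCircle | |rho (B k)| ≤ 1 / 2000} := by
    ext B; simp
  rw [h1]
  refine MeasurableSet.iInter fun k => ?_
  have h2 : Measurable fun B : Fin 4 → UnitAddCircle => |rho (B k)| :=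
    (measurable_rho.comp (measurable_pi_apply k)).abs
  exact h2 measurableSet_Iic

theorem norm_ind_le (B : Fin 4 → UnitAddCircle) : ‖ind B‖ ≤ 1 := by
  rw [ind]
  by_cases h : B ∈ {B : Fin 4 → UnitAddCircle | ∀ k, |rho (B k)| ≤ 1 / 2000}
  · rw [Set.indicator_of_mem h]; simp
  · rw [Set.indicator_of_notMem h]; simp

/-- the eight functions -/
noncomputable def FF (j : Fin 8) (v : XX) : ℂ := ev (psi j • v.2 0 + lam j • v.2 2) * ind v.1.2

theorem FF_four : FF 4 = ff ind := by
  ext v
  simp [FF, ff, psi, lam]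

theorem measurable_FF (j : Fin 8) : Measurable (FF j) := by
  have h1 : ∀ i, Measurable fun v : XX => v.2 i := fun i => (measurable_pi_apply i).comp measurable_snd
  have h2 : Measurable fun v : XX => psi j • v.2 0 + lam j • v.2 2 := by
    have := h1 0
    have := h1 2
    fun_prop
  exact (continuous_ev.measurable.comp h2).mul (measurable_ind.comp (measurable_snd.comp measurable_fst))

theorem norm_FF_le (j : Fin 8) (v : XX) : ‖FF j v‖ ≤ 1 := by
  rw [FF, norm_mul, norm_ev, one_mul]
  exact norm_ind_le _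

theorem ev_sum {ι : Type*} (s : Finset ι) (x : ι → UnitAddCircle) : ev (∑ j ∈ s, x j) = ∏ j ∈ s, ev (x j) := by
  classical
  induction s using Finset.induction_on with
  | empty => rw [Finset.sum_empty, Finset.prod_empty, ev_zero]
  | insert j s hj ih => rw [Finset.sum_insert hj, Finset.prod_insert hj, ev_add, ih]

theorem prod_FF (n : ℤ) (v : XX) : ∏ j, FF j (Tn (tau n j) v) = Set.indicator {v : XX | v.1.2 ∈ EE n} (fun _ => 1) v := by
  by_cases h : v.1.2 ∈ EE n
  · rw [Set.indicator_of_mem (by exact h)]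
    have h1 : ∀ j, FF j (Tn (tau n j) v) = ev (psi j • (Tn (tau n j) v).2 0 + lam j • (Tn (tau n j) v).2 2) := by
      intro j
      rw [FF, ind, Set.indicator_of_mem (by exact fun k => h j k), mul_one]
    simp_rw [h1]
    rw [← ev_sum, phase_zero n v h, ev_zero]
  · rw [Set.indicator_of_notMem (by exact h)]
    have h1 : ∃ j, ¬ ∀ k, |rho (sh4 (tau n j) v.1.2 k)| ≤ 1 / 2000 := by
      by_contra hc
      push Not at hc
      exact h hc
    obtain ⟨j, hj⟩ := h1
    refine Finset.prod_eq_zero (Finset.mem_univ j) ?_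
    rw [FF, ind, Set.indicator_of_notMem (by exact hj), mul_zero]

theorem integral_prod_FF (n : ℤ) : ∃ c : ℝ, cc ≤ c ∧ ∫ v, ∏ j, FF j (Tn (tau n j) v) ∂muX = (c : ℂ) := by
  have hmeas : MeasurableSet (EE n) := by
    have h1 : EE n = ⋂ j, ⋂ k, {B | |rho (sh4 (tau n j) B k)| ≤ 1 / 2000} := by
      ext B; simp [EE]
    rw [h1]
    refine MeasurableSet.iInter fun j => MeasurableSet.iInter fun k => ?_
    have h2 : Measurable fun B : Fin 4 → UnitAddCircle => |rho (sh4 (tau n j) B k)| :=
      (measurable_rho.comp ((measurable_pi_apply k).comp (continuous_sh4 _).measurable)).abs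
    exact h2 measurableSet_Iic
  refine ⟨((haarT 4) (EE n)).toReal, ?_, ?_⟩
  · have := ENNReal.toReal_mono (measure_ne_top _ _) (pigeon n)
    rwa [ENNReal.toReal_ofReal cc_pos.le] at this
  · simp_rw [prod_FF]
    have h2 : {v : XX | v.1.2 ∈ EE n} = (Set.univ ×ˢ (EE n)) ×ˢ Set.univ := by
      ext v; simp
    rw [integral_indicator (by rw [h2]; exact (MeasurableSet.univ.prod hmeas).prod MeasurableSet.univ)]
    rw [setIntegral_const, h2, muX, measureReal_def, Measure.prod_prod, Measure.prod_prod, measure_univ, measure_univ,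
      one_mul, mul_one]
    simp

end Pool.Agent.H767R2
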