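import Mathlib
import Pool.Agent.H767R2.Pigeon
import Pool.Agent.H767R2.Exist3
import Pool.Agent.H767R2.Defs2

set_option autoImplicit false
set_option linter.unusedSectionVars false

/-!
# `𝒵_3` is not characteristic for the nilsystem, but it is for all Weyl systems
-/

namespace Pool.Agent.H767R2

open MeasureTheory Filter Topology Polynomial
open scoped ENNReal

/-- the functions, indexed by the polynomials -/
noncomputable def fP (q : ℤ[X]) : XX → ℂ := Function.extend pf (fun i : Fin 7 => FF i.succ) (fun _ => 0) q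

theorem fP_pf (i : Fin 7) : fP (pf i) = FF i.succ :=
  pf_injective.extend_apply _ _ _

theorem tau_succ (n : ℤ) (i : Fin 7) : tau n i.succ = pe n i := by
  fin_cases i <;> rfl

theorem prod_P0 (n : ℤ) (x : XX) (f : ℤ[X] → XX → ℂ) :
    ∏ p ∈ P0, f p ((TT ^ (p.eval n)) x) = ∏ i : Fin 7, f (pf i) (Tn (pe n i) x) := by
  rw [P0, Finset.prod_map]
  refine Finset.prod_congr rfl fun i _ => ?_
  simp only [Function.Embedding.coeFn_mk]
  rw [TT_zpow, pf_eval]

theorem memLp_FF (j : Fin 8) : MemLp (FF j) ∞ muX :=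
  memLp_top_of_bound (measurable_FF j).aestronglyMeasurable 1 (ae_of_all _ fun v => norm_FF_le j v)

theorem measurable_polyAvg (N : ℕ) : Measurable (polyAvg TT P0 fP N) := by
  have h1 : polyAvg TT P0 fP N = fun x => (1 / (N : ℂ)) * ∑ n ∈ Finset.Icc 1 N,
      ∏ i : Fin 7, FF i.succ (Tn (pe (n : ℤ) i) x) := by
    ext x
    simp only [polyAvg, prod_P0, fP_pf]
  rw [h1]
  refine measurable_const.mul (Finset.measurable_fun_sum _ fun n _ => ?_)
  refine Finset.measurable_fun_prod _ fun i _ => ?_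
  exact (measurable_FF _).comp (mp_Tn _).measurable

/-- the averages do not tend to zero -/
theorem polyAvg_lower (N : ℕ) (hN : 0 < N) : ENNReal.ofReal cc ≤ eLpNorm (polyAvg TT P0 fP N) 2 muX := by
  have h1 : ∀ x, FF 0 x * polyAvg TT P0 fP N x = (1 / (N : ℂ)) * ∑ n ∈ Finset.Icc 1 N,
      ∏ j : Fin 8, FF j (Tn (tau (n : ℤ) j) x) := by
    intro x
    simp only [polyAvg, prod_P0, fP_pf]
    rw [mul_left_comm, Finset.mul_sum]
    congr 1
    refine Finset.sum_congr rfl fun n _ => ?_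
    conv_rhs => rw [Fin.prod_univ_succ]
    simp only [tau_succ]
    congr 1
    have : tau (n : ℤ) 0 = 0 := rfl
    rw [this, Tn_zero]
  have hint : ∀ n : ℤ, Integrable (fun x => ∏ j : Fin 8, FF j (Tn (tau n j) x)) muX := by
    intro n
    refine Integrable.of_bound (Finset.measurable_fun_prod _ fun j _ =>
      (measurable_FF j).comp (mp_Tn _).measurable).aestronglyMeasurable 1 (ae_of_all _ fun x => ?_)
    rw [norm_prod]
    exact Finset.prod_le_one (fun _ _ => norm_nonneg _) fun j _ => norm_FF_le j _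
  choose c hc1 hc2 using integral_prod_FF
  have h2 : ∫ x, FF 0 x * polyAvg TT P0 fP N x ∂muX = (((1 / (N : ℝ)) * ∑ n ∈ Finset.Icc 1 N, c (n : ℤ) : ℝ) : ℂ) := by
    simp_rw [h1]
    rw [integral_const_mul, integral_finsetSum (Finset.Icc 1 N) fun (n : ℕ) _ => hint (n : ℤ)]
    simp_rw [hc2]
    push_cast
    rfl
  have hN' : (0 : ℝ) < N := by exact_mod_cast hN
  have h3 : cc ≤ (1 / (N : ℝ)) * ∑ n ∈ Finset.Icc 1 N, c (n : ℤ) := by
    have h4 : (N : ℝ) * cc ≤ ∑ n ∈ Finset.Icc 1 N, c (n : ℤ) := by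
      have h5 : ∑ _n ∈ Finset.Icc 1 N, cc ≤ ∑ n ∈ Finset.Icc 1 N, c (n : ℤ) := Finset.sum_le_sum fun n _ => hc1 n
      rwa [Finset.sum_const, Nat.card_Icc, Nat.add_sub_cancel, nsmul_eq_mul] at h5
    rw [one_div, ← div_eq_inv_mul, le_div_iff₀ hN', mul_comm]
    exact h4
  have h6 : ENNReal.ofReal cc ≤ ‖∫ x, FF 0 x * polyAvg TT P0 fP N x ∂muX‖ₑ := by
    rw [h2, ← ofReal_norm, Complex.norm_real]
    exact ENNReal.ofReal_le_ofReal (h3.trans (le_abs_self _))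
  calc ENNReal.ofReal cc ≤ ‖∫ x, FF 0 x * polyAvg TT P0 fP N x ∂muX‖ₑ := h6
    _ ≤ ∫⁻ x, ‖FF 0 x * polyAvg TT P0 fP N x‖ₑ ∂muX := enorm_integral_le_lintegral_enorm _
    _ ≤ ∫⁻ x, ‖polyAvg TT P0 fP N x‖ₑ ∂muX := by
        refine lintegral_mono fun x => ?_
        rw [enorm_mul]
        have h7 : ‖FF 0 x‖ₑ ≤ 1 := by
          rw [← ofReal_norm]
          exact ENNReal.ofReal_le_one.mpr (norm_FF_le 0 x)
        calc ‖FF 0 x‖ₑ * ‖polyAvg TT P0 fP N x‖ₑ ≤ 1 * ‖polyAvg TT P0 fP N x‖ₑ := by gcongr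
          _ = _ := one_mul _
    _ = eLpNorm (polyAvg TT P0 fP N) 1 muX := eLpNorm_one_eq_lintegral_enorm.symm
    _ ≤ eLpNorm (polyAvg TT P0 fP N) 2 muX :=
        eLpNorm_le_eLpNorm_of_exponent_le (by norm_num) (measurable_polyAvg N).aestronglyMeasurable

theorem hk_fP (d : ℕ) (hd : d ≤ 3) : hk muX TT d (fP (pf 3)) = 0 := by
  rw [fP_pf]
  have h1 : FF (Fin.succ 3) = ff ind := FF_four
  rw [h1]
  exact hk_ff measurable_ind norm_ind_le d hd

theorem memLp_fP (p : ℤ[X]) (hp : p ∈ P0) : MemLp (fP p) ∞ muX := by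
  obtain ⟨i, rfl⟩ := (mem_P0 p).mp hp
  rw [fP_pf]
  exact memLp_FF _

theorem tendsto_of_characteristic {X : Type*} (𝒵 : MeasurableSpace X) {m₀ : MeasurableSpace X} {μ : Measure X}
    [IsProbabilityMeasure μ] {T : Equiv.Perm X} (h1 : MeasurePreserving T μ μ)
    (h2 : MeasurePreserving T.symm μ μ) {d : ℕ} (h𝒵 : IsHKFactor 𝒵 μ T d) (P : Finset ℤ[X])
    (hchar : IsCharacteristic 𝒵 μ T P) (f : ℤ[X] → X → ℂ) (hf : ∀ p ∈ P, MemLp (f p) ∞ μ) (p : ℤ[X])
    (hp : p ∈ P) (h0 : hk μ T d (f p) = 0) :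
    Tendsto (fun N : ℕ => eLpNorm (polyAvg T P f N) 2 μ) atTop (𝓝 0) := by
  have h3 := hchar f hf
  have h4 : μ[f p | 𝒵] =ᵐ[μ] 0 := (h𝒵.iff_zero _ (hf p hp)).mpr h0
  have h5 : ∀ N : ℕ, polyAvg T P (fun p => μ[f p | 𝒵]) N =ᵐ[μ] 0 := by
    intro N
    have h6 : ∀ᵐ x ∂μ, ∀ n : ℕ, (μ[f p | 𝒵]) ((T ^ (p.eval (n : ℤ))) x) = 0 := by
      rw [ae_all_iff]
      intro n
      exact (zpow_measurePreserving T h1 h2 (p.eval (n : ℤ))).quasiMeasurePreserving.ae h4
    filter_upwards [h6] with x hx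
    simp only [polyAvg, Pi.zero_apply]
    rw [Finset.sum_eq_zero, mul_zero]
    intro n _
    exact Finset.prod_eq_zero hp (hx n)
  refine h3.congr fun N => ?_
  refine eLpNorm_congr_ae ?_
  filter_upwards [h5 N] with x hx
  rw [Pi.sub_apply, hx, Pi.zero_apply, sub_zero]

/-- No Host–Kra factor of order at most `3` of the nilsystem is characteristic. -/
theorem not_characteristic (d : ℕ) (hd : d ≤ 3) (𝒵 : MeasurableSpace XX) (h𝒵 : IsHKFactor 𝒵 muX TT d) :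
    ¬ IsCharacteristic 𝒵 muX TT P0 := by
  intro hchar
  have h3 := tendsto_of_characteristic 𝒵 mp_TT mp_TT_symm h𝒵 P0 hchar fP memLp_fP (pf 3)
    ((mem_P0 _).mpr ⟨3, rfl⟩) (hk_fP d hd)
  have h4 : ENNReal.ofReal cc ≤ 0 := by
    refine ge_of_tendsto h3 ?_
    filter_upwards [eventually_gt_atTop 0] with N hN
    exact polyAvg_lower N hN
  exact absurd h4 (not_le.mpr (ENNReal.ofReal_pos.mpr cc_pos))

theorem characteristic_weyl (W : WeylSystem) (𝒵 : MeasurableSpace (Fin W.D → UnitAddCircle))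
    (h𝒵 : IsHKFactor 𝒵 (haarT W.D) W.T 3) : IsCharacteristic 𝒵 (haarT W.D) W.T P0 :=
  characteristic_of_relDeg P0 2 relDeg_P0 W 𝒵 h𝒵

theorem weyl_seminorm (W : WeylSystem) (f : ℤ[X] → (Fin W.D → UnitAddCircle) → ℂ)
    (hf : ∀ p ∈ P0, MemLp (f p) ∞ (haarT W.D)) (p : ℤ[X]) (hp : p ∈ P0) (h0 : hk (haarT W.D) W.T 3 (f p) = 0) :
    Tendsto (fun N : ℕ => eLpNorm (polyAvg W.T P0 f N) 2 (haarT W.D)) atTop (𝓝 0) := by
  classical
  exact seminorm_form_D W P0 (fun q => q) 2 relDeg_P0 f _ (fun q hq => bd_of_memLp_top (hf q hq)) p hp h0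

theorem P0_eq : P0 = {X, 2 * X, 3 * X, 4 * X, X ^ 3 - 2 * X ^ 2, X ^ 3 + 2 * X, X ^ 3 + 2 * X ^ 2} := by
  ext q
  rw [mem_P0]
  simp only [Fin.exists_fin_succ, Finset.mem_insert, Finset.mem_singleton]
  simp [pf, eq_comm]

theorem dWMin_le : dWMin P0 ≤ 3 := by
  refine iInf₂_le 3 fun W => ?_
  obtain ⟨𝒵, h𝒵⟩ := W.exists_hkFactor 3
  exact ⟨𝒵, h𝒵, characteristic_weyl W 𝒵 h𝒵⟩

theorem standardBorel_pi (D : ℕ) : StandardBorelSpace (Fin D → UnitAddCircle) := inferInstance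

theorem standardBorel_XX : StandardBorelSpace XX :=
  @StandardBorelSpace.prod _ _ _ _ (@StandardBorelSpace.prod _ _ _ _ (standardBorel_pi 4) (standardBorel_pi 4))
    (standardBorel_pi 3)

/-- the nilsystem -/
noncomputable def sys0 : MPSystem where
  X := XX
  mX := Prod.instMeasurableSpace
  borel := standardBorel_XX
  μ := muX
  prob := inferInstance
  T := TT
  mp := mp_TT
  mp_symm := mp_TT_symm

theorem four_le_dMin : 4 ≤ dMin P0 := by
  refine le_iInf₂ fun d hd => ?_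
  by_contra hc
  push Not at hc
  have hd3 : d ≤ 3 := by
    have : d < 4 := by exact_mod_cast hc
    omega
  obtain ⟨𝒵, h𝒵, hchar⟩ := hd sys0
  exact not_characteristic d hd3 𝒵 h𝒵 hchar

end Pool.Agent.H767R2
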