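import Mathlib
import Pool.Agent.H767R2.DefsTC

set_option autoImplicit false
set_option linter.unusedSectionVars false

/-!
# Gowers norms on `ZMod p`: recursion, monotonicity, localisation of the differencing variables
-/

namespace Pool.Agent.H767R2

open Finset

section

variable {p : ℕ} [NeZero p]

/-- averages -/
noncomputable def av (f : ZMod p → ℂ) : ℂ := (1 / (p : ℂ)) * ∑ x, f x

/-- multiplicative difference -/
noncomputable def md (f : ZMod p → ℂ) (h : ZMod p) : ZMod p → ℂ := fun x => f x * (starRingEnd ℂ) (f (x + h))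

/-- the recursive form of the powers of the Gowers norms -/
noncomputable def gp : ℕ → (ZMod p → ℂ) → ℂ
  | 0, f => av f
  | k + 1, f => (1 / (p : ℂ)) * ∑ h, gp k (md f h)

theorem conj_iterate_mul (n : ℕ) (a b : ℂ) :
    (starRingEnd ℂ)^[n] (a * b) = (starRingEnd ℂ)^[n] a * (starRingEnd ℂ)^[n] b := by
  induction n generalizing a b with
  | zero => rfl
  | succ n ih => rw [Function.iterate_succ_apply, Function.iterate_succ_apply, Function.iterate_succ_apply, map_mul, ih]

theorem sum_fin_cons {α M : Type*} [Fintype α] [AddCommMonoid M] (k : ℕ) (F : (Fin (k + 1) → α) → M) :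
    ∑ h, F h = ∑ h0 : α, ∑ h : Fin k → α, F (Fin.cons h0 h) := by
  rw [← Fintype.sum_prod_type (fun z : α × (Fin k → α) => F (Fin.cons z.1 z.2))]
  exact (Equiv.sum_comp (Fin.consEquiv (fun _ : Fin (k + 1) => α)) F).symm

theorem prod_fin_cons {α M : Type*} [Fintype α] [CommMonoid M] (k : ℕ) (F : (Fin (k + 1) → α) → M) :
    ∏ h, F h = ∏ h0 : α, ∏ h : Fin k → α, F (Fin.cons h0 h) := by
  rw [← Fintype.prod_prod_type (fun z : α × (Fin k → α) => F (Fin.cons z.1 z.2))]
  exact (Equiv.prod_comp (Fin.consEquiv (fun _ : Fin (k + 1) => α)) F).symm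

theorem gowersPow_eq_gp (k : ℕ) (f : ZMod p → ℂ) : gowersPow p k f = gp k f := by
  induction k generalizing f with
  | zero =>
    simp only [gowersPow, gp, av, zero_add, pow_one]
    congr 1
    refine Finset.sum_congr rfl fun x _ => ?_
    simp
  | succ k ih =>
    rw [gp]
    simp_rw [← ih]
    simp only [gowersPow]
    have h1 : ∀ (x h0 : ZMod p) (h : Fin k → ZMod p), ∏ ω : Fin (k + 1) → Bool, (starRingEnd ℂ)^[∑ i, (ω i).toNat]
          (f (x + ∑ i, if ω i then (Fin.cons h0 h : Fin (k + 1) → ZMod p) i else 0))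
        = ∏ ω : Fin k → Bool, (starRingEnd ℂ)^[∑ i, (ω i).toNat] (md f h0 (x + ∑ i, if ω i then h i else 0)) := by
      intro x h0 h
      rw [prod_fin_cons, Fintype.prod_bool, ← Finset.prod_mul_distrib]
      refine Finset.prod_congr rfl fun ω _ => ?_
      simp only [Fin.sum_univ_succ, Fin.cons_zero, Fin.cons_succ, md, Bool.toNat_true,
        Bool.toNat_false, Bool.false_eq_true, if_true, if_false, zero_add]
      rw [conj_iterate_mul, mul_comm, add_comm 1, Function.iterate_add_apply, Function.iterate_one]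
      congr 4
      ring
    have h2 : ∀ x : ZMod p, (∑ h : Fin (k + 1) → ZMod p, ∏ ω : Fin (k + 1) → Bool, (starRingEnd ℂ)^[∑ i, (ω i).toNat]
          (f (x + ∑ i, if ω i then h i else 0)))
        = ∑ h0 : ZMod p, ∑ h : Fin k → ZMod p,
          ∏ ω : Fin k → Bool, (starRingEnd ℂ)^[∑ i, (ω i).toNat] (md f h0 (x + ∑ i, if ω i then h i else 0)) := by
      intro x
      rw [sum_fin_cons]
      exact Finset.sum_congr rfl fun h0 _ => Finset.sum_congr rfl fun h _ => h1 x h0 h
    simp_rw [h2]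
    rw [Finset.sum_comm, ← Finset.mul_sum, ← mul_assoc]
    congr 1
    rw [pow_succ]
    field_simp

theorem av_add_right (f : ZMod p → ℂ) (c : ZMod p) : av (fun x => f (x + c)) = av f := by
  simp only [av]
  congr 1
  exact Equiv.sum_comp (Equiv.addRight c) f

theorem md_comm (f : ZMod p → ℂ) (h h' : ZMod p) : md (md f h) h' = md (md f h') h := by
  ext x
  simp only [md, map_mul, Complex.conj_conj]
  rw [add_right_comm]
  ring

theorem gp_one (f : ZMod p → ℂ) : gp 1 f = ((‖av f‖ ^ 2 : ℝ) : ℂ) := by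
  have h1 : gp 1 f = av f * (starRingEnd ℂ) (av f) := by
    simp only [gp, av, md, map_mul, map_sum, map_div₀, map_one, Complex.conj_natCast]
    rw [mul_mul_mul_comm, Finset.sum_mul_sum, Finset.mul_sum, Finset.mul_sum]
    simp_rw [Finset.mul_sum]
    rw [Finset.sum_comm]
    refine Finset.sum_congr rfl fun x _ => ?_
    rw [← Equiv.sum_comp (Equiv.addLeft x) (fun i => 1 / (p : ℂ) * (1 / (p : ℂ)) * (f x * (starRingEnd ℂ) (f i)))]
    refine Finset.sum_congr rfl fun h _ => ?_
    simp only [Equiv.coe_addLeft]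
    ring
  rw [h1, Complex.mul_conj, Complex.normSq_eq_norm_sq]

/-- `gp (k+1)` is real and non-negative -/
theorem gp_succ_real (k : ℕ) (f : ZMod p → ℂ) : ∃ r : ℝ, 0 ≤ r ∧ gp (k + 1) f = r := by
  induction k generalizing f with
  | zero => exact ⟨‖av f‖ ^ 2, by positivity, gp_one f⟩
  | succ k ih =>
    choose r hr0 hr using ih
    refine ⟨(1 / (p : ℝ)) * ∑ h, r (md f h), ?_, ?_⟩
    · exact mul_nonneg (by positivity) (Finset.sum_nonneg fun h _ => hr0 _)
    · rw [gp]
      simp_rw [hr]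
      push_cast
      rfl

theorem norm_gp_succ (k : ℕ) (f : ZMod p → ℂ) : ‖gp (k + 1) f‖ = (gp (k + 1) f).re := by
  obtain ⟨r, hr0, hr⟩ := gp_succ_real k f
  rw [hr, Complex.norm_real, Complex.ofReal_re, Real.norm_of_nonneg hr0]

theorem norm_avg_sq_le {ι : Type*} [Fintype ι] [Nonempty ι] (z : ι → ℂ) :
    ‖(1 / (Fintype.card ι : ℂ)) * ∑ i, z i‖ ^ 2 ≤ (1 / (Fintype.card ι : ℝ)) * ∑ i, ‖z i‖ ^ 2 := by
  have hc : (0 : ℝ) < Fintype.card ι := by exact_mod_cast Fintype.card_pos
  have h1 : ‖∑ i, z i‖ ^ 2 ≤ Fintype.card ι * ∑ i, ‖z i‖ ^ 2 := by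
    have h2 : ‖∑ i, z i‖ ≤ ∑ i, ‖z i‖ := norm_sum_le _ _
    calc ‖∑ i, z i‖ ^ 2 ≤ (∑ i, ‖z i‖) ^ 2 := by gcongr
      _ ≤ (Finset.univ : Finset ι).card * ∑ i, ‖z i‖ ^ 2 := sq_sum_le_card_mul_sum_sq
      _ = _ := by rw [Finset.card_univ]
  rw [norm_mul, mul_pow, norm_div, norm_one, Complex.norm_natCast, div_pow, one_pow]
  rw [div_mul_eq_mul_div, one_mul, div_mul_eq_mul_div, one_mul, div_le_div_iff₀ (by positivity) hc]
  nlinarith [Finset.sum_nonneg fun (i : ι) (_ : i ∈ Finset.univ) => sq_nonneg ‖z i‖]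

/-- monotonicity -/
theorem norm_gp_sq_le (k : ℕ) (f : ZMod p → ℂ) : ‖gp k f‖ ^ 2 ≤ ‖gp (k + 1) f‖ := by
  induction k generalizing f with
  | zero =>
    rw [gp_one, Complex.norm_real, Real.norm_of_nonneg (by positivity)]
    rfl
  | succ k ih =>
    have hcard : Fintype.card (ZMod p) = p := ZMod.card p
    have h1 := norm_avg_sq_le (fun h => gp k (md f h))
    rw [hcard] at h1
    calc ‖gp (k + 1) f‖ ^ 2 ≤ (1 / (p : ℝ)) * ∑ h, ‖gp k (md f h)‖ ^ 2 := h1
      _ ≤ (1 / (p : ℝ)) * ∑ h, ‖gp (k + 1) (md f h)‖ := by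
          gcongr with h _
          exact ih _
      _ = ‖gp (k + 2) f‖ := by
          rw [norm_gp_succ (k + 1), gp]
          simp_rw [norm_gp_succ k]
          have h2 : ∀ z : ℂ, ((1 / (p : ℂ)) * z).re = (1 / (p : ℝ)) * z.re := by
            intro z
            have : (1 / (p : ℂ)) = ((1 / (p : ℝ) : ℝ) : ℂ) := by push_cast; rfl
            rw [this, Complex.re_ofReal_mul]
          rw [h2, Complex.re_sum]

theorem gowersNorm_mono (k : ℕ) (f : ZMod p → ℂ) : gowersNorm p k f ≤ gowersNorm p (k + 1) f := by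
  rw [gowersNorm, gowersNorm, gowersPow_eq_gp, gowersPow_eq_gp]
  have h1 := norm_gp_sq_le k f
  calc ‖gp k f‖ ^ ((1 : ℝ) / 2 ^ k) = (‖gp k f‖ ^ 2) ^ ((1 : ℝ) / 2 ^ (k + 1)) := by
        rw [← Real.rpow_natCast (‖gp k f‖) 2, ← Real.rpow_mul (norm_nonneg _)]
        congr 1
        rw [pow_succ]
        push_cast
        field_simp
    _ ≤ ‖gp (k + 1) f‖ ^ ((1 : ℝ) / 2 ^ (k + 1)) := by
        exact Real.rpow_le_rpow (by positivity) h1 (by positivity)

theorem re_avg (z : ℂ) : ((1 / (p : ℂ)) * z).re = (1 / (p : ℝ)) * z.re := by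
  have : (1 / (p : ℂ)) = ((1 / (p : ℝ) : ℝ) : ℂ) := by push_cast; rfl
  rw [this, Complex.re_ofReal_mul]

/-- localisation of one differencing variable -/
theorem gp_local (k : ℕ) (f : ZMod p → ℂ) {ι : Type*} [Fintype ι] [Nonempty ι] (s : ι → ZMod p) :
    (gp (k + 1) f).re ≤ (1 / (Fintype.card ι : ℝ)) ^ 2 * ∑ i, ∑ j, (gp k (md f (s i - s j))).re := by
  induction k generalizing f with
  | zero =>
    rw [gp_one, Complex.ofReal_re]
    have hcard : Fintype.card (ZMod p) = p := ZMod.card p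
    have hι : (Fintype.card ι : ℂ) ≠ 0 := by exact_mod_cast Fintype.card_ne_zero
    have h1 : av f = av (fun x => (1 / (Fintype.card ι : ℂ)) * ∑ i, f (x + s i)) := by
      have h2 : av (fun x => (1 / (Fintype.card ι : ℂ)) * ∑ i, f (x + s i))
          = (1 / (Fintype.card ι : ℂ)) * ∑ i, av (fun x => f (x + s i)) := by
        simp only [av]
        simp_rw [Finset.mul_sum]
        rw [Finset.sum_comm]
        refine Finset.sum_congr rfl fun i _ => Finset.sum_congr rfl fun x _ => ?_
        ring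
      rw [h2]
      simp_rw [av_add_right]
      rw [Finset.sum_const, Finset.card_univ, nsmul_eq_mul, ← mul_assoc, one_div, inv_mul_cancel₀ hι, one_mul]
    have h3 := norm_avg_sq_le (fun x : ZMod p => (1 / (Fintype.card ι : ℂ)) * ∑ i, f (x + s i))
    rw [hcard] at h3
    calc ‖av f‖ ^ 2 ≤ (1 / (p : ℝ)) * ∑ x, ‖(1 / (Fintype.card ι : ℂ)) * ∑ i, f (x + s i)‖ ^ 2 := by
          rw [h1]; exact h3
      _ = (1 / (Fintype.card ι : ℝ)) ^ 2 * ∑ i, ∑ j, (gp 0 (md f (s i - s j))).re := by
          have h4 : ∀ x : ZMod p, ‖(1 / (Fintype.card ι : ℂ)) * ∑ i, f (x + s i)‖ ^ 2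
              = (1 / (Fintype.card ι : ℝ)) ^ 2 * ∑ i, ∑ j, (f (x + s j) * (starRingEnd ℂ) (f (x + s i))).re := by
            intro x
            rw [norm_mul, mul_pow, norm_div, norm_one, Complex.norm_natCast]
            congr 1
            have h5 : (((‖∑ i, f (x + s i)‖ ^ 2 : ℝ)) : ℂ) = ∑ i, ∑ j, f (x + s j) * (starRingEnd ℂ) (f (x + s i)) := by
              rw [← Complex.normSq_eq_norm_sq, ← Complex.mul_conj, map_sum, Finset.sum_mul_sum, Finset.sum_comm]
            have h6 := congrArg Complex.re h5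
            rw [Complex.ofReal_re] at h6
            rw [h6]
            simp only [Complex.re_sum]
          simp_rw [h4]
          rw [← Finset.mul_sum, ← mul_assoc, mul_comm (1 / (p : ℝ)), mul_assoc]
          congr 1
          rw [Finset.sum_comm, Finset.mul_sum]
          refine Finset.sum_congr rfl fun i _ => ?_
          rw [Finset.sum_comm, Finset.mul_sum]
          refine Finset.sum_congr rfl fun j _ => ?_
          rw [gp, av, re_avg]
          congr 1
          rw [← Complex.re_sum]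
          congr 1
          rw [← Equiv.sum_comp (Equiv.addRight (s j)) (md f (s i - s j))]
          refine Finset.sum_congr rfl fun x _ => ?_
          simp only [md, Equiv.coe_addRight]
          congr 3
          ring
  | succ k ih =>
    rw [gp, re_avg, Complex.re_sum]
    calc (1 / (p : ℝ)) * ∑ h, (gp (k + 1) (md f h)).re
        ≤ (1 / (p : ℝ)) * ∑ h, ((1 / (Fintype.card ι : ℝ)) ^ 2 * ∑ i, ∑ j, (gp k (md (md f h) (s i - s j))).re) := by
          gcongr with h _
          exact ih _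
      _ = (1 / (Fintype.card ι : ℝ)) ^ 2 * ∑ i, ∑ j, (gp (k + 1) (md f (s i - s j))).re := by
          rw [← Finset.mul_sum, ← mul_assoc, mul_comm (1 / (p : ℝ)), mul_assoc]
          congr 1
          rw [Finset.sum_comm, Finset.mul_sum]
          refine Finset.sum_congr rfl fun i _ => ?_
          rw [Finset.sum_comm, Finset.mul_sum]
          refine Finset.sum_congr rfl fun j _ => ?_
          rw [gp, re_avg, Complex.re_sum]
          congr 1
          refine Finset.sum_congr rfl fun h _ => ?_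
          rw [md_comm]

end

end Pool.Agent.H767R2
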