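import Mathlib
import Pool.Agent.H767R2.Pigeon
import Pool.Agent.H767R2.Gowers

set_option autoImplicit false
set_option linter.unusedSectionVars false

/-!
# Periodic orbits of the nilsystem: the functions on `ZMod p`
-/

namespace Pool.Agent.H767R2

open Finset

section

variable {p : ℕ} [NeZero p]

/-- points of the torus with `p`-torsion coordinates -/
noncomputable def tc (b : Fin 4 → ZMod p) : Fin 4 → UnitAddCircle := fun k => ZMod.toAddCircle (b k)

theorem sh4_tc (t : ℤ) (b : Fin 4 → ZMod p) : sh4 t (tc b) = tc (sh4 t b) := by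
  ext i
  fin_cases i <;> simp only [sh4, tc, Matrix.cons_val, Fin.reduceFinMk, Fin.zero_eta, Fin.mk_one, map_add,
    map_zsmul]

theorem tc_sub (b c : Fin 4 → ZMod p) : tc (b - c) = tc b - tc c := by
  ext i
  simp only [tc, Pi.sub_apply, map_sub]

theorem sh4_zmod (t : ℤ) (b : Fin 4 → ZMod p) : sh4 (t + p) b = sh4 t b := by
  ext i
  fin_cases i <;> simp [sh4, zsmul_eq_mul]

theorem sh4_add_p (t : ℤ) (b : Fin 4 → ZMod p) : sh4 (t + p) (tc b) = sh4 t (tc b) := by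
  rw [sh4_tc, sh4_zmod, sh4_tc]

/-- centred lifts -/
noncomputable def bet (b : Fin 4 → ZMod p) : Fin 4 → ℤ := fun k =>
  ((b k).val : ℤ) - p * round (((b k).val : ℝ) / p)

theorem p_ne : (p : ℝ) ≠ 0 := by exact_mod_cast NeZero.ne p

theorem rho_tc (b : Fin 4 → ZMod p) (k : Fin 4) : rho (tc b k) = bet b k / p := by
  have hp : (p : ℝ) ≠ 0 := p_ne
  rw [tc, ZMod.toAddCircle_apply, rho_coe, bet]
  push_cast
  field_simp

/-- the integer vector of the return -/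
noncomputable def bp (b : Fin 4 → ZMod p) : Fin 4 → ℤ := ![bet b 1, 2 * bet b 2, 3 * bet b 3, 0]

theorem Kf_p (b : Fin 4 → ZMod p) :
    Kf p (tc b) = bp b + (p : ℤ) • ![bet b 2 + p * bet b 3, 3 * bet b 3, 0, 0] := by
  have hp : (p : ℝ) ≠ 0 := p_ne
  have h0 : sh4 (p : ℤ) (tc b) = tc b := by
    have := sh4_add_p 0 b
    rwa [zero_add, sh4_zero] at this
  have h1 : ∀ i, ((Kf p (tc b) i : ℤ) : ℝ) = sh4 (p : ℤ) (fun k => rho (tc b k)) i - rho (tc b i) := by
    intro i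
    have := rho_sh4 p (tc b) i
    rw [h0] at this
    linarith
  ext i
  have h2 := h1 i
  simp only [rho_tc] at h2
  have h3 : ((Kf p (tc b) i : ℤ) : ℝ) = (((bp b + (p : ℤ) • ![bet b 2 + p * bet b 3, 3 * bet b 3, 0, 0]) i : ℤ) : ℝ) := by
    rw [h2]
    rw [Pi.add_apply, Pi.smul_apply, smul_eq_mul]
    fin_cases i <;>
    · simp only [sh4, bp, Matrix.cons_val, Fin.reduceFinMk, Fin.zero_eta, Fin.mk_one, zsmul_eq_mul]
      push_cast
      field_simp
      ring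
  exact_mod_cast h3

theorem ww_zsmul_right {G : Type*} [AddCommGroup G] (c : ℤ) (a : Fin 4 → G) (m : Fin 4 → ℤ) :
    ww a (c • m) = c • ww a m := by
  ext i
  fin_cases i <;> simp only [ww, Matrix.cons_val, Fin.reduceFinMk, Fin.zero_eta, Fin.mk_one,
    Pi.smul_apply, smul_eq_mul] <;> module

theorem ww_map {G H : Type*} [AddCommGroup G] [AddCommGroup H] (J : G →+ H) (a : Fin 4 → G) (m : Fin 4 → ℤ) (i : Fin 3) :
    ww (fun k => J (a k)) m i = J (ww a m i) := by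
  fin_cases i <;> simp only [ww, Matrix.cons_val, Fin.reduceFinMk, Fin.zero_eta, Fin.mk_one,
    map_add, map_sub, map_zsmul]

theorem p_smul_ww (a : Fin 4 → ZMod p) (m : Fin 4 → ℤ) (i : Fin 3) : (p : ℤ) • ww (tc a) m i = 0 := by
  have h1 : ww (tc a) m i = ZMod.toAddCircle (ww a m i) := ww_map ZMod.toAddCircle a m i
  rw [h1, ← map_zsmul, zsmul_eq_mul, Int.cast_natCast, ZMod.natCast_self, zero_mul, map_zero]

/-- integer lifts -/
def alp (a : Fin 4 → ZMod p) : Fin 4 → ℤ := fun k => (a k).val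

/-- the weights of the return -/
noncomputable def wt (a b : Fin 4 → ZMod p) : Fin 3 → ℤ := ww (alp a) (bp b)

/-- the base point -/
noncomputable def vab (a b : Fin 4 → ZMod p) : XX := ((tc ((6 : ℤ) • a), tc b), 0)

theorem ww_tc (a b : Fin 4 → ZMod p) (i : Fin 3) :
    ww (tc ((6 : ℤ) • a)) (bp b) i = (((6 * wt a b i : ℤ) / p : ℝ) : UnitAddCircle) := by
  have h1 : tc ((6 : ℤ) • a) = fun k => ((ZMod.toAddCircle : ZMod p →+ UnitAddCircle).comp
      ((Int.castAddHom (ZMod p)).comp (AddMonoidHom.mulLeft 6))) (alp a k) := by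
    ext k
    simp only [tc, Pi.smul_apply, AddMonoidHom.comp_apply, AddMonoidHom.coe_mulLeft, Int.coe_castAddHom, alp,
      zsmul_eq_mul]
    push_cast
    rw [ZMod.natCast_zmod_val]
  rw [h1, ww_map]
  simp only [AddMonoidHom.comp_apply, AddMonoidHom.coe_mulLeft, Int.coe_castAddHom]
  rw [ZMod.toAddCircle_intCast]
  rfl

/-- the cubic phase -/
noncomputable def cph (a b : Fin 4 → ZMod p) (t : ℤ) : ℤ :=
  6 * wt a b 0 * t + 3 * wt a b 1 * t ^ 2 + 2 * wt a b 2 * t ^ 3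

/-- the phase of the `j`-th function -/
noncomputable def eph (j : Fin 8) (a b : Fin 4 → ZMod p) (t : ℤ) : ℤ :=
  psi j * cph a b t + lam j * (6 * wt a b 2 * t)

/-- the functions along the orbit -/
noncomputable def GG (j : Fin 8) (a b : Fin 4 → ZMod p) (t : ℤ) : ℂ :=
  ev (((eph j a b t : ℝ) / (p : ℝ) ^ 2 : ℝ) : UnitAddCircle) * FF j (Tn t (vab a b))

theorem sh3_apply_zero (t : ℤ) : sh3 t (0 : Fin 3 → UnitAddCircle) = 0 := by
  ext i
  fin_cases i <;> simp [sh3]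

theorem Tn_add_p (a b : Fin 4 → ZMod p) (t : ℤ) :
    (Tn (t + p) (vab a b)).2 = (Tn t (vab a b)).2 - sh3 t (ww (tc ((6 : ℤ) • a)) (bp b)) := by
  simp only [Tn, vab]
  rw [sh3_apply_zero, sh3_apply_zero, sh4_add_p, Kf_add]
  have h0 : sh4 (p : ℤ) (tc b) = tc b := by
    have := sh4_add_p 0 b
    rwa [zero_add, sh4_zero] at this
  rw [h0, ww_add, ww_sh, Kf_p, ww_add, ww_zsmul_right]
  have h1 : ww (tc ((6 : ℤ) • a)) (bp b) + (p : ℤ) • ww (tc ((6 : ℤ) • a)) ![bet b 2 + p * bet b 3, 3 * bet b 3, 0, 0]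
      = ww (tc ((6 : ℤ) • a)) (bp b) := by
    ext i
    rw [Pi.add_apply, Pi.smul_apply, p_smul_ww, add_zero]
  rw [h1]
  abel

theorem GG_periodic (j : Fin 8) (a b : Fin 4 → ZMod p) : Function.Periodic (GG j a b) (p : ℤ) := by
  intro t
  have hp : (p : ℝ) ≠ 0 := p_ne
  have h1 : (Tn (t + p) (vab a b)).1.2 = (Tn t (vab a b)).1.2 := sh4_add_p t b
  simp only [GG, FF]
  rw [h1, ← mul_assoc, ← mul_assoc, ← ev_add, ← ev_add, Tn_add_p]
  congr 2
  rw [Pi.sub_apply, Pi.sub_apply]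
  simp only [sh3, Matrix.cons_val, ww_tc]
  set C0 := (Tn t (vab a b)).2 0
  set C2 := (Tn t (vab a b)).2 2
  have h2 : ((((eph j a b (t + p) : ℤ) : ℝ) / (p : ℝ) ^ 2 : ℝ) : UnitAddCircle)
      = (((eph j a b t : ℝ) / (p : ℝ) ^ 2 : ℝ) : UnitAddCircle)
        + psi j • ((((6 * wt a b 0 : ℤ) / p : ℝ) : UnitAddCircle) + t • (((6 * wt a b 1 : ℤ) / p : ℝ) : UnitAddCircle)
          + t ^ 2 • (((6 * wt a b 2 : ℤ) / p : ℝ) : UnitAddCircle))
        + lam j • (((6 * wt a b 2 : ℤ) / p : ℝ) : UnitAddCircle) := by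
    simp only [← AddCircle.coe_zsmul, ← AddCircle.coe_add]
    rw [← sub_eq_zero, ← AddCircle.coe_sub, AddCircle.coe_eq_zero_iff]
    refine ⟨psi j * (3 * wt a b 1 + 6 * wt a b 2 * t + 2 * wt a b 2 * p), ?_⟩
    simp only [eph, cph, zsmul_eq_mul]
    push_cast
    field_simp
    ring
  rw [h2]
  module

/-- the functions on `ZMod p` -/
noncomputable def gj (j : Fin 8) (a b : Fin 4 → ZMod p) : ZMod p → ℂ := fun x => GG j a b (x.val : ℤ)

theorem gj_cast (j : Fin 8) (a b : Fin 4 → ZMod p) (t : ℤ) : gj j a b (t : ZMod p) = GG j a b t := by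
  rw [gj, ZMod.val_intCast]
  have h1 := (GG_periodic j a b).int_mul (t / p) (t % p)
  rw [Int.cast_id, mul_comm, Int.emod_add_mul_ediv] at h1
  exact h1.symm

theorem norm_GG_le (j : Fin 8) (a b : Fin 4 → ZMod p) (t : ℤ) : ‖GG j a b t‖ ≤ 1 := by
  rw [GG, norm_mul, norm_ev, one_mul]
  exact norm_FF_le _ _

theorem norm_gj_le (j : Fin 8) (a b : Fin 4 → ZMod p) (x : ZMod p) : ‖gj j a b x‖ ≤ 1 := norm_GG_le _ _ _ _

theorem prod_GG (a b : Fin 4 → ZMod p) (X Y : ℤ) :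
    ∏ j, GG j a b (X + tau Y j) = Set.indicator (EE Y) (fun _ => 1) (sh4 X (tc b)) := by
  have h1 : ∀ j, GG j a b (X + tau Y j) = ev (((eph j a b (X + tau Y j) : ℝ) / (p : ℝ) ^ 2 : ℝ) : UnitAddCircle)
      * FF j (Tn (tau Y j) (Tn X (vab a b))) := by
    intro j
    rw [GG, Tn_add, add_comm X]
  simp_rw [h1]
  rw [Finset.prod_mul_distrib, prod_FF, ← ev_sum]
  have h2 : ∑ j, (((eph j a b (X + tau Y j) : ℝ) / (p : ℝ) ^ 2 : ℝ) : UnitAddCircle) = 0 := by
    have h3 : ∑ j, eph j a b (X + tau Y j) = 0 := by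
      simp only [eph, cph, psi, lam, tau, Fin.sum_univ_eight, Matrix.cons_val]
      ring
    have h4 : ∑ j, (((eph j a b (X + tau Y j) : ℝ) / (p : ℝ) ^ 2 : ℝ) : UnitAddCircle)
        = ((∑ j, ((eph j a b (X + tau Y j) : ℝ) / (p : ℝ) ^ 2) : ℝ) : UnitAddCircle) := by
      simp only [Fin.sum_univ_eight, AddCircle.coe_add]
    rw [h4, ← Finset.sum_div, ← Int.cast_sum, h3]
    simp
  rw [h2, ev_zero, one_mul]
  rfl

end

end Pool.Agent.H767R2
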