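import Mathlib
import Pool.Agent.H767R2.FpSys

set_option autoImplicit false
set_option linter.unusedSectionVars false

/-!
# Averages of Gowers norms over the parameters, and the differencing step
-/

namespace Pool.Agent.H767R2

open Finset

/-- the list of the multiplicative difference `f(x) conj f(x+h)` -/
def dLr (h : ℤ) (L : List (ℤ × Bool)) : List (ℤ × Bool) := L ++ L.map (fun q => (q.1 + h, !q.2))

theorem sgs_flip_shift {G : Type*} [AddCommGroup G] (h : ℤ) (L : List (ℤ × Bool)) (φ : ℤ → G) :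
    sgs (L.map (fun q => (q.1 + h, !q.2))) φ = -sgs L (fun t => φ (t + h)) := by
  induction L with
  | nil => simp [sgs]
  | cons q L ih =>
    rw [List.map_cons, sgs_cons, sgs_cons, ih]
    rcases q with ⟨t, b⟩
    cases b <;> simp only [Bool.not_false, Bool.not_true, if_true, Bool.false_eq_true, if_false] <;> abel

theorem sgs_dLr {G : Type*} [AddCommGroup G] (h : ℤ) (L : List (ℤ × Bool)) (φ : ℤ → G) :
    sgs (dLr h L) φ = sgs L φ - sgs L (fun t => φ (t + h)) := by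
  rw [dLr, sgs_append, sgs_flip_shift, sub_eq_add_neg]

/-- four differences -/
def L4 (d1 d2 d3 d4 : ℤ) : List (ℤ × Bool) := dLr d4 (dLr d3 (dLr d2 (dLr d1 L0)))

theorem sgs_L4 {G : Type*} [AddCommGroup G] (d1 d2 d3 d4 : ℤ) (φ : ℤ → G) :
    sgs (L4 d1 d2 d3 d4) φ = sgs (dL d4 (dL d3 (dL d2 (dL d1 L0)))) φ := by
  simp only [L4, sgs_dLr, sgs_dL, sgs_L0]
  abel

section

variable {p : ℕ} [NeZero p]

/-- product of translates -/
noncomputable def PL (g : ZMod p → ℂ) (L : List (ℤ × Bool)) (x : ZMod p) : ℂ :=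
  (L.map (fun q => if q.2 then g (x + q.1) else (starRingEnd ℂ) (g (x + q.1)))).prod

theorem PL_cons (g : ZMod p → ℂ) (q : ℤ × Bool) (L : List (ℤ × Bool)) (x : ZMod p) :
    PL g (q :: L) x = (if q.2 then g (x + q.1) else (starRingEnd ℂ) (g (x + q.1))) * PL g L x := by
  simp [PL]

theorem PL_append (g : ZMod p → ℂ) (L M : List (ℤ × Bool)) (x : ZMod p) : PL g (L ++ M) x = PL g L x * PL g M x := by
  simp [PL]

theorem PL_L0 (g : ZMod p → ℂ) : PL g L0 = g := by
  ext x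
  simp [PL, L0]

theorem PL_flip_shift (g : ZMod p → ℂ) (h : ℤ) (L : List (ℤ × Bool)) (x : ZMod p) :
    PL g (L.map (fun q => (q.1 + h, !q.2))) x = (starRingEnd ℂ) (PL g L (x + h)) := by
  induction L with
  | nil => simp [PL]
  | cons q L ih =>
    rw [List.map_cons, PL_cons, PL_cons, ih, map_mul]
    rcases q with ⟨t, b⟩
    have h1 : x + (((t + h : ℤ)) : ZMod p) = x + (h : ZMod p) + (t : ZMod p) := by
      push_cast; ring
    cases b <;> simp only [Bool.not_false, Bool.not_true, if_true, Bool.false_eq_true, if_false, h1,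
      Complex.conj_conj]

theorem md_PL (g : ZMod p → ℂ) (L : List (ℤ × Bool)) (h : ℤ) : md (PL g L) (h : ZMod p) = PL g (dLr h L) := by
  ext x
  rw [dLr, PL_append, PL_flip_shift, md]

theorem norm_PL_le {g : ZMod p → ℂ} (hg : ∀ x, ‖g x‖ ≤ 1) (L : List (ℤ × Bool)) (x : ZMod p) : ‖PL g L x‖ ≤ 1 := by
  induction L with
  | nil => simp [PL]
  | cons q L ih =>
    rw [PL_cons, norm_mul]
    refine mul_le_one₀ ?_ (norm_nonneg _) ih
    split_ifs
    · exact hg _
    · rw [RCLike.norm_conj]; exact hg _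

theorem norm_av_le {f : ZMod p → ℂ} (hf : ∀ x, ‖f x‖ ≤ 1) : ‖av f‖ ≤ 1 := by
  rw [av, norm_mul, norm_div, norm_one, Complex.norm_natCast]
  have hp : (0 : ℝ) < p := by exact_mod_cast Nat.pos_of_ne_zero (NeZero.ne p)
  have h1 : ‖∑ x, f x‖ ≤ p := by
    calc ‖∑ x, f x‖ ≤ ∑ x, ‖f x‖ := norm_sum_le _ _
      _ ≤ ∑ _x : ZMod p, (1 : ℝ) := Finset.sum_le_sum fun x _ => hf x
      _ = p := by simp [ZMod.card]
  rw [div_mul_eq_mul_div, one_mul, div_le_one hp]
  exact h1

theorem norm_gp_le (k : ℕ) {f : ZMod p → ℂ} (hf : ∀ x, ‖f x‖ ≤ 1) : ‖gp k f‖ ≤ 1 := by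
  induction k generalizing f with
  | zero => exact norm_av_le hf
  | succ k ih =>
    have h1 : gp (k + 1) f = av (fun h => gp k (md f h)) := rfl
    rw [h1]
    refine norm_av_le fun h => ih fun x => ?_
    rw [md, norm_mul, RCLike.norm_conj]
    exact mul_le_one₀ (hf _) (norm_nonneg _) (hf _)

end

/-- the average over the parameters -/
noncomputable def Ph (p : ℕ) [NeZero p] (k : ℕ) (L : List (ℤ × Bool)) : ℝ :=
  (1 / (p : ℝ) ^ 8) * ∑ a : Fin 4 → ZMod p, ∑ b : Fin 4 → ZMod p, (gp k (PL (gj 4 a b) L)).re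

section

variable {p : ℕ} [NeZero p]

theorem card_four : (Fintype.card (Fin 4 → ZMod p) : ℝ) = (p : ℝ) ^ 4 := by
  rw [Fintype.card_fun, ZMod.card, Fintype.card_fin]
  push_cast
  rfl

theorem p_pos : (0 : ℝ) < p := by exact_mod_cast Nat.pos_of_ne_zero (NeZero.ne p)

theorem Ph_le_one (k : ℕ) (L : List (ℤ × Bool)) : Ph p k L ≤ 1 := by
  have hp : (0 : ℝ) < p := p_pos
  have h1 : ∑ a : Fin 4 → ZMod p, ∑ b : Fin 4 → ZMod p, (gp k (PL (gj 4 a b) L)).re ≤ (p : ℝ) ^ 8 := by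
    calc _ ≤ ∑ _a : Fin 4 → ZMod p, ∑ _b : Fin 4 → ZMod p, (1 : ℝ) := by
          refine Finset.sum_le_sum fun a _ => Finset.sum_le_sum fun b _ => ?_
          exact (Complex.re_le_norm _).trans (norm_gp_le k fun x => norm_PL_le (norm_gj_le 4 a b) L x)
      _ = (p : ℝ) ^ 8 := by
          rw [Finset.sum_const, Finset.sum_const, nsmul_eq_mul, nsmul_eq_mul, Finset.card_univ, card_four]
          ring
  rw [Ph, div_mul_eq_mul_div, one_mul, div_le_one (by positivity)]
  exact h1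

theorem Ph_local (k : ℕ) (L : List (ℤ × Bool)) (H : ℕ) (hH : 0 < H) (N : ℤ) :
    Ph p (k + 1) L ≤ (1 / (H : ℝ)) ^ 2 * ∑ i : Fin H, ∑ j : Fin H, Ph p k (dLr (N * i - N * j) L) := by
  haveI : Nonempty (Fin H) := ⟨⟨0, hH⟩⟩
  have h1 : ∀ a b : Fin 4 → ZMod p, (gp (k + 1) (PL (gj 4 a b) L)).re ≤ (1 / (H : ℝ)) ^ 2 *
      ∑ i : Fin H, ∑ j : Fin H, (gp k (PL (gj 4 a b) (dLr (N * i - N * j) L))).re := by
    intro a b
    have h2 := gp_local k (PL (gj 4 a b) L) (fun i : Fin H => ((N * i : ℤ) : ZMod p))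
    rw [Fintype.card_fin] at h2
    refine h2.trans (le_of_eq ?_)
    congr 1
    refine Finset.sum_congr rfl fun i _ => Finset.sum_congr rfl fun j _ => ?_
    rw [← md_PL]
    push_cast
    rfl
  have hp : (0 : ℝ) < p := p_pos
  calc Ph p (k + 1) L ≤ (1 / (p : ℝ) ^ 8) * ∑ a : Fin 4 → ZMod p, ∑ b : Fin 4 → ZMod p, ((1 / (H : ℝ)) ^ 2 *
      ∑ i : Fin H, ∑ j : Fin H, (gp k (PL (gj 4 a b) (dLr (N * i - N * j) L))).re) := by
        rw [Ph]
        gcongr with a _ b _
        exact h1 a b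
    _ = _ := by
        simp only [Ph]
        simp_rw [← Finset.mul_sum]
        rw [mul_left_comm]
        congr 2
        have h3 : ∀ a : Fin 4 → ZMod p, ∑ b : Fin 4 → ZMod p, ∑ i : Fin H, ∑ j : Fin H,
            (gp k (PL (gj 4 a b) (dLr (N * i - N * j) L))).re
            = ∑ i : Fin H, ∑ j : Fin H, ∑ b : Fin 4 → ZMod p, (gp k (PL (gj 4 a b) (dLr (N * i - N * j) L))).re := by
          intro a
          rw [Finset.sum_comm]
          refine Finset.sum_congr rfl fun i _ => ?_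
          rw [Finset.sum_comm]
        simp_rw [h3]
        rw [Finset.sum_comm]
        refine Finset.sum_congr rfl fun i _ => ?_
        rw [Finset.sum_comm]

end

/-- the average is eventually at most `ε` -/
def Sm (k : ℕ) (L : List (ℤ × Bool)) (ε : ℝ) : Prop :=
  ∃ P0 : ℕ, ∀ (p : ℕ) [Fact p.Prime], P0 < p → Ph p k L ≤ ε

theorem Sm_step (k : ℕ) (L : List (ℤ × Bool)) (ε : ℝ) (hε : 0 ≤ ε) (K : ℕ)
    (h : ∀ d : ℤ, (K : ℤ) < |d| → Sm k (dLr d L) ε) (ε' : ℝ) (hε' : ε < ε') : Sm (k + 1) L ε' := by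
  obtain ⟨H, hH⟩ := exists_nat_gt (1 / (ε' - ε))
  have hpos : 0 < ε' - ε := by linarith
  have hH0 : (0 : ℝ) < H := lt_trans (by positivity) hH
  have hH1 : 0 < H := by exact_mod_cast hH0
  set N : ℤ := K + 1 with hN
  have h1 : ∀ ij : Fin H × Fin H, ∃ P0 : ℕ, ∀ (p : ℕ) [Fact p.Prime], P0 < p →
      Ph p k (dLr (N * ij.1 - N * ij.2) L) ≤ (if ij.1 = ij.2 then 1 else 0) + ε := by
    intro ij
    by_cases hij : ij.1 = ij.2
    · refine ⟨0, fun p _ _ => ?_⟩
      rw [if_pos hij]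
      exact (Ph_le_one _ _).trans (by linarith)
    · rw [if_neg hij]
      simp only [zero_add]
      apply h
      rw [← mul_sub, abs_mul]
      have h2 : (1 : ℤ) ≤ |((ij.1 : ℕ) : ℤ) - ((ij.2 : ℕ) : ℤ)| := by
        apply Int.one_le_abs
        intro h3
        apply hij
        apply Fin.ext
        omega
      have h4 : |N| = K + 1 := abs_of_pos (by omega)
      rw [h4]
      nlinarith
  choose P hP using h1
  refine ⟨Finset.univ.sup P, fun p _ hp => ?_⟩
  refine (Ph_local k L H hH1 N).trans ?_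
  have h5 : ∑ i : Fin H, ∑ j : Fin H, Ph p k (dLr (N * i - N * j) L) ≤ H + H ^ 2 * ε := by
    calc _ ≤ ∑ i : Fin H, ∑ j : Fin H, ((if i = j then 1 else 0) + ε) := by
          refine Finset.sum_le_sum fun i _ => Finset.sum_le_sum fun j _ => ?_
          exact hP (i, j) p (lt_of_le_of_lt (Finset.le_sup (f := P) (Finset.mem_univ (i, j))) hp)
      _ = H + H ^ 2 * ε := by
          simp only [Finset.sum_add_distrib, Finset.sum_ite_eq, Finset.mem_univ, if_true, Finset.sum_const,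
            Finset.card_univ, Fintype.card_fin, nsmul_eq_mul, mul_one]
          ring
  calc (1 / (H : ℝ)) ^ 2 * ∑ i : Fin H, ∑ j : Fin H, Ph p k (dLr (N * i - N * j) L)
      ≤ (1 / (H : ℝ)) ^ 2 * (H + H ^ 2 * ε) := by gcongr
    _ = 1 / H + ε := by field_simp
    _ ≤ ε' := by
        have : 1 / (H : ℝ) ≤ ε' - ε := by
          rw [div_le_iff₀ hH0]
          rw [div_lt_iff₀ hpos] at hH
          linarith
        linarith

end Pool.Agent.H767R2
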