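import Mathlib
import Pool.Agent.H767R2.FpStep
import Pool.Agent.H767R2.Exist1

set_option autoImplicit false
set_option linter.unusedSectionVars false

/-!
# The average over the parameters of a fourfold difference
-/

namespace Pool.Agent.H767R2

open Finset

section

variable {p : ℕ} [NeZero p]

theorem PL_gj (a b : Fin 4 → ZMod p) (X : ℤ) (L : List (ℤ × Bool)) :
    PL (gj 4 a b) L (X : ZMod p)
      = ev (sgs L (fun t => ((((cph a b (X + t) : ℤ) : ℝ) / (p : ℝ) ^ 2 : ℝ) : UnitAddCircle)))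
        * FL (ff ind) L (Tn X (vab a b)) := by
  induction L with
  | nil => simp [PL, FL, sgs, ev_zero]
  | cons q L ih =>
    rw [PL_cons, FL_cons, sgs_cons, ih, ev_add]
    have h1 : ∀ t : ℤ, gj 4 a b ((X : ZMod p) + (t : ZMod p)) =
        ev ((((cph a b (X + t) : ℤ) : ℝ) / (p : ℝ) ^ 2 : ℝ) : UnitAddCircle) * ff ind (Tn t (Tn X (vab a b))) := by
      intro t
      have h2 : (X : ZMod p) + (t : ZMod p) = ((X + t : ℤ) : ZMod p) := by push_cast; rfl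
      have h3 : eph 4 a b (X + t) = cph a b (X + t) := by simp [eph, psi, lam]
      rw [h2, gj_cast, GG, h3, FF_four, Tn_add, add_comm t X]
    rcases q with ⟨t, c⟩
    cases c
    · simp only [Bool.false_eq_true, if_false, h1, map_mul, ev_neg']
      ring
    · simp only [if_true, h1]
      ring

theorem sgs_L4_cubic (d1 d2 d3 d4 : ℤ) (a b : Fin 4 → ZMod p) (X : ℤ) :
    sgs (L4 d1 d2 d3 d4) (fun t => ((((cph a b (X + t) : ℤ) : ℝ) / (p : ℝ) ^ 2 : ℝ) : UnitAddCircle)) = 0 := by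
  have h1 : ∀ φ : ℤ → ℝ, sgs (L4 d1 d2 d3 d4) (fun t => ((φ t : ℝ) : UnitAddCircle))
      = ((sgs (L4 d1 d2 d3 d4) φ : ℝ) : UnitAddCircle) := fun φ =>
    (map_sgs (QuotientAddGroup.mk' (AddSubgroup.zmultiples (1 : ℝ))) (L4 d1 d2 d3 d4) φ).symm
  rw [h1 (fun t => ((cph a b (X + t) : ℤ) : ℝ) / (p : ℝ) ^ 2)]
  have h2 : sgs (L4 d1 d2 d3 d4) (fun t => ((cph a b (X + t) : ℤ) : ℝ) / (p : ℝ) ^ 2) = 0 := by
    simp only [L4, sgs_dLr, sgs_L0, cph]
    push_cast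
    ring
  rw [h2]
  rfl

theorem sgs_L4_quad (d1 d2 d3 d4 : ℤ) : sgs (L4 d1 d2 d3 d4) (fun t => (![1, t, t ^ 2] : Fin 3 → ℤ)) = 0 := by
  ext i
  rw [sgs_apply]
  fin_cases i <;>
  · simp only [L4, sgs_dLr, sgs_L0, Matrix.cons_val, Fin.reduceFinMk, Fin.zero_eta, Fin.mk_one, Pi.zero_apply]
    ring

/-- translation as an equivalence -/
def sh4E (X : ℤ) : (Fin 4 → ZMod p) ≃ (Fin 4 → ZMod p) where
  toFun := sh4 X
  invFun := sh4 (-X)
  left_inv b := by rw [sh4_add, neg_add_cancel, sh4_zero]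
  right_inv b := by rw [sh4_add, add_neg_cancel, sh4_zero]

theorem sh4_zsmul {G : Type*} [AddCommGroup G] (X c : ℤ) (a : Fin 4 → G) : sh4 X (c • a) = c • sh4 X a := by
  ext i
  fin_cases i <;> simp only [sh4, Matrix.cons_val, Fin.reduceFinMk, Fin.zero_eta, Fin.mk_one, Pi.smul_apply] <;>
    module

/-- the frequency vector of a list -/
noncomputable def kap (L : List (ℤ × Bool)) (b : Fin 4 → ZMod p) : Fin 4 → ℤ := sgs L (fun t => NN t (tc b))

/-- the transported product -/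
noncomputable def FT (L : List (ℤ × Bool)) (a b : Fin 4 → ZMod p) : ℂ :=
  chi (-(kap L b)) (tc ((6 : ℤ) • a)) * Gfac ind L (tc b)

theorem PL_L4 (d1 d2 d3 d4 : ℤ) (a b : Fin 4 → ZMod p) (X : ℤ) :
    PL (gj 4 a b) (L4 d1 d2 d3 d4) (X : ZMod p) = FT (L4 d1 d2 d3 d4) (sh4 X a) (sh4 X b) := by
  rw [PL_gj, sgs_L4_cubic, ev_zero, one_mul, FL_eq, sgs_L4_quad, chi_zero, mul_one, FT, kap]
  have h1 : (Tn X (vab a b)).1.2 = tc (sh4 X b) := sh4_tc X b
  have h2 : (Tn X (vab a b)).1.1 = tc ((6 : ℤ) • sh4 X a) := by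
    rw [← sh4_zsmul, ← sh4_tc]; rfl
  rw [h1, h2]

theorem char_sum_zero (m : Fin 4 → ℤ) (i : Fin 4) (hi : ¬ (p : ℤ) ∣ 6 * m i) :
    ∑ a : Fin 4 → ZMod p, chi m (tc ((6 : ℤ) • a)) = 0 := by
  set e : Fin 4 → ZMod p := Pi.single i 1 with he
  have hadd : ∀ a : Fin 4 → ZMod p, tc ((6 : ℤ) • (a + e)) = tc ((6 : ℤ) • a) + tc ((6 : ℤ) • e) := by
    intro a
    ext k
    simp only [tc, smul_add, Pi.add_apply, map_add]
  have h1 : ∀ a : Fin 4 → ZMod p, chi m (tc ((6 : ℤ) • (a + e))) = chi m (tc ((6 : ℤ) • a)) * chi m (tc ((6 : ℤ) • e)) := by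
    intro a
    rw [hadd, chi_add_right]
  have h2 : ∑ a : Fin 4 → ZMod p, chi m (tc ((6 : ℤ) • a))
      = (∑ a : Fin 4 → ZMod p, chi m (tc ((6 : ℤ) • a))) * chi m (tc ((6 : ℤ) • e)) := by
    conv_lhs => rw [← Equiv.sum_comp (Equiv.addRight e)]
    simp only [Equiv.coe_addRight, h1]
    rw [← Finset.sum_mul]
  have h3 : chi m (tc ((6 : ℤ) • e)) ≠ 1 := by
    intro h
    have h4 := ev_eq_one h
    have h5 : pr m (tc ((6 : ℤ) • e)) = ZMod.toAddCircle (((6 * m i : ℤ)) : ZMod p) := by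
      rw [pr, Finset.sum_eq_single i]
      · rw [tc, ← map_zsmul]
        congr 1
        simp only [he, Pi.smul_apply, Pi.single_eq_same, zsmul_eq_mul]
        push_cast
        ring
      · intro k _ hk
        have : ((6 : ℤ) • e) k = 0 := by
          simp only [he, Pi.smul_apply, Pi.single_eq_of_ne hk, smul_zero]
        rw [tc, this, map_zero, smul_zero]
      · intro h; exact absurd (Finset.mem_univ i) h
    rw [h5, ZMod.toAddCircle_eq_zero, ZMod.intCast_zmod_eq_zero_iff_dvd] at h4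
    exact hi h4
  by_contra hc
  apply h3
  have h6 : (∑ a : Fin 4 → ZMod p, chi m (tc ((6 : ℤ) • a))) * 1 = (∑ a : Fin 4 → ZMod p, chi m (tc ((6 : ℤ) • a)))
      * chi m (tc ((6 : ℤ) • e)) := by rw [mul_one]; exact h2
  exact (mul_left_cancel₀ hc h6).symm

open Classical in
/-- the exceptional parameters -/
noncomputable def bad (p : ℕ) [NeZero p] (L : List (ℤ × Bool)) : Finset (Fin 4 → ZMod p) :=
  Finset.univ.filter fun b => ∀ i, (p : ℤ) ∣ 6 * kap L b i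

theorem norm_sum_FT (L : List (ℤ × Bool)) :
    ‖∑ a : Fin 4 → ZMod p, ∑ b : Fin 4 → ZMod p, FT L a b‖ ≤ (p : ℝ) ^ 4 * ((bad p L).card : ℝ) := by
  classical
  rw [Finset.sum_comm]
  have h1 : ∀ b : Fin 4 → ZMod p, ‖∑ a : Fin 4 → ZMod p, FT L a b‖ ≤
      if b ∈ bad p L then (p : ℝ) ^ 4 else 0 := by
    intro b
    simp only [FT]
    rw [← Finset.sum_mul]
    by_cases hb : b ∈ bad p L
    · rw [if_pos hb, norm_mul]
      have h2 : ‖∑ a : Fin 4 → ZMod p, chi (-(kap L b)) (tc ((6 : ℤ) • a))‖ ≤ (p : ℝ) ^ 4 := by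
        calc _ ≤ ∑ a : Fin 4 → ZMod p, ‖chi (-(kap L b)) (tc ((6 : ℤ) • a))‖ := norm_sum_le _ _
          _ = (p : ℝ) ^ 4 := by
              simp only [norm_chi]
              rw [Finset.sum_const, nsmul_eq_mul, mul_one, Finset.card_univ, card_four]
      calc _ ≤ (p : ℝ) ^ 4 * 1 := by
            gcongr
            exact norm_Gfac_le norm_ind_le L _
        _ = _ := mul_one _
    · rw [if_neg hb]
      have h2 : ∃ i, ¬ (p : ℤ) ∣ 6 * (-(kap L b)) i := by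
        by_contra hc
        push Not at hc
        apply hb
        rw [bad, Finset.mem_filter]
        refine ⟨Finset.mem_univ _, fun i => ?_⟩
        have := hc i
        rw [Pi.neg_apply, mul_neg, dvd_neg] at this
        exact this
      obtain ⟨i, hi⟩ := h2
      rw [char_sum_zero _ i hi, zero_mul, norm_zero]
  calc ‖∑ b : Fin 4 → ZMod p, ∑ a : Fin 4 → ZMod p, FT L a b‖
      ≤ ∑ b : Fin 4 → ZMod p, ‖∑ a : Fin 4 → ZMod p, FT L a b‖ := norm_sum_le _ _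
    _ ≤ ∑ b : Fin 4 → ZMod p, if b ∈ bad p L then (p : ℝ) ^ 4 else 0 := Finset.sum_le_sum fun b _ => h1 b
    _ = _ := by
        rw [Finset.sum_ite_mem, Finset.univ_inter, Finset.sum_const, nsmul_eq_mul, mul_comm]

theorem Ph_zero_le (d1 d2 d3 d4 : ℤ) :
    Ph p 0 (L4 d1 d2 d3 d4) ≤ ((bad p (L4 d1 d2 d3 d4)).card : ℝ) / (p : ℝ) ^ 4 := by
  set L := L4 d1 d2 d3 d4 with hL
  have hp : (0 : ℝ) < p := p_pos
  have h1 : ∀ x : ZMod p, ∑ a : Fin 4 → ZMod p, ∑ b : Fin 4 → ZMod p, PL (gj 4 a b) L x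
      = ∑ a : Fin 4 → ZMod p, ∑ b : Fin 4 → ZMod p, FT L a b := by
    intro x
    have h2 : x = (((x.val : ℕ) : ℤ) : ZMod p) := by
      rw [Int.cast_natCast, ZMod.natCast_zmod_val]
    rw [h2, hL]
    simp_rw [PL_L4]
    rw [← Equiv.sum_comp (sh4E (p := p) (x.val : ℤ)) (fun a => ∑ b : Fin 4 → ZMod p, FT (L4 d1 d2 d3 d4) a b)]
    refine Finset.sum_congr rfl fun a _ => ?_
    rw [← Equiv.sum_comp (sh4E (p := p) (x.val : ℤ)) (fun b => FT (L4 d1 d2 d3 d4) _ b)]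
    rfl
  have h3 : ∑ a : Fin 4 → ZMod p, ∑ b : Fin 4 → ZMod p, (gp 0 (PL (gj 4 a b) L)).re
      = (∑ a : Fin 4 → ZMod p, ∑ b : Fin 4 → ZMod p, FT L a b).re := by
    simp only [gp, av, re_avg]
    simp_rw [← Finset.mul_sum]
    simp only [← Complex.re_sum]
    have h4 : ∑ a : Fin 4 → ZMod p, ∑ b : Fin 4 → ZMod p, ∑ x : ZMod p, PL (gj 4 a b) L x
        = ∑ x : ZMod p, ∑ a : Fin 4 → ZMod p, ∑ b : Fin 4 → ZMod p, PL (gj 4 a b) L x := by
      rw [Finset.sum_comm]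
      have h5 : ∀ b : Fin 4 → ZMod p, ∑ a : Fin 4 → ZMod p, ∑ x : ZMod p, PL (gj 4 a b) L x
        = ∑ x : ZMod p, ∑ a : Fin 4 → ZMod p, PL (gj 4 a b) L x := fun b => Finset.sum_comm
      simp_rw [h5]
      rw [Finset.sum_comm]
      refine Finset.sum_congr rfl fun x _ => ?_
      rw [Finset.sum_comm]
    rw [h4]
    simp_rw [h1]
    rw [Finset.sum_const, Finset.card_univ, ZMod.card, nsmul_eq_mul]
    have h6 : ((p : ℂ) * ∑ a : Fin 4 → ZMod p, ∑ b : Fin 4 → ZMod p, FT L a b).re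
        = (p : ℝ) * (∑ a : Fin 4 → ZMod p, ∑ b : Fin 4 → ZMod p, FT L a b).re := by
      rw [← Complex.ofReal_natCast, Complex.re_ofReal_mul]
    rw [h6]
    field_simp
  rw [Ph, h3]
  have h7 := (Complex.re_le_norm _).trans (norm_sum_FT (p := p) L)
  calc (1 / (p : ℝ) ^ 8) * (∑ a : Fin 4 → ZMod p, ∑ b : Fin 4 → ZMod p, FT L a b).re
      ≤ (1 / (p : ℝ) ^ 8) * ((p : ℝ) ^ 4 * ((bad p L).card : ℝ)) := by gcongr
    _ = _ := by field_simp

end

end Pool.Agent.H767R2
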