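import Mathlib
import Pool.Agent.H767R2.FpBase

set_option autoImplicit false
set_option linter.unusedSectionVars false

/-!
# Counting the exceptional parameters
-/

namespace Pool.Agent.H767R2

open Finset

theorem SS_subset (h1 h2 : ℤ) : ∃ M : ℝ, 0 ≤ M ∧ ∀ h : ℤ, 2 * M < |(h : ℝ)| →
    ∀ B ∈ SS h1 h2 h, ‖(12 * h1 * h2) • B 3‖ ≤ M / |(h : ℝ)| := by
  obtain ⟨M, hM0, hM⟩ := thL_bound (dL h2 (dL h1 L0))
  refine ⟨M, hM0, fun h hhM B hB => ?_⟩
  obtain ⟨e0, e1, e2⟩ := hB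
  rw [thL_dL] at e0 e1 e2
  simp only [Pi.sub_apply, shD, Matrix.cons_val] at e0 e1 e2
  set L := dL h2 (dL h1 L0) with hL
  have hh' : (0 : ℝ) < |(h : ℝ)| := by linarith
  have b1 := hM B 1
  have b2 := hM B 2
  have b1' := hM (sh4 h B) 1
  have b2' := hM (sh4 h B) 2
  -- the value at `1` vanishes
  have c0 : thL L (sh4 h B) 0 = 0 := by
    obtain ⟨n1, _⟩ := NN_L2 h1 h2 (sh4 h B)
    refine int_zero (-(sgs L (fun t => NN t (sh4 h B)) 0)) ?_ ?_
    · push_cast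
      rw [n1, neg_neg]
    · have h3 : |(h : ℝ)| * |thL L (sh4 h B) 0| ≤ 2 * M := by
        rw [← abs_mul]
        have : (h : ℝ) * thL L (sh4 h B) 0 = thL L B 1 - thL L (sh4 h B) 1 := by linarith
        rw [this]
        exact (abs_sub _ _).trans (by linarith)
      by_contra hc
      push Not at hc
      nlinarith
  have c1 : |thL L (sh4 h B) 1| ≤ M / |(h : ℝ)| := by
    rw [le_div_iff₀ hh']
    have h3 : 2 * (h : ℝ) * thL L (sh4 h B) 1 = thL L B 2 - thL L (sh4 h B) 2 := by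
      rw [c0] at e2
      linarith
    have h4 : 2 * (|(h : ℝ)| * |thL L (sh4 h B) 1|) ≤ 2 * M := by
      have h5 : |2 * (h : ℝ) * thL L (sh4 h B) 1| = 2 * (|(h : ℝ)| * |thL L (sh4 h B) 1|) := by
        rw [abs_mul, abs_mul, abs_of_pos (by norm_num : (0 : ℝ) < 2)]
        ring
      rw [← h5, h3]
      exact (abs_sub _ _).trans (by linarith)
    linarith
  -- conclusion
  obtain ⟨_, n2⟩ := NN_L2 h1 h2 (sh4 h B)
  have hB3 : sh4 h B 3 = B 3 := by simp [sh4]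
  rw [hB3] at n2
  have h6 : (12 * h1 * h2) • B 3 = ((thL L (sh4 h B) 1 : ℝ) : UnitAddCircle) := by
    have h7 : thL L (sh4 h B) 1 = (12 * h1 * h2 : ℤ) • rho (B 3) - ((sgs L (fun t => NN t (sh4 h B)) 1 : ℤ) : ℝ) := by
      rw [zsmul_eq_mul]
      push_cast
      linarith
    rw [h7, AddCircle.coe_sub, AddCircle.coe_zsmul, coe_rho]
    have h8 : ((((sgs L (fun t => NN t (sh4 h B)) 1 : ℤ) : ℝ)) : UnitAddCircle) = 0 := by
      rw [AddCircle.coe_eq_zero_iff]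
      exact ⟨sgs L (fun t => NN t (sh4 h B)) 1, by simp⟩
    rw [h8, sub_zero]
  rw [h6]
  refine le_trans ?_ c1
  rw [← Real.norm_eq_abs]
  exact QuotientAddGroup.norm_mk_le_norm

theorem four_subset_abs (h1 h2 h3 : ℤ) : ∃ M : ℝ, 0 ≤ M ∧ ∀ k : ℤ, M < |(k : ℝ)| →
    ∀ B, sgs (dL k (dL h3 (dL h2 (dL h1 L0)))) (fun t => NN t B) = 0 → B ∈ SS h1 h2 h3 := by
  obtain ⟨M, hM0, hM⟩ := thL_bound (dL h3 (dL h2 (dL h1 L0)))
  refine ⟨2 * M, by positivity, fun k hk B hB => ?_⟩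
  have hk0 : (0 : ℝ) < |(k : ℝ)| := by linarith
  set L := dL h3 (dL h2 (dL h1 L0)) with hL
  have hz : ∀ i, thL (dL k L) B i = 0 := by
    intro i
    have h4 := NN_L4 h1 h2 h3 k B i
    rw [← hL] at h4
    have h5 : sgs (dL k L) (fun t => NN t B) = 0 := hB
    rw [h5] at h4
    simp only [Pi.zero_apply, Int.cast_zero] at h4
    linarith
  have e0 := hz 0
  have e1 := hz 1
  have e2 := hz 2
  have e3 := hz 3
  rw [thL_dL] at e0 e1 e2 e3
  simp only [Pi.sub_apply, shD, Matrix.cons_val] at e0 e1 e2 e3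
  have hint : ∀ B' : Fin 4 → UnitAddCircle, ∀ i, ∃ m : ℤ, thL L B' i = m := fun B' i =>
    ⟨-(sgs L (fun t => NN t B') i), by push_cast; rw [NN_L3, neg_neg]⟩
  have hsmall : ∀ i, |(k : ℝ) * thL L (sh4 k B) i| ≤ 2 * M → thL L (sh4 k B) i = 0 := by
    intro i hi
    obtain ⟨m, hm⟩ := hint (sh4 k B) i
    refine int_zero m hm ?_
    rw [abs_mul] at hi
    by_contra hc
    push Not at hc
    nlinarith
  have c0 : thL L (sh4 k B) 0 = 0 := by
    apply hsmall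
    have : (k : ℝ) * thL L (sh4 k B) 0 = thL L B 1 - thL L (sh4 k B) 1 := by linarith
    rw [this]
    exact (abs_sub _ _).trans (by linarith [hM B 1, hM (sh4 k B) 1])
  have c1 : thL L (sh4 k B) 1 = 0 := by
    apply hsmall
    have : (k : ℝ) * thL L (sh4 k B) 1 = (thL L B 2 - thL L (sh4 k B) 2) / 2 := by
      rw [c0] at e2
      linarith
    rw [this, abs_div, abs_of_pos (by norm_num : (0 : ℝ) < 2)]
    have := (abs_sub (thL L B 2) (thL L (sh4 k B) 2))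
    linarith [hM B 2, hM (sh4 k B) 2]
  have c2 : thL L (sh4 k B) 2 = 0 := by
    apply hsmall
    have : (k : ℝ) * thL L (sh4 k B) 2 = (thL L B 3 - thL L (sh4 k B) 3) / 3 := by
      rw [c0, c1] at e3
      linarith
    rw [this, abs_div, abs_of_pos (by norm_num : (0 : ℝ) < 3)]
    have := (abs_sub (thL L B 3) (thL L (sh4 k B) 3))
    linarith [hM B 3, hM (sh4 k B) 3]
  rw [c0] at e0 e1 e2
  rw [c1] at e1 e2
  rw [c2] at e2
  refine ⟨?_, ?_, ?_⟩ <;> linarith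

section

variable {p : ℕ} [NeZero p]

open Classical in
theorem count_small (δ : ℝ) (hδ : 0 ≤ δ) :
    ((Finset.univ.filter fun z : ZMod p => ‖(ZMod.toAddCircle z : UnitAddCircle)‖ ≤ δ).card : ℝ) ≤ 2 * (δ * p) + 1 := by
  have hp : (0 : ℝ) < p := p_pos
  set β : ZMod p → ℤ := fun z => (z.val : ℤ) - p * round ((z.val : ℝ) / p) with hβ
  have hβc : ∀ z : ZMod p, ((β z : ℤ) : ZMod p) = z := by
    intro z
    simp [hβ]
  have hinj : Function.Injective β := by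
    intro x y h
    rw [← hβc x, h, hβc y]
  have hnorm : ∀ z : ZMod p, ‖(ZMod.toAddCircle z : UnitAddCircle)‖ = |(β z : ℝ)| / p := by
    intro z
    rw [ZMod.toAddCircle_apply, UnitAddCircle.norm_eq, hβ, ← abs_of_pos hp, ← abs_div, abs_of_pos hp]
    congr 1
    push_cast
    field_simp
  have h1 : (Finset.univ.filter fun z : ZMod p => ‖(ZMod.toAddCircle z : UnitAddCircle)‖ ≤ δ).card
      ≤ (Finset.Icc (-⌊δ * p⌋) ⌊δ * p⌋).card := by
    refine Finset.card_le_card_of_injOn β ?_ hinj.injOn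
    intro z hz
    simp only [Finset.coe_filter, Finset.mem_univ, true_and, Set.mem_ofPred_eq] at hz
    rw [hnorm, div_le_iff₀ hp, abs_le] at hz
    rw [Finset.mem_coe, Finset.mem_Icc]
    constructor
    · have : -β z ≤ ⌊δ * p⌋ := by
        apply Int.le_floor.mpr
        push_cast
        linarith [hz.1]
      linarith
    · exact Int.le_floor.mpr hz.2
  have h2 : 0 ≤ ⌊δ * p⌋ := Int.floor_nonneg.mpr (by positivity)
  have h3 : ((Finset.Icc (-⌊δ * p⌋) ⌊δ * p⌋).card : ℝ) = 2 * (⌊δ * p⌋ : ℝ) + 1 := by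
    rw [Int.card_Icc]
    have h4 : (((⌊δ * p⌋ + 1 - -⌊δ * p⌋).toNat : ℤ) : ℝ) = ((⌊δ * p⌋ + 1 - -⌊δ * p⌋ : ℤ) : ℝ) := by
      rw [Int.toNat_of_nonneg (by omega)]
    rw [Int.cast_natCast] at h4
    rw [h4]
    push_cast
    ring
  calc _ ≤ ((Finset.Icc (-⌊δ * p⌋) ⌊δ * p⌋).card : ℝ) := by exact_mod_cast h1
    _ = 2 * (⌊δ * p⌋ : ℝ) + 1 := h3
    _ ≤ 2 * (δ * p) + 1 := by
        have := Int.floor_le (δ * p)
        linarith

open Classical in
theorem card_coord (Q : ZMod p → Prop) :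
    (Finset.univ.filter fun b : Fin 4 → ZMod p => Q (b 3)).card = p ^ 3 * (Finset.univ.filter Q).card := by
  have h1 : (Finset.univ.filter fun b : Fin 4 → ZMod p => Q (b 3))
      = Fintype.piFinset (fun i : Fin 4 => if i = 3 then Finset.univ.filter Q else Finset.univ) := by
    ext b
    rw [Finset.mem_filter, Fintype.mem_piFinset]
    constructor
    · rintro ⟨_, h⟩ i
      split_ifs with hi
      · subst hi
        simpa using h
      · exact Finset.mem_univ _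
    · intro h
      refine ⟨Finset.mem_univ _, ?_⟩
      have := h 3
      rw [if_pos rfl, Finset.mem_filter] at this
      exact this.2
  rw [h1, Fintype.card_piFinset, Fin.prod_univ_four]
  simp only [Fin.isValue, Fin.reduceEq, if_false, if_true, Finset.card_univ, ZMod.card]
  ring

end

theorem bad_card (p : ℕ) [Fact p.Prime] (L : List (ℤ × Bool)) (N : ℤ) (hN : N ≠ 0) (hNp : |N| < p) (δ : ℝ)
    (hδ : 0 ≤ δ) (h : ∀ b ∈ bad p L, ‖N • tc b 3‖ ≤ δ) :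
    ((bad p L).card : ℝ) ≤ (p : ℝ) ^ 3 * (2 * (δ * p) + 1) := by
  classical
  have hN' : (N : ZMod p) ≠ 0 := by
    intro h0
    rw [ZMod.intCast_zmod_eq_zero_iff_dvd] at h0
    have := Int.le_of_dvd (abs_pos.mpr hN) ((dvd_abs _ _).mpr h0)
    omega
  have h1 : bad p L ⊆ Finset.univ.filter fun b : Fin 4 → ZMod p => ‖N • (ZMod.toAddCircle (b 3) : UnitAddCircle)‖ ≤ δ := by
    intro b hb
    rw [Finset.mem_filter]
    exact ⟨Finset.mem_univ _, h b hb⟩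
  have h2 := card_coord (p := p) (fun z => ‖N • (ZMod.toAddCircle z : UnitAddCircle)‖ ≤ δ)
  have h3 : (Finset.univ.filter fun z : ZMod p => ‖N • (ZMod.toAddCircle z : UnitAddCircle)‖ ≤ δ).card
      ≤ (Finset.univ.filter fun z : ZMod p => ‖(ZMod.toAddCircle z : UnitAddCircle)‖ ≤ δ).card := by
    refine Finset.card_le_card_of_injOn (fun z => (N : ZMod p) * z) ?_ ?_
    · intro z hz
      simp only [Finset.coe_filter, Finset.mem_univ, true_and, Set.mem_ofPred_eq] at hz ⊢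
      rw [← map_zsmul, zsmul_eq_mul] at hz
      exact hz
    · intro x _ y _ hxy
      exact mul_left_cancel₀ hN' hxy
  have h4 := count_small (p := p) δ hδ
  calc ((bad p L).card : ℝ) ≤ ((Finset.univ.filter fun b : Fin 4 → ZMod p =>
        ‖N • (ZMod.toAddCircle (b 3) : UnitAddCircle)‖ ≤ δ).card : ℝ) := by exact_mod_cast Finset.card_le_card h1
    _ = (p : ℝ) ^ 3 * ((Finset.univ.filter fun z : ZMod p => ‖N • (ZMod.toAddCircle z : UnitAddCircle)‖ ≤ δ).card : ℝ) := by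
        rw [h2]; push_cast; rfl
    _ ≤ (p : ℝ) ^ 3 * ((Finset.univ.filter fun z : ZMod p => ‖(ZMod.toAddCircle z : UnitAddCircle)‖ ≤ δ).card : ℝ) := by
        gcongr
    _ ≤ _ := by gcongr

theorem Sm_zero (d1 d2 : ℤ) (hd1 : d1 ≠ 0) (hd2 : d2 ≠ 0) : ∃ M : ℝ, 0 ≤ M ∧ ∀ d3 : ℤ, 2 * M < |(d3 : ℝ)| →
    ∀ ε : ℝ, 2 * (M / |(d3 : ℝ)|) < ε → ∃ K : ℕ, ∀ d4 : ℤ, (K : ℤ) < |d4| → Sm 0 (L4 d1 d2 d3 d4) ε := by
  obtain ⟨M, hM0, hM⟩ := SS_subset d1 d2
  refine ⟨M, hM0, fun d3 hd3 ε hε => ?_⟩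
  obtain ⟨M', hM'0, hM'⟩ := four_subset_abs d1 d2 d3
  obtain ⟨K, hK⟩ := exists_nat_gt M'
  refine ⟨K, fun d4 hd4 => ?_⟩
  obtain ⟨M1, hM10, hM1⟩ := thL_bound (dL d4 (dL d3 (dL d2 (dL d1 L0))))
  obtain ⟨P1, hP1⟩ := exists_nat_gt (6 * M1)
  obtain ⟨P2, hP2⟩ := exists_nat_gt (1 / (ε - 2 * (M / |(d3 : ℝ)|)))
  have hN : (12 * d1 * d2 : ℤ) ≠ 0 := by positivity
  have hpos : 0 < ε - 2 * (M / |(d3 : ℝ)|) := by linarith
  refine ⟨max (max P1 P2) (12 * d1 * d2).natAbs, fun p hpp hp => ?_⟩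
  have hp1 : P1 < p := lt_of_le_of_lt ((le_max_left _ _).trans (le_max_left _ _)) hp
  have hp2 : P2 < p := lt_of_le_of_lt ((le_max_right _ _).trans (le_max_left _ _)) hp
  have hp3 : (12 * d1 * d2).natAbs < p := lt_of_le_of_lt (le_max_right _ _) hp
  have hp0 : (0 : ℝ) < p := p_pos
  have hNp : |12 * d1 * d2| < (p : ℤ) := by
    rw [Int.abs_eq_natAbs]
    exact_mod_cast hp3
  have hd4' : M' < |(d4 : ℝ)| := by
    have : ((K : ℤ) : ℝ) < ((|d4| : ℤ) : ℝ) := by exact_mod_cast hd4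
    push_cast at this
    linarith
  have hbad : ∀ b ∈ bad p (L4 d1 d2 d3 d4), ‖(12 * d1 * d2) • tc b 3‖ ≤ M / |(d3 : ℝ)| := by
    intro b hb
    apply hM d3 hd3
    apply hM' d4 hd4'
    rw [← sgs_L4]
    rw [bad, Finset.mem_filter] at hb
    ext i
    rw [Pi.zero_apply]
    have h1 := hb.2 i
    have h2 : ((kap (L4 d1 d2 d3 d4) b i : ℤ) : ℝ) = -thL (dL d4 (dL d3 (dL d2 (dL d1 L0)))) (tc b) i := by
      rw [kap, sgs_L4]
      exact NN_L4 d1 d2 d3 d4 (tc b) i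
    have h3 : |((6 * kap (L4 d1 d2 d3 d4) b i : ℤ) : ℝ)| < p := by
      push_cast
      rw [h2, abs_mul, abs_neg, abs_of_pos (by norm_num : (0 : ℝ) < 6)]
      have h4 := hM1 (tc b) i
      have h5 : (P1 : ℝ) < p := by exact_mod_cast hp1
      linarith
    have h4 : |6 * kap (L4 d1 d2 d3 d4) b i| < (p : ℤ) := by exact_mod_cast h3
    have h5 := Int.eq_zero_of_abs_lt_dvd h1 h4
    have h6 : kap (L4 d1 d2 d3 d4) b i = 0 := by omega
    exact h6
  have h7 := bad_card p (L4 d1 d2 d3 d4) (12 * d1 * d2) hN hNp (M / |(d3 : ℝ)|) (by positivity) hbad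
  refine (Ph_zero_le d1 d2 d3 d4).trans ?_
  rw [div_le_iff₀ (by positivity)]
  refine h7.trans ?_
  have h8 : 1 ≤ (ε - 2 * (M / |(d3 : ℝ)|)) * p := by
    have h9 : (P2 : ℝ) < p := by exact_mod_cast hp2
    rw [div_lt_iff₀ hpos] at hP2
    nlinarith
  have h10 : (p : ℝ) ^ 4 = (p : ℝ) ^ 3 * p := by ring
  rw [h10]
  have h11 : 2 * (M / |(d3 : ℝ)| * p) + 1 ≤ ε * p := by nlinarith
  calc (p : ℝ) ^ 3 * (2 * (M / |(d3 : ℝ)| * p) + 1) ≤ (p : ℝ) ^ 3 * (ε * p) := by gcongr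
    _ = _ := by ring

theorem Sm_four (ε : ℝ) (hε : 0 < ε) : Sm 4 L0 ε := by
  -- one difference
  have h1 : ∀ d1 d2 : ℤ, d1 ≠ 0 → d2 ≠ 0 → ∀ ε : ℝ, 0 < ε → ∃ K : ℕ, ∀ d3 : ℤ, (K : ℤ) < |d3| →
      Sm 1 (dLr d3 (dLr d2 (dLr d1 L0))) ε := by
    intro d1 d2 hd1 hd2 ε hε
    obtain ⟨M, hM0, hM⟩ := Sm_zero d1 d2 hd1 hd2
    obtain ⟨K1, hK1⟩ := exists_nat_gt (2 * M)
    obtain ⟨K2, hK2⟩ := exists_nat_gt (4 * M / ε)
    refine ⟨max K1 K2, fun d3 hd3 => ?_⟩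
    have h2 : 2 * M < |(d3 : ℝ)| := by
      have : ((K1 : ℤ) : ℝ) < ((|d3| : ℤ) : ℝ) := by
        have : (K1 : ℤ) < |d3| := by
          have : ((max K1 K2 : ℕ) : ℤ) < |d3| := hd3
          have := le_max_left K1 K2
          omega
        exact_mod_cast this
      push_cast at this
      linarith
    have h3 : 4 * M / ε < |(d3 : ℝ)| := by
      have : ((K2 : ℤ) : ℝ) < ((|d3| : ℤ) : ℝ) := by
        have : (K2 : ℤ) < |d3| := by
          have : ((max K1 K2 : ℕ) : ℤ) < |d3| := hd3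
          have := le_max_right K1 K2
          omega
        exact_mod_cast this
      push_cast at this
      linarith
    have hd0 : 0 < |(d3 : ℝ)| := by linarith
    have h4 : 2 * (M / |(d3 : ℝ)|) < ε / 2 := by
      rw [div_lt_iff₀ hε] at h3
      rw [← mul_div_assoc, div_lt_iff₀ hd0]
      linarith
    obtain ⟨K, hK⟩ := hM d3 h2 (3 * ε / 4) (by linarith)
    exact Sm_step 0 _ (3 * ε / 4) (by positivity) K hK ε (by linarith)
  -- two differences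
  have h2 : ∀ d1 d2 : ℤ, d1 ≠ 0 → d2 ≠ 0 → ∀ ε : ℝ, 0 < ε → Sm 2 (dLr d2 (dLr d1 L0)) ε := by
    intro d1 d2 hd1 hd2 ε hε
    obtain ⟨K, hK⟩ := h1 d1 d2 hd1 hd2 (ε / 2) (by positivity)
    exact Sm_step 1 _ (ε / 2) (by positivity) K hK ε (by linarith)
  have h3 : ∀ d1 : ℤ, d1 ≠ 0 → ∀ ε : ℝ, 0 < ε → Sm 3 (dLr d1 L0) ε := by
    intro d1 hd1 ε hε
    refine Sm_step 2 _ (ε / 2) (by positivity) 0 (fun d hd => ?_) ε (by linarith)
    exact h2 d1 d hd1 (by intro h0; rw [h0] at hd; simp at hd) (ε / 2) (by positivity)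
  refine Sm_step 3 _ (ε / 2) (by positivity) 0 (fun d hd => ?_) ε (by linarith)
  exact h3 d (by intro h0; rw [h0] at hd; simp at hd) (ε / 2) (by positivity)

end Pool.Agent.H767R2
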