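import Mathlib
import Pool.Agent.H767R2.FpCount

set_option autoImplicit false
set_option linter.unusedSectionVars false

/-!
# The counting operator is bounded below on average
-/

namespace Pool.Agent.H767R2

open Finset Polynomial

section

variable {p : ℕ} [NeZero p]

open Classical in
theorem count_EE (Y : ℤ) :
    cc * (p : ℝ) ^ 4 ≤ ((Finset.univ.filter fun b : Fin 4 → ZMod p => tc b ∈ EE Y).card : ℝ) := by
  have hp0 : (0 : ℝ) < p := p_pos
  set S := Fintype.piFinset fun _ : Fin 8 × Fin 4 => Finset.Icc (-1000 : ℤ) 1000 with hS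
  set q : (Fin 4 → ZMod p) → Fin 8 × Fin 4 → ℤ := fun b r => ⌊2000 * rho (sh4 (tau Y r.1) (tc b) r.2)⌋ with hq
  have hqS : ∀ b, q b ∈ S := by
    intro b
    rw [hS, Fintype.mem_piFinset]
    intro r
    have h1 := abs_rho_le (sh4 (tau Y r.1) (tc b) r.2)
    rw [abs_le] at h1
    rw [Finset.mem_Icc]
    constructor
    · refine Int.le_floor.mpr ?_
      push_cast
      linarith [h1.1]
    · have : (⌊2000 * rho (sh4 (tau Y r.1) (tc b) r.2)⌋ : ℝ) ≤ 1000 := (Int.floor_le _).trans (by linarith [h1.2])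
      exact_mod_cast this
  have hcard : 0 < S.card := Finset.card_pos.mpr ⟨fun _ => 0, by simp [hS]⟩
  have hcc : cc = ((S.card : ℝ))⁻¹ := rfl
  clear_value S q
  obtain ⟨s, hs, hsm⟩ : ∃ s ∈ S, cc * (p : ℝ) ^ 4 ≤ ((Finset.univ.filter fun b => q b = s).card : ℝ) := by
    refine Finset.exists_le_of_sum_le (Finset.card_pos.mp hcard) ?_
    have h3 : ∑ _s ∈ S, cc * (p : ℝ) ^ 4 = (p : ℝ) ^ 4 := by
      rw [Finset.sum_const, nsmul_eq_mul, hcc, ← mul_assoc, mul_inv_cancel₀ (by exact_mod_cast hcard.ne'), one_mul]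
    rw [h3, ← card_four (p := p), ← Finset.card_univ]
    have h4 := Finset.card_eq_sum_card_fiberwise (f := q) (s := (Finset.univ : Finset (Fin 4 → ZMod p))) (t := S)
      (fun b _ => hqS b)
    rw [h4]
    push_cast
    exact le_rfl
  have hne : (Finset.univ.filter fun b => q b = s).Nonempty := by
    rw [← Finset.card_pos]
    have h1 : 0 < cc * (p : ℝ) ^ 4 := mul_pos cc_pos (by positivity)
    exact_mod_cast lt_of_lt_of_le h1 hsm
  obtain ⟨b0, hb0⟩ := hne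
  rw [Finset.mem_filter] at hb0
  refine hsm.trans ?_
  have h5 : (Finset.univ.filter fun b => q b = s).card ≤ (Finset.univ.filter fun b : Fin 4 → ZMod p => tc b ∈ EE Y).card := by
    refine Finset.card_le_card_of_injOn (fun b => b - b0) ?_ ?_
    · intro b hb
      simp only [Finset.coe_filter, Finset.mem_univ, true_and, Set.mem_ofPred_eq] at hb ⊢
      rw [tc_sub]
      intro j k
      rw [sh4_sub, Pi.sub_apply]
      refine rho_sub_small _ _ ?_
      have h6 : q b = q b0 := by rw [hb, hb0.2]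
      have h7 := congrFun h6 (j, k)
      simpa only [hq] using h7
    · intro x _ y _ hxy
      exact sub_left_injective hxy
  exact_mod_cast h5

theorem prog_eval (Y : ℤ) (j : Fin 8) : (prog pf j).eval Y = tau Y j := by
  refine Fin.cases ?_ (fun i => ?_) j
  · simp [prog, tau]
  · rw [prog, Fin.cons_succ, pf_eval]
    fin_cases i <;> simp [pe, tau]

open Classical in
/-- the value of the counting operator -/
noncomputable def lm (b : Fin 4 → ZMod p) : ℝ :=
  (1 / (p : ℝ) ^ 2) * ∑ x : ZMod p, ∑ y : ZMod p, if sh4 ((x.val : ℕ) : ℤ) (tc b) ∈ EE ((y.val : ℕ) : ℤ) then 1 else 0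

theorem Lam_gj (a b : Fin 4 → ZMod p) : Lam p pf (fun j => gj j a b) = (lm b : ℂ) := by
  classical
  rw [Lam, lm]
  push_cast
  congr 1
  refine Finset.sum_congr rfl fun x _ => Finset.sum_congr rfl fun y _ => ?_
  have hx : x = (((x.val : ℕ) : ℤ) : ZMod p) := by rw [Int.cast_natCast, ZMod.natCast_zmod_val]
  have hy : y = (((y.val : ℕ) : ℤ) : ZMod p) := by rw [Int.cast_natCast, ZMod.natCast_zmod_val]
  have h1 : ∀ j, gj j a b (x + ((prog pf j).map (Int.castRingHom (ZMod p))).eval y)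
      = GG j a b (((x.val : ℕ) : ℤ) + tau ((y.val : ℕ) : ℤ) j) := by
    intro j
    rw [← gj_cast]
    congr 1
    push_cast
    rw [ZMod.natCast_zmod_val]
    congr 1
    have h2 : ((prog pf j).map (Int.castRingHom (ZMod p))).eval (((((y.val : ℕ) : ℤ) : ZMod p)))
        = (((prog pf j).eval ((y.val : ℕ) : ℤ) : ℤ) : ZMod p) := by
      rw [Polynomial.eval_intCast_map]
      simp
    rw [← hy, prog_eval] at h2
    exact h2
  simp_rw [h1]
  rw [prod_GG, Set.indicator_apply]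
  split_ifs <;> simp

theorem lm_nonneg (b : Fin 4 → ZMod p) : 0 ≤ lm b := by
  rw [lm]
  refine mul_nonneg (by positivity) (Finset.sum_nonneg fun x _ => Finset.sum_nonneg fun y _ => ?_)
  split_ifs <;> norm_num

theorem lm_le_one (b : Fin 4 → ZMod p) : lm b ≤ 1 := by
  classical
  have hp0 : (0 : ℝ) < p := p_pos
  rw [lm, div_mul_eq_mul_div, one_mul, div_le_one (by positivity)]
  calc _ ≤ ∑ _x : ZMod p, ∑ _y : ZMod p, (1 : ℝ) := by
        refine Finset.sum_le_sum fun x _ => Finset.sum_le_sum fun y _ => ?_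
        split_ifs <;> norm_num
    _ = (p : ℝ) ^ 2 := by
        rw [Finset.sum_const, Finset.sum_const, nsmul_eq_mul, nsmul_eq_mul, Finset.card_univ, ZMod.card]
        ring

theorem sum_lm : cc * (p : ℝ) ^ 4 ≤ ∑ b : Fin 4 → ZMod p, lm b := by
  classical
  have hp0 : (0 : ℝ) < p := p_pos
  simp only [lm]
  rw [← Finset.mul_sum]
  have h1 : ∑ b : Fin 4 → ZMod p, ∑ x : ZMod p, ∑ y : ZMod p,
      (if sh4 ((x.val : ℕ) : ℤ) (tc b) ∈ EE ((y.val : ℕ) : ℤ) then (1 : ℝ) else 0)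
      = ∑ x : ZMod p, ∑ y : ZMod p, ∑ b : Fin 4 → ZMod p,
      (if sh4 ((x.val : ℕ) : ℤ) (tc b) ∈ EE ((y.val : ℕ) : ℤ) then (1 : ℝ) else 0) := by
    rw [Finset.sum_comm]
    refine Finset.sum_congr rfl fun x _ => ?_
    rw [Finset.sum_comm]
  have h2 : ∀ x y : ZMod p, ∑ b : Fin 4 → ZMod p,
      (if sh4 ((x.val : ℕ) : ℤ) (tc b) ∈ EE ((y.val : ℕ) : ℤ) then (1 : ℝ) else 0)
      = ((Finset.univ.filter fun b : Fin 4 → ZMod p => tc b ∈ EE ((y.val : ℕ) : ℤ)).card : ℝ) := by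
    intro x y
    have h3 : ((Finset.univ.filter fun b : Fin 4 → ZMod p => tc b ∈ EE ((y.val : ℕ) : ℤ)).card : ℝ)
        = ∑ b : Fin 4 → ZMod p, (if tc b ∈ EE ((y.val : ℕ) : ℤ) then (1 : ℝ) else 0) := by
      rw [Finset.sum_boole]
    rw [h3, ← Equiv.sum_comp (sh4E (p := p) (x.val : ℤ))
      (fun b => if tc b ∈ EE ((y.val : ℕ) : ℤ) then (1 : ℝ) else 0)]
    refine Finset.sum_congr rfl fun b _ => ?_
    rw [sh4_tc]
    rfl
  rw [h1]
  simp_rw [h2]
  have h4 : ∑ _x : ZMod p, ∑ _y : ZMod p, cc * (p : ℝ) ^ 4 ≤ ∑ _x : ZMod p, ∑ y : ZMod p,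
      ((Finset.univ.filter fun b : Fin 4 → ZMod p => tc b ∈ EE ((y.val : ℕ) : ℤ)).card : ℝ) :=
    Finset.sum_le_sum fun x _ => Finset.sum_le_sum fun y _ => count_EE _
  have h5 : ∑ _x : ZMod p, ∑ _y : ZMod p, cc * (p : ℝ) ^ 4 = (p : ℝ) ^ 2 * (cc * (p : ℝ) ^ 4) := by
    rw [Finset.sum_const, Finset.sum_const, nsmul_eq_mul, nsmul_eq_mul, Finset.card_univ, ZMod.card]
    ring
  rw [h5] at h4
  calc cc * (p : ℝ) ^ 4 = (1 / (p : ℝ) ^ 2) * ((p : ℝ) ^ 2 * (cc * (p : ℝ) ^ 4)) := by field_simp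
    _ ≤ _ := by gcongr

end

/-- for all large primes: small `U⁴` norm but large counting operator -/
theorem fp_main (δ : ℝ) (hδ : 0 < δ) : ∃ P0 : ℕ, ∀ (p : ℕ) [Fact p.Prime], P0 < p →
    ∃ a b : Fin 4 → ZMod p, cc / 2 ≤ ‖Lam p pf (fun j => gj j a b)‖ ∧ gowersNorm p 4 (gj 4 a b) < δ := by
  have hcc := cc_pos
  set η : ℝ := cc * δ ^ 16 / 8 with hη
  have hη0 : 0 < η := by positivity
  obtain ⟨P0, hP0⟩ := Sm_four η hη0
  refine ⟨P0, fun p _ hp => ?_⟩
  have hp0 : (0 : ℝ) < p := p_pos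
  have h1 := hP0 p hp
  rw [Ph, div_mul_eq_mul_div, one_mul, div_le_iff₀ (by positivity)] at h1
  simp only [PL_L0] at h1
  have h2 : ∑ _a : Fin 4 → ZMod p, cc * (p : ℝ) ^ 4 ≤ ∑ _a : Fin 4 → ZMod p, ∑ b : Fin 4 → ZMod p, lm b :=
    Finset.sum_le_sum fun a _ => sum_lm
  rw [Finset.sum_const, nsmul_eq_mul, Finset.card_univ, card_four] at h2
  have hu : ∀ a b : Fin 4 → ZMod p, 0 ≤ (gp 4 (gj 4 a b)).re := by
    intro a b
    rw [← norm_gp_succ 3]
    exact norm_nonneg _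
  -- choose the parameters
  obtain ⟨ab, _, hab⟩ : ∃ ab ∈ (Finset.univ : Finset ((Fin 4 → ZMod p) × (Fin 4 → ZMod p))),
      3 * cc / 4 ≤ lm ab.2 - (cc / (4 * η)) * (gp 4 (gj 4 ab.1 ab.2)).re := by
    refine Finset.exists_le_of_sum_le Finset.univ_nonempty ?_
    rw [Finset.sum_const, nsmul_eq_mul, Finset.card_univ, Fintype.card_prod, Finset.sum_sub_distrib, ← Finset.mul_sum,
      Fintype.sum_prod_type, Fintype.sum_prod_type]
    push_cast
    rw [card_four]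
    have h3 : (cc / (4 * η)) * ∑ a : Fin 4 → ZMod p, ∑ b : Fin 4 → ZMod p, (gp 4 (gj 4 a b)).re
        ≤ (cc / (4 * η)) * (η * (p : ℝ) ^ 8) := by
      gcongr
    have h4 : (cc / (4 * η)) * (η * (p : ℝ) ^ 8) = cc / 4 * (p : ℝ) ^ 8 := by
      field_simp
    have h5 : (p : ℝ) ^ 4 * (p : ℝ) ^ 4 = (p : ℝ) ^ 8 := by ring
    have h6 : (p : ℝ) ^ 4 * (cc * (p : ℝ) ^ 4) = cc * (p : ℝ) ^ 8 := by ring
    rw [h6] at h2
    rw [h5]
    linarith
  obtain ⟨a, b⟩ := ab
  simp only at hab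
  have hu' := hu a b
  have hlm1 := lm_le_one b
  have hq : 0 < cc / (4 * η) := by positivity
  refine ⟨a, b, ?_, ?_⟩
  · rw [Lam_gj, Complex.norm_real, Real.norm_of_nonneg (lm_nonneg b)]
    have := mul_nonneg hq.le hu'
    linarith
  · have h7 : (cc / (4 * η)) * (gp 4 (gj 4 a b)).re ≤ 1 := by linarith
    have h8 : (gp 4 (gj 4 a b)).re ≤ δ ^ 16 / 2 := by
      rw [div_mul_eq_mul_div, div_le_one (by positivity)] at h7
      have h9 : 4 * η = cc * (δ ^ 16 / 2) := by rw [hη]; ring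
      rw [h9] at h7
      exact le_of_mul_le_mul_left h7 hcc
    rw [gowersNorm, gowersPow_eq_gp, norm_gp_succ 3]
    have h10 : (gp 4 (gj 4 a b)).re < δ ^ 16 := by
      have : 0 < δ ^ 16 := by positivity
      linarith
    calc (gp 4 (gj 4 a b)).re ^ ((1 : ℝ) / 2 ^ 4) < (δ ^ 16) ^ ((1 : ℝ) / 2 ^ 4) :=
          Real.rpow_lt_rpow hu' h10 (by positivity)
      _ = δ := by
          rw [← Real.rpow_natCast, ← Real.rpow_mul hδ.le]
          norm_num

theorem gowersNorm_le_four {p : ℕ} [NeZero p] (f : ZMod p → ℂ) (s : ℕ) (hs : s ≤ 3) :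
    gowersNorm p (s + 1) f ≤ gowersNorm p 4 f := by
  have h1 : Monotone fun k => gowersNorm p k f := monotone_nat_of_le_succ fun k => gowersNorm_mono k f
  exact h1 (by omega : s + 1 ≤ 4)

end Pool.Agent.H767R2
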